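import Mathlib
import Pool.Agent.Helper16.BicG.Pencil

/-!
Presentation spaces of projective modules, their rigid points and slope stability.
-/

universe u

namespace BT

open Module Function

section defs

variable {k A : Type u} [Field k] [Ring A] [Algebra k A]
variable {P Q X Y Z : Type u}
variable [AddCommGroup P] [Module A P] [AddCommGroup Q] [Module A Q]
variable [AddCommGroup X] [Module A X] [Module k X] [IsScalarTower k A X]
variable [AddCommGroup Y] [Module A Y] [Module k Y] [IsScalarTower k A Y]
variable [AddCommGroup Z] [Module A Z] [Module k Z] [IsScalarTower k A Z]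

/-- precomposition with `f` -/
def pre (k : Type u) [Field k] [Algebra k A] (f : P →ₗ[A] Q) (X : Type u) [AddCommGroup X]
    [Module A X] [Module k X] [IsScalarTower k A X] : (Q →ₗ[A] X) →ₗ[k] (P →ₗ[A] X) where
  toFun h := h ∘ₗ f
  map_add' _ _ := rfl
  map_smul' _ _ := rfl

/-- postcomposition with `f` -/
def post (k : Type u) [Field k] [Algebra k A] (P : Type u) [AddCommGroup P] [Module A P]
    {X Y : Type u} [AddCommGroup X] [Module A X] [Module k X] [IsScalarTower k A X]
    [AddCommGroup Y] [Module A Y] [Module k Y] [IsScalarTower k A Y]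
    (f : X →ₗ[A] Y) : (P →ₗ[A] X) →ₗ[k] (P →ₗ[A] Y) where
  toFun h := f ∘ₗ h
  map_add' h h' := by
    ext x
    exact map_add f (h x) (h' x)
  map_smul' c h := by
    ext x
    change f (c • h x) = c • f (h x)
    rw [← algebraMap_smul A c (h x), map_smul, algebraMap_smul]

@[simp] theorem pre_apply (f : P →ₗ[A] Q) (h : Q →ₗ[A] X) : pre k f X h = h ∘ₗ f := rfl
@[simp] theorem post_apply (f : X →ₗ[A] Y) (h : P →ₗ[A] X) : post k P f h = f ∘ₗ h := rfl

/-- `f` is a rigid point of its presentation space -/
def Rigid (f : P →ₗ[A] Q) : Prop :=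
  ∀ g : P →ₗ[A] Q, ∃ (u : Q →ₗ[A] Q) (v : P →ₗ[A] P), g = u ∘ₗ f + f ∘ₗ v

/-- dimension of the Hom space -/
noncomputable def hd (k : Type u) [Field k] (A : Type u) [Ring A] [Algebra k A] (P X : Type u)
    [AddCommGroup P] [Module A P] [AddCommGroup X] [Module A X] [Module k X]
    [IsScalarTower k A X] : ℕ := finrank k (P →ₗ[A] X)

/-- the weight of a presentation space -/
noncomputable def Th (k : Type u) [Field k] (A : Type u) [Ring A] [Algebra k A] (P Q X : Type u)
    [AddCommGroup P] [Module A P] [AddCommGroup Q] [Module A Q]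
    [AddCommGroup X] [Module A X] [Module k X] [IsScalarTower k A X] : ℤ :=
  (hd k A Q X : ℤ) - (hd k A P X : ℤ)

theorem finite_hom [Module k P] [IsScalarTower k A P] [Module.Finite k P] [Module.Finite k X] :
    Module.Finite k (P →ₗ[A] X) := by
  let r : (P →ₗ[A] X) →ₗ[k] (P →ₗ[k] X) :=
    { toFun := fun f => f.restrictScalars k
      map_add' := fun _ _ => rfl
      map_smul' := fun _ _ => rfl }
  exact Module.Finite.of_injective r (fun f g h => by
    ext x
    exact LinearMap.congr_fun h x)

/-- additivity of Hom dimensions -/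
theorem hd_ses [Module.Projective A P] [Module k P] [IsScalarTower k A P] [Module.Finite k P]
    [Module.Finite k Y] (i : X →ₗ[A] Y) (p : Y →ₗ[A] Z) (hi : Injective i)
    (hp : Surjective p) (hex : LinearMap.range i = LinearMap.ker p) :
    hd k A P Y = hd k A P X + hd k A P Z := by
  have _ := finite_hom (k := k) (A := A) (P := P) (X := Y)
  have h1 := LinearMap.finrank_range_add_finrank_ker (post k P p)
  have h2 : LinearMap.range (post k P p) = ⊤ := by
    rw [LinearMap.range_eq_top]
    intro h
    exact Module.projective_lifting_property p h hp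
  have h3 : LinearMap.ker (post k P p) = LinearMap.range (post k P i) := by
    ext h
    rw [LinearMap.mem_ker, LinearMap.mem_range]
    constructor
    · intro hh
      have h4 : ∀ x, h x ∈ LinearMap.range i := by
        intro x
        rw [hex, LinearMap.mem_ker]
        exact LinearMap.congr_fun hh x
      let e := LinearEquiv.ofInjective i hi
      refine ⟨e.symm.toLinearMap ∘ₗ (h.codRestrict _ h4), ?_⟩
      ext x
      change i (e.symm ⟨h x, h4 x⟩) = h x
      have := e.apply_symm_apply ⟨h x, h4 x⟩
      exact congrArg Subtype.val this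
    · rintro ⟨g, rfl⟩
      ext x
      change p (i (g x)) = 0
      have : i (g x) ∈ LinearMap.ker p := hex ▸ LinearMap.mem_range_self i (g x)
      exact this
  have h5 : Injective (post k P i) := by
    intro g g' h
    ext x
    exact hi (LinearMap.congr_fun h x)
  rw [h2, finrank_top, h3, LinearMap.finrank_range_of_inj h5] at h1
  rw [hd, hd, hd, ← h1, add_comm]

theorem dim_ses [Module.Finite k Y] (i : X →ₗ[A] Y) (p : Y →ₗ[A] Z) (hi : Injective i)
    (hp : Surjective p) (hex : LinearMap.range i = LinearMap.ker p) :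
    finrank k Y = finrank k X + finrank k Z := by
  have h1 := LinearMap.finrank_range_add_finrank_ker (p.restrictScalars k)
  have h2 : LinearMap.range (p.restrictScalars k) = ⊤ := by
    rw [LinearMap.range_eq_top]
    exact hp
  have h3 : LinearMap.ker (p.restrictScalars k) = LinearMap.range (i.restrictScalars k) := by
    ext x
    have h4 : x ∈ LinearMap.ker p ↔ x ∈ LinearMap.range i := by rw [hex]
    rw [LinearMap.mem_ker, LinearMap.mem_range] at h4 ⊢
    exact h4
  have h5 : finrank k (LinearMap.range (i.restrictScalars k)) = finrank k X :=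
    LinearMap.finrank_range_of_inj hi
  rw [h2, finrank_top, h3, h5] at h1
  omega

theorem Th_ses [Module.Projective A P] [Module k P] [IsScalarTower k A P] [Module.Finite k P]
    [Module.Projective A Q] [Module k Q] [IsScalarTower k A Q] [Module.Finite k Q]
    [Module.Finite k Y] (i : X →ₗ[A] Y) (p : Y →ₗ[A] Z) (hi : Injective i)
    (hp : Surjective p) (hex : LinearMap.range i = LinearMap.ker p) :
    Th k A P Q Y = Th k A P Q X + Th k A P Q Z := by
  rw [Th, Th, Th, hd_ses i p hi hp hex, hd_ses i p hi hp hex]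
  push_cast
  ring

/-- an `A`-linear equivalence is `k`-linear -/
def toK (k : Type u) [Field k] [Algebra k A] [Module k X] [IsScalarTower k A X] [Module k Y]
    [IsScalarTower k A Y] (e : X ≃ₗ[A] Y) : X ≃ₗ[k] Y := e.restrictScalars k

theorem dim_congr (e : X ≃ₗ[A] Y) : finrank k X = finrank k Y :=
  (toK k e).finrank_eq

theorem hd_congr (e : X ≃ₗ[A] Y) : hd k A P X = hd k A P Y := by
  let r : (P →ₗ[A] X) ≃ₗ[k] (P →ₗ[A] Y) :=
    { post k P e.toLinearMap with
      invFun := fun h => e.symm.toLinearMap ∘ₗ h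
      left_inv := fun h => by
        ext x
        change e.symm (e (h x)) = h x
        exact e.symm_apply_apply _
      right_inv := fun h => by
        ext x
        change e (e.symm (h x)) = h x
        exact e.apply_symm_apply _ }
  exact r.finrank_eq

theorem Th_congr (e : X ≃ₗ[A] Y) : Th k A P Q X = Th k A P Q Y := by
  rw [Th, Th, hd_congr e, hd_congr e]

/-- slope stability: all proper nonzero submodules have strictly smaller slope -/
def Stab (k : Type u) [Field k] (A : Type u) [Ring A] [Algebra k A] (P Q X : Type u)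
    [AddCommGroup P] [Module A P] [AddCommGroup Q] [Module A Q]
    [AddCommGroup X] [Module A X] [Module k X] [IsScalarTower k A X] : Prop :=
  ∀ U : Submodule A X, U ≠ ⊥ → U ≠ ⊤ →
    Th k A P Q U * (finrank k X : ℤ) < Th k A P Q X * (finrank k U : ℤ)

end defs

section rank

theorem rank_lemma {K V W : Type u} [Field K] [Infinite K] [AddCommGroup V] [Module K V]
    [Module.Finite K V] [AddCommGroup W] [Module K W] [Module.Finite K W] (F G : V →ₗ[K] W)
    (h : ∀ c : K, finrank K (LinearMap.range (F + c • G)) ≤ finrank K (LinearMap.range F))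
    (v : V) (hv : F v = 0) : G v ∈ LinearMap.range F := by
  classical
  by_contra hcon
  let F' : (V × K) →ₗ[K] W := F.coprod (LinearMap.toSpanSingleton K W (G v))
  let G' : (V × K) →ₗ[K] W := G ∘ₗ LinearMap.fst K V K
  have hfin := BicG.pencil F' G'
  obtain ⟨c, hc⟩ := ((hfin.union (Set.finite_singleton (0 : K))).infinite_compl).nonempty
  rw [Set.mem_compl_iff, Set.mem_union, not_or, Set.mem_ofPred_eq, not_not,
    Set.mem_singleton_iff] at hc
  obtain ⟨hc1, hc0⟩ := hc
  -- the kernel of F' has the dimension of the kernel of F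
  have h1 : finrank K (LinearMap.ker F') = finrank K (LinearMap.ker F) := by
    have h2 : LinearMap.ker F' = (LinearMap.ker F).map (LinearMap.inl K V K) := by
      ext ⟨x, t⟩
      rw [LinearMap.mem_ker, Submodule.mem_map]
      constructor
      · intro h3
        have h4 : F x + t • G v = 0 := by
          simpa [F', LinearMap.coprod_apply, LinearMap.toSpanSingleton_apply] using h3
        have ht : t = 0 := by
          by_contra ht
          apply hcon
          refine ⟨-t⁻¹ • x, ?_⟩
          have h5 : F x = -(t • G v) := eq_neg_of_add_eq_zero_left h4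
          rw [map_smul, h5, smul_neg, neg_smul, neg_neg, smul_smul, inv_mul_cancel₀ ht, one_smul]
        refine ⟨x, ?_, ?_⟩
        · rw [ht, zero_smul, add_zero] at h4
          exact h4
        · rw [ht]; rfl
      · rintro ⟨y, hy, h5⟩
        have hy' : F y = 0 := hy
        rw [← h5]
        simp [F', LinearMap.coprod_apply, hy']
    rw [h2]
    exact (Submodule.equivMapOfInjective (LinearMap.inl K V K) LinearMap.inl_injective
      (LinearMap.ker F)).finrank_eq.symm
  have h6 := LinearMap.finrank_range_add_finrank_ker F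
  have h7 := LinearMap.finrank_range_add_finrank_ker (F' + c • G')
  have h8 : finrank K (V × K) = finrank K V + 1 := by
    rw [Module.finrank_prod, Module.finrank_self]
  have h9 : LinearMap.range (F' + c • G') ≤ LinearMap.range (F + c • G) := by
    rintro _ ⟨⟨x, t⟩, rfl⟩
    refine ⟨x + (c⁻¹ * t) • v, ?_⟩
    simp only [F', G', LinearMap.add_apply, LinearMap.smul_apply, LinearMap.coprod_apply,
      LinearMap.toSpanSingleton_apply, LinearMap.comp_apply, LinearMap.fst_apply, map_add,
      map_smul, hv, smul_zero, smul_add]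
    have h12 : c⁻¹ * t * c = t := by field_simp
    rw [smul_smul, h12]
    abel
  have h10 := Submodule.finrank_mono h9
  have h11 := h c
  rw [h8] at h7
  omega

end rank

section core

variable {k A : Type u} [Field k] [Ring A] [Algebra k A]
variable {P Q : Type u}
variable [AddCommGroup P] [Module A P] [Module k P] [IsScalarTower k A P] [Module.Finite k P]
variable [AddCommGroup Q] [Module A Q] [Module k Q] [IsScalarTower k A Q] [Module.Finite k Q]

/-- the lifting property of a presentation of maximal rank -/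
def Lift (f : P →ₗ[A] Q) (Y : Type u) [AddCommGroup Y] [Module A Y] : Prop :=
  ∀ (h : Q →ₗ[A] Y), h ∘ₗ f = 0 → ∀ g : P →ₗ[A] Q, ∃ ψ : Q →ₗ[A] Y, h ∘ₗ g = ψ ∘ₗ f

theorem Lift.congr {f : P →ₗ[A] Q} {Y Y' : Type u} [AddCommGroup Y] [Module A Y]
    [AddCommGroup Y'] [Module A Y'] (e : Y ≃ₗ[A] Y') (h : Lift f Y) : Lift f Y' := by
  intro h1 h2 g
  obtain ⟨ψ, hψ⟩ := h (e.symm.toLinearMap ∘ₗ h1) (by rw [LinearMap.comp_assoc, h2]; simp) g
  refine ⟨e.toLinearMap ∘ₗ ψ, ?_⟩
  ext x
  have := LinearMap.congr_fun hψ x
  change e.symm (h1 (g x)) = ψ (f x) at this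
  change h1 (g x) = e (ψ (f x))
  rw [← this, e.apply_symm_apply]

/-- a presentation of maximal rank -/
theorem exists_lift [Infinite k] {r : ℕ} (M : Fin r → Type u) [∀ j, AddCommGroup (M j)]
    [∀ j, Module A (M j)] [∀ j, Module k (M j)] [∀ j, IsScalarTower k A (M j)]
    [∀ j, Module.Finite k (M j)] :
    ∃ f : P →ₗ[A] Q, ∀ j, Lift f (M j) := by
  classical
  have _ := finite_hom (k := k) (A := A) (P := P) (X := ∀ j, M j)
  have _ := finite_hom (k := k) (A := A) (P := Q) (X := ∀ j, M j)
  obtain ⟨f, hf⟩ : ∃ f : P →ₗ[A] Q, ∀ f' : P →ₗ[A] Q,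
      finrank k (LinearMap.range (pre k f' (∀ j, M j))) ≤
        finrank k (LinearMap.range (pre k f (∀ j, M j))) := by
    let S : Set ℕ := {n | ∃ f : P →ₗ[A] Q, n = finrank k (LinearMap.range (pre k f (∀ j, M j)))}
    have hne : S.Nonempty := ⟨_, 0, rfl⟩
    have hbd : BddAbove S := by
      refine ⟨finrank k (P →ₗ[A] (∀ j, M j)), ?_⟩
      rintro n ⟨f, rfl⟩
      exact Submodule.finrank_le _
    obtain ⟨f, hf⟩ := Nat.sSup_mem hne hbd
    refine ⟨f, fun f' => ?_⟩
    rw [← hf]
    exact le_csSup hbd ⟨f', rfl⟩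
  refine ⟨f, fun j h hh g => ?_⟩
  have h1 := rank_lemma (pre k f (∀ j, M j)) (pre k g (∀ j, M j)) (fun c => by
    have h2 : pre k f (∀ j, M j) + c • pre k g (∀ j, M j) = pre k (f + c • g) (∀ j, M j) := by
      ext φ x
      change φ (f x) _ + c • φ (g x) _ = φ (f x + c • g x) _
      rw [map_add, ← algebraMap_smul A c (g x), map_smul, algebraMap_smul]
      rfl
    rw [h2]
    exact hf _) (LinearMap.single A M j ∘ₗ h) (by
      ext x
      have := LinearMap.congr_fun hh x
      change h (f x) = 0 at this
      simp [this])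
  obtain ⟨ψ, hψ⟩ := h1
  refine ⟨LinearMap.proj j ∘ₗ ψ, ?_⟩
  ext x
  have h3 := congrArg (fun z => z j) (LinearMap.congr_fun hψ x)
  change (ψ (f x)) j = (Pi.single j (h (g x)) : ∀ j, M j) j at h3
  rw [Pi.single_eq_same] at h3
  exact h3.symm

/-- a stable quotient of smaller slope -/
theorem exists_stab_quot [Module.Projective A P] [Module.Projective A Q] :
    ∀ (n : ℕ) (X : Type u) [AddCommGroup X] [Module A X] [Module k X] [IsScalarTower k A X]
      [Module.Finite k X], Nontrivial X → finrank k X = n →
    ∃ (Y : Type u) (_ : AddCommGroup Y) (_ : Module A Y) (_ : Module k Y)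
      (_ : IsScalarTower k A Y) (p : X →ₗ[A] Y), Module.Finite k Y ∧ Nontrivial Y ∧
      Surjective p ∧ Stab k A P Q Y ∧
      Th k A P Q Y * (finrank k X : ℤ) ≤ Th k A P Q X * (finrank k Y : ℤ) := by
  intro n
  induction n using Nat.strong_induction_on with
  | _ n ih =>
    intro X _ _ _ _ _ hX hn
    by_cases hS : Stab k A P Q X
    · exact ⟨X, _, _, _, inferInstance, LinearMap.id, inferInstance, hX, surjective_id, hS, le_refl _⟩
    · rw [Stab] at hS
      push Not at hS
      obtain ⟨U, hU0, hU1, hU⟩ := hS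
      have hfin : Module.Finite k U :=
        Module.Finite.of_injective (U.subtype.restrictScalars k) (Subtype.val_injective)
      have hfin' : Module.Finite k (X ⧸ U) :=
        Module.Finite.of_surjective (U.mkQ.restrictScalars k) (Submodule.mkQ_surjective U)
      have e1 := dim_ses (k := k) U.subtype U.mkQ Subtype.val_injective
        (Submodule.mkQ_surjective U) (by rw [Submodule.range_subtype, Submodule.ker_mkQ])
      have e2 := Th_ses (k := k) (P := P) (Q := Q) U.subtype U.mkQ Subtype.val_injective
        (Submodule.mkQ_surjective U) (by rw [Submodule.range_subtype, Submodule.ker_mkQ])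
      have hUn : Nontrivial U := Submodule.nontrivial_iff_ne_bot.mpr hU0
      have hQn : Nontrivial (X ⧸ U) := Submodule.Quotient.nontrivial_iff.mpr hU1
      have hUpos : 0 < finrank k U := Module.finrank_pos
      have hQpos : 0 < finrank k (X ⧸ U) := Module.finrank_pos
      obtain ⟨Y, i1, i2, i3, i4, p, hY1, hY2, hp, hY3, hY4⟩ := ih (finrank k (X ⧸ U)) (by omega)
        (X ⧸ U) hQn rfl
      refine ⟨Y, i1, i2, i3, i4, p ∘ₗ U.mkQ, hY1, hY2,
        hp.comp (Submodule.mkQ_surjective U), hY3, ?_⟩
      rw [e1]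
      rw [e1, e2] at hU
      rw [e2]
      have hYpos : 0 < finrank k Y := Module.finrank_pos
      have hu : (0 : ℤ) < (finrank k U : ℤ) := by exact_mod_cast hUpos
      have hq : (0 : ℤ) < (finrank k (X ⧸ U) : ℤ) := by exact_mod_cast hQpos
      have hy : (0 : ℤ) < (finrank k Y : ℤ) := by exact_mod_cast hYpos
      push_cast at hU ⊢
      generalize Th k A P Q U = a at *
      generalize Th k A P Q (X ⧸ U) = b at *
      generalize Th k A P Q Y = c at *
      generalize (finrank k U : ℤ) = u at *
      generalize (finrank k (X ⧸ U) : ℤ) = q at *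
      generalize (finrank k Y : ℤ) = y at *
      -- b u ≤ a q, c q ≤ b y; want c (u + q) ≤ (a + b) y
      have h1 : b * u ≤ a * q := by nlinarith
      have h2 : c * u ≤ a * y := by
        have h3 : c * u * q ≤ a * y * q := by nlinarith
        exact le_of_mul_le_mul_right h3 hq
      nlinarith

/-- a stable submodule of larger slope -/
theorem exists_stab_sub [Module.Projective A P] [Module.Projective A Q] :
    ∀ (n : ℕ) (X : Type u) [AddCommGroup X] [Module A X] [Module k X] [IsScalarTower k A X]
      [Module.Finite k X], Nontrivial X → finrank k X = n →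
    ∃ (Y : Type u) (_ : AddCommGroup Y) (_ : Module A Y) (_ : Module k Y)
      (_ : IsScalarTower k A Y) (p : Y →ₗ[A] X), Module.Finite k Y ∧ Nontrivial Y ∧
      Injective p ∧ Stab k A P Q Y ∧
      Th k A P Q X * (finrank k Y : ℤ) ≤ Th k A P Q Y * (finrank k X : ℤ) := by
  intro n
  induction n using Nat.strong_induction_on with
  | _ n ih =>
    intro X _ _ _ _ _ hX hn
    by_cases hS : Stab k A P Q X
    · exact ⟨X, _, _, _, inferInstance, LinearMap.id, inferInstance, hX, injective_id, hS, le_refl _⟩
    · rw [Stab] at hS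
      push Not at hS
      obtain ⟨U, hU0, hU1, hU⟩ := hS
      have hfin : Module.Finite k U :=
        Module.Finite.of_injective (U.subtype.restrictScalars k) (Subtype.val_injective)
      have hfin' : Module.Finite k (X ⧸ U) :=
        Module.Finite.of_surjective (U.mkQ.restrictScalars k) (Submodule.mkQ_surjective U)
      have e1 := dim_ses (k := k) U.subtype U.mkQ Subtype.val_injective
        (Submodule.mkQ_surjective U) (by rw [Submodule.range_subtype, Submodule.ker_mkQ])
      have hUn : Nontrivial U := Submodule.nontrivial_iff_ne_bot.mpr hU0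
      have hQn : Nontrivial (X ⧸ U) := Submodule.Quotient.nontrivial_iff.mpr hU1
      have hUpos : 0 < finrank k U := Module.finrank_pos
      have hQpos : 0 < finrank k (X ⧸ U) := Module.finrank_pos
      obtain ⟨Y, i1, i2, i3, i4, p, hY1, hY2, hp, hY3, hY4⟩ := ih (finrank k U) (by omega)
        U hUn rfl
      refine ⟨Y, i1, i2, i3, i4, U.subtype ∘ₗ p, hY1, hY2,
        Subtype.val_injective.comp hp, hY3, ?_⟩
      have hYpos : 0 < finrank k Y := Module.finrank_pos
      have hX0 : 0 < finrank k X := by omega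
      have hu : (0 : ℤ) < (finrank k U : ℤ) := by exact_mod_cast hUpos
      have hq : (0 : ℤ) < (finrank k X : ℤ) := by exact_mod_cast hX0
      have hy : (0 : ℤ) < (finrank k Y : ℤ) := by exact_mod_cast hYpos
      generalize Th k A P Q U = a at *
      generalize Th k A P Q X = b at *
      generalize Th k A P Q Y = c at *
      generalize (finrank k U : ℤ) = u at *
      generalize (finrank k X : ℤ) = q at *
      generalize (finrank k Y : ℤ) = y at *
      -- b u ≤ a q, a y ≤ c u; want b y ≤ c q
      have h3 : b * y * u ≤ c * q * u := by nlinarith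
      exact le_of_mul_le_mul_right h3 hu

/-- a non-rigid presentation has a quotient of its cokernel with non-degenerate obstruction -/
theorem exists_obstruction (k : Type u) [Field k] [Algebra k A] [Module k Q]
    [IsScalarTower k A Q] [Module.Finite k Q] [Module.Projective A P] [Module.Projective A Q] (f : P →ₗ[A] Q)
    (hf : ¬ Rigid f) :
    ∃ N : Submodule A Q, LinearMap.range f ≤ N ∧ N ≠ ⊤ ∧
      ∀ U : Submodule A (Q ⧸ N), U ≠ ⊥ → ∃ φ : P →ₗ[A] (Q ⧸ N), LinearMap.range φ ≤ U ∧
        ∀ ψ : Q →ₗ[A] (Q ⧸ N), φ ≠ ψ ∘ₗ f := by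
  classical
  have hnoeth : IsNoetherian A Q := by
    have h1 : IsNoetherian k Q := inferInstance
    exact isNoetherian_of_tower k h1
  let S : Set (Submodule A Q) := {N | LinearMap.range f ≤ N ∧
    ¬ ∀ φ : P →ₗ[A] (Q ⧸ N), ∃ ψ : Q →ₗ[A] (Q ⧸ N), φ = ψ ∘ₗ f}
  have hne : S.Nonempty := by
    refine ⟨LinearMap.range f, le_refl _, fun hcon => hf ?_⟩
    intro g
    obtain ⟨ψ, hψ⟩ := hcon ((LinearMap.range f).mkQ ∘ₗ g)
    obtain ⟨u, hu⟩ := Module.projective_lifting_property (LinearMap.range f).mkQ ψ
      (Submodule.mkQ_surjective _)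
    have h1 : ∀ x, g x - u (f x) ∈ LinearMap.range f := by
      intro x
      rw [← Submodule.Quotient.mk_eq_zero, Submodule.Quotient.mk_sub, sub_eq_zero]
      have h2 := LinearMap.congr_fun hψ x
      have h3 := LinearMap.congr_fun hu (f x)
      change (LinearMap.range f).mkQ (g x) = ψ (f x) at h2
      change (LinearMap.range f).mkQ (u (f x)) = ψ (f x) at h3
      exact h2.trans h3.symm
    obtain ⟨v, hv⟩ := Module.projective_lifting_property f.rangeRestrict
      ((g - u ∘ₗ f).codRestrict (LinearMap.range f) h1) f.surjective_rangeRestrict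
    refine ⟨u, v, ?_⟩
    ext x
    have h2 := congrArg Subtype.val (LinearMap.congr_fun hv x)
    change f (v x) = g x - u (f x) at h2
    change g x = u (f x) + f (v x)
    rw [h2]
    abel
  obtain ⟨N, hN, hmax⟩ := set_has_maximal_iff_noetherian.mpr hnoeth S hne
  refine ⟨N, hN.1, ?_, ?_⟩
  · intro h
    apply hN.2
    intro φ
    refine ⟨0, ?_⟩
    ext x
    have : Subsingleton (Q ⧸ N) := Submodule.Quotient.subsingleton_iff.mpr h
    exact Subsingleton.elim _ _
  · intro U hU
    by_contra hcon
    push Not at hcon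
    let N' := U.comap N.mkQ
    have hle : N ≤ N' := by
      intro x hx
      change N.mkQ x ∈ U
      have : N.mkQ x = 0 := (Submodule.Quotient.mk_eq_zero N).mpr hx
      rw [this]
      exact U.zero_mem
    have hlt : N < N' := by
      refine lt_of_le_of_ne hle ?_
      intro h
      apply hU
      rw [Submodule.eq_bot_iff]
      intro y hy
      obtain ⟨x, rfl⟩ := Submodule.mkQ_surjective N y
      have : x ∈ N := by
        rw [h]
        exact hy
      exact (Submodule.Quotient.mk_eq_zero N).mpr this
    have h1 : N' ∉ S := fun h => hmax N' h hlt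
    have h2 : ∀ φ : P →ₗ[A] (Q ⧸ N'), ∃ ψ : Q →ₗ[A] (Q ⧸ N'), φ = ψ ∘ₗ f := by
      by_contra h3
      exact h1 ⟨hN.1.trans hle, h3⟩
    apply hN.2
    intro χ
    let p : (Q ⧸ N) →ₗ[A] (Q ⧸ N') := Submodule.factor hle
    have hp : Surjective p := Submodule.factor_surjective hle
    obtain ⟨ψ', hψ'⟩ := h2 (p ∘ₗ χ)
    obtain ⟨ψ, hψ⟩ := Module.projective_lifting_property p ψ' hp
    have h4 : LinearMap.range (χ - ψ ∘ₗ f) ≤ U := by
      rintro _ ⟨x, rfl⟩
      have h5 : p ((χ - ψ ∘ₗ f) x) = 0 := by
        have h6 := LinearMap.congr_fun hψ' x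
        have h7 := LinearMap.congr_fun hψ (f x)
        change p (χ x) = ψ' (f x) at h6
        change p (ψ (f x)) = ψ' (f x) at h7
        change p (χ x - ψ (f x)) = 0
        rw [map_sub, h6, h7, sub_self]
      obtain ⟨y, hy⟩ := Submodule.mkQ_surjective N ((χ - ψ ∘ₗ f) x)
      rw [← hy] at h5 ⊢
      have h8 : N'.mkQ y = 0 := h5
      exact (Submodule.Quotient.mk_eq_zero N').mp h8
    obtain ⟨ψ2, hψ2⟩ := hcon _ h4
    refine ⟨ψ + ψ2, ?_⟩
    rw [LinearMap.add_comp, ← hψ2]
    abel

/-- if the slope stable modules of bounded dimension are finite in number, then the presentation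
space has a rigid point -/
theorem core [Infinite k] [Module.Projective A P] [Module.Projective A Q]
    {r : ℕ} (M : Fin r → Type u) [∀ j, AddCommGroup (M j)]
    [∀ j, Module A (M j)] [∀ j, Module k (M j)] [∀ j, IsScalarTower k A (M j)]
    [∀ j, Module.Finite k (M j)]
    (hM : ∀ (X : Type u) [AddCommGroup X] [Module A X] [Module k X] [IsScalarTower k A X]
      [Module.Finite k X], Nontrivial X → Stab k A P Q X → finrank k X ≤ finrank k Q →
      ∃ j, Nonempty (X ≃ₗ[A] M j)) :
    ∃ f : P →ₗ[A] Q, Rigid f := by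
  obtain ⟨f, hf⟩ := exists_lift (k := k) (A := A) (P := P) (Q := Q) M
  refine ⟨f, ?_⟩
  by_contra hcon
  -- every stable module of small dimension has the lifting property
  have hL : ∀ (X : Type u) [AddCommGroup X] [Module A X] [Module k X] [IsScalarTower k A X]
      [Module.Finite k X], Nontrivial X → Stab k A P Q X → finrank k X ≤ finrank k Q →
      Lift f X := by
    intro X _ _ _ _ _ h1 h2 h3
    obtain ⟨j, ⟨e⟩⟩ := hM X h1 h2 h3
    exact (hf j).congr e.symm
  obtain ⟨N, hN1, hN2, hN3⟩ := exists_obstruction k f hcon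
  have hIn : Nontrivial (Q ⧸ N) := Submodule.Quotient.nontrivial_iff.mpr hN2
  have hIf : Module.Finite k (Q ⧸ N) :=
    Module.Finite.of_surjective (N.mkQ.restrictScalars k) (Submodule.mkQ_surjective N)
  have hId : finrank k (Q ⧸ N) ≤ finrank k Q :=
    LinearMap.finrank_le_finrank_of_surjective (f := N.mkQ.restrictScalars k)
      (Submodule.mkQ_surjective N)
  have hIpos : 0 < finrank k (Q ⧸ N) := Module.finrank_pos
  -- positivity
  have hpos : 0 < Th k A P Q (Q ⧸ N) := by
    by_contra hneg
    push Not at hneg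
    obtain ⟨Y, _, _, _, _, p, hY1, hY2, hp, hY3, hY4⟩ :=
      exists_stab_quot (k := k) (A := A) (P := P) (Q := Q) _ (Q ⧸ N) hIn rfl
    have hYd : finrank k Y ≤ finrank k (Q ⧸ N) :=
      LinearMap.finrank_le_finrank_of_surjective (f := p.restrictScalars k) hp
    have hYpos : 0 < finrank k Y := Module.finrank_pos
    have h1 : Th k A P Q Y ≤ 0 := by
      by_contra h2
      push Not at h2
      have h3 : (0 : ℤ) < finrank k (Q ⧸ N) := by exact_mod_cast hIpos
      have h4 : (0 : ℤ) < finrank k Y := by exact_mod_cast hYpos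
      nlinarith
    have h5 := hL Y hY2 hY3 (hYd.trans hId)
    let h : Q →ₗ[A] Y := p ∘ₗ N.mkQ
    have hsurj : Surjective h := hp.comp (Submodule.mkQ_surjective N)
    have hh : h ∘ₗ f = 0 := by
      ext x
      have h6 : N.mkQ (f x) = 0 :=
        (Submodule.Quotient.mk_eq_zero N).mpr (hN1 (LinearMap.mem_range_self f x))
      change p (N.mkQ (f x)) = 0
      rw [h6, map_zero]
    have _ := finite_hom (k := k) (A := A) (P := P) (X := Y)
    have _ := finite_hom (k := k) (A := A) (P := Q) (X := Y)
    have h7 : LinearMap.range (pre k f Y) = ⊤ := by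
      rw [LinearMap.range_eq_top]
      intro φ
      obtain ⟨g, hg⟩ := Module.projective_lifting_property h φ hsurj
      obtain ⟨ψ, hψ⟩ := h5 h hh g
      exact ⟨ψ, by rw [pre_apply, ← hψ, hg]⟩
    have h8 := LinearMap.finrank_range_add_finrank_ker (pre k f Y)
    rw [h7, finrank_top] at h8
    have h9 : 0 < finrank k (LinearMap.ker (pre k f Y)) := by
      rw [Module.finrank_pos_iff]
      refine ⟨⟨⟨h, hh⟩, 0, ?_⟩⟩
      intro h10
      have h11 : h = 0 := congrArg Subtype.val h10
      obtain ⟨y, hy⟩ := exists_ne (0 : Y)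
      obtain ⟨x, hx⟩ := hsurj y
      rw [h11] at hx
      exact hy hx.symm
    rw [Th, hd, hd] at h1
    omega
  -- the stable submodule
  obtain ⟨Y, _, _, _, _, i, hY1, hY2, hi, hY3, hY4⟩ :=
    exists_stab_sub (k := k) (A := A) (P := P) (Q := Q) _ (Q ⧸ N) hIn rfl
  have hYd : finrank k Y ≤ finrank k (Q ⧸ N) :=
    LinearMap.finrank_le_finrank_of_injective (f := i.restrictScalars k) hi
  have hYpos : 0 < finrank k Y := Module.finrank_pos
  have h1 : 0 < Th k A P Q Y := by
    have h3 : (0 : ℤ) < finrank k (Q ⧸ N) := by exact_mod_cast hIpos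
    have h4 : (0 : ℤ) < finrank k Y := by exact_mod_cast hYpos
    by_contra h2
    push Not at h2
    nlinarith
  have h5 := hL Y hY2 hY3 (hYd.trans hId)
  have _ := finite_hom (k := k) (A := A) (P := P) (X := Y)
  have _ := finite_hom (k := k) (A := A) (P := Q) (X := Y)
  have h8 := LinearMap.finrank_range_add_finrank_ker (pre k f Y)
  have h9 : finrank k (LinearMap.range (pre k f Y)) ≤ finrank k (P →ₗ[A] Y) :=
    Submodule.finrank_le _
  have h10 : 0 < finrank k (LinearMap.ker (pre k f Y)) := by
    rw [Th, hd, hd] at h1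
    omega
  rw [Module.finrank_pos_iff] at h10
  obtain ⟨⟨h, hh⟩, hne⟩ := exists_ne (0 : LinearMap.ker (pre k f Y))
  have hh' : h ∘ₗ f = 0 := hh
  have hne' : h ≠ 0 := fun h11 => hne (Subtype.ext h11)
  let U : Submodule A (Q ⧸ N) := LinearMap.range (i ∘ₗ h)
  have hU : U ≠ ⊥ := by
    intro h11
    apply hne'
    rw [LinearMap.range_eq_bot] at h11
    ext x
    have := LinearMap.congr_fun h11 x
    change i (h x) = 0 at this
    exact hi (this.trans (map_zero i).symm)
  obtain ⟨φ, hφ1, hφ2⟩ := hN3 U hU
  have h12 : ∀ x, φ x ∈ LinearMap.range (i ∘ₗ h) := fun x => hφ1 (LinearMap.mem_range_self φ x)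
  obtain ⟨g, hg⟩ := Module.projective_lifting_property (i ∘ₗ h).rangeRestrict
    (φ.codRestrict _ h12) (i ∘ₗ h).surjective_rangeRestrict
  obtain ⟨ψ, hψ⟩ := h5 h hh' g
  apply hφ2 (i ∘ₗ ψ)
  ext x
  have h13 := congrArg Subtype.val (LinearMap.congr_fun hg x)
  have h14 := LinearMap.congr_fun hψ x
  change i (h (g x)) = φ x at h13
  change h (g x) = ψ (f x) at h14
  change φ x = i (ψ (f x))
  rw [← h13, h14]

end core

end BT
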