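import Mathlib
import Pool.Agent.Helper16.BT.Core

/-!
Weights of presentation spaces are dimension-vector weights.
-/

universe u

namespace BT

open Module Function

section ed

variable {k A : Type u} [Field k] [Ring A] [Algebra k A]
variable {X Y Z : Type u}
variable [AddCommGroup X] [Module A X] [Module k X] [IsScalarTower k A X]
variable [AddCommGroup Y] [Module A Y] [Module k Y] [IsScalarTower k A Y]
variable [AddCommGroup Z] [Module A Z] [Module k Z] [IsScalarTower k A Z]

/-- the dimension of `e X` -/
noncomputable def ed (k : Type u) [Field k] {A : Type u} [Ring A] [Algebra k A] (e : A)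
    (X : Type u) [AddCommGroup X] [Module A X] [Module k X] [IsScalarTower k A X] : ℕ :=
  finrank k (LinearMap.range (DistribMulAction.toLinearMap k X e))

theorem mem_range_e {e : A} (he : IsIdempotentElem e) (x : X) :
    x ∈ LinearMap.range (DistribMulAction.toLinearMap k X e) ↔ e • x = x := by
  rw [LinearMap.mem_range]
  constructor
  · rintro ⟨y, rfl⟩
    change e • (e • y) = e • y
    rw [smul_smul, he.eq]
  · intro h
    exact ⟨x, h⟩

/-- the projective module `A e` -/
abbrev Pe (e : A) : Type u := Submodule.span A {e}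

theorem Pe_mul {e : A} (he : IsIdempotentElem e) (x : Pe e) : (x : A) * e = x := by
  obtain ⟨a, ha⟩ := Submodule.mem_span_singleton.mp x.2
  rw [← ha, smul_eq_mul, mul_assoc, he.eq]

/-- the generator of `A e` -/
def gen (e : A) : Pe e := ⟨e, Submodule.mem_span_singleton_self e⟩

/-- right multiplication `A → A e` -/
def toPe (e : A) : A →ₗ[A] Pe e where
  toFun a := ⟨a * e, Submodule.mem_span_singleton.mpr ⟨a, rfl⟩⟩
  map_add' a b := Subtype.ext (add_mul a b e)
  map_smul' a b := Subtype.ext (mul_assoc a b e)

theorem projective_Pe {e : A} (he : IsIdempotentElem e) : Module.Projective A (Pe e) := by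
  refine Module.Projective.of_split (Submodule.span A {e}).subtype (toPe e) ?_
  ext x
  exact Pe_mul he x

theorem finite_Pe (e : A) : Module.Finite A (Pe e) := by
  refine Module.Finite.of_surjective (toPe e) ?_
  intro x
  obtain ⟨a, ha⟩ := Submodule.mem_span_singleton.mp x.2
  exact ⟨a, Subtype.ext ha⟩

/-- `Hom(A e, X) = e X` -/
def homPe {e : A} (he : IsIdempotentElem e) (X : Type u) [AddCommGroup X] [Module A X]
    [Module k X] [IsScalarTower k A X] :
    (Pe e →ₗ[A] X) ≃ₗ[k] LinearMap.range (DistribMulAction.toLinearMap k X e) where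
  toFun φ := ⟨φ (gen e), (mem_range_e he _).mpr (by
    rw [← map_smul]
    congr 1
    exact Subtype.ext he.eq)⟩
  map_add' _ _ := rfl
  map_smul' _ _ := rfl
  invFun x := (LinearMap.toSpanSingleton A X (x : X)) ∘ₗ (Submodule.span A {e}).subtype
  left_inv φ := by
    ext y
    change (y : A) • φ (gen e) = φ y
    rw [← map_smul]
    congr 1
    exact Subtype.ext (Pe_mul he y)
  right_inv x := by
    refine Subtype.ext ?_
    change e • (x : X) = x
    exact (mem_range_e he (x : X)).mp x.2

theorem hd_Pe {e : A} (he : IsIdempotentElem e) : hd k A (Pe e) X = ed k e X :=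
  (homPe (k := k) he X).finrank_eq

theorem ed_ses [Module.Finite k A] [Module.Finite k Y] {e : A} (he : IsIdempotentElem e)
    (i : X →ₗ[A] Y) (p : Y →ₗ[A] Z) (hi : Injective i)
    (hp : Surjective p) (hex : LinearMap.range i = LinearMap.ker p) :
    ed k e Y = ed k e X + ed k e Z := by
  have _ := projective_Pe he
  have _ := finite_Pe e
  have _ : Module.Finite k (Pe e) := Module.Finite.trans A (Pe e)
  rw [← hd_Pe he, ← hd_Pe he, ← hd_Pe he]
  exact hd_ses i p hi hp hex

theorem ed_congr {e : A} (f : X ≃ₗ[A] Y) : ed k e X = ed k e Y := by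
  rw [ed, ed]
  have h : LinearMap.range (DistribMulAction.toLinearMap k Y e) =
      (LinearMap.range (DistribMulAction.toLinearMap k X e)).map (toK k f).toLinearMap := by
    ext y
    rw [LinearMap.mem_range, Submodule.mem_map]
    constructor
    · rintro ⟨z, rfl⟩
      refine ⟨e • f.symm z, ⟨f.symm z, rfl⟩, ?_⟩
      change f (e • f.symm z) = e • z
      rw [map_smul, f.apply_symm_apply]
    · rintro ⟨_, ⟨z, rfl⟩, rfl⟩
      refine ⟨f z, ?_⟩
      change e • f z = f (e • z)
      rw [map_smul]
  rw [h]
  exact ((toK k f).submoduleMap _).finrank_eq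

theorem ed_sub (e : A) (U : Submodule A X) :
    finrank k (Submodule.map (DistribMulAction.toLinearMap k X e) (U.restrictScalars k)) =
      ed k e U := by
  have h : Submodule.map (DistribMulAction.toLinearMap k X e) (U.restrictScalars k) =
      (LinearMap.range (DistribMulAction.toLinearMap k U e)).map
        (U.subtype.restrictScalars k) := by
    ext y
    rw [Submodule.mem_map, Submodule.mem_map]
    constructor
    · rintro ⟨z, hz, rfl⟩
      exact ⟨e • (⟨z, hz⟩ : U), ⟨⟨z, hz⟩, rfl⟩, rfl⟩
    · rintro ⟨_, ⟨z, rfl⟩, rfl⟩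
      exact ⟨z, z.2, rfl⟩
  rw [h, ed]
  exact (Submodule.equivMapOfInjective (U.subtype.restrictScalars k) Subtype.val_injective
    _).finrank_eq.symm

/-- the total dimension -/
theorem dim_eq_sum {ι : Type} [Fintype ι] {e : ι → A} (he : CompleteOrthogonalIdempotents e)
    [Module.Finite k X] : finrank k X = ∑ i, ed k (e i) X := by
  classical
  let F : X ≃ₗ[k] (∀ i, LinearMap.range (DistribMulAction.toLinearMap k X (e i))) :=
    { toFun := fun x i => ⟨e i • x, ⟨x, rfl⟩⟩
      map_add' := fun x y => by
        ext i
        exact smul_add (e i) x y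
      map_smul' := fun c x => by
        ext i
        exact (smul_comm (e i) c x)
      invFun := fun y => ∑ i, (y i : X)
      left_inv := fun x => by
        change ∑ i, e i • x = x
        rw [← Finset.sum_smul, he.complete, one_smul]
      right_inv := fun y => by
        ext i
        change e i • ∑ j, (y j : X) = y i
        rw [Finset.smul_sum, Finset.sum_eq_single i]
        · exact (mem_range_e (he.idem i) _).mp (y i).2
        · intro j _ hj
          rw [← (mem_range_e (he.idem j) _).mp (y j).2, smul_smul, he.ortho (Ne.symm hj), zero_smul]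
        · simp }
  rw [F.finrank_eq, Module.finrank_pi_fintype]
  rfl

theorem ed_of_subsingleton [Subsingleton X] (e : A) : ed k e X = 0 := by
  rw [ed]
  exact Module.finrank_zero_of_subsingleton

theorem Th_of_subsingleton {P Q : Type u} [AddCommGroup P] [Module A P] [AddCommGroup Q]
    [Module A Q] [Subsingleton X] : Th k A P Q X = 0 := by
  rw [Th, hd, hd]
  simp [Module.finrank_zero_of_subsingleton]

end ed

/-- the data used: complete orthogonal idempotents with classes -/
structure Dat (k A : Type u) [Field k] [Ring A] [Algebra k A] (ι : Type) [Fintype ι] (s : ℕ)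
    where
  e : ι → A
  c : ι → Fin s
  r : Fin s → ι
  he : CompleteOrthogonalIdempotents e
  hcr : ∀ t, c (r t) = t
  h1 : ∀ i a, ∃ l : k, e i * a * e i - l • e i ∈ Ring.jacobson A
  h2 : ∀ i, ∃ a b, e i - a * e (r (c i)) * b ∈ Ring.jacobson A
  h3 : ∀ s s', s ≠ s' → ∀ a, e (r s) * a * e (r s') ∈ Ring.jacobson A

section dat

variable {k A : Type u} [Field k] [Ring A] [Algebra k A] {ι : Type} [Fintype ι] {s : ℕ}
variable (D : Dat k A ι s)
variable {X Y : Type u}
variable [AddCommGroup X] [Module A X] [Module k X] [IsScalarTower k A X]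
variable [AddCommGroup Y] [Module A Y] [Module k Y] [IsScalarTower k A Y]

theorem jac_smul [IsSimpleModule A X] {a : A} (ha : a ∈ Ring.jacobson A) (x : X) : a • x = 0 :=
  Module.mem_annihilator.mp (IsSemisimpleModule.jacobson_le_annihilator A X ha) x

theorem simple_gen [IsSimpleModule A X] {x : X} (hx : x ≠ 0) (y : X) : ∃ a : A, a • x = y := by
  have h : Submodule.span A {x} = ⊤ := by
    rcases eq_bot_or_eq_top (Submodule.span A {x}) with h | h
    · exact absurd (Submodule.span_singleton_eq_bot.mp h) hx
    · exact h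
  exact Submodule.mem_span_singleton.mp (h ▸ Submodule.mem_top)

include D in
omit [Module k X] [IsScalarTower k A X] in
theorem Dat.exists_class [IsSimpleModule A X] : ∃ t, ∃ x : X, D.e (D.r t) • x ≠ 0 := by
  have _ : Nontrivial X := IsSimpleModule.nontrivial A X
  obtain ⟨x, hx⟩ := exists_ne (0 : X)
  have h1 : ∑ i, D.e i • x = x := by
    rw [← Finset.sum_smul, D.he.complete, one_smul]
  obtain ⟨i, hi⟩ : ∃ i, D.e i • x ≠ 0 := by
    by_contra hcon
    push Not at hcon
    apply hx
    rw [← h1]
    exact Finset.sum_eq_zero (fun i _ => hcon i)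
  obtain ⟨a, b, hab⟩ := D.h2 i
  refine ⟨D.c i, b • x, fun h => hi ?_⟩
  have h2 := jac_smul hab x
  rw [sub_smul, sub_eq_zero] at h2
  rw [h2, mul_smul, mul_smul, h, smul_zero]

theorem Dat.class_unique [IsSimpleModule A X] {t t' : Fin s} {x y : X}
    (hx : D.e (D.r t) • x ≠ 0) (hy : D.e (D.r t') • y ≠ 0) : t = t' := by
  by_contra hne
  obtain ⟨a, ha⟩ := simple_gen (A := A) hx y
  apply hy
  rw [← ha, smul_smul, smul_smul]
  exact jac_smul (D.h3 t' t (Ne.symm hne) a) x

theorem Dat.ed_one [IsSimpleModule A X] {i : ι} {x : X} (hx : D.e i • x ≠ 0) :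
    ed k (D.e i) X = 1 := by
  rw [ed, finrank_eq_one_iff']
  refine ⟨⟨D.e i • x, ⟨x, rfl⟩⟩, fun h => hx (congrArg Subtype.val h), ?_⟩
  rintro ⟨y, hy⟩
  rw [mem_range_e (D.he.idem i)] at hy
  obtain ⟨a, ha⟩ := simple_gen (A := A) hx y
  obtain ⟨l, hl⟩ := D.h1 i a
  refine ⟨l, Subtype.ext ?_⟩
  change l • (D.e i • x) = y
  have h1 := jac_smul hl x
  rw [sub_smul, sub_eq_zero, mul_smul, mul_smul, ha, hy, smul_assoc] at h1
  exact h1.symm

theorem Dat.ed_zero {i : ι} (hx : ∀ x : X, D.e i • x = 0) : ed k (D.e i) X = 0 := by
  rw [ed]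
  have h : LinearMap.range (DistribMulAction.toLinearMap k X (D.e i)) = ⊥ := by
    rw [LinearMap.range_eq_bot]
    ext x
    exact hx x
  rw [h, finrank_bot]

omit [Module k X] [IsScalarTower k A X] [Module k Y] [IsScalarTower k A Y] in
theorem Dat.iso [IsSimpleModule A X] [IsSimpleModule A Y] {i : ι} {x : X} {y : Y}
    (hx : D.e i • x ≠ 0) (hy : D.e i • y ≠ 0) : Nonempty (X ≃ₗ[A] Y) := by
  have key : ∀ (Z : Type u) [AddCommGroup Z] [Module A Z] [IsSimpleModule A Z] (z : Z),
      D.e i • z ≠ 0 → ∀ a : A, (a • (D.e i • z) = 0 ↔ ∀ b,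
        D.e i * (b * a) * D.e i ∈ Ring.jacobson A) := by
    intro Z _ _ _ z hz a
    constructor
    · intro h b
      obtain ⟨l, hl⟩ := D.h1 i (b * a)
      let _ : Module k Z := Module.compHom Z (algebraMap k A)
      have _ : IsScalarTower k A Z := ⟨fun c a z => by
        change (c • a) • z = (algebraMap k A c) • (a • z)
        rw [Algebra.smul_def, mul_smul]⟩
      have h1 := jac_smul hl z
      rw [sub_smul, sub_eq_zero, mul_smul, mul_smul, mul_smul, h, smul_zero, smul_zero,
        smul_assoc] at h1
      have hl0 : l = 0 := (smul_eq_zero.mp h1.symm).resolve_right hz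
      rw [hl0, zero_smul, sub_zero] at hl
      exact hl
    · intro h
      by_contra hne
      obtain ⟨b, hb⟩ := simple_gen (A := A) hne (D.e i • z)
      apply hz
      have h1 := jac_smul (h b) z
      rw [mul_smul, mul_smul, mul_smul, hb, smul_smul, (D.he.idem i).eq] at h1
      exact h1
  have h1 : LinearMap.ker (LinearMap.toSpanSingleton A X (D.e i • x)) =
      LinearMap.ker (LinearMap.toSpanSingleton A Y (D.e i • y)) := by
    ext a
    rw [LinearMap.mem_ker, LinearMap.mem_ker, LinearMap.toSpanSingleton_apply,
      LinearMap.toSpanSingleton_apply, key X x hx, key Y y hy]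
  have s1 : Surjective (LinearMap.toSpanSingleton A X (D.e i • x)) := fun z => simple_gen hx z
  have s2 : Surjective (LinearMap.toSpanSingleton A Y (D.e i • y)) := fun z => simple_gen hy z
  exact ⟨((LinearMap.quotKerEquivOfSurjective _ s1).symm.trans
    (Submodule.quotEquivOfEq _ _ h1)).trans (LinearMap.quotKerEquivOfSurjective _ s2)⟩

end dat

section weight

variable {k A : Type u} [Field k] [Ring A] [Algebra k A] [Module.Finite k A]
  {ι : Type} [Fintype ι] {s : ℕ}
variable (D : Dat k A ι s)
variable (P Q : Type u) [AddCommGroup P] [Module A P] [Module k P] [IsScalarTower k A P]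
  [Module.Finite k P] [Module.Projective A P] [AddCommGroup Q] [Module A Q] [Module k Q]
  [IsScalarTower k A Q] [Module.Finite k Q] [Module.Projective A Q]

include D in
theorem Dat.weight : ∃ w : ι → ℤ, ∀ (X : Type u) [AddCommGroup X] [Module A X] [Module k X]
    [IsScalarTower k A X] [Module.Finite k X], Th k A P Q X = ∑ i, w i * (ed k (D.e i) X : ℤ) := by
  classical
  have hch : ∀ t : Fin s, ∃ z : ℤ, ∀ (X : Type u) [AddCommGroup X] [Module A X] [Module k X]
      [IsScalarTower k A X], IsSimpleModule A X → (∃ x : X, D.e (D.r t) • x ≠ 0) →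
      Th k A P Q X = z := by
    intro t
    by_cases h : ∃ (X : Type u) (_ : AddCommGroup X) (_ : Module A X) (_ : Module k X)
      (_ : IsScalarTower k A X), IsSimpleModule A X ∧ ∃ x : X, D.e (D.r t) • x ≠ 0
    · obtain ⟨X, _, _, _, _, hs, x, hx⟩ := h
      refine ⟨Th k A P Q X, ?_⟩
      intro Y _ _ _ _ hs' ⟨y, hy⟩
      obtain ⟨e⟩ := D.iso hy hx
      exact Th_congr e
    · refine ⟨0, ?_⟩
      intro Y i1 i2 i3 i4 hs' hy
      exact absurd ⟨Y, i1, i2, i3, i4, hs', hy⟩ h
  choose z hz using hch
  refine ⟨fun i => if i = D.r (D.c i) then z (D.c i) else 0, ?_⟩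
  have hsimple : ∀ (X : Type u) [AddCommGroup X] [Module A X] [Module k X]
      [IsScalarTower k A X], IsSimpleModule A X → Th k A P Q X =
        ∑ i, (if i = D.r (D.c i) then z (D.c i) else 0) * (ed k (D.e i) X : ℤ) := by
    intro X _ _ _ _ hs
    obtain ⟨t, x, hx⟩ := D.exists_class (X := X)
    rw [Finset.sum_eq_single (D.r t)]
    · rw [D.hcr t, if_pos rfl, D.ed_one hx, hz t X hs ⟨x, hx⟩]
      simp
    · intro i _ hi
      by_cases h : i = D.r (D.c i)
      · rw [if_pos h]
        have h0 : ∀ y : X, D.e i • y = 0 := by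
          intro y
          by_contra hy
          rw [h] at hy
          have := D.class_unique hx hy
          apply hi
          rw [this]
          exact h
        rw [D.ed_zero h0]
        simp
      · rw [if_neg h, zero_mul]
    · simp
  suffices H : ∀ (n : ℕ) (X : Type u) [AddCommGroup X] [Module A X] [Module k X]
      [IsScalarTower k A X] [Module.Finite k X], finrank k X = n → Th k A P Q X =
        ∑ i, (if i = D.r (D.c i) then z (D.c i) else 0) * (ed k (D.e i) X : ℤ) by
    intro X _ _ _ _ _
    exact H _ X rfl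
  intro n
  induction n using Nat.strong_induction_on with
  | _ n ih =>
    intro X _ _ _ _ _ hn
    rcases subsingleton_or_nontrivial X with hX | hX
    · rw [Th_of_subsingleton]
      symm
      exact Finset.sum_eq_zero (fun i _ => by rw [ed_of_subsingleton]; simp)
    · by_cases hs : IsSimpleModule A X
      · exact hsimple X hs
      · obtain ⟨U, hU0, hU1⟩ : ∃ U : Submodule A X, U ≠ ⊥ ∧ U ≠ ⊤ := by
          by_contra hcon
          push Not at hcon
          apply hs
          rw [isSimpleModule_iff]
          exact { exists_pair_ne := ⟨⊥, ⊤, bot_ne_top⟩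
                  eq_bot_or_eq_top := fun U => by
                    by_cases h : U = ⊥
                    · exact Or.inl h
                    · exact Or.inr (hcon U h) }
        have hfin : Module.Finite k U :=
          Module.Finite.of_injective (U.subtype.restrictScalars k) (Subtype.val_injective)
        have hfin' : Module.Finite k (X ⧸ U) :=
          Module.Finite.of_surjective (U.mkQ.restrictScalars k) (Submodule.mkQ_surjective U)
        have hUn : Nontrivial U := Submodule.nontrivial_iff_ne_bot.mpr hU0
        have hQn : Nontrivial (X ⧸ U) := Submodule.Quotient.nontrivial_iff.mpr hU1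
        have hUpos : 0 < finrank k U := Module.finrank_pos
        have hQpos : 0 < finrank k (X ⧸ U) := Module.finrank_pos
        have hex : LinearMap.range U.subtype = LinearMap.ker U.mkQ := by
          rw [Submodule.range_subtype, Submodule.ker_mkQ]
        have e1 := dim_ses (k := k) U.subtype U.mkQ Subtype.val_injective
          (Submodule.mkQ_surjective U) hex
        have e2 := Th_ses (k := k) (P := P) (Q := Q) U.subtype U.mkQ Subtype.val_injective
          (Submodule.mkQ_surjective U) hex
        rw [e2, ih (finrank k U) (by omega) U rfl, ih (finrank k (X ⧸ U)) (by omega) _ rfl,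
          ← Finset.sum_add_distrib]
        refine Finset.sum_congr rfl (fun i _ => ?_)
        rw [ed_ses (k := k) (D.he.idem i) U.subtype U.mkQ Subtype.val_injective
          (Submodule.mkQ_surjective U) hex]
        push_cast
        ring

end weight

end BT
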