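import Mathlib
import Pool.Agent.Helper16.BT.Idem

/-!
A rigid presentation has only finitely many simple objects in its perpendicular category.
-/

universe u

namespace BT

open Module Function

section conv

variable {k A : Type u} [Field k] [Ring A] [Algebra k A]
variable {P Q : Type u} [AddCommGroup P] [Module A P] [AddCommGroup Q] [Module A Q]
variable {X Y Z : Type u}
variable [AddCommGroup X] [Module A X] [AddCommGroup Y] [Module A Y] [AddCommGroup Z] [Module A Z]

/-- the obstruction space of `f` with values in `X` vanishes -/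
def E0 (f : P →ₗ[A] Q) (X : Type u) [AddCommGroup X] [Module A X] : Prop :=
  ∀ φ : P →ₗ[A] X, ∃ ψ : Q →ₗ[A] X, φ = ψ ∘ₗ f

/-- no nonzero map from the cokernel of `f` to `X` -/
def H0 (f : P →ₗ[A] Q) (X : Type u) [AddCommGroup X] [Module A X] : Prop :=
  ∀ h : Q →ₗ[A] X, h ∘ₗ f = 0 → h = 0

theorem E0.quot [Module.Projective A P] {f : P →ₗ[A] Q} (h : E0 f X) (p : X →ₗ[A] Y)
    (hp : Surjective p) : E0 f Y := by
  intro φ
  obtain ⟨φ', hφ'⟩ := Module.projective_lifting_property p φ hp
  obtain ⟨ψ, hψ⟩ := h φ'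
  exact ⟨p ∘ₗ ψ, by rw [← hφ', hψ, LinearMap.comp_assoc]⟩

theorem H0.sub {f : P →ₗ[A] Q} (h : H0 f Y) (i : X →ₗ[A] Y) (hi : Injective i) : H0 f X := by
  intro g hg
  have h1 := h (i ∘ₗ g) (by rw [LinearMap.comp_assoc, hg, LinearMap.comp_zero])
  ext x
  apply hi
  rw [LinearMap.zero_apply, map_zero]
  exact LinearMap.congr_fun h1 x

theorem E0.pi {f : P →ₗ[A] Q} {ι : Type} (h : E0 f X) : E0 f (ι → X) := by
  intro φ
  choose ψ hψ using fun i => h (LinearMap.proj i ∘ₗ φ)
  refine ⟨LinearMap.pi ψ, ?_⟩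
  ext x i
  exact LinearMap.congr_fun (hψ i) x

/-- the cokernel of a rigid map has no obstruction -/
theorem Rigid.E0_coker [Module.Projective A P] {f : P →ₗ[A] Q} (hf : Rigid f) :
    E0 f (Q ⧸ LinearMap.range f) := by
  intro φ
  obtain ⟨g, hg⟩ := Module.projective_lifting_property (LinearMap.range f).mkQ φ
    (Submodule.mkQ_surjective _)
  obtain ⟨a, v, hg'⟩ := hf g
  refine ⟨(LinearMap.range f).mkQ ∘ₗ a, ?_⟩
  ext x
  have h1 := LinearMap.congr_fun hg x
  have h2 := LinearMap.congr_fun hg' x
  change (LinearMap.range f).mkQ (g x) = φ x at h1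
  change g x = a (f x) + f (v x) at h2
  have h3 : (LinearMap.range f).mkQ (f (v x)) = 0 :=
    (Submodule.Quotient.mk_eq_zero _).mpr (LinearMap.mem_range_self f (v x))
  change φ x = (LinearMap.range f).mkQ (a (f x))
  rw [← h1, h2, map_add, h3, add_zero]

/-- extending to the cokernel -/
theorem exists_bar {f : P →ₗ[A] Q} (h : Q →ₗ[A] X) (hh : h ∘ₗ f = 0) :
    ∃ h' : (Q ⧸ LinearMap.range f) →ₗ[A] X, h' ∘ₗ (LinearMap.range f).mkQ = h := by
  refine ⟨(LinearMap.range f).liftQ h ?_, Submodule.liftQ_mkQ _ _ _⟩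
  rintro _ ⟨x, rfl⟩
  exact LinearMap.congr_fun hh x

theorem mkQ_comp (f : P →ₗ[A] Q) : (LinearMap.range f).mkQ ∘ₗ f = 0 := by
  ext x
  exact (Submodule.Quotient.mk_eq_zero _).mpr (LinearMap.mem_range_self f x)

theorem finite_quot [Module k X] [IsScalarTower k A X] [Module.Finite k X] (N : Submodule A X) :
    Module.Finite k (X ⧸ N) :=
  Module.Finite.of_surjective (N.mkQ.restrictScalars k) (Submodule.mkQ_surjective N)

/-- packing a quotient module -/
theorem pack [Module k X] [IsScalarTower k A X] [Module.Finite k X] (N : Submodule A X)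
    (Pr : ∀ (B : Type u) [AddCommGroup B] [Module A B], Prop) (h : Pr (X ⧸ N)) :
    ∃ (B : Type u) (_ : AddCommGroup B) (_ : Module A B) (_ : Module k B)
      (_ : IsScalarTower k A B), Module.Finite k B ∧ Pr B :=
  ⟨X ⧸ N, inferInstance, inferInstance, inferInstance, inferInstance,
    Module.Finite.of_surjective (N.mkQ.restrictScalars k) (Submodule.mkQ_surjective N), h⟩

/-- kernels of surjections -/
theorem W_ker {f : P →ₗ[A] Q} (hX1 : H0 f X) (hX2 : E0 f X) (hY1 : H0 f Y)
    (p : X →ₗ[A] Y) : H0 f (LinearMap.ker p) ∧ E0 f (LinearMap.ker p) := by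
  refine ⟨hX1.sub (LinearMap.ker p).subtype Subtype.val_injective, ?_⟩
  intro φ
  obtain ⟨ψ, hψ⟩ := hX2 ((LinearMap.ker p).subtype ∘ₗ φ)
  have h1 : p ∘ₗ ψ = 0 := by
    apply hY1
    rw [LinearMap.comp_assoc, ← hψ]
    ext x
    exact (φ x).2
  refine ⟨ψ.codRestrict _ (fun x => LinearMap.congr_fun h1 x), ?_⟩
  ext x
  exact LinearMap.congr_fun hψ x

end conv

section fin

variable {k A : Type u} [Field k] [Ring A] [Algebra k A] [Module.Finite k A]
variable {P Q : Type u} [AddCommGroup P] [Module A P] [Module k P] [IsScalarTower k A P]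
  [Module.Finite k P] [Module.Projective A P]
variable [AddCommGroup Q] [Module A Q] [Module k Q] [IsScalarTower k A Q] [Module.Finite k Q]
  [Module.Projective A Q]

variable (k) in
/-- the universal extension -/
theorem exists_bongartz {f : P →ₗ[A] Q} (hf : Rigid f) :
    ∃ (B : Type u) (_ : AddCommGroup B) (_ : Module A B) (_ : Module k B)
      (_ : IsScalarTower k A B), Module.Finite k B ∧ E0 f B ∧
      ∀ (X : Type u) [AddCommGroup X] [Module A X], E0 f X → Nontrivial X →
        ∃ b : B →ₗ[A] X, b ≠ 0 := by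
  classical
  have _ := finite_hom (k := k) (A := A) (P := P) (X := A)
  let m := finrank k (P →ₗ[A] A)
  let b := Module.finBasis k (P →ₗ[A] A)
  let R := (Fin m → Q) × A
  let Zf : (Fin m → P) →ₗ[A] R := LinearMap.prod
    (LinearMap.pi (fun i => f ∘ₗ LinearMap.proj i)) (∑ i, b i ∘ₗ LinearMap.proj i)
  refine pack (k := k) (LinearMap.range Zf) (fun B _ _ => E0 f B ∧
      ∀ (X : Type u) [AddCommGroup X] [Module A X], E0 f X → Nontrivial X →
        ∃ b : B →ₗ[A] X, b ≠ 0) ⟨?_, ?_⟩
  · intro φ
    obtain ⟨φ', hφ'⟩ := Module.projective_lifting_property (LinearMap.range Zf).mkQ φ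
      (Submodule.mkQ_surjective _)
    choose a v hav using fun i => hf (LinearMap.proj i ∘ₗ LinearMap.fst A (Fin m → Q) A ∘ₗ φ')
    let V : P →ₗ[A] (Fin m → P) := LinearMap.pi v
    let r : P →ₗ[A] A := LinearMap.snd A (Fin m → Q) A ∘ₗ φ' -
      (∑ i, b i ∘ₗ LinearMap.proj i) ∘ₗ V
    have hr : ∑ i, b.repr r i • b i = r := b.sum_repr r
    let c : Fin m → k := fun i => b.repr r i
    let V' : P →ₗ[A] (Fin m → P) := LinearMap.pi (fun i => c i • LinearMap.id)
    let a' : Q →ₗ[A] (Fin m → Q) := LinearMap.pi (fun i => a i - c i • LinearMap.id)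
    refine ⟨(LinearMap.range Zf).mkQ ∘ₗ LinearMap.inl A (Fin m → Q) A ∘ₗ a', ?_⟩
    rw [← hφ']
    have key : ∀ x, φ' x = (LinearMap.inl A (Fin m → Q) A (a' (f x))) + Zf (V x + V' x) := by
      intro x
      refine Prod.ext ?_ ?_
      · funext i
        have h1 := LinearMap.congr_fun (hav i) x
        change (φ' x).1 i = a i (f x) + f (v i x) at h1
        change (φ' x).1 i = (a i (f x) - c i • f x) + f (v i x + c i • x)
        rw [h1, map_add, ← algebraMap_smul A (c i) x, map_smul, algebraMap_smul]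
        abel
      · have h2 := LinearMap.congr_fun hr x
        have h3 : (∑ i, b.repr r i • b i) x = ∑ i, (b i) (c i • x) := by
          rw [LinearMap.sum_apply]
          refine Finset.sum_congr rfl (fun i _ => ?_)
          change c i • b i x = b i (c i • x)
          rw [← algebraMap_smul A (c i) x, map_smul, algebraMap_smul]
        rw [h3] at h2
        change _ = (φ' x).2 - (∑ i, b i ∘ₗ LinearMap.proj i) (V x) at h2
        rw [LinearMap.sum_apply] at h2
        change (φ' x).2 = 0 + (∑ i, b i ∘ₗ LinearMap.proj i) (V x + V' x)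
        rw [map_add, LinearMap.sum_apply, LinearMap.sum_apply]
        change _ = 0 + (_ + ∑ i, b i (c i • x))
        rw [h2]
        abel
    ext x
    change (LinearMap.range Zf).mkQ (φ' x) =
      (LinearMap.range Zf).mkQ (LinearMap.inl A (Fin m → Q) A (a' (f x)))
    have h4 : (LinearMap.range Zf).mkQ (Zf (V x + V' x)) = 0 :=
      (Submodule.Quotient.mk_eq_zero (LinearMap.range Zf)).mpr (LinearMap.mem_range_self _ _)
    rw [key x, map_add, h4, add_zero]
  · intro X _ _ hX hn
    obtain ⟨x, hx⟩ := exists_ne (0 : X)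
    let α : A →ₗ[A] X := LinearMap.toSpanSingleton A X x
    choose ψ hψ using fun i => hX (α ∘ₗ b i)
    let β : R →ₗ[A] X := LinearMap.coprod (-∑ i, ψ i ∘ₗ LinearMap.proj i) α
    have hβ : LinearMap.range Zf ≤ LinearMap.ker β := by
      rintro _ ⟨y, rfl⟩
      rw [LinearMap.mem_ker]
      change (-∑ i, ψ i ∘ₗ LinearMap.proj i) (fun i => f (y i)) +
        α ((∑ i, b i ∘ₗ LinearMap.proj i) y) = 0
      rw [LinearMap.neg_apply, LinearMap.sum_apply, LinearMap.sum_apply, map_sum]
      rw [neg_add_eq_zero]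
      refine Finset.sum_congr rfl (fun i _ => ?_)
      exact (LinearMap.congr_fun (hψ i) (y i)).symm
    refine ⟨(LinearMap.range Zf).liftQ β hβ, ?_⟩
    intro h0
    apply hx
    have h1 : β (LinearMap.inr A (Fin m → Q) A 1) = 0 := by
      have h2 := LinearMap.congr_fun h0 ((LinearMap.range Zf).mkQ (LinearMap.inr A (Fin m → Q) A 1))
      rw [LinearMap.zero_apply] at h2
      exact h2
    change (-∑ i, ψ i ∘ₗ LinearMap.proj i) 0 + α 1 = 0 at h1
    rw [map_zero, zero_add] at h1
    rw [← h1]
    exact (one_smul A x).symm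

variable (k) in
/-- passing to the quotient by the trace of the cokernel -/
theorem exists_W {f : P →ₗ[A] Q} (hf : Rigid f) :
    ∃ (B : Type u) (_ : AddCommGroup B) (_ : Module A B) (_ : Module k B)
      (_ : IsScalarTower k A B), Module.Finite k B ∧ H0 f B ∧ E0 f B ∧
      ∀ (X : Type u) [AddCommGroup X] [Module A X], H0 f X → E0 f X → Nontrivial X →
        ∃ b : B →ₗ[A] X, b ≠ 0 := by
  classical
  obtain ⟨B, _, _, _, _, hB1, hB2, hB3⟩ := exists_bongartz k hf
  let C := Q ⧸ LinearMap.range f
  have hC : Module.Finite k C := finite_quot (LinearMap.range f)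
  have _ := finite_hom (k := k) (A := A) (P := C) (X := B)
  let m := finrank k (C →ₗ[A] B)
  let b := Module.finBasis k (C →ₗ[A] B)
  let H : (Fin m → C) →ₗ[A] B := ∑ i, b i ∘ₗ LinearMap.proj i
  let T := LinearMap.range H
  have hT0 : E0 f T := (hf.E0_coker.pi (ι := Fin m)).quot H.rangeRestrict H.surjective_rangeRestrict
  have hT1 : ∀ h : C →ₗ[A] B, ∀ x, h x ∈ T := by
    intro h x
    have hH : H (fun i => b.repr h i • x) = h x := by
      change (∑ i, b i ∘ₗ LinearMap.proj i) (fun i => b.repr h i • x) = h x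
      rw [LinearMap.sum_apply]
      have hsr : (∑ i, b.repr h i • b i) x = h x := by rw [b.sum_repr h]
      rw [← hsr, LinearMap.sum_apply]
      refine Finset.sum_congr rfl (fun i _ => ?_)
      change b i (b.repr h i • x) = b.repr h i • b i x
      rw [← algebraMap_smul A (b.repr h i) x, map_smul, algebraMap_smul]
    rw [← hH]
    exact LinearMap.mem_range_self H _
  have hq1 : E0 f (B ⧸ T) := hB2.quot T.mkQ (Submodule.mkQ_surjective _)
  have hq2 : H0 f (B ⧸ T) := by
    intro h hh
    obtain ⟨q, hq⟩ := Module.projective_lifting_property T.mkQ h (Submodule.mkQ_surjective _)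
    have h1 : ∀ x, (q ∘ₗ f) x ∈ T := by
      intro x
      have h2 : T.mkQ (q (f x)) = 0 := by
        have h3 := LinearMap.congr_fun hq (f x)
        have h4 := LinearMap.congr_fun hh x
        exact h3.trans h4
      exact (Submodule.Quotient.mk_eq_zero T).mp h2
    obtain ⟨ψ, hψ⟩ := hT0 ((q ∘ₗ f).codRestrict T h1)
    obtain ⟨h', hh'⟩ := exists_bar (f := f) (q - T.subtype ∘ₗ ψ) (by
      ext x
      have h5 := congrArg Subtype.val (LinearMap.congr_fun hψ x)
      change q (f x) = ψ (f x) at h5
      change q (f x) - ψ (f x) = 0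
      rw [h5, sub_self])
    ext x
    have h6 := LinearMap.congr_fun hh' x
    change h' _ = q x - ψ x at h6
    have h7 : q x ∈ T := by
      have h8 : q x = h' ((LinearMap.range f).mkQ x) + ψ x := by
        rw [h6, sub_add_cancel]
      rw [h8]
      exact T.add_mem (hT1 h' _) (ψ x).2
    have h9 := LinearMap.congr_fun hq x
    rw [← h9]
    exact (Submodule.Quotient.mk_eq_zero T).mpr h7
  have hq3 : ∀ (X : Type u) [AddCommGroup X] [Module A X], H0 f X → E0 f X → Nontrivial X →
        ∃ b : (B ⧸ T) →ₗ[A] X, b ≠ 0 := by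
    intro X _ _ hX1 hX2 hn
    obtain ⟨c, hc⟩ := hB3 X hX2 hn
    have h1 : T ≤ LinearMap.ker c := by
      rintro _ ⟨y, rfl⟩
      rw [LinearMap.mem_ker]
      change c ((∑ i, b i ∘ₗ LinearMap.proj i) y) = 0
      rw [LinearMap.sum_apply, map_sum]
      refine Finset.sum_eq_zero (fun i _ => ?_)
      have h2 : (c ∘ₗ b i) ∘ₗ (LinearMap.range f).mkQ = 0 := by
        apply hX1
        rw [LinearMap.comp_assoc, mkQ_comp, LinearMap.comp_zero]
      obtain ⟨z, hz⟩ := Submodule.mkQ_surjective (LinearMap.range f) (y i)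
      change c (b i (y i)) = 0
      rw [← hz]
      exact LinearMap.congr_fun h2 z
    refine ⟨T.liftQ c h1, fun h0 => hc ?_⟩
    ext x
    have h2 := LinearMap.congr_fun h0 (T.mkQ x)
    exact h2
  exact pack (k := k) T (fun B _ _ => H0 f B ∧ E0 f B ∧
      ∀ (X : Type u) [AddCommGroup X] [Module A X], H0 f X → E0 f X → Nontrivial X →
        ∃ b : B →ₗ[A] X, b ≠ 0) ⟨hq2, hq1, hq3⟩

omit [Module.Finite k A] [Module.Projective A P] [Module.Projective A Q] in
/-- weight of objects without obstruction -/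
theorem Th_nonneg {f : P →ₗ[A] Q} {X : Type u} [AddCommGroup X] [Module A X] [Module k X]
    [IsScalarTower k A X] [Module.Finite k X] (h : E0 f X) : 0 ≤ Th k A P Q X := by
  have _ := finite_hom (k := k) (A := A) (P := P) (X := X)
  have _ := finite_hom (k := k) (A := A) (P := Q) (X := X)
  have h1 : Surjective (pre k f X) := fun φ => by
    obtain ⟨ψ, hψ⟩ := h φ
    exact ⟨ψ, hψ.symm⟩
  have h2 := LinearMap.finrank_le_finrank_of_surjective h1
  rw [Th, hd, hd]
  omega

omit [Module.Finite k A] [Module.Projective A P] [Module.Projective A Q] in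
theorem Th_pos {f : P →ₗ[A] Q} {X : Type u} [AddCommGroup X] [Module A X] [Module k X]
    [IsScalarTower k A X] [Module.Finite k X] (h : E0 f X) (g : Q →ₗ[A] X) (hg : g ∘ₗ f = 0)
    (hg0 : g ≠ 0) : 0 < Th k A P Q X := by
  have _ := finite_hom (k := k) (A := A) (P := P) (X := X)
  have _ := finite_hom (k := k) (A := A) (P := Q) (X := X)
  have h1 : LinearMap.range (pre k f X) = ⊤ := by
    rw [LinearMap.range_eq_top]
    intro φ
    obtain ⟨ψ, hψ⟩ := h φ
    exact ⟨ψ, hψ.symm⟩
  have h2 := LinearMap.finrank_range_add_finrank_ker (pre k f X)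
  rw [h1, finrank_top] at h2
  have h3 : 0 < finrank k (LinearMap.ker (pre k f X)) := by
    rw [Module.finrank_pos_iff]
    exact ⟨⟨⟨g, hg⟩, 0, fun h10 => hg0 (congrArg Subtype.val h10)⟩⟩
  rw [Th, hd, hd]
  omega

omit [Module.Finite k A] [Module.Projective A P] [Module.Projective A Q] in
theorem Th_zero {f : P →ₗ[A] Q} {X : Type u} [AddCommGroup X] [Module A X] [Module k X]
    [IsScalarTower k A X] [Module.Finite k X] (h : E0 f X) (h' : H0 f X) :
    Th k A P Q X = 0 := by
  have _ := finite_hom (k := k) (A := A) (P := P) (X := X)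
  have _ := finite_hom (k := k) (A := A) (P := Q) (X := X)
  have h1 : Bijective (pre k f X) := by
    constructor
    · rw [injective_iff_map_eq_zero]
      exact fun g hg => h' g hg
    · intro φ
      obtain ⟨ψ, hψ⟩ := h φ
      exact ⟨ψ, hψ.symm⟩
  have h2 := (LinearEquiv.ofBijective (pre k f X) h1).finrank_eq
  rw [Th, hd, hd, h2, sub_self]

/-- stability for the weight of the presentation space -/
def St (k : Type u) [Field k] (A : Type u) [Ring A] [Algebra k A] (P Q X : Type u)
    [AddCommGroup P] [Module A P] [AddCommGroup Q] [Module A Q]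
    [AddCommGroup X] [Module A X] [Module k X] [IsScalarTower k A X] : Prop :=
  Nontrivial X ∧ Th k A P Q X = 0 ∧ ∀ U : Submodule A X, U ≠ ⊥ → U ≠ ⊤ → Th k A P Q U < 0

section st

variable {X Y : Type u} [AddCommGroup X] [Module A X] [Module k X] [IsScalarTower k A X]
  [Module.Finite k X] [AddCommGroup Y] [Module A Y] [Module k Y] [IsScalarTower k A Y]
  [Module.Finite k Y]

theorem St.surj {f : P →ₗ[A] Q} (hX : St k A P Q X) (hY : E0 f Y) (g : Y →ₗ[A] X) (hg : g ≠ 0) :
    Surjective g := by
  rw [← LinearMap.range_eq_top]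
  by_contra hne
  have hfin : Module.Finite k (LinearMap.range g) :=
    Module.Finite.of_injective ((LinearMap.range g).subtype.restrictScalars k)
      (Subtype.val_injective)
  have h1 := hX.2.2 (LinearMap.range g) (fun h => hg (LinearMap.range_eq_bot.mp h)) hne
  have h2 := Th_nonneg (k := k) (hY.quot g.rangeRestrict g.surjective_rangeRestrict)
  omega

theorem St.H0 {f : P →ₗ[A] Q} (hf : Rigid f) (hX : St k A P Q X) : H0 f X := by
  intro g hg
  by_contra hg0
  have hC : E0 f (LinearMap.range g) := by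
    obtain ⟨g', hg'⟩ := exists_bar g hg
    have h1 : LinearMap.range g' = LinearMap.range g := by
      rw [← hg', LinearMap.range_comp, Submodule.range_mkQ, Submodule.map_top]
    rw [← h1]
    exact hf.E0_coker.quot g'.rangeRestrict g'.surjective_rangeRestrict
  have hfin : Module.Finite k (LinearMap.range g) :=
    Module.Finite.of_injective ((LinearMap.range g).subtype.restrictScalars k)
      (Subtype.val_injective)
  have h2 := Th_pos (k := k) hC g.rangeRestrict (by
    ext x
    exact LinearMap.congr_fun hg x) (fun h => hg0 (by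
    ext x
    exact congrArg Subtype.val (LinearMap.congr_fun h x)))
  by_cases h3 : LinearMap.range g = ⊤
  · have h4 : Th k A P Q (LinearMap.range g) = Th k A P Q X :=
      Th_congr (LinearEquiv.ofTop _ h3)
    rw [h4, hX.2.1] at h2
    exact lt_irrefl _ h2
  · have h1 := hX.2.2 (LinearMap.range g) (fun h => hg0 (LinearMap.range_eq_bot.mp h)) h3
    omega

theorem St.E0 {f : P →ₗ[A] Q} (hf : Rigid f) (hX : St k A P Q X) : E0 f X := by
  have _ := finite_hom (k := k) (A := A) (P := P) (X := X)
  have _ := finite_hom (k := k) (A := A) (P := Q) (X := X)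
  have h1 : Injective (pre k f X) := by
    rw [injective_iff_map_eq_zero]
    exact fun g hg => hX.H0 hf g hg
  have h2 : finrank k (Q →ₗ[A] X) = finrank k (P →ₗ[A] X) := by
    have := hX.2.1
    rw [Th, hd, hd] at this
    omega
  have h3 : Surjective (pre k f X) := (LinearMap.injective_iff_surjective_of_finrank_eq_finrank
    h2).mp h1
  intro φ
  obtain ⟨ψ, hψ⟩ := h3 φ
  exact ⟨ψ, hψ.symm⟩

theorem St.iso {f : P →ₗ[A] Q} (hf : Rigid f) (hX : St k A P Q X) (hY : St k A P Q Y)
    (g : X →ₗ[A] Y) (hg : g ≠ 0) : Nonempty (X ≃ₗ[A] Y) := by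
  have h1 : Surjective g := hY.surj (hX.E0 hf) g hg
  have h2 : Injective g := by
    rw [← LinearMap.ker_eq_bot]
    by_contra hne
    have h3 := W_ker (hX.H0 hf) (hX.E0 hf) (hY.H0 hf) g
    have hfin : Module.Finite k (LinearMap.ker g) :=
      Module.Finite.of_injective ((LinearMap.ker g).subtype.restrictScalars k)
        (Subtype.val_injective)
    have h4 := Th_zero (k := k) h3.2 h3.1
    have h5 := hX.2.2 (LinearMap.ker g) hne (fun h => hg (LinearMap.ker_eq_top.mp h))
    omega
  exact ⟨LinearEquiv.ofBijective g ⟨h2, h1⟩⟩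

end st

/-- counting -/
theorem count {f : P →ₗ[A] Q} (hf : Rigid f) {N : ℕ} (V : Fin N → Type u)
    [∀ j, AddCommGroup (V j)] [∀ j, Module A (V j)] [∀ j, Module k (V j)]
    [∀ j, IsScalarTower k A (V j)] [∀ j, Module.Finite k (V j)] (hV : ∀ j, St k A P Q (V j))
    (hne : ∀ j j', Nonempty (V j ≃ₗ[A] V j') → j = j') :
    ∀ (n : ℕ) (X : Type u) [AddCommGroup X] [Module A X] [Module k X] [IsScalarTower k A X]
      [Module.Finite k X], H0 f X → E0 f X → finrank k X = n → ∀ s : Finset (Fin N),
      (∀ i ∈ s, ∃ g : X →ₗ[A] V i, g ≠ 0) → s.card ≤ n := by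
  classical
  intro n
  induction n using Nat.strong_induction_on with
  | _ n ih =>
    intro X _ _ _ _ _ hX1 hX2 hn s hs
    rcases s.eq_empty_or_nonempty with rfl | ⟨i, hi⟩
    · simp
    obtain ⟨g, hg⟩ := hs i hi
    have hsurj : Surjective g := (hV i).surj hX2 g hg
    have hK := W_ker hX1 hX2 ((hV i).H0 hf) g
    have hfin : Module.Finite k (LinearMap.ker g) :=
      Module.Finite.of_injective ((LinearMap.ker g).subtype.restrictScalars k)
        (Subtype.val_injective)
    have hdim := dim_ses (k := k) (LinearMap.ker g).subtype g Subtype.val_injective hsurj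
      (Submodule.range_subtype _)
    have hVn : Nontrivial (V i) := (hV i).1
    have hVpos : 0 < finrank k (V i) := Module.finrank_pos
    have h1 := ih (finrank k (LinearMap.ker g)) (by omega) (LinearMap.ker g) hK.1 hK.2 rfl
      (s.erase i) (by
        intro j hj
        rw [Finset.mem_erase] at hj
        obtain ⟨g', hg'⟩ := hs j hj.2
        refine ⟨g' ∘ₗ (LinearMap.ker g).subtype, fun h0 => hj.1 ?_⟩
        -- g' factors through g
        have h2 : LinearMap.ker g ≤ LinearMap.ker g' := fun x hx =>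
          LinearMap.congr_fun h0 ⟨x, hx⟩
        let e := LinearMap.quotKerEquivOfSurjective g hsurj
        let g'' : V i →ₗ[A] V j := (LinearMap.ker g).liftQ g' h2 ∘ₗ e.symm.toLinearMap
        have h3 : g'' ≠ 0 := by
          intro h4
          apply hg'
          ext x
          have h5 := LinearMap.congr_fun h4 (g x)
          have h6 : e.symm (g x) = (LinearMap.ker g).mkQ x := by
            rw [LinearEquiv.symm_apply_eq]
            rfl
          change (LinearMap.ker g).liftQ g' h2 (e.symm (g x)) = 0 at h5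
          rw [h6] at h5
          exact h5
        exact (hne i j ((hV i).iso hf (hV j) g'' h3)).symm)
    rw [Finset.card_erase_of_mem hi] at h1
    have : 0 < s.card := Finset.card_pos.mpr ⟨i, hi⟩
    omega

variable (k) in
/-- a rigid presentation bounds the number of stable modules of its weight -/
theorem bound {f : P →ₗ[A] Q} (hf : Rigid f) : ∃ n : ℕ, ∀ (N : ℕ) (V : Fin N → Type u)
    [∀ j, AddCommGroup (V j)] [∀ j, Module A (V j)] [∀ j, Module k (V j)]
    [∀ j, IsScalarTower k A (V j)] [∀ j, Module.Finite k (V j)], (∀ j, St k A P Q (V j)) →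
    (∀ j j', Nonempty (V j ≃ₗ[A] V j') → j = j') → N ≤ n := by
  obtain ⟨B, _, _, _, _, hB1, hB2, hB3, hB4⟩ := exists_W k hf
  refine ⟨finrank k B, ?_⟩
  intro N V _ _ _ _ _ hV hne
  have h := count (k := k) hf V hV hne (finrank k B) B hB2 hB3 rfl Finset.univ (fun i _ =>
    hB4 (V i) ((hV i).H0 hf) ((hV i).E0 hf) (hV i).1)
  simpa using h

end fin

end BT
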