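import Mathlib
import Pool.Agent.Helper16.BT.Idem

/-!
Existence of the idempotent data over an algebraically closed field.
-/

universe u

namespace BT

open Module Function

/-- the matrix unit idempotents of a product of matrix algebras -/
def mU {k : Type u} [Field k] {s : ℕ} (d : Fin s → ℕ) (p : Σ t : Fin s, Fin (d t)) :
    ∀ t, Matrix (Fin (d t)) (Fin (d t)) k :=
  Pi.single p.1 (Matrix.single p.2 p.2 1)

theorem mU_same {k : Type u} [Field k] {s : ℕ} (d : Fin s → ℕ) (t : Fin s) (j : Fin (d t)) :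
    mU (k := k) d ⟨t, j⟩ t = Matrix.single j j 1 := Pi.single_eq_same _ _

theorem mU_ne {k : Type u} [Field k] {s : ℕ} (d : Fin s → ℕ) (t x : Fin s) (j : Fin (d t))
    (h : x ≠ t) : mU (k := k) d ⟨t, j⟩ x = 0 := Pi.single_eq_of_ne h _

theorem mU_complete {k : Type u} [Field k] {s : ℕ} (d : Fin s → ℕ) :
    CompleteOrthogonalIdempotents (mU (k := k) d) := by
  classical
  rw [CompleteOrthogonalIdempotents.iff_ortho_complete]
  constructor
  · rintro ⟨t, j⟩ ⟨t', j'⟩ hne
    ext x y z
    rw [Pi.mul_apply]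
    by_cases h : x = t
    · subst h
      by_cases h' : x = t'
      · subst h'
        have hj : j ≠ j' := fun h => hne (by rw [h])
        rw [mU_same, mU_same, Matrix.single_mul_single_of_ne (h := hj)]
        rfl
      · rw [mU_ne d t' x j' h', mul_zero]
        rfl
    · rw [mU_ne d t x j h, zero_mul]
      rfl
  · rw [Fintype.sum_sigma]
    ext t i j
    rw [Finset.sum_apply, Finset.sum_eq_single t]
    · rw [Finset.sum_apply]
      change (∑ x : Fin (d t), (Pi.single t (Matrix.single x x 1) :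
        ∀ t, Matrix (Fin (d t)) (Fin (d t)) k) t) i j = (1 : Matrix (Fin (d t)) (Fin (d t)) k) i j
      simp only [Pi.single_eq_same]
      rw [Matrix.sum_apply]
      simp only [Matrix.single_apply, Matrix.one_apply]
      by_cases hij : i = j
      · subst hij
        simp
      · rw [if_neg hij]
        refine Finset.sum_eq_zero (fun x _ => ?_)
        rw [if_neg]
        rintro ⟨h1, h2⟩
        exact hij (h1.symm.trans h2)
    · intro t' _ ht
      rw [Finset.sum_apply]
      refine Finset.sum_eq_zero (fun x _ => ?_)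
      rw [mU]
      exact Pi.single_eq_of_ne (Ne.symm ht) _
    · simp

theorem exists_dat (k A : Type u) [Field k] [IsAlgClosed k] [Ring A] [Algebra k A]
    [Module.Finite k A] : ∃ (s : ℕ) (d : Fin s → ℕ),
      Nonempty (Dat k A (Σ t : Fin s, Fin (d t)) s) := by
  classical
  have hA : IsArtinianRing A := IsArtinianRing.of_finite k A
  have hss : IsSemisimpleRing (A ⧸ Ring.jacobson A) := IsSemiprimaryRing.isSemisimpleRing
  have hnil : IsNilpotent (Ring.jacobson A) := IsSemiprimaryRing.isNilpotent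
  have hfin : Module.Finite k (A ⧸ Ring.jacobson A) :=
    Module.Finite.of_surjective (Ideal.Quotient.mkₐ k (Ring.jacobson A)).toLinearMap
      Ideal.Quotient.mk_surjective
  obtain ⟨s, d, hd, ⟨F⟩⟩ :=
    IsSemisimpleRing.exists_algEquiv_pi_matrix_of_isAlgClosed k (A ⧸ Ring.jacobson A)
  let π : A →ₐ[k] (∀ i, Matrix (Fin (d i)) (Fin (d i)) k) :=
    F.toAlgHom.comp (Ideal.Quotient.mkₐ k (Ring.jacobson A))
  have hπs : Surjective π := F.surjective.comp Ideal.Quotient.mk_surjective
  have hπ0 : ∀ a, π a = 0 ↔ a ∈ Ring.jacobson A := by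
    intro a
    change F (Ideal.Quotient.mk _ a) = 0 ↔ _
    rw [map_eq_zero_iff F F.injective, Ideal.Quotient.eq_zero_iff_mem]
  let π' : A →+* (∀ i, Matrix (Fin (d i)) (Fin (d i)) k) := π
  have hker : ∀ x ∈ RingHom.ker π', IsNilpotent x := by
    intro x hx
    have hx' : x ∈ Ring.jacobson A := (hπ0 x).mp hx
    obtain ⟨n, hn⟩ := hnil
    refine ⟨n, ?_⟩
    have h1 : x ^ n ∈ (Ring.jacobson A) ^ n := Ideal.pow_mem_pow hx' n
    rw [hn] at h1
    exact h1
  obtain ⟨e, he, hπe⟩ := CompleteOrthogonalIdempotents.lift_of_isNilpotent_ker π' hker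
    (mU_complete (k := k) d) (fun i => by
      obtain ⟨a, ha⟩ := hπs (mU d i)
      exact ⟨a, ha⟩)
  have hπe' : ∀ i, π (e i) = mU d i := fun i => congrFun hπe i
  refine ⟨s, d, ⟨⟨e, fun p => p.1, fun t => ⟨t, ⟨0, Nat.pos_of_ne_zero (hd t).out⟩⟩,
    he, fun t => rfl, ?_, ?_, ?_⟩⟩⟩
  · rintro ⟨t, j⟩ a
    refine ⟨π a t j j, ?_⟩
    rw [← hπ0, map_sub, map_mul, map_mul, map_smul, hπe', sub_eq_zero]
    ext t' x y
    by_cases h : t' = t
    · subst h
      simp only [mU, Pi.mul_apply, Pi.single_eq_same, Pi.smul_apply]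
      rw [Matrix.single_mul_mul_single, one_mul, mul_one, Matrix.smul_apply, Matrix.single_apply,
        Matrix.single_apply]
      split_ifs <;> simp
    · have h0 : mU (k := k) d ⟨t, j⟩ t' = 0 := Pi.single_eq_of_ne h _
      simp only [Pi.mul_apply, Pi.smul_apply, h0]
      simp
  · rintro ⟨t, j⟩
    obtain ⟨a, ha⟩ := hπs (Pi.single t (Matrix.single j ⟨0, Nat.pos_of_ne_zero (hd t).out⟩ 1))
    obtain ⟨b, hb⟩ := hπs (Pi.single t (Matrix.single ⟨0, Nat.pos_of_ne_zero (hd t).out⟩ j 1))
    refine ⟨a, b, ?_⟩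
    rw [← hπ0, map_sub, map_mul, map_mul, hπe', hπe', ha, hb, sub_eq_zero, mU, mU]
    ext x y z
    by_cases h : x = t
    · subst h
      simp only [Pi.mul_apply, Pi.single_eq_same]
      rw [Matrix.single_mul_single_same, Matrix.single_mul_single_same, one_mul, one_mul]
    · simp only [Pi.mul_apply]
      rw [Pi.single_eq_of_ne h, Pi.single_eq_of_ne h]
      simp
  · intro t t' hne a
    rw [← hπ0, map_mul, map_mul, hπe', hπe']
    ext x y z
    by_cases h : x = t
    · have h0 : mU (k := k) d ⟨t', ⟨0, Nat.pos_of_ne_zero (hd t').out⟩⟩ x = 0 :=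
        Pi.single_eq_of_ne (h ▸ hne) _
      simp only [Pi.mul_apply, h0]
      simp
    · have h0 : mU (k := k) d ⟨t, ⟨0, Nat.pos_of_ne_zero (hd t).out⟩⟩ x = 0 :=
        Pi.single_eq_of_ne h _
      simp only [Pi.mul_apply, h0]
      simp

/-- the statement used later -/
theorem exists_weights (k A : Type u) [Field k] [IsAlgClosed k] [Ring A] [Algebra k A]
    [Module.Finite k A] : ∃ (n : ℕ) (e : Fin n → A), CompleteOrthogonalIdempotents e ∧
      ∀ (P Q : Type u) [AddCommGroup P] [Module A P] [Module k P] [IsScalarTower k A P]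
        [Module.Finite k P] [Module.Projective A P] [AddCommGroup Q] [Module A Q] [Module k Q]
        [IsScalarTower k A Q] [Module.Finite k Q] [Module.Projective A Q],
      ∃ w : Fin n → ℤ, ∀ (X : Type u) [AddCommGroup X] [Module A X] [Module k X]
        [IsScalarTower k A X] [Module.Finite k X],
        Th k A P Q X = ∑ i, w i * (ed k (e i) X : ℤ) := by
  obtain ⟨s, d, ⟨D⟩⟩ := exists_dat k A
  let E := Fintype.equivFin (Σ t : Fin s, Fin (d t))
  refine ⟨Fintype.card (Σ t : Fin s, Fin (d t)), D.e ∘ E.symm,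
    (CompleteOrthogonalIdempotents.equiv E.symm).mpr D.he, ?_⟩
  intro P Q _ _ _ _ _ _ _ _ _ _ _ _
  obtain ⟨w, hw⟩ := D.weight P Q
  refine ⟨w ∘ E.symm, ?_⟩
  intro X _ _ _ _ _
  rw [hw X]
  exact (Equiv.sum_comp E.symm (fun i => w i * (ed k (D.e i) X : ℤ))).symm

end BT
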