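import Mathlib
import Pool.Agent.Helper16.BT.Struct

/-!
A presentation space without rigid point gives infinitely many stable modules of one dimension
vector.
-/

namespace BT

open Module Function

/-- There are a complete system of orthogonal idempotents, a dimension vector `d` and a weight
`θ` with infinitely many non-isomorphic `θ`-stable modules of dimension vector `d`. -/
def HasStableFamily (k : Type) [Field k] (A : Type) [Ring A] [Algebra k A] : Prop :=
  ∃ (n : ℕ) (e : Fin n → A) (d : Fin n → ℕ) (θ : Fin n → ℤ),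
    CompleteOrthogonalIdempotents e ∧ (∑ i, θ i * (d i : ℤ)) = 0 ∧
    ∀ N : ℕ, ∃ (M : Fin N → Type) (_ : ∀ j, AddCommGroup (M j))
      (_ : ∀ j, Module A (M j)) (_ : ∀ j, Module k (M j))
      (_ : ∀ j, IsScalarTower k A (M j)),
      (∀ j, Module.Finite k (M j)) ∧ (∀ j, Nontrivial (M j)) ∧
      (∀ (j : Fin N) (i : Fin n),
        Module.finrank k (LinearMap.range (DistribMulAction.toLinearMap k (M j) (e i)))
          = d i) ∧
      (∀ (j : Fin N) (P : Submodule A (M j)), P ≠ ⊥ → P ≠ ⊤ →
        0 < ∑ i, θ i * (Module.finrank k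
          (Submodule.map (DistribMulAction.toLinearMap k (M j) (e i))
            (P.restrictScalars k)) : ℤ)) ∧
      (∀ j j', Nonempty (M j ≃ₗ[A] M j') → j = j')

/-- bundled finite dimensional modules -/
structure FM (k A : Type) [Field k] [Ring A] [Algebra k A] where
  X : Type
  [i1 : AddCommGroup X]
  [i2 : Module A X]
  [i3 : Module k X]
  [i4 : IsScalarTower k A X]
  [i5 : Module.Finite k X]

attribute [instance] FM.i1 FM.i2 FM.i3 FM.i4 FM.i5

/-- isomorphism -/
def fmSetoid (k A : Type) [Field k] [Ring A] [Algebra k A] : Setoid (FM k A) where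
  r X Y := Nonempty (X.X ≃ₗ[A] Y.X)
  iseqv := ⟨fun X => ⟨LinearEquiv.refl A X.X⟩, fun ⟨e⟩ => ⟨e.symm⟩,
    fun ⟨e⟩ ⟨e'⟩ => ⟨e.trans e'⟩⟩

theorem forward (k : Type) [Field k] [IsAlgClosed k] (A : Type) [Ring A] [Algebra k A]
    [Module.Finite k A] (P Q : Type) [AddCommGroup P] [Module A P] [Module.Finite A P]
    [Module.Projective A P] [AddCommGroup Q] [Module A Q] [Module.Finite A Q]
    [Module.Projective A Q] (hPQ : ∀ f : P →ₗ[A] Q, ¬ Rigid f) : HasStableFamily k A := by
  classical
  by_contra hcon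
  let _ : Module k P := Module.compHom P (algebraMap k A)
  have _ : IsScalarTower k A P := ⟨fun c a z => by
    change (c • a) • z = (algebraMap k A c) • (a • z)
    rw [Algebra.smul_def, mul_smul]⟩
  let _ : Module k Q := Module.compHom Q (algebraMap k A)
  have _ : IsScalarTower k A Q := ⟨fun c a z => by
    change (c • a) • z = (algebraMap k A c) • (a • z)
    rw [Algebra.smul_def, mul_smul]⟩
  have _ : Module.Finite k P := Module.Finite.trans A P
  have _ : Module.Finite k Q := Module.Finite.trans A Q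
  obtain ⟨n, e, he, hw⟩ := exists_weights k A
  obtain ⟨w, hw⟩ := hw P Q
  let D := finrank k Q
  -- the isomorphism classes
  let S : (Fin n → Fin (D + 1)) → Set (Quotient (fmSetoid k A)) := fun d =>
    {q | ∃ X : FM k A, Quotient.mk (fmSetoid k A) X = q ∧ Nontrivial X.X ∧ Stab k A P Q X.X ∧
      ∀ i, ed k (e i) X.X = (d i : ℕ)}
  have hSfin : ∀ d, (S d).Finite := by
    intro d
    by_contra hinf
    apply hcon
    let Θ : ℤ := ∑ i, w i * ((d i : ℕ) : ℤ)
    let T : ℤ := ∑ i, ((d i : ℕ) : ℤ)
    refine ⟨n, e, fun i => (d i : ℕ), fun i => Θ - T * w i, he, ?_, ?_⟩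
    · simp only [sub_mul, Finset.sum_sub_distrib, ← Finset.mul_sum, mul_assoc]
      change Θ * T - T * Θ = 0
      ring
    intro N
    have hinf' : (S d).Infinite := hinf
    let F := hinf'.natEmbedding
    have hF : ∀ j : Fin N, ∃ X : FM k A, Quotient.mk (fmSetoid k A) X = (F (j : ℕ) : Quotient _) ∧
        Nontrivial X.X ∧ Stab k A P Q X.X ∧ ∀ i, ed k (e i) X.X = (d i : ℕ) :=
      fun j => (F (j : ℕ)).2
    choose M hM1 hM2 hM3 hM4 using hF
    refine ⟨fun j => (M j).X, fun j => (M j).i1, fun j => (M j).i2, fun j => (M j).i3,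
      fun j => (M j).i4, fun j => (M j).i5, hM2, fun j i => hM4 j i, ?_, ?_⟩
    · intro j U hU0 hU1
      have h1 := hM3 j U hU0 hU1
      have hfin : Module.Finite k U :=
        Module.Finite.of_injective (U.subtype.restrictScalars k) (Subtype.val_injective)
      rw [hw (M j).X, hw U, dim_eq_sum (k := k) he (X := (M j).X), dim_eq_sum (k := k) he (X := U)] at h1
      simp only [ed_sub]
      simp only [hM4 j] at h1
      push_cast at h1
      have h2 : ∑ i, (Θ - T * w i) * (ed k (e i) U : ℤ) =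
          Θ * (∑ i, (ed k (e i) U : ℤ)) - T * ∑ i, w i * (ed k (e i) U : ℤ) := by
        rw [Finset.mul_sum, Finset.mul_sum, ← Finset.sum_sub_distrib]
        refine Finset.sum_congr rfl (fun i _ => ?_)
        ring
      rw [h2]
      change (∑ i, w i * (ed k (e i) U : ℤ)) * T < Θ * _ at h1
      linarith
    · rintro j j' ⟨f⟩
      have h1 : (F (j : ℕ) : Quotient (fmSetoid k A)) = F (j' : ℕ) := by
        rw [← hM1 j, ← hM1 j']
        exact Quotient.sound ⟨f⟩
      have h2 := F.injective (Subtype.ext h1)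
      exact Fin.ext h2
  let S' : Set (Quotient (fmSetoid k A)) := ⋃ d, S d
  have hS' : S'.Finite := Set.finite_iUnion hSfin
  let E := hS'.toFinset.equivFin.symm
  let M : Fin hS'.toFinset.card → Type := fun j => ((E j : Quotient (fmSetoid k A)).out).X
  obtain ⟨f, hf⟩ := core (k := k) (A := A) (P := P) (Q := Q) M (by
    intro X _ _ _ _ _ hX1 hX2 hX3
    have hsum := dim_eq_sum (k := k) he (X := X)
    have hle : ∀ i, ed k (e i) X < D + 1 := by
      intro i
      have h1 : ed k (e i) X ≤ ∑ i, ed k (e i) X :=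
        Finset.single_le_sum (f := fun i => ed k (e i) X) (fun i _ => Nat.zero_le _)
          (Finset.mem_univ i)
      have h2 : finrank k X ≤ D := hX3
      omega
    let Xb : FM k A := ⟨X⟩
    have h3 : Quotient.mk (fmSetoid k A) Xb ∈ S' := by
      refine Set.mem_iUnion.mpr ⟨fun i => ⟨ed k (e i) X, hle i⟩, Xb, rfl, hX1, hX2, fun i => rfl⟩
    have h4 : Quotient.mk (fmSetoid k A) Xb ∈ hS'.toFinset := hS'.mem_toFinset.mpr h3
    refine ⟨E.symm ⟨_, h4⟩, ?_⟩
    have h5 : (E (E.symm ⟨_, h4⟩) : Quotient (fmSetoid k A)) = Quotient.mk (fmSetoid k A) Xb := by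
      rw [E.apply_symm_apply]
    have h6 : (fmSetoid k A).r ((Quotient.mk (fmSetoid k A) Xb).out) Xb :=
      Quotient.exact (Quotient.out_eq _)
    obtain ⟨g⟩ := h6
    change Nonempty (X ≃ₗ[A] ((E (E.symm ⟨_, h4⟩) : Quotient (fmSetoid k A)).out).X)
    rw [h5]
    exact ⟨g.symm⟩)
  exact hPQ f hf

end BT
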