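import Mathlib
import Pool.Agent.Helper16.BT.Forward
import Pool.Agent.Helper16.BT.Conv

/-!
Infinitely many stable modules of one dimension vector give a presentation space without rigid
point.
-/

namespace BT

open Module Function

/-- finite products of the projective modules `A e` -/
abbrev PP {A : Type} [Ring A] {n : ℕ} (e : Fin n → A) (a : Fin n → ℕ) : Type :=
  ∀ p : (Σ i : Fin n, Fin (a i)), Pe (e p.1)

theorem projective_pi {A : Type} [Ring A] {ι : Type} [Fintype ι] (M : ι → Type)
    [∀ i, AddCommGroup (M i)] [∀ i, Module A (M i)] [∀ i, Module.Projective A (M i)] :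
    Module.Projective A (∀ i, M i) := by
  classical
  exact Module.Projective.of_equiv' (DFinsupp.linearEquivFunOnFintype (R := A) (M := M))

theorem hd_pi {k A : Type} [Field k] [Ring A] [Algebra k A] {ι : Type} [Fintype ι] (M : ι → Type)
    [∀ i, AddCommGroup (M i)] [∀ i, Module A (M i)] [∀ i, Module k (M i)]
    [∀ i, IsScalarTower k A (M i)] [∀ i, Module.Finite k (M i)] (X : Type) [AddCommGroup X]
    [Module A X] [Module k X] [IsScalarTower k A X] [Module.Finite k X] :
    hd k A (∀ i, M i) X = ∑ i, hd k A (M i) X := by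
  classical
  have hfin : ∀ i, Module.Finite k (M i →ₗ[A] X) := fun i => finite_hom
  have h := (LinearMap.lsum A M k (M := X)).finrank_eq
  rw [hd, ← h, Module.finrank_pi_fintype]
  rfl

theorem backward (k : Type) [Field k] (A : Type) [Ring A] [Algebra k A]
    [Module.Finite k A] (h : HasStableFamily k A) :
    ∃ (P Q : Type) (_ : AddCommGroup P) (_ : AddCommGroup Q) (_ : Module A P) (_ : Module A Q),
      Module.Finite A P ∧ Module.Finite A Q ∧ Module.Projective A P ∧ Module.Projective A Q ∧
      ∀ f : P →ₗ[A] Q, ¬ Rigid f := by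
  classical
  obtain ⟨n, e, d, θ, he, hθ, hfam⟩ := h
  have hpe : ∀ i, Module.Projective A (Pe (e i)) := fun i => projective_Pe (he.idem i)
  have hfe : ∀ i, Module.Finite A (Pe (e i)) := fun i => finite_Pe (e i)
  have hfk : ∀ i, Module.Finite k (Pe (e i)) := fun i => Module.Finite.trans A (Pe (e i))
  let a : Fin n → ℕ := fun i => (θ i).toNat
  let b : Fin n → ℕ := fun i => (-θ i).toNat
  have hpp : ∀ c : Fin n → ℕ, Module.Projective A (PP e c) := fun c =>
    projective_pi (fun p : (Σ i : Fin n, Fin (c i)) => Pe (e p.1))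
  have hdim : ∀ (c : Fin n → ℕ) (X : Type) [AddCommGroup X] [Module A X] [Module k X]
      [IsScalarTower k A X] [Module.Finite k X], hd k A (PP e c) X = ∑ i, c i * ed k (e i) X := by
    intro c X _ _ _ _ _
    rw [hd_pi (k := k) (A := A) (fun p : (Σ i : Fin n, Fin (c i)) => Pe (e p.1)) X,
      Fintype.sum_sigma]
    refine Finset.sum_congr rfl (fun i _ => ?_)
    simp only [hd_Pe (k := k) (he.idem i), Finset.sum_const, Finset.card_univ, Fintype.card_fin,
      smul_eq_mul]
  have hTh : ∀ (X : Type) [AddCommGroup X] [Module A X] [Module k X]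
      [IsScalarTower k A X] [Module.Finite k X], Th k A (PP e a) (PP e b) X =
        - ∑ i, θ i * (ed k (e i) X : ℤ) := by
    intro X _ _ _ _ _
    rw [Th, hdim, hdim, Nat.cast_sum, Nat.cast_sum, ← Finset.sum_sub_distrib,
      ← Finset.sum_neg_distrib]
    refine Finset.sum_congr rfl (fun i _ => ?_)
    have h1 : ((b i : ℕ) : ℤ) - ((a i : ℕ) : ℤ) = - θ i := by
      change (((-θ i).toNat : ℕ) : ℤ) - (((θ i).toNat : ℕ) : ℤ) = - θ i
      rcases le_total 0 (θ i) with h | h
      · rw [Int.toNat_of_nonneg h, Int.toNat_of_nonpos (by omega)]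
        simp
      · rw [Int.toNat_of_nonpos h, Int.toNat_of_nonneg (by omega)]
        simp
    push_cast
    rw [← sub_mul, h1, neg_mul]
  refine ⟨PP e a, PP e b, inferInstance, inferInstance, inferInstance, inferInstance,
    inferInstance, inferInstance, hpp a, hpp b, ?_⟩
  intro f hf
  have _ := hpp a
  have _ := hpp b
  obtain ⟨m, hm⟩ := bound k hf
  obtain ⟨M, i1, i2, i3, i4, h1, h2, h3, h4, h5⟩ := hfam (m + 1)
  have h6 := hm (m + 1) M (fun j => ⟨h2 j, ?_, ?_⟩) h5
  · omega
  · rw [hTh]
    have h7 : ∀ i, (ed k (e i) (M j) : ℤ) = (d i : ℤ) := fun i => by exact_mod_cast h3 j i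
    simp only [h7, hθ, neg_zero]
  · intro U hU0 hU1
    have hfin : Module.Finite k U :=
      Module.Finite.of_injective (U.subtype.restrictScalars k) (Subtype.val_injective)
    have h8 := h4 j U hU0 hU1
    simp only [ed_sub] at h8
    rw [hTh]
    omega

end BT
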