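import Mathlib
import Pool.Agent.Helper16.BT.Conv

/-!
Torsion pairs of a rigid presentation and triangular presentations.
-/

universe u

namespace BT

open Module Function

section general

variable {k A : Type u} [Field k] [Ring A] [Algebra k A]
variable {P Q : Type u} [AddCommGroup P] [Module A P] [AddCommGroup Q] [Module A Q]
variable {P' Q' : Type u} [AddCommGroup P'] [Module A P'] [AddCommGroup Q'] [Module A Q']
variable {M : Type u} [AddCommGroup M] [Module A M]

/-- the torsion class of `f` -/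
def TT (f : P →ₗ[A] Q) (M : Type u) [AddCommGroup M] [Module A M] : Prop :=
  ∀ N : Submodule A M, H0 f (M ⧸ N) → N = ⊤

/-- no obstruction between two presentations -/
def EE (f : P →ₗ[A] Q) (f' : P' →ₗ[A] Q') : Prop :=
  ∀ g : P →ₗ[A] Q', ∃ (u : Q →ₗ[A] Q') (v : P →ₗ[A] P'), g = u ∘ₗ f + f' ∘ₗ v

theorem E0.ext [Module.Projective A Q] {f : P →ₗ[A] Q} (K : Submodule A M) (h1 : E0 f K)
    (h2 : E0 f (M ⧸ K)) : E0 f M := by
  intro φ
  obtain ⟨ψ, hψ⟩ := h2 (K.mkQ ∘ₗ φ)
  obtain ⟨χ, hχ⟩ := Module.projective_lifting_property K.mkQ ψ (Submodule.mkQ_surjective K)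
  have h3 : ∀ x, φ x - χ (f x) ∈ K := by
    intro x
    rw [← Submodule.Quotient.mk_eq_zero, Submodule.Quotient.mk_sub, sub_eq_zero]
    have h4 := LinearMap.congr_fun hψ x
    have h5 := LinearMap.congr_fun hχ (f x)
    exact h4.trans h5.symm
  obtain ⟨κ, hκ⟩ := h1 ((φ - χ ∘ₗ f).codRestrict K h3)
  refine ⟨χ + K.subtype ∘ₗ κ, ?_⟩
  ext x
  have h6 := congrArg Subtype.val (LinearMap.congr_fun hκ x)
  change φ x - χ (f x) = κ (f x) at h6
  change φ x = χ (f x) + κ (f x)
  rw [← h6]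
  abel

theorem H0.quot [Module.Projective A Q] {f : P →ₗ[A] Q} (U : Submodule A M) (h1 : H0 f M)
    (h2 : E0 f U) : H0 f (M ⧸ U) := by
  intro h hh
  obtain ⟨χ, hχ⟩ := Module.projective_lifting_property U.mkQ h (Submodule.mkQ_surjective U)
  have h3 : ∀ x, χ (f x) ∈ U := by
    intro x
    have h4 := LinearMap.congr_fun hh x
    have h5 := LinearMap.congr_fun hχ (f x)
    exact (Submodule.Quotient.mk_eq_zero U).mp (h5.trans h4)
  obtain ⟨κ, hκ⟩ := h2 ((χ ∘ₗ f).codRestrict U h3)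
  have h6 : χ - U.subtype ∘ₗ κ = 0 := by
    apply h1
    ext x
    have h7 := congrArg Subtype.val (LinearMap.congr_fun hκ x)
    change χ (f x) = κ (f x) at h7
    change χ (f x) - κ (f x) = 0
    rw [h7, sub_self]
  ext x
  have h8 := LinearMap.congr_fun hχ x
  rw [← h8]
  have h9 := LinearMap.congr_fun h6 x
  change χ x - κ x = 0 at h9
  have h10 : χ x ∈ U := by
    rw [sub_eq_zero.mp h9]
    exact (κ x).2
  exact (Submodule.Quotient.mk_eq_zero U).mpr h10

theorem TT.of_surj {f : P →ₗ[A] Q} {M' : Type u} [AddCommGroup M'] [Module A M'] (h : TT f M)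
    (p : M →ₗ[A] M') (hp : Surjective p) : TT f M' := by
  intro N hN
  let q : M →ₗ[A] (M' ⧸ N) := N.mkQ ∘ₗ p
  have hq : Surjective q := (Submodule.mkQ_surjective N).comp hp
  have h1 : LinearMap.ker q = ⊤ := by
    apply h
    exact hN.sub (LinearMap.quotKerEquivOfSurjective q hq).toLinearMap
      (LinearEquiv.injective _)
  rw [Submodule.eq_top_iff']
  intro y
  obtain ⟨x, rfl⟩ := hp y
  have h2 : x ∈ LinearMap.ker q := h1 ▸ Submodule.mem_top
  exact (Submodule.Quotient.mk_eq_zero N).mp h2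

theorem TT.congr {f : P →ₗ[A] Q} {M' : Type u} [AddCommGroup M'] [Module A M'] (h : TT f M)
    (e : M ≃ₗ[A] M') : TT f M' := h.of_surj e.toLinearMap e.surjective

theorem TT.eq_zero {f : P →ₗ[A] Q} (h : TT f M) (h' : H0 f M) (x : M) : x = 0 := by
  have h1 : (⊥ : Submodule A M) = ⊤ :=
    h ⊥ (h'.sub (Submodule.quotEquivOfEqBot ⊥ rfl).toLinearMap (LinearEquiv.injective _))
  have h2 : x ∈ (⊥ : Submodule A M) := h1 ▸ Submodule.mem_top
  exact (Submodule.mem_bot A).mp h2

theorem EE.E0 [Module.Projective A P] {f : P →ₗ[A] Q} {f' : P' →ₗ[A] Q'} (h : EE f f') :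
    E0 f (Q' ⧸ LinearMap.range f') := by
  intro φ
  obtain ⟨g, hg⟩ := Module.projective_lifting_property (LinearMap.range f').mkQ φ
    (Submodule.mkQ_surjective _)
  obtain ⟨a, v, hg'⟩ := h g
  refine ⟨(LinearMap.range f').mkQ ∘ₗ a, ?_⟩
  ext x
  have h1 := LinearMap.congr_fun hg x
  have h2 := LinearMap.congr_fun hg' x
  change (LinearMap.range f').mkQ (g x) = φ x at h1
  change g x = a (f x) + f' (v x) at h2
  have h3 : (LinearMap.range f').mkQ (f' (v x)) = 0 :=
    (Submodule.Quotient.mk_eq_zero _).mpr (LinearMap.mem_range_self f' (v x))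
  change φ x = (LinearMap.range f').mkQ (a (f x))
  rw [← h1, h2, map_add, h3, add_zero]

theorem EE.of_E0 [Module.Projective A P] [Module.Projective A Q] {f : P →ₗ[A] Q}
    {f' : P' →ₗ[A] Q'} (h : BT.E0 f (Q' ⧸ LinearMap.range f')) : EE f f' := by
  intro g
  obtain ⟨ψ, hψ⟩ := h ((LinearMap.range f').mkQ ∘ₗ g)
  obtain ⟨a, ha⟩ := Module.projective_lifting_property (LinearMap.range f').mkQ ψ
    (Submodule.mkQ_surjective _)
  have h1 : ∀ x, g x - a (f x) ∈ LinearMap.range f' := by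
    intro x
    rw [← Submodule.Quotient.mk_eq_zero, Submodule.Quotient.mk_sub, sub_eq_zero]
    have h4 := LinearMap.congr_fun hψ x
    have h5 := LinearMap.congr_fun ha (f x)
    exact h4.trans h5.symm
  obtain ⟨v, hv⟩ := Module.projective_lifting_property f'.rangeRestrict
    ((g - a ∘ₗ f).codRestrict (LinearMap.range f') h1) f'.surjective_rangeRestrict
  refine ⟨a, v, ?_⟩
  ext x
  have h2 := congrArg Subtype.val (LinearMap.congr_fun hv x)
  change f' (v x) = g x - a (f x) at h2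
  change g x = a (f x) + f' (v x)
  rw [h2]
  abel

/-- the triangular presentation -/
def tri (f : P →ₗ[A] Q) (g : P →ₗ[A] Q') (f' : P' →ₗ[A] Q') : (P × P') →ₗ[A] (Q × Q') :=
  LinearMap.prod (f ∘ₗ LinearMap.fst A P P') (g ∘ₗ LinearMap.fst A P P' + f' ∘ₗ LinearMap.snd A P P')

@[simp] theorem tri_apply (f : P →ₗ[A] Q) (g : P →ₗ[A] Q') (f' : P' →ₗ[A] Q') (x : P × P') :
    tri f g f' x = (f x.1, g x.1 + f' x.2) := rfl

theorem tri_E0 {f : P →ₗ[A] Q} {g : P →ₗ[A] Q'} {f' : P' →ₗ[A] Q'} (h : E0 f M) (h' : E0 f' M) :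
    E0 (tri f g f') M := by
  intro φ
  obtain ⟨ψ', hψ'⟩ := h' (φ ∘ₗ LinearMap.inr A P P')
  obtain ⟨ψ, hψ⟩ := h (φ ∘ₗ LinearMap.inl A P P' - ψ' ∘ₗ g)
  refine ⟨LinearMap.coprod ψ ψ', ?_⟩
  ext x
  · have h1 := LinearMap.congr_fun hψ x
    change φ (x, 0) - ψ' (g x) = ψ (f x) at h1
    change φ (x, 0) = ψ (f x) + ψ' (g x + f' 0)
    rw [← h1, map_zero, add_zero]
    abel
  · have h1 := LinearMap.congr_fun hψ' x
    change φ (0, x) = ψ' (f' x) at h1
    change φ (0, x) = ψ (f 0) + ψ' (g 0 + f' x)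
    rw [h1, map_zero, map_zero, map_zero, zero_add, zero_add]

theorem tri_E0' {f : P →ₗ[A] Q} {g : P →ₗ[A] Q'} {f' : P' →ₗ[A] Q'} (h : E0 (tri f g f') M) :
    E0 f' M := by
  intro φ
  obtain ⟨ψ, hψ⟩ := h (φ ∘ₗ LinearMap.snd A P P')
  refine ⟨ψ ∘ₗ LinearMap.inr A Q Q', ?_⟩
  ext x
  have h1 := LinearMap.congr_fun hψ (0, x)
  change φ x = ψ (f 0, g 0 + f' x) at h1
  change φ x = ψ (0, f' x)
  rw [h1, map_zero, map_zero, zero_add]

theorem tri_H0 {f : P →ₗ[A] Q} {g : P →ₗ[A] Q'} {f' : P' →ₗ[A] Q'} (h : H0 f M) (h' : H0 f' M) :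
    H0 (tri f g f') M := by
  intro φ hφ
  have h1 : φ ∘ₗ LinearMap.inr A Q Q' = 0 := by
    apply h'
    ext x
    have h2 := LinearMap.congr_fun hφ (0, x)
    change φ (f 0, g 0 + f' x) = 0 at h2
    change φ (0, f' x) = 0
    rw [map_zero, map_zero, zero_add] at h2
    exact h2
  have h3 : φ ∘ₗ LinearMap.inl A Q Q' = 0 := by
    apply h
    ext x
    have h2 := LinearMap.congr_fun hφ (x, 0)
    change φ (f x, g x + f' 0) = 0 at h2
    have h4 := LinearMap.congr_fun h1 (g x)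
    change φ (0, g x) = 0 at h4
    change φ (f x, 0) = 0
    have h5 : ((f x, g x + f' 0) : Q × Q') = (f x, 0) + (0, g x) := by
      simp
    rw [h5, map_add, h4, add_zero] at h2
    exact h2
  ext x
  · exact LinearMap.congr_fun h3 x
  · exact LinearMap.congr_fun h1 x

theorem tri_H0' {f : P →ₗ[A] Q} {g : P →ₗ[A] Q'} {f' : P' →ₗ[A] Q'} (h : H0 (tri f g f') M) :
    H0 f M := by
  intro φ hφ
  have h1 := h (φ ∘ₗ LinearMap.fst A Q Q') (by
    ext x
    · exact LinearMap.congr_fun hφ x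
    · change φ (f 0) = 0
      rw [map_zero, map_zero])
  ext x
  exact LinearMap.congr_fun h1 (x, 0)

/-- the inclusion of the second cokernel -/
theorem tri_coker_inr (f : P →ₗ[A] Q) (g : P →ₗ[A] Q') (f' : P' →ₗ[A] Q') :
    ∃ i : (Q' ⧸ LinearMap.range f') →ₗ[A] ((Q × Q') ⧸ LinearMap.range (tri f g f')),
      ∀ q, i ((LinearMap.range f').mkQ q) = (LinearMap.range (tri f g f')).mkQ (0, q) := by
  refine ⟨(LinearMap.range f').liftQ ((LinearMap.range (tri f g f')).mkQ ∘ₗ
    LinearMap.inr A Q Q') ?_, fun q => rfl⟩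
  rintro _ ⟨x, rfl⟩
  rw [LinearMap.mem_ker]
  exact (Submodule.Quotient.mk_eq_zero _).mpr ⟨(0, x), by simp⟩

/-- the projection to the first cokernel -/
theorem tri_coker_fst (f : P →ₗ[A] Q) (g : P →ₗ[A] Q') (f' : P' →ₗ[A] Q') :
    ∃ p : ((Q × Q') ⧸ LinearMap.range (tri f g f')) →ₗ[A] (Q ⧸ LinearMap.range f),
      ∀ q, p ((LinearMap.range (tri f g f')).mkQ q) = (LinearMap.range f).mkQ q.1 := by
  refine ⟨(LinearMap.range (tri f g f')).liftQ ((LinearMap.range f).mkQ ∘ₗ
    LinearMap.fst A Q Q') ?_, fun q => rfl⟩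
  rintro _ ⟨x, rfl⟩
  rw [LinearMap.mem_ker]
  exact (Submodule.Quotient.mk_eq_zero _).mpr ⟨x.1, rfl⟩

/-- obstructions for the middle term -/
theorem E0_tri_coker {P'' Q'' : Type u} [AddCommGroup P''] [Module A P''] [AddCommGroup Q'']
    [Module A Q''] [Module.Projective A P''] [Module.Projective A Q''] {f'' : P'' →ₗ[A] Q''}
    {f : P →ₗ[A] Q} {g : P →ₗ[A] Q'} {f' : P' →ₗ[A] Q'}
    (h : E0 f'' (Q ⧸ LinearMap.range f)) (h' : E0 f'' (Q' ⧸ LinearMap.range f')) :
    E0 f'' ((Q × Q') ⧸ LinearMap.range (tri f g f')) := by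
  obtain ⟨i, hi⟩ := tri_coker_inr f g f'
  have h1 : E0 f'' (LinearMap.range i) := h'.quot i.rangeRestrict i.surjective_rangeRestrict
  refine E0.ext (LinearMap.range i) h1 ?_
  let s : Q →ₗ[A] (((Q × Q') ⧸ LinearMap.range (tri f g f')) ⧸ LinearMap.range i) :=
    (LinearMap.range i).mkQ ∘ₗ (LinearMap.range (tri f g f')).mkQ ∘ₗ LinearMap.inl A Q Q'
  have hzero : ∀ q : Q', (LinearMap.range i).mkQ ((LinearMap.range (tri f g f')).mkQ (0, q)) = 0 :=
    fun q => (Submodule.Quotient.mk_eq_zero _).mpr ⟨(LinearMap.range f').mkQ q, hi q⟩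
  have hs : s ∘ₗ f = 0 := by
    ext x
    change (LinearMap.range i).mkQ ((LinearMap.range (tri f g f')).mkQ (f x, 0)) = 0
    have h2 : (LinearMap.range (tri f g f')).mkQ (tri f g f' (x, 0)) = 0 :=
      (Submodule.Quotient.mk_eq_zero _).mpr (LinearMap.mem_range_self _ _)
    have h3 : ((f x, 0) : Q × Q') = tri f g f' (x, 0) - (0, g x) := by
      simp
    rw [h3, map_sub, h2, map_sub, hzero, map_zero, sub_zero]
  obtain ⟨s', hs'⟩ := exists_bar s hs
  refine h.quot s' ?_
  intro y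
  obtain ⟨y1, rfl⟩ := Submodule.mkQ_surjective (LinearMap.range i) y
  obtain ⟨⟨q, q'⟩, rfl⟩ := Submodule.mkQ_surjective (LinearMap.range (tri f g f')) y1
  refine ⟨(LinearMap.range f).mkQ q, ?_⟩
  have h4 := LinearMap.congr_fun hs' q
  change s' ((LinearMap.range f).mkQ q) = (LinearMap.range i).mkQ
    ((LinearMap.range (tri f g f')).mkQ (q, 0)) at h4
  rw [h4]
  have h5 : ((q, q') : Q × Q') = (q, 0) + (0, q') := by simp
  rw [h5, map_add, map_add, hzero, add_zero]

/-- if the class vanishes, rigidity of the middle term gives no obstruction -/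
theorem EE_of_split [Module.Projective A P] [Module.Projective A Q] {f : P →ₗ[A] Q}
    {g : P →ₗ[A] Q'} {f' : P' →ₗ[A] Q'} (hr : Rigid (tri f g f'))
    (ψ : Q →ₗ[A] (Q' ⧸ LinearMap.range f')) (hψ : (LinearMap.range f').mkQ ∘ₗ g = ψ ∘ₗ f) :
    EE f f' := by
  obtain ⟨a, ha⟩ := Module.projective_lifting_property (LinearMap.range f').mkQ ψ
    (Submodule.mkQ_surjective _)
  have h1 : ∀ x, g x - a (f x) ∈ LinearMap.range f' := by
    intro x
    rw [← Submodule.Quotient.mk_eq_zero, Submodule.Quotient.mk_sub, sub_eq_zero]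
    have h4 := LinearMap.congr_fun hψ x
    have h5 := LinearMap.congr_fun ha (f x)
    exact h4.trans h5.symm
  obtain ⟨b, hb⟩ := Module.projective_lifting_property f'.rangeRestrict
    ((g - a ∘ₗ f).codRestrict (LinearMap.range f') h1) f'.surjective_rangeRestrict
  have hgb : ∀ x, g x = a (f x) + f' (b x) := by
    intro x
    have h2 := congrArg Subtype.val (LinearMap.congr_fun hb x)
    change f' (b x) = g x - a (f x) at h2
    rw [h2]
    abel
  intro g'
  obtain ⟨u, v, huv⟩ := hr (LinearMap.inr A Q Q' ∘ₗ g' ∘ₗ LinearMap.fst A P P')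
  -- components
  have c1 : ∀ x : P, (0, g' x) = u (f x, g x) + tri f g f' (v (x, 0)) := by
    intro x
    have := LinearMap.congr_fun huv (x, 0)
    change (0, g' x) = u (f x, g x + f' 0) + tri f g f' (v (x, 0)) at this
    rw [map_zero, add_zero] at this
    exact this
  have c2 : ∀ y : P', (0, 0) = u (0, f' y) + tri f g f' (v (0, y)) := by
    intro y
    have := LinearMap.congr_fun huv (0, y)
    change (0, g' 0) = u (f 0, g 0 + f' y) + tri f g f' (v (0, y)) at this
    rw [map_zero, map_zero, map_zero, zero_add] at this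
    exact this
  -- new maps
  let U : Q →ₗ[A] Q' :=
    LinearMap.snd A Q Q' ∘ₗ u ∘ₗ (LinearMap.prod LinearMap.id a) -
      a ∘ₗ LinearMap.fst A Q Q' ∘ₗ u ∘ₗ (LinearMap.prod LinearMap.id a)
  let V : P →ₗ[A] P' :=
    (LinearMap.snd A P P' ∘ₗ v ∘ₗ (LinearMap.prod LinearMap.id (-b))) +
      b ∘ₗ LinearMap.fst A P P' ∘ₗ v ∘ₗ (LinearMap.prod LinearMap.id (-b))
  refine ⟨U, V, ?_⟩
  ext x
  change g' x = ((u (f x, a (f x))).2 - a (u (f x, a (f x))).1) +
    f' ((v (x, -b x)).2 + b (v (x, -b x)).1)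
  have e1 : u (f x, g x) = u (f x, a (f x)) + u (0, f' (b x)) := by
    rw [← map_add, hgb x]
    simp
  have e2 : v (x, -b x) = v (x, 0) - v (0, b x) := by
    rw [← map_sub]
    simp
  have e3 := c1 x
  have e4 := c2 (b x)
  rw [e1] at e3
  have e5 : ((0, g' x) : Q × Q') = u (f x, a (f x)) + tri f g f' (v (x, -b x)) := by
    have e6 : u (0, f' (b x)) = - tri f g f' (v (0, b x)) := by
      rw [eq_neg_iff_add_eq_zero]
      exact e4.symm
    rw [e3, e6, e2, map_sub]
    abel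
  have e7 := congrArg Prod.fst e5
  have e8 := congrArg Prod.snd e5
  change 0 = (u (f x, a (f x))).1 + f (v (x, -b x)).1 at e7
  change g' x = (u (f x, a (f x))).2 + (g (v (x, -b x)).1 + f' (v (x, -b x)).2) at e8
  rw [e8, hgb (v (x, -b x)).1, map_add]
  have e9 : f (v (x, -b x)).1 = - (u (f x, a (f x))).1 := by
    rw [eq_neg_iff_add_eq_zero, add_comm]
    exact e7.symm
  rw [e9, map_neg]
  abel

end general

section tors

variable {k A : Type u} [Field k] [Ring A] [Algebra k A]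
variable {P Q : Type u} [AddCommGroup P] [Module A P] [Module k P] [IsScalarTower k A P]
  [Module.Finite k P] [Module.Projective A P]
variable [AddCommGroup Q] [Module A Q] [Module k Q] [IsScalarTower k A Q] [Module.Finite k Q]
  [Module.Projective A Q]

variable (k) in
/-- the trace of the cokernel in a module -/
theorem exists_trace {f : P →ₗ[A] Q} (hf : Rigid f) (M : Type u) [AddCommGroup M] [Module A M]
    [Module k M] [IsScalarTower k A M] [Module.Finite k M] :
    ∃ (m : ℕ) (H : (Fin m → (Q ⧸ LinearMap.range f)) →ₗ[A] M),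
      H0 f (M ⧸ LinearMap.range H) ∧ (∀ h : (Q ⧸ LinearMap.range f) →ₗ[A] M, ∀ x,
        h x ∈ LinearMap.range H) := by
  classical
  let C := Q ⧸ LinearMap.range f
  have hC : Module.Finite k C := finite_quot (LinearMap.range f)
  have _ := finite_hom (k := k) (A := A) (P := C) (X := M)
  let m := finrank k (C →ₗ[A] M)
  let b := Module.finBasis k (C →ₗ[A] M)
  let H : (Fin m → C) →ₗ[A] M := ∑ i, b i ∘ₗ LinearMap.proj i
  let T := LinearMap.range H
  have hT0 : E0 f T := (hf.E0_coker.pi (ι := Fin m)).quot H.rangeRestrict H.surjective_rangeRestrict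
  have hT1 : ∀ h : C →ₗ[A] M, ∀ x, h x ∈ T := by
    intro h x
    have hH : H (fun i => b.repr h i • x) = h x := by
      change (∑ i, b i ∘ₗ LinearMap.proj i) (fun i => b.repr h i • x) = h x
      rw [LinearMap.sum_apply]
      have hsr : (∑ i, b.repr h i • b i) x = h x := by rw [b.sum_repr h]
      rw [← hsr, LinearMap.sum_apply]
      refine Finset.sum_congr rfl (fun i _ => ?_)
      change b i (b.repr h i • x) = b.repr h i • b i x
      rw [← algebraMap_smul A (b.repr h i) x, map_smul, algebraMap_smul]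
    rw [← hH]
    exact LinearMap.mem_range_self H _
  refine ⟨m, H, ?_, hT1⟩
  intro h hh
  obtain ⟨q, hq⟩ := Module.projective_lifting_property T.mkQ h (Submodule.mkQ_surjective T)
  have h1 : ∀ x, (q ∘ₗ f) x ∈ T := by
    intro x
    have h3 := LinearMap.congr_fun hq (f x)
    have h4 := LinearMap.congr_fun hh x
    exact (Submodule.Quotient.mk_eq_zero T).mp (h3.trans h4)
  obtain ⟨ψ, hψ⟩ := hT0 ((q ∘ₗ f).codRestrict T h1)
  obtain ⟨h', hh'⟩ := exists_bar (f := f) (q - T.subtype ∘ₗ ψ) (by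
    ext x
    have h5 := congrArg Subtype.val (LinearMap.congr_fun hψ x)
    change q (f x) = ψ (f x) at h5
    change q (f x) - ψ (f x) = 0
    rw [h5, sub_self])
  ext x
  have h6 := LinearMap.congr_fun hh' x
  change h' _ = q x - ψ x at h6
  have h7 : q x ∈ T := by
    have h8 : q x = h' ((LinearMap.range f).mkQ x) + ψ x := by
      rw [h6, sub_add_cancel]
    rw [h8]
    exact T.add_mem (hT1 h' _) (ψ x).2
  have h9 := LinearMap.congr_fun hq x
  rw [← h9]
  exact (Submodule.Quotient.mk_eq_zero T).mpr h7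

variable (k) in
theorem TT.gen {f : P →ₗ[A] Q} (hf : Rigid f) {M : Type u} [AddCommGroup M] [Module A M]
    [Module k M] [IsScalarTower k A M] [Module.Finite k M] (h : TT f M) :
    ∃ (m : ℕ) (H : (Fin m → (Q ⧸ LinearMap.range f)) →ₗ[A] M), Surjective H := by
  obtain ⟨m, H, h1, h2⟩ := exists_trace k hf M
  exact ⟨m, H, LinearMap.range_eq_top.mp (h _ h1)⟩

omit [Module k Q] [IsScalarTower k A Q] [Module.Finite k Q] [Module k P] [IsScalarTower k A P]
  [Module.Finite k P] [Module.Projective A P] [Module.Projective A Q] in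
theorem TT_of_gen {f : P →ₗ[A] Q} {M : Type u} [AddCommGroup M] [Module A M] {m : ℕ}
    (H : (Fin m → (Q ⧸ LinearMap.range f)) →ₗ[A] M) (hH : Surjective H) : TT f M := by
  intro N hN
  have h1 : ∀ j, (N.mkQ ∘ₗ H ∘ₗ LinearMap.single A (fun _ => Q ⧸ LinearMap.range f) j) ∘ₗ
      (LinearMap.range f).mkQ = 0 := by
    intro j
    apply hN
    rw [LinearMap.comp_assoc, mkQ_comp, LinearMap.comp_zero]
  rw [Submodule.eq_top_iff']
  intro y
  obtain ⟨x, rfl⟩ := hH y
  have h2 : x = ∑ j, LinearMap.single A (fun _ => Q ⧸ LinearMap.range f) j (x j) := by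
    ext j
    simp [Finset.sum_apply, LinearMap.single_apply]
  rw [h2, map_sum]
  refine N.sum_mem (fun j _ => ?_)
  obtain ⟨z, hz⟩ := Submodule.mkQ_surjective (LinearMap.range f) (x j)
  have h3 := LinearMap.congr_fun (h1 j) z
  rw [← hz]
  exact (Submodule.Quotient.mk_eq_zero N).mp h3

variable (k) in
theorem TT.E0' {f : P →ₗ[A] Q} (hf : Rigid f) {M : Type u} [AddCommGroup M] [Module A M]
    [Module k M] [IsScalarTower k A M] [Module.Finite k M] (h : TT f M) : E0 f M := by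
  obtain ⟨m, H, hH⟩ := h.gen k hf
  exact (hf.E0_coker.pi (ι := Fin m)).quot H hH

omit [Module k Q] [IsScalarTower k A Q] [Module.Finite k Q] [Module k P] [IsScalarTower k A P]
  [Module.Finite k P] [Module.Projective A P] [Module.Projective A Q] in
theorem TT_coker (f : P →ₗ[A] Q) : TT f (Q ⧸ LinearMap.range f) :=
  TT_of_gen (m := 1) (LinearMap.proj 0) (fun x => ⟨fun _ => x, rfl⟩)

end tors

end BT
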