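import Mathlib
import Pool.Agent.Helper16.BT.Tri

/-!
The obstruction dimension decreases in the Farey step.
-/

universe u

namespace BT

open Module Function

section dec

variable {k A : Type u} [Field k] [Ring A] [Algebra k A]
variable {P Q : Type u} [AddCommGroup P] [Module A P] [AddCommGroup Q] [Module A Q]
variable {P' Q' : Type u} [AddCommGroup P'] [Module A P'] [AddCommGroup Q'] [Module A Q']
variable {M M' : Type u} [AddCommGroup M] [Module A M] [Module k M] [IsScalarTower k A M]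
  [AddCommGroup M'] [Module A M'] [Module k M'] [IsScalarTower k A M']

/-- the obstruction space -/
abbrev EQ (k : Type u) [Field k] [Algebra k A] (f : P →ₗ[A] Q) (M : Type u) [AddCommGroup M]
    [Module A M] [Module k M] [IsScalarTower k A M] : Type u :=
  (P →ₗ[A] M) ⧸ LinearMap.range (pre k f M)

/-- the obstruction dimension -/
noncomputable def ex (k : Type u) [Field k] [Algebra k A] (f : P →ₗ[A] Q) (M : Type u)
    [AddCommGroup M] [Module A M] [Module k M] [IsScalarTower k A M] : ℕ := finrank k (EQ k f M)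

theorem E0_of_ex [Module k P] [IsScalarTower k A P] [Module.Finite k P] [Module.Finite k M]
    {f : P →ₗ[A] Q} (h : ex k f M = 0) : E0 f M := by
  have _ := finite_hom (k := k) (A := A) (P := P) (X := M)
  intro φ
  have h1 : Subsingleton (EQ k f M) := Module.finrank_zero_iff.mp h
  have h2 : (LinearMap.range (pre k f M)).mkQ φ = 0 := Subsingleton.elim _ _
  have h3 : φ ∈ LinearMap.range (pre k f M) := (Submodule.Quotient.mk_eq_zero _).mp h2
  obtain ⟨ψ, hψ⟩ := h3
  exact ⟨ψ, hψ.symm⟩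

/-- a linear map between obstruction spaces which is onto and kills a nonzero class -/
theorem dec_aux {V W : Type u} [AddCommGroup V] [Module k V] [Module.Finite k V]
    [AddCommGroup W] [Module k W] (S : Submodule k V) (T : Submodule k W) (F : V →ₗ[k] W)
    (hF : ∀ x ∈ S, F x ∈ T) (hs : ∀ y, ∃ x, y - F x ∈ T) (v : V) (hv : v ∉ S) (hv' : F v ∈ T) :
    finrank k (W ⧸ T) < finrank k (V ⧸ S) := by
  let G : (V ⧸ S) →ₗ[k] (W ⧸ T) := Submodule.mapQ S T F hF
  have hG : Surjective G := by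
    intro y
    obtain ⟨y, rfl⟩ := Submodule.mkQ_surjective T y
    obtain ⟨x, hx⟩ := hs y
    refine ⟨S.mkQ x, ?_⟩
    change T.mkQ (F x) = T.mkQ y
    rw [← sub_eq_zero, ← map_sub, ← neg_sub, map_neg, neg_eq_zero]
    exact (Submodule.Quotient.mk_eq_zero T).mpr hx
  have h1 := LinearMap.finrank_range_add_finrank_ker G
  rw [LinearMap.range_eq_top.mpr hG, finrank_top] at h1
  have h2 : 0 < finrank k (LinearMap.ker G) := by
    rw [Module.finrank_pos_iff]
    refine ⟨⟨⟨S.mkQ v, ?_⟩, 0, ?_⟩⟩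
    · exact (Submodule.Quotient.mk_eq_zero T).mpr hv'
    · intro h3
      exact hv ((Submodule.Quotient.mk_eq_zero S).mp (congrArg Subtype.val h3))
  omega

variable [Module k P] [IsScalarTower k A P] [Module.Finite k P] [Module.Projective A P]
variable [Module k Q] [IsScalarTower k A Q] [Module.Finite k Q] [Module.Projective A Q]
variable [Module k P'] [IsScalarTower k A P'] [Module.Finite k P'] [Module.Projective A P']
variable [Module k Q'] [IsScalarTower k A Q'] [Module.Finite k Q'] [Module.Projective A Q']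

/-- first decrease -/
theorem dec1 {f : P →ₗ[A] Q} {g : P →ₗ[A] Q'} {f' : P' →ₗ[A] Q'} (hf : Rigid f)
    (hg : ¬ ∃ ψ : Q →ₗ[A] (Q' ⧸ LinearMap.range f'), (LinearMap.range f').mkQ ∘ₗ g = ψ ∘ₗ f) :
    ex k f ((Q × Q') ⧸ LinearMap.range (tri f g f')) < ex k f (Q' ⧸ LinearMap.range f') := by
  have hC : Module.Finite k (Q' ⧸ LinearMap.range f') := finite_quot (LinearMap.range f')
  have _ := finite_hom (k := k) (A := A) (P := P) (X := Q' ⧸ LinearMap.range f')
  obtain ⟨i, hi⟩ := tri_coker_inr f g f'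
  obtain ⟨p, hp⟩ := tri_coker_fst f g f'
  have hpi : p ∘ₗ i = 0 := by
    ext q
    change p (i ((LinearMap.range f').mkQ q)) = 0
    rw [hi, hp]
    exact map_zero _
  have hker : ∀ y, p y = 0 → ∃ z, i z = y := by
    intro y hy
    obtain ⟨⟨q, q'⟩, rfl⟩ := Submodule.mkQ_surjective (LinearMap.range (tri f g f')) y
    rw [hp] at hy
    obtain ⟨x, hx⟩ := (Submodule.Quotient.mk_eq_zero (LinearMap.range f)).mp hy
    refine ⟨(LinearMap.range f').mkQ (q' - g x), ?_⟩
    rw [hi, ← sub_eq_zero, ← map_sub]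
    refine (Submodule.Quotient.mk_eq_zero _).mpr ⟨(-x, 0), ?_⟩
    have hx' : f x = q := hx
    simp [hx']
  refine dec_aux (LinearMap.range (pre k f _)) (LinearMap.range (pre k f _)) (post k P i) ?_ ?_
    ((LinearMap.range f').mkQ ∘ₗ g) ?_ ?_
  · rintro _ ⟨ψ, rfl⟩
    exact ⟨i ∘ₗ ψ, rfl⟩
  · intro φ
    obtain ⟨ψ, hψ⟩ := hf.E0_coker (p ∘ₗ φ)
    have hps : Surjective p := by
      intro y
      obtain ⟨q, rfl⟩ := Submodule.mkQ_surjective (LinearMap.range f) y
      exact ⟨_, hp (q, 0)⟩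
    obtain ⟨χ, hχ⟩ := Module.projective_lifting_property p ψ hps
    have h1 : ∀ x, (φ - χ ∘ₗ f) x ∈ LinearMap.range i := by
      intro x
      apply hker
      have h2 := LinearMap.congr_fun hψ x
      have h3 := LinearMap.congr_fun hχ (f x)
      change p (φ x) = ψ (f x) at h2
      change p (χ (f x)) = ψ (f x) at h3
      change p (φ x - χ (f x)) = 0
      rw [map_sub, h2, h3, sub_self]
    obtain ⟨ξ, hξ⟩ := Module.projective_lifting_property i.rangeRestrict
      ((φ - χ ∘ₗ f).codRestrict (LinearMap.range i) h1) i.surjective_rangeRestrict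
    refine ⟨ξ, χ, ?_⟩
    ext x
    have h4 := congrArg Subtype.val (LinearMap.congr_fun hξ x)
    change i (ξ x) = φ x - χ (f x) at h4
    change χ (f x) = φ x - i (ξ x)
    rw [h4]
    abel
  · rintro ⟨ψ, hψ⟩
    exact hg ⟨ψ, hψ.symm⟩
  · refine ⟨-((LinearMap.range (tri f g f')).mkQ ∘ₗ LinearMap.inl A Q Q'), ?_⟩
    ext x
    change -((LinearMap.range (tri f g f')).mkQ (f x, 0)) = i ((LinearMap.range f').mkQ (g x))
    rw [hi, neg_eq_iff_add_eq_zero, ← map_add]
    exact (Submodule.Quotient.mk_eq_zero _).mpr ⟨(x, 0), by simp⟩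

/-- second decrease -/
theorem dec2 {f : P →ₗ[A] Q} {g : P →ₗ[A] Q'} {f' : P' →ₗ[A] Q'} (hf' : Rigid f')
    (hg : ¬ ∃ ψ : Q →ₗ[A] (Q' ⧸ LinearMap.range f'), (LinearMap.range f').mkQ ∘ₗ g = ψ ∘ₗ f) :
    ex k (tri f g f') (Q' ⧸ LinearMap.range f') < ex k f (Q' ⧸ LinearMap.range f') := by
  have hC : Module.Finite k (Q' ⧸ LinearMap.range f') := finite_quot (LinearMap.range f')
  have _ := finite_hom (k := k) (A := A) (P := P) (X := Q' ⧸ LinearMap.range f')
  refine dec_aux (LinearMap.range (pre k f _)) (LinearMap.range (pre k (tri f g f') _))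
    (pre k (LinearMap.fst A P P') _) ?_ ?_ ((LinearMap.range f').mkQ ∘ₗ g) ?_ ?_
  · rintro _ ⟨ψ, rfl⟩
    exact ⟨ψ ∘ₗ LinearMap.fst A Q Q', rfl⟩
  · intro φ
    obtain ⟨ψ, hψ⟩ := hf'.E0_coker (φ ∘ₗ LinearMap.inr A P P')
    refine ⟨φ ∘ₗ LinearMap.inl A P P' - ψ ∘ₗ g, ψ ∘ₗ LinearMap.snd A Q Q', ?_⟩
    refine LinearMap.ext (fun y => ?_)
    obtain ⟨x, x'⟩ := y
    have h1 := LinearMap.congr_fun hψ x'
    change φ (0, x') = ψ (f' x') at h1
    change ψ (g x + f' x') = φ (x, x') - (φ (x, 0) - ψ (g x))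
    have h2 : ((x, x') : P × P') = (x, 0) + (0, x') := by simp
    rw [h2, map_add, map_add, h1]
    abel
  · rintro ⟨ψ, hψ⟩
    exact hg ⟨ψ, hψ.symm⟩
  · refine ⟨(LinearMap.range f').mkQ ∘ₗ LinearMap.snd A Q Q', ?_⟩
    refine LinearMap.ext (fun y => ?_)
    obtain ⟨x, x'⟩ := y
    change (LinearMap.range f').mkQ (g x + f' x') = (LinearMap.range f').mkQ (g x)
    rw [map_add]
    have h3 : (LinearMap.range f').mkQ (f' x') = 0 :=
      (Submodule.Quotient.mk_eq_zero _).mpr (LinearMap.mem_range_self f' x')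
    rw [h3, add_zero]

omit [Module.Finite k P] [Module.Projective A P] [Module.Finite k P'] [Module.Projective A P']
  [Module k P] [IsScalarTower k A P] [Module k P'] [IsScalarTower k A P'] in
theorem hd_prod [Module.Finite k M] (h1 : Module.Finite k (P →ₗ[A] M))
    (h2 : Module.Finite k (P' →ₗ[A] M)) :
    hd k A (P × P') M = hd k A P M + hd k A P' M := by
  let e : ((P →ₗ[A] M) × (P' →ₗ[A] M)) ≃ₗ[k] (P × P' →ₗ[A] M) :=
    { toFun := fun x => LinearMap.coprod x.1 x.2
      map_add' := fun x y => by ext z <;> simp [add_add_add_comm]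
      map_smul' := fun c x => by ext z <;> simp
      invFun := fun x => (x ∘ₗ LinearMap.inl A P P', x ∘ₗ LinearMap.inr A P P')
      left_inv := fun x => by
        refine Prod.ext ?_ ?_ <;> · ext z; simp
      right_inv := fun x => by
        ext z <;> simp }
  rw [hd, hd, hd, ← e.finrank_eq, Module.finrank_prod]

omit [Module.Projective A P] [Module.Projective A P'] [Module.Projective A Q]
  [Module.Projective A Q'] in
theorem Th_prod [Module.Finite k M] :
    Th k A (P × P') (Q × Q') M = Th k A P Q M + Th k A P' Q' M := by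
  rw [Th, Th, Th, hd_prod finite_hom finite_hom, hd_prod finite_hom finite_hom]
  push_cast
  ring

end dec

end BT
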