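import Mathlib
import Pool.Agent.Helper16.BT.Forward

/-!
Relative version: rigid points in affine subspaces of a presentation space.
-/

namespace BT

open Module Function

section rel

variable {k A : Type} [Field k] [Ring A] [Algebra k A]
variable {P Q : Type}
variable [AddCommGroup P] [Module A P] [Module k P] [IsScalarTower k A P] [Module.Finite k P]
variable [AddCommGroup Q] [Module A Q] [Module k Q] [IsScalarTower k A Q] [Module.Finite k Q]

/-- a presentation of maximal rank in an affine space -/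
theorem exists_lift_rel [Infinite k] {r : ℕ} (M : Fin r → Type) [∀ j, AddCommGroup (M j)]
    [∀ j, Module A (M j)] [∀ j, Module k (M j)] [∀ j, IsScalarTower k A (M j)]
    [∀ j, Module.Finite k (M j)] (f0 : P →ₗ[A] Q) (W : Submodule k (P →ₗ[A] Q))
    (hW : ∀ w ∈ W, ∀ g : P →ₗ[A] Q, ∃ (u : Q →ₗ[A] Q) (v : P →ₗ[A] P), ∃ w' ∈ W,
      g = u ∘ₗ (f0 + w) + (f0 + w) ∘ₗ v + w') :
    ∃ w ∈ W, ∀ j, Lift (f0 + w) (M j) := by
  classical
  have _ := finite_hom (k := k) (A := A) (P := P) (X := ∀ j, M j)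
  have _ := finite_hom (k := k) (A := A) (P := Q) (X := ∀ j, M j)
  obtain ⟨w, hw, hf⟩ : ∃ w ∈ W, ∀ w' ∈ W,
      finrank k (LinearMap.range (pre k (f0 + w') (∀ j, M j))) ≤
        finrank k (LinearMap.range (pre k (f0 + w) (∀ j, M j))) := by
    let S : Set ℕ := {n | ∃ w ∈ W, n = finrank k (LinearMap.range (pre k (f0 + w) (∀ j, M j)))}
    have hne : S.Nonempty := ⟨_, 0, W.zero_mem, rfl⟩
    have hbd : BddAbove S := by
      refine ⟨finrank k (P →ₗ[A] (∀ j, M j)), ?_⟩
      rintro n ⟨f, _, rfl⟩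
      exact Submodule.finrank_le _
    obtain ⟨f, hf0, hf⟩ := Nat.sSup_mem hne hbd
    refine ⟨f, hf0, fun f' hf' => ?_⟩
    rw [← hf]
    exact le_csSup hbd ⟨f', hf', rfl⟩
  refine ⟨w, hw, fun j h hh g => ?_⟩
  obtain ⟨u, v, w', hw', hg⟩ := hW w hw g
  have h1 := rank_lemma (pre k (f0 + w) (∀ j, M j)) (pre k w' (∀ j, M j)) (fun c => by
    have h2 : pre k (f0 + w) (∀ j, M j) + c • pre k w' (∀ j, M j) =
        pre k (f0 + (w + c • w')) (∀ j, M j) := by
      ext φ x
      change φ ((f0 + w) x) _ + c • φ (w' x) _ = φ ((f0 + (w + c • w')) x) _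
      have h3 : (f0 + (w + c • w')) x = (f0 + w) x + c • w' x := by
        simp only [LinearMap.add_apply, LinearMap.smul_apply]
        abel
      rw [h3, map_add, ← algebraMap_smul A c (w' x), map_smul, algebraMap_smul]
      rfl
    rw [h2]
    exact hf _ (W.add_mem hw (W.smul_mem c hw'))) (LinearMap.single A M j ∘ₗ h) (by
      ext x
      have := LinearMap.congr_fun hh x
      change h ((f0 + w) x) = 0 at this
      simp only [pre_apply, LinearMap.comp_apply, this]
      simp)
  obtain ⟨ψ, hψ⟩ := h1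
  refine ⟨h ∘ₗ u + LinearMap.proj j ∘ₗ ψ, ?_⟩
  rw [hg, LinearMap.comp_add, LinearMap.comp_add, ← LinearMap.comp_assoc v, hh,
    LinearMap.zero_comp, add_zero, LinearMap.add_comp, LinearMap.comp_assoc]
  congr 1
  ext x
  have h3 := congrArg (fun z => z j) (LinearMap.congr_fun hψ x)
  change (ψ ((f0 + w) x)) j = (Pi.single j (h (w' x)) : ∀ j, M j) j at h3
  rw [Pi.single_eq_same] at h3
  exact h3.symm

/-- the second half of the core argument -/
theorem rigid_of_lift [Module.Projective A P] [Module.Projective A Q] (f : P →ₗ[A] Q)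
    (hL : ∀ (X : Type) [AddCommGroup X] [Module A X] [Module k X] [IsScalarTower k A X]
      [Module.Finite k X], Nontrivial X → Stab k A P Q X → finrank k X ≤ finrank k Q →
      Lift f X) : Rigid f := by
  by_contra hcon
  obtain ⟨N, hN1, hN2, hN3⟩ := exists_obstruction k f hcon
  have hIn : Nontrivial (Q ⧸ N) := Submodule.Quotient.nontrivial_iff.mpr hN2
  have hIf : Module.Finite k (Q ⧸ N) :=
    Module.Finite.of_surjective (N.mkQ.restrictScalars k) (Submodule.mkQ_surjective N)
  have hId : finrank k (Q ⧸ N) ≤ finrank k Q :=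
    LinearMap.finrank_le_finrank_of_surjective (f := N.mkQ.restrictScalars k)
      (Submodule.mkQ_surjective N)
  have hIpos : 0 < finrank k (Q ⧸ N) := Module.finrank_pos
  have hpos : 0 < Th k A P Q (Q ⧸ N) := by
    by_contra hneg
    push Not at hneg
    obtain ⟨Y, _, _, _, _, p, hY1, hY2, hp, hY3, hY4⟩ :=
      exists_stab_quot (k := k) (A := A) (P := P) (Q := Q) _ (Q ⧸ N) hIn rfl
    have hYd : finrank k Y ≤ finrank k (Q ⧸ N) :=
      LinearMap.finrank_le_finrank_of_surjective (f := p.restrictScalars k) hp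
    have hYpos : 0 < finrank k Y := Module.finrank_pos
    have h1 : Th k A P Q Y ≤ 0 := by
      by_contra h2
      push Not at h2
      have h3 : (0 : ℤ) < finrank k (Q ⧸ N) := by exact_mod_cast hIpos
      have h4 : (0 : ℤ) < finrank k Y := by exact_mod_cast hYpos
      nlinarith
    have h5 := hL Y hY2 hY3 (hYd.trans hId)
    let h : Q →ₗ[A] Y := p ∘ₗ N.mkQ
    have hsurj : Surjective h := hp.comp (Submodule.mkQ_surjective N)
    have hh : h ∘ₗ f = 0 := by
      ext x
      have h6 : N.mkQ (f x) = 0 :=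
        (Submodule.Quotient.mk_eq_zero N).mpr (hN1 (LinearMap.mem_range_self f x))
      change p (N.mkQ (f x)) = 0
      rw [h6, map_zero]
    have _ := finite_hom (k := k) (A := A) (P := P) (X := Y)
    have _ := finite_hom (k := k) (A := A) (P := Q) (X := Y)
    have h7 : LinearMap.range (pre k f Y) = ⊤ := by
      rw [LinearMap.range_eq_top]
      intro φ
      obtain ⟨g, hg⟩ := Module.projective_lifting_property h φ hsurj
      obtain ⟨ψ, hψ⟩ := h5 h hh g
      exact ⟨ψ, by rw [pre_apply, ← hψ, hg]⟩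
    have h8 := LinearMap.finrank_range_add_finrank_ker (pre k f Y)
    rw [h7, finrank_top] at h8
    have h9 : 0 < finrank k (LinearMap.ker (pre k f Y)) := by
      rw [Module.finrank_pos_iff]
      refine ⟨⟨⟨h, hh⟩, 0, ?_⟩⟩
      intro h10
      have h11 : h = 0 := congrArg Subtype.val h10
      obtain ⟨y, hy⟩ := exists_ne (0 : Y)
      obtain ⟨x, hx⟩ := hsurj y
      rw [h11] at hx
      exact hy hx.symm
    rw [Th, hd, hd] at h1
    omega
  obtain ⟨Y, _, _, _, _, i, hY1, hY2, hi, hY3, hY4⟩ :=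
    exists_stab_sub (k := k) (A := A) (P := P) (Q := Q) _ (Q ⧸ N) hIn rfl
  have hYd : finrank k Y ≤ finrank k (Q ⧸ N) :=
    LinearMap.finrank_le_finrank_of_injective (f := i.restrictScalars k) hi
  have hYpos : 0 < finrank k Y := Module.finrank_pos
  have h1 : 0 < Th k A P Q Y := by
    have h3 : (0 : ℤ) < finrank k (Q ⧸ N) := by exact_mod_cast hIpos
    have h4 : (0 : ℤ) < finrank k Y := by exact_mod_cast hYpos
    by_contra h2
    push Not at h2
    nlinarith
  have h5 := hL Y hY2 hY3 (hYd.trans hId)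
  have _ := finite_hom (k := k) (A := A) (P := P) (X := Y)
  have _ := finite_hom (k := k) (A := A) (P := Q) (X := Y)
  have h8 := LinearMap.finrank_range_add_finrank_ker (pre k f Y)
  have h9 : finrank k (LinearMap.range (pre k f Y)) ≤ finrank k (P →ₗ[A] Y) :=
    Submodule.finrank_le _
  have h10 : 0 < finrank k (LinearMap.ker (pre k f Y)) := by
    rw [Th, hd, hd] at h1
    omega
  rw [Module.finrank_pos_iff] at h10
  obtain ⟨⟨h, hh⟩, hne⟩ := exists_ne (0 : LinearMap.ker (pre k f Y))
  have hh' : h ∘ₗ f = 0 := hh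
  have hne' : h ≠ 0 := fun h11 => hne (Subtype.ext h11)
  let U : Submodule A (Q ⧸ N) := LinearMap.range (i ∘ₗ h)
  have hU : U ≠ ⊥ := by
    intro h11
    apply hne'
    rw [LinearMap.range_eq_bot] at h11
    ext x
    have := LinearMap.congr_fun h11 x
    change i (h x) = 0 at this
    exact hi (this.trans (map_zero i).symm)
  obtain ⟨φ, hφ1, hφ2⟩ := hN3 U hU
  have h12 : ∀ x, φ x ∈ LinearMap.range (i ∘ₗ h) := fun x => hφ1 (LinearMap.mem_range_self φ x)
  obtain ⟨g, hg⟩ := Module.projective_lifting_property (i ∘ₗ h).rangeRestrict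
    (φ.codRestrict _ h12) (i ∘ₗ h).surjective_rangeRestrict
  obtain ⟨ψ, hψ⟩ := h5 h hh' g
  apply hφ2 (i ∘ₗ ψ)
  ext x
  have h13 := congrArg Subtype.val (LinearMap.congr_fun hg x)
  have h14 := LinearMap.congr_fun hψ x
  change i (h (g x)) = φ x at h13
  change h (g x) = ψ (f x) at h14
  change φ x = i (ψ (f x))
  rw [← h13, h14]

end rel

/-- stable families of one dimension vector for a given system of idempotents -/
def SF (k : Type) [Field k] (A : Type) [Ring A] [Algebra k A] {n : ℕ} (e : Fin n → A) : Prop :=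
  ∃ (d : Fin n → ℕ) (θ : Fin n → ℤ), (∑ i, θ i * (d i : ℤ)) = 0 ∧
    ∀ N : ℕ, ∃ (M : Fin N → Type) (_ : ∀ j, AddCommGroup (M j))
      (_ : ∀ j, Module A (M j)) (_ : ∀ j, Module k (M j))
      (_ : ∀ j, IsScalarTower k A (M j)),
      (∀ j, Module.Finite k (M j)) ∧ (∀ j, Nontrivial (M j)) ∧
      (∀ (j : Fin N) (i : Fin n),
        Module.finrank k (LinearMap.range (DistribMulAction.toLinearMap k (M j) (e i)))
          = d i) ∧
      (∀ (j : Fin N) (P : Submodule A (M j)), P ≠ ⊥ → P ≠ ⊤ →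
        0 < ∑ i, θ i * (Module.finrank k
          (Submodule.map (DistribMulAction.toLinearMap k (M j) (e i))
            (P.restrictScalars k)) : ℤ)) ∧
      (∀ j j', Nonempty (M j ≃ₗ[A] M j') → j = j')

/-- weights are combinations of the dimensions of the `e i M` -/
def HasWt (k : Type) [Field k] (A : Type) [Ring A] [Algebra k A] {n : ℕ} (e : Fin n → A) : Prop :=
  ∀ (P Q : Type) [AddCommGroup P] [Module A P] [Module k P] [IsScalarTower k A P]
    [Module.Finite k P] [Module.Projective A P] [AddCommGroup Q] [Module A Q] [Module k Q]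
    [IsScalarTower k A Q] [Module.Finite k Q] [Module.Projective A Q],
    ∃ w : Fin n → ℤ, ∀ (X : Type) [AddCommGroup X] [Module A X] [Module k X]
      [IsScalarTower k A X] [Module.Finite k X],
      Th k A P Q X = ∑ i, w i * (ed k (e i) X : ℤ)

/-- representatives of the slope stable modules of bounded dimension -/
theorem reps (k : Type) [Field k] (A : Type) [Ring A] [Algebra k A]
    [Module.Finite k A] {n : ℕ} (e : Fin n → A) (he : CompleteOrthogonalIdempotents e)
    (hw : HasWt k A e) (hcon : ¬ SF k A e) (P Q : Type) [AddCommGroup P] [Module A P]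
    [Module k P] [IsScalarTower k A P] [Module.Finite k P] [Module.Projective A P]
    [AddCommGroup Q] [Module A Q] [Module k Q] [IsScalarTower k A Q] [Module.Finite k Q]
    [Module.Projective A Q] (D : ℕ) :
    ∃ (r : ℕ) (M : Fin r → FM k A), ∀ (X : Type) [AddCommGroup X] [Module A X] [Module k X]
      [IsScalarTower k A X] [Module.Finite k X], Nontrivial X → Stab k A P Q X →
      finrank k X ≤ D → ∃ j, Nonempty (X ≃ₗ[A] (M j).X) := by
  classical
  obtain ⟨w, hw⟩ := hw P Q
  let S : (Fin n → Fin (D + 1)) → Set (Quotient (fmSetoid k A)) := fun d =>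
    {q | ∃ X : FM k A, Quotient.mk (fmSetoid k A) X = q ∧ Nontrivial X.X ∧ Stab k A P Q X.X ∧
      ∀ i, ed k (e i) X.X = (d i : ℕ)}
  have hSfin : ∀ d, (S d).Finite := by
    intro d
    by_contra hinf
    apply hcon
    let Θ : ℤ := ∑ i, w i * ((d i : ℕ) : ℤ)
    let T : ℤ := ∑ i, ((d i : ℕ) : ℤ)
    refine ⟨fun i => (d i : ℕ), fun i => Θ - T * w i, ?_, ?_⟩
    · simp only [sub_mul, Finset.sum_sub_distrib, ← Finset.mul_sum, mul_assoc]
      change Θ * T - T * Θ = 0
      ring
    intro N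
    have hinf' : (S d).Infinite := hinf
    let F := hinf'.natEmbedding
    have hF : ∀ j : Fin N, ∃ X : FM k A, Quotient.mk (fmSetoid k A) X = (F (j : ℕ) : Quotient _) ∧
        Nontrivial X.X ∧ Stab k A P Q X.X ∧ ∀ i, ed k (e i) X.X = (d i : ℕ) :=
      fun j => (F (j : ℕ)).2
    choose M hM1 hM2 hM3 hM4 using hF
    refine ⟨fun j => (M j).X, fun j => (M j).i1, fun j => (M j).i2, fun j => (M j).i3,
      fun j => (M j).i4, fun j => (M j).i5, hM2, fun j i => hM4 j i, ?_, ?_⟩
    · intro j U hU0 hU1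
      have h1 := hM3 j U hU0 hU1
      have hfin : Module.Finite k U :=
        Module.Finite.of_injective (U.subtype.restrictScalars k) (Subtype.val_injective)
      rw [hw (M j).X, hw U, dim_eq_sum (k := k) he (X := (M j).X),
        dim_eq_sum (k := k) he (X := U)] at h1
      simp only [ed_sub]
      simp only [hM4 j] at h1
      push_cast at h1
      have h2 : ∑ i, (Θ - T * w i) * (ed k (e i) U : ℤ) =
          Θ * (∑ i, (ed k (e i) U : ℤ)) - T * ∑ i, w i * (ed k (e i) U : ℤ) := by
        rw [Finset.mul_sum, Finset.mul_sum, ← Finset.sum_sub_distrib]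
        refine Finset.sum_congr rfl (fun i _ => ?_)
        ring
      rw [h2]
      change (∑ i, w i * (ed k (e i) U : ℤ)) * T < Θ * _ at h1
      linarith
    · rintro j j' ⟨f⟩
      have h1 : (F (j : ℕ) : Quotient (fmSetoid k A)) = F (j' : ℕ) := by
        rw [← hM1 j, ← hM1 j']
        exact Quotient.sound ⟨f⟩
      have h2 := F.injective (Subtype.ext h1)
      exact Fin.ext h2
  let S' : Set (Quotient (fmSetoid k A)) := ⋃ d, S d
  have hS' : S'.Finite := Set.finite_iUnion hSfin
  let E := hS'.toFinset.equivFin.symm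
  refine ⟨hS'.toFinset.card, fun j => (E j : Quotient (fmSetoid k A)).out, ?_⟩
  intro X _ _ _ _ _ hX1 hX2 hX3
  have hsum := dim_eq_sum (k := k) he (X := X)
  have hle : ∀ i, ed k (e i) X < D + 1 := by
    intro i
    have h1 : ed k (e i) X ≤ ∑ i, ed k (e i) X :=
      Finset.single_le_sum (f := fun i => ed k (e i) X) (fun i _ => Nat.zero_le _)
        (Finset.mem_univ i)
    have h2 : finrank k X ≤ D := hX3
    omega
  let Xb : FM k A := ⟨X⟩
  have h3 : Quotient.mk (fmSetoid k A) Xb ∈ S' := by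
    refine Set.mem_iUnion.mpr ⟨fun i => ⟨ed k (e i) X, hle i⟩, Xb, rfl, hX1, hX2, fun i => rfl⟩
  have h4 : Quotient.mk (fmSetoid k A) Xb ∈ hS'.toFinset := hS'.mem_toFinset.mpr h3
  refine ⟨E.symm ⟨_, h4⟩, ?_⟩
  have h5 : (E (E.symm ⟨_, h4⟩) : Quotient (fmSetoid k A)) = Quotient.mk (fmSetoid k A) Xb := by
    rw [E.apply_symm_apply]
  have h6 : (fmSetoid k A).r ((Quotient.mk (fmSetoid k A) Xb).out) Xb :=
    Quotient.exact (Quotient.out_eq _)
  obtain ⟨g⟩ := h6
  change Nonempty (X ≃ₗ[A] ((E (E.symm ⟨_, h4⟩) : Quotient (fmSetoid k A)).out).X)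
  rw [h5]
  exact ⟨g.symm⟩

/-- existence of rigid points in affine subspaces of presentation spaces -/
def RR (k : Type) [Field k] (A : Type) [Ring A] [Algebra k A] : Prop :=
  ∀ (P Q : Type) [AddCommGroup P] [Module A P]
    [Module k P] [IsScalarTower k A P] [Module.Finite k P] [Module.Projective A P]
    [AddCommGroup Q] [Module A Q] [Module k Q] [IsScalarTower k A Q] [Module.Finite k Q]
    [Module.Projective A Q] (f0 : P →ₗ[A] Q) (W : Submodule k (P →ₗ[A] Q)),
    (∀ w ∈ W, ∀ g : P →ₗ[A] Q, ∃ (u : Q →ₗ[A] Q) (v : P →ₗ[A] P), ∃ w' ∈ W,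
      g = u ∘ₗ (f0 + w) + (f0 + w) ∘ₗ v + w') → ∃ w ∈ W, Rigid (f0 + w)

/-- rigid points in affine spaces, when there is no stable family -/
theorem exists_rigid_rel (k : Type) [Field k] [Infinite k] (A : Type) [Ring A] [Algebra k A]
    [Module.Finite k A] {n : ℕ} (e : Fin n → A) (he : CompleteOrthogonalIdempotents e)
    (hw : HasWt k A e) (hcon : ¬ SF k A e) : RR k A := by
  intro P Q _ _ _ _ _ _ _ _ _ _ _ _ f0 W hW
  obtain ⟨r, M, hM⟩ := reps k A e he hw hcon P Q (finrank k Q)
  obtain ⟨w, hw, hL⟩ := exists_lift_rel (k := k) (fun j => (M j).X) f0 W hW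
  refine ⟨w, hw, rigid_of_lift (k := k) (f0 + w) ?_⟩
  intro X _ _ _ _ _ h1 h2 h3
  obtain ⟨j, ⟨e⟩⟩ := hM X h1 h2 h3
  exact (hL j).congr e.symm

end BT
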