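import Mathlib
import Pool.Agent.Helper16.BT.Tri

/-!
Modules with local endomorphism ring.
-/

universe u

namespace BT

open Module Function

section loc

variable {A : Type u} [Ring A]
variable {C : Type u} [AddCommGroup C] [Module A C]

/-- every endomorphism is bijective or nilpotent -/
def Loc (A : Type u) [Ring A] (C : Type u) [AddCommGroup C] [Module A C] : Prop :=
  Nontrivial C ∧ ∀ φ : Module.End A C, Bijective φ ∨ IsNilpotent φ

/-- the radical submodule -/
def Rad (A : Type u) [Ring A] (C : Type u) [AddCommGroup C] [Module A C] : Submodule A C :=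
  ⨆ ρ : {ρ : Module.End A C // ¬ Bijective ρ}, LinearMap.range ρ.1

theorem mem_Rad {ρ : Module.End A C} (h : ¬ Bijective ρ) (x : C) : ρ x ∈ Rad A C :=
  (le_iSup (fun ρ : {ρ : Module.End A C // ¬ Bijective ρ} => LinearMap.range ρ.1) ⟨ρ, h⟩)
    (LinearMap.mem_range_self ρ x)

variable (k : Type u) [Field k] [Algebra k A] [Module k C] [IsScalarTower k A C]
  [Module.Finite k C]

include k in
theorem bij_of_inj {ρ : Module.End A C} (h : Injective ρ) : Bijective ρ :=
  ⟨h, (LinearMap.injective_iff_surjective (f := ρ.restrictScalars k)).mp h⟩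

include k in
theorem bij_of_surj {ρ : Module.End A C} (h : Surjective ρ) : Bijective ρ :=
  ⟨(LinearMap.injective_iff_surjective (f := ρ.restrictScalars k)).mpr h, h⟩

include k in
theorem not_bij_mul_left {ρ : Module.End A C} (h : ¬ Bijective ρ) (y : Module.End A C) :
    ¬ Bijective (y * ρ) := fun hb => h (bij_of_inj k (Injective.of_comp hb.1))

include k in
theorem not_bij_mul_right {ρ : Module.End A C} (h : ¬ Bijective ρ) (y : Module.End A C) :
    ¬ Bijective (ρ * y) := fun hb => h (bij_of_surj k (Surjective.of_comp hb.2))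

include k in
theorem Loc.mem_jac (hC : Loc A C) {ρ : Module.End A C} (h : ¬ Bijective ρ) :
    ρ ∈ Ring.jacobson (Module.End A C) := by
  rw [← Ideal.jacobson_bot, Ideal.mem_jacobson_iff]
  intro y
  have h1 : IsNilpotent (y * ρ) := (hC.2 (y * ρ)).resolve_left (not_bij_mul_left k h y)
  obtain ⟨w, hw⟩ := h1.isUnit_one_add
  refine ⟨((w⁻¹ : (Module.End A C)ˣ) : Module.End A C), ?_⟩
  rw [Ideal.mem_bot, mul_assoc]
  have h2 : ((w⁻¹ : (Module.End A C)ˣ) : Module.End A C) * (1 + y * ρ) = 1 := by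
    rw [← hw]
    exact w.inv_mul
  rw [mul_add, mul_one] at h2
  rw [add_comm, h2, sub_self]

theorem Loc.exists_nil (k A : Type u) [Field k] [Ring A] [Algebra k A] (C : Type u)
    [AddCommGroup C] [Module A C] [Module k C] [IsScalarTower k A C] [Module.Finite k C] :
    ∃ n : ℕ, (Ring.jacobson (Module.End A C)) ^ n = ⊥ := by
  have _ : Module.Finite k (Module.End A C) := finite_hom (k := k) (A := A) (P := C) (X := C)
  have _ : IsArtinianRing (Module.End A C) := IsArtinianRing.of_finite k (Module.End A C)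
  exact (IsSemiprimaryRing.isNilpotent : IsNilpotent (Ring.jacobson (Module.End A C)))

omit k in
theorem one_mem_pow_zero : (1 : Module.End A C) ∈ (Ring.jacobson (Module.End A C)) ^ 0 := by
  rw [Submodule.pow_zero, Ideal.one_eq_top]
  exact Submodule.mem_top

include k in
theorem Rad_ne_top (hC : Loc A C) : Rad A C ≠ ⊤ := by
  intro htop
  obtain ⟨n, hn⟩ := Loc.exists_nil k A C
  have key : ∀ j : ℕ, (⊤ : Submodule A C) ≤ ⨆ σ : {σ : Module.End A C //
      σ ∈ (Ring.jacobson (Module.End A C)) ^ j}, LinearMap.range σ.1 := by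
    intro j
    induction j with
    | zero =>
      refine le_trans ?_ (le_iSup (fun σ : {σ : Module.End A C //
        σ ∈ (Ring.jacobson (Module.End A C)) ^ 0} => LinearMap.range σ.1) ⟨1, one_mem_pow_zero⟩)
      intro x _
      exact ⟨x, rfl⟩
    | succ j ih =>
      rw [← htop, Rad]
      refine iSup_le ?_
      rintro ⟨ρ, hρ⟩
      have h1 : LinearMap.range ρ = Submodule.map ρ ⊤ := (Submodule.map_top ρ).symm
      rw [h1]
      refine (Submodule.map_mono ih).trans ?_
      rw [Submodule.map_iSup]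
      refine iSup_le ?_
      rintro ⟨σ, hσ⟩
      refine le_trans ?_ (le_iSup (fun σ : {σ : Module.End A C //
        σ ∈ (Ring.jacobson (Module.End A C)) ^ (j + 1)} => LinearMap.range σ.1) ⟨ρ * σ, by
          rw [Ideal.IsTwoSided.pow_succ]
          exact Ideal.mul_mem_mul (hC.mem_jac k hρ) hσ⟩)
      rintro _ ⟨_, ⟨x, rfl⟩, rfl⟩
      exact ⟨x, rfl⟩
  have h2 := key n
  rw [hn] at h2
  have h3 : ∀ x : C, x = 0 := by
    intro x
    have h4 := h2 (Submodule.mem_top (x := x))
    have h5 : (⨆ σ : {σ : Module.End A C // σ ∈ (⊥ : Ideal (Module.End A C))},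
        LinearMap.range σ.1) = ⊥ := by
      rw [eq_bot_iff]
      refine iSup_le ?_
      rintro ⟨σ, hσ⟩
      have : σ = 0 := hσ
      subst this
      rintro _ ⟨y, rfl⟩
      simp
    rw [h5] at h4
    exact (Submodule.mem_bot A).mp h4
  have := hC.1
  obtain ⟨x, hx⟩ := exists_ne (0 : C)
  exact hx (h3 x)

include k in
/-- a nonzero map which kills the radical -/
theorem exists_kill (hC : Loc A C) {B : Type u} [AddCommGroup B] [Module A B] (φ : C →ₗ[A] B)
    (hφ : φ ≠ 0) : ∃ φ' : C →ₗ[A] B, φ' ≠ 0 ∧ ∀ x ∈ Rad A C, φ' x = 0 := by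
  classical
  obtain ⟨n, hn⟩ := Loc.exists_nil k A C
  let S : ℕ → Prop := fun j => ∃ σ ∈ (Ring.jacobson (Module.End A C)) ^ j, φ ∘ₗ σ ≠ 0
  have h0 : S 0 := ⟨1, one_mem_pow_zero, hφ⟩
  have hn' : ¬ S n := by
    rintro ⟨σ, hσ, hne⟩
    rw [hn] at hσ
    have : σ = 0 := hσ
    subst this
    apply hne
    rw [LinearMap.comp_zero]
  obtain ⟨j, hj, hj'⟩ : ∃ j, S j ∧ ¬ S (j + 1) := by
    by_contra hcon
    push Not at hcon
    have : ∀ j, S j := fun j => Nat.rec h0 (fun j hj => hcon j hj) j
    exact hn' (this n)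
  obtain ⟨σ, hσ, hne⟩ := hj
  refine ⟨φ ∘ₗ σ, hne, ?_⟩
  have h1 : Rad A C ≤ LinearMap.ker (φ ∘ₗ σ) := by
    rw [Rad]
    refine iSup_le ?_
    rintro ⟨ρ, hρ⟩ _ ⟨x, rfl⟩
    rw [LinearMap.mem_ker]
    by_contra hcon
    apply hj'
    refine ⟨σ * ρ, ?_, fun h => hcon ?_⟩
    · rw [Submodule.pow_succ]
      exact Ideal.mul_mem_mul hσ (hC.mem_jac k hρ)
    · exact LinearMap.congr_fun h x
  exact fun x hx => h1 hx

end loc

section mid

variable {k A : Type u} [Field k] [Ring A] [Algebra k A]
variable {P Q : Type u} [AddCommGroup P] [Module A P] [Module k P] [IsScalarTower k A P]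
  [Module.Finite k P] [Module.Projective A P]
variable [AddCommGroup Q] [Module A Q] [Module k Q] [IsScalarTower k A Q] [Module.Finite k Q]
  [Module.Projective A Q]
variable {P' Q' : Type u} [AddCommGroup P'] [Module A P'] [Module k P'] [IsScalarTower k A P']
  [Module.Finite k P'] [Module.Projective A P']
variable [AddCommGroup Q'] [Module A Q'] [Module k Q'] [IsScalarTower k A Q'] [Module.Finite k Q']
  [Module.Projective A Q']

/-- if `{E(f,-) = 0}` is generated by a module with local endomorphism ring, then there is at most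
one brick in it outside the torsion class of `f` -/
theorem mid {f : P →ₗ[A] Q} {f' : P' →ₗ[A] Q'} (hf' : Rigid f')
    (hloc : Loc A (Q' ⧸ LinearMap.range f'))
    (hTT : ∀ (M : Type u) [AddCommGroup M] [Module A M] [Module k M] [IsScalarTower k A M]
      [Module.Finite k M], E0 f M ↔ TT f' M)
    (B : Type u) [AddCommGroup B] [Module A B] [Module k B] [IsScalarTower k A B]
    [Module.Finite k B] (hB : ∀ φ : B →ₗ[A] B, φ ≠ 0 → Injective φ)
    (hB1 : E0 f B) (hB2 : ¬ TT f B) :
    Nonempty (B ≃ₗ[A] ((Q' ⧸ LinearMap.range f') ⧸ Rad A (Q' ⧸ LinearMap.range f'))) := by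
  classical
  let C := Q' ⧸ LinearMap.range f'
  have hCfin : Module.Finite k C := finite_quot (LinearMap.range f')
  have hCE : E0 f C := (hTT C).mpr (TT_coker f')
  -- a minimal torsion free quotient
  obtain ⟨N, hN1, hN2, hN3⟩ : ∃ N : Submodule A B, N ≠ ⊤ ∧ H0 f (B ⧸ N) ∧
      ∀ N' : Submodule A B, N' ≠ ⊤ → H0 f (B ⧸ N') → finrank k (B ⧸ N) ≤ finrank k (B ⧸ N') := by
    have h1 : ∃ N : Submodule A B, N ≠ ⊤ ∧ H0 f (B ⧸ N) := by
      rw [TT] at hB2
      push Not at hB2
      obtain ⟨N, h1, h2⟩ := hB2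
      exact ⟨N, h2, h1⟩
    let S : Set ℕ := {n | ∃ N : Submodule A B, N ≠ ⊤ ∧ H0 f (B ⧸ N) ∧ finrank k (B ⧸ N) = n}
    have hS : S.Nonempty := by
      obtain ⟨N, h1, h2⟩ := h1
      exact ⟨_, N, h1, h2, rfl⟩
    obtain ⟨N, h2, h3, h4⟩ := Nat.sInf_mem hS
    refine ⟨N, h2, h3, fun N' h5 h6 => ?_⟩
    rw [h4]
    exact Nat.sInf_le ⟨N', h5, h6, rfl⟩
  let V := B ⧸ N
  have hVn : Nontrivial V := Submodule.Quotient.nontrivial_iff.mpr hN1
  have hVE : E0 f V := hB1.quot N.mkQ (Submodule.mkQ_surjective N)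
  -- (i) nonzero maps C → V are surjective
  have hsurj : ∀ φ : C →ₗ[A] V, φ ≠ 0 → Surjective φ := by
    intro φ hφ
    rw [← LinearMap.range_eq_top]
    by_contra hne
    have hU : E0 f (LinearMap.range φ) := hCE.quot φ.rangeRestrict φ.surjective_rangeRestrict
    have h1 : H0 f (V ⧸ LinearMap.range φ) := H0.quot _ hN2 hU
    let q : B →ₗ[A] (V ⧸ LinearMap.range φ) := (LinearMap.range φ).mkQ ∘ₗ N.mkQ
    have hq : Surjective q := (Submodule.mkQ_surjective _).comp (Submodule.mkQ_surjective N)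
    let eq := LinearMap.quotKerEquivOfSurjective q hq
    have hVn' : Nontrivial (V ⧸ LinearMap.range φ) := Submodule.Quotient.nontrivial_iff.mpr hne
    have h2 : LinearMap.ker q ≠ ⊤ := by
      intro h
      have h3 : Subsingleton (B ⧸ LinearMap.ker q) := by
        rw [h]
        infer_instance
      have h4 : Subsingleton (V ⧸ LinearMap.range φ) := eq.symm.injective.subsingleton
      exact not_subsingleton _ h4
    have h3 := hN3 (LinearMap.ker q) h2 (h1.sub eq.toLinearMap eq.injective)
    have h4 : finrank k (B ⧸ LinearMap.ker q) = finrank k (V ⧸ LinearMap.range φ) :=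
      dim_congr eq
    have hfin : Module.Finite k V := finite_quot N
    have h5 := dim_ses (k := k) (LinearMap.range φ).subtype (LinearMap.range φ).mkQ
      Subtype.val_injective (Submodule.mkQ_surjective _)
      (by rw [Submodule.range_subtype, Submodule.ker_mkQ])
    have hfin2 : Module.Finite k (LinearMap.range φ) :=
      Module.Finite.of_injective ((LinearMap.range φ).subtype.restrictScalars k)
        (Subtype.val_injective)
    have hUn : Nontrivial (LinearMap.range φ) :=
      Submodule.nontrivial_iff_ne_bot.mpr (fun h => hφ (LinearMap.range_eq_bot.mp h))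
    have h6 : 0 < finrank k (LinearMap.range φ) := Module.finrank_pos
    rw [h4] at h3
    change finrank k V ≤ _ at h3
    omega
  -- (iii) lifting along surjections C → V
  have hlift : ∀ φ : C →ₗ[A] V, φ ≠ 0 → ∀ ψ : C →ₗ[A] V, ∃ χ : C →ₗ[A] C, ψ = φ ∘ₗ χ := by
    intro φ hφ ψ
    have hs := hsurj φ hφ
    have hKf : Module.Finite k (LinearMap.ker φ) :=
      Module.Finite.of_injective ((LinearMap.ker φ).subtype.restrictScalars k)
        (Subtype.val_injective)
    have hK : E0 f (LinearMap.ker φ) := by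
      intro α
      obtain ⟨β, hβ⟩ := hCE ((LinearMap.ker φ).subtype ∘ₗ α)
      have h1 : φ ∘ₗ β = 0 := by
        apply hN2
        rw [LinearMap.comp_assoc, ← hβ]
        ext x
        exact (α x).2
      refine ⟨β.codRestrict _ (fun x => LinearMap.congr_fun h1 x), ?_⟩
      ext x
      exact LinearMap.congr_fun hβ x
    have hK' : E0 f' (LinearMap.ker φ) := TT.E0' k hf' ((hTT _).mp hK)
    obtain ⟨χ0, hχ0⟩ := Module.projective_lifting_property φ (ψ ∘ₗ (LinearMap.range f').mkQ) hs
    have h2 : ∀ x, χ0 (f' x) ∈ LinearMap.ker φ := by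
      intro x
      have h3 := LinearMap.congr_fun hχ0 (f' x)
      change φ (χ0 (f' x)) = ψ ((LinearMap.range f').mkQ (f' x)) at h3
      rw [LinearMap.mem_ker, h3, (Submodule.Quotient.mk_eq_zero (LinearMap.range f')
        (x := f' x)).mpr (LinearMap.mem_range_self f' x) |> (fun h => (show
          (LinearMap.range f').mkQ (f' x) = 0 from h)), map_zero]
    obtain ⟨κ, hκ⟩ := hK' ((χ0 ∘ₗ f').codRestrict _ h2)
    obtain ⟨χ, hχ⟩ := exists_bar (f := f') (χ0 - (LinearMap.ker φ).subtype ∘ₗ κ) (by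
      ext x
      have h5 := congrArg Subtype.val (LinearMap.congr_fun hκ x)
      change χ0 (f' x) = κ (f' x) at h5
      change χ0 (f' x) - κ (f' x) = 0
      rw [h5, sub_self])
    refine ⟨χ, ?_⟩
    ext x
    have h6 := LinearMap.congr_fun hχ x
    change χ ((LinearMap.range f').mkQ x) = χ0 x - κ x at h6
    have h7 := LinearMap.congr_fun hχ0 x
    change φ (χ0 x) = ψ ((LinearMap.range f').mkQ x) at h7
    change ψ ((LinearMap.range f').mkQ x) = φ (χ ((LinearMap.range f').mkQ x))
    have h8 : φ (κ x : C) = 0 := (κ x).2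
    rw [h6, map_sub, h7, h8, sub_zero]
  -- (iv) maps C → V kill the radical
  have hkill : ∀ φ : C →ₗ[A] V, ∀ x ∈ Rad A C, φ x = 0 := by
    intro φ
    have h1 : Rad A C ≤ LinearMap.ker φ := by
      rw [Rad]
      refine iSup_le ?_
      rintro ⟨ρ, hρ⟩ _ ⟨x, rfl⟩
      rw [LinearMap.mem_ker]
      by_contra hcon
      have h2 : φ ∘ₗ ρ ≠ 0 := fun h => hcon (LinearMap.congr_fun h x)
      obtain ⟨χ, hχ⟩ := hlift _ h2 φ
      have h3 : IsNilpotent (ρ * χ : Module.End A C) :=
        (hloc.2 (ρ * χ)).resolve_left (not_bij_mul_right k hρ χ)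
      obtain ⟨n, hn⟩ := h3
      have h4 : ∀ m : ℕ, φ = φ ∘ₗ ((ρ * χ : Module.End A C) ^ m) := by
        intro m
        induction m with
        | zero => rw [pow_zero]; rfl
        | succ m ih =>
          calc φ = (φ ∘ₗ ρ) ∘ₗ χ := hχ
            _ = φ ∘ₗ (ρ * χ : Module.End A C) := rfl
            _ = (φ ∘ₗ ((ρ * χ : Module.End A C) ^ m)) ∘ₗ (ρ * χ : Module.End A C) := by
              rw [← ih]
            _ = φ ∘ₗ ((ρ * χ : Module.End A C) ^ (m + 1)) := by
              rw [pow_succ]
              rfl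
      have h5 : φ = 0 := by
        have := h4 n
        rw [hn] at this
        rw [this]
        exact LinearMap.comp_zero φ
      rw [h5] at hcon
      exact hcon rfl
    exact fun x hx => h1 hx
  -- a nonzero map C → V
  obtain ⟨φ, hφ⟩ : ∃ φ : C →ₗ[A] V, φ ≠ 0 := by
    by_contra hcon
    push Not at hcon
    have hVf : Module.Finite k V := finite_quot N
    have h1 : TT f' V := (hTT V).mp hVE
    have h2 : H0 f' V := by
      intro h hh
      obtain ⟨h', hh'⟩ := exists_bar h hh
      rw [← hh', hcon h', LinearMap.zero_comp]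
    obtain ⟨x, hx⟩ := exists_ne (0 : V)
    exact hx (h1.eq_zero h2 x)
  -- (v) the kernel is the radical
  have hker : LinearMap.ker φ = Rad A C := by
    refine le_antisymm ?_ (fun x hx => hkill φ x hx)
    have hKf : Module.Finite k (LinearMap.ker φ) :=
      Module.Finite.of_injective ((LinearMap.ker φ).subtype.restrictScalars k)
        (Subtype.val_injective)
    have hK : E0 f (LinearMap.ker φ) := by
      intro α
      obtain ⟨β, hβ⟩ := hCE ((LinearMap.ker φ).subtype ∘ₗ α)
      have h1 : φ ∘ₗ β = 0 := by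
        apply hN2
        rw [LinearMap.comp_assoc, ← hβ]
        ext x
        exact (α x).2
      refine ⟨β.codRestrict _ (fun x => LinearMap.congr_fun h1 x), ?_⟩
      ext x
      exact LinearMap.congr_fun hβ x
    obtain ⟨m, H, hH⟩ := TT.gen k hf' ((hTT (LinearMap.ker φ)).mp hK)
    intro y hy
    obtain ⟨x, hx⟩ := hH ⟨y, hy⟩
    have h2 : x = ∑ j, LinearMap.single A (fun _ => C) j (x j) := by
      ext j
      simp [Finset.sum_apply, LinearMap.single_apply]
    have h3 : y = ∑ j, ((LinearMap.ker φ).subtype ∘ₗ H ∘ₗ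
        LinearMap.single A (fun _ => C) j) (x j) := by
      have h4 : y = (LinearMap.ker φ).subtype (H x) := by
        rw [hx]
        rfl
      rw [h4]
      conv_lhs => rw [h2]
      rw [map_sum, map_sum]
      rfl
    rw [h3]
    refine (Rad A C).sum_mem (fun j _ => ?_)
    refine mem_Rad (ρ := (LinearMap.ker φ).subtype ∘ₗ H ∘ₗ LinearMap.single A (fun _ => C) j) ?_ _
    intro hb
    apply hφ
    ext z
    obtain ⟨w, hw⟩ := hb.2 ((LinearMap.range f').mkQ z)
    change φ ((LinearMap.range f').mkQ z) = 0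
    rw [← hw]
    exact (H (LinearMap.single A (fun _ => C) j w)).2
  -- V ≃ C / Rad
  let e1 : (C ⧸ Rad A C) ≃ₗ[A] V :=
    (Submodule.quotEquivOfEq _ _ hker.symm).trans
      (LinearMap.quotKerEquivOfSurjective φ (hsurj φ hφ))
  -- a nonzero map V → B
  obtain ⟨ψ, hψ⟩ : ∃ ψ : C →ₗ[A] B, ψ ≠ 0 := by
    by_contra hcon
    push Not at hcon
    have h1 : TT f' B := (hTT B).mp hB1
    have h2 : H0 f' B := by
      intro h hh
      obtain ⟨h', hh'⟩ := exists_bar h hh
      rw [← hh', hcon h', LinearMap.zero_comp]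
    have h3 : N = ⊤ := by
      rw [Submodule.eq_top_iff']
      intro x
      rw [h1.eq_zero h2 x]
      exact N.zero_mem
    exact hN1 h3
  obtain ⟨ψ', hψ', hψ''⟩ := exists_kill k hloc ψ hψ
  let g : (C ⧸ Rad A C) →ₗ[A] B := (Rad A C).liftQ ψ' (fun x hx => hψ'' x hx)
  have hg : g ≠ 0 := by
    intro h
    apply hψ'
    ext x
    exact LinearMap.congr_fun h ((Rad A C).mkQ ((LinearMap.range f').mkQ x))
  let p : B →ₗ[A] (C ⧸ Rad A C) := e1.symm.toLinearMap ∘ₗ N.mkQ
  have hp : Surjective p := e1.symm.surjective.comp (Submodule.mkQ_surjective N)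
  have hgp : g ∘ₗ p ≠ 0 := by
    intro h
    apply hg
    ext x
    obtain ⟨b, hb⟩ := hp ((Rad A C).mkQ ((LinearMap.range f').mkQ x))
    change g ((Rad A C).mkQ ((LinearMap.range f').mkQ x)) = 0
    rw [← hb]
    exact LinearMap.congr_fun h b
  have hinj : Injective p := Injective.of_comp (f := g) (hB _ hgp)
  exact ⟨LinearEquiv.ofBijective p ⟨hinj, hp⟩⟩

end mid

end BT
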