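import Mathlib
import Pool.Agent.Helper16.BT.Loc

/-!
A rigid presentation of primitive weight with a nonzero semistable module has a cokernel with local
endomorphism ring (two coordinates).
-/

universe u

namespace BT

open Module Function

section fit

variable {k A : Type u} [Field k] [Ring A] [Algebra k A]

variable (k) in
/-- Fitting decomposition for large powers -/
theorem fitting {P : Type u} [AddCommGroup P] [Module A P] [Module k P] [IsScalarTower k A P]
    [Module.Finite k P] (a : Module.End A P) :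
    ∃ n0 : ℕ, ∀ n ≥ n0, IsCompl (LinearMap.ker (a ^ n)) (LinearMap.range (a ^ n)) := by
  have _ : IsNoetherian k P := inferInstance
  have _ : IsArtinian k P := inferInstance
  have h1 : IsNoetherian A P := isNoetherian_of_tower k inferInstance
  have h2 : IsArtinian A P := isArtinian_of_tower k inferInstance
  have h3 := LinearMap.eventually_isCompl_ker_pow_range_pow a
  rw [Filter.eventually_atTop] at h3
  exact h3

end fit

section hdc

variable {k A : Type u} [Field k] [Ring A] [Algebra k A]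

/-- additivity of Hom dimensions along a complement in the first variable -/
theorem hd_compl {P : Type u} [AddCommGroup P] [Module A P] [Module k P] [IsScalarTower k A P]
    [Module.Finite k P] (K L : Submodule A P) (h : IsCompl K L) (M : Type u) [AddCommGroup M]
    [Module A M] [Module k M] [IsScalarTower k A M] [Module.Finite k M] :
    hd k A P M = hd k A K M + hd k A L M := by
  have hK : Module.Finite k K :=
    Module.Finite.of_injective (K.subtype.restrictScalars k) (Subtype.val_injective)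
  have hL : Module.Finite k L :=
    Module.Finite.of_injective (L.subtype.restrictScalars k) (Subtype.val_injective)
  have _ := finite_hom (k := k) (A := A) (P := K) (X := M)
  have _ := finite_hom (k := k) (A := A) (P := L) (X := M)
  let e : (P →ₗ[A] M) ≃ₗ[k] ((K →ₗ[A] M) × (L →ₗ[A] M)) :=
    { toFun := fun φ => (φ ∘ₗ K.subtype, φ ∘ₗ L.subtype)
      map_add' := fun x y => rfl
      map_smul' := fun c x => rfl
      invFun := fun x => LinearMap.coprod x.1 x.2 ∘ₗ
        (Submodule.prodEquivOfIsCompl K L h).symm.toLinearMap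
      left_inv := fun φ => by
        ext x
        obtain ⟨⟨y, z⟩, rfl⟩ := (Submodule.prodEquivOfIsCompl K L h).surjective x
        change φ (((Submodule.prodEquivOfIsCompl K L h).symm
          ((Submodule.prodEquivOfIsCompl K L h) (y, z))).1 : P) +
          φ (((Submodule.prodEquivOfIsCompl K L h).symm
          ((Submodule.prodEquivOfIsCompl K L h) (y, z))).2 : P) = φ ((y : P) + (z : P))
        rw [LinearEquiv.symm_apply_apply, map_add]
      right_inv := fun x => by
        refine Prod.ext ?_ ?_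
        · ext y
          have h1 : (Submodule.prodEquivOfIsCompl K L h) (y, 0) = (y : P) := by simp
          change (LinearMap.coprod x.1 x.2) ((Submodule.prodEquivOfIsCompl K L h).symm (y : P)) = _
          rw [← h1, LinearEquiv.symm_apply_apply]
          simp
        · ext y
          have h1 : (Submodule.prodEquivOfIsCompl K L h) (0, y) = (y : P) := by simp
          change (LinearMap.coprod x.1 x.2) ((Submodule.prodEquivOfIsCompl K L h).symm (y : P)) = _
          rw [← h1, LinearEquiv.symm_apply_apply]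
          simp }
  rw [hd, hd, hd, e.finrank_eq, Module.finrank_prod]

theorem projective_compl {P : Type u} [AddCommGroup P] [Module A P] [Module.Projective A P]
    (K L : Submodule A P) (h : IsCompl K L) : Module.Projective A K := by
  refine Module.Projective.of_split K.subtype (K.projectionOnto L h) ?_
  ext x
  simp

end hdc

section split

variable {k A : Type u} [Field k] [Ring A] [Algebra k A]
variable {P Q : Type u} [AddCommGroup P] [Module A P] [Module k P] [IsScalarTower k A P]
  [Module.Finite k P] [Module.Projective A P]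
variable [AddCommGroup Q] [Module A Q] [Module k Q] [IsScalarTower k A Q] [Module.Finite k Q]
  [Module.Projective A Q]

/-- lifting an endomorphism of the cokernel -/
theorem exists_lift_end (f : P →ₗ[A] Q) (φ : Module.End A (Q ⧸ LinearMap.range f)) :
    ∃ (a : Module.End A P) (b : Module.End A Q), (∀ x, b (f x) = f (a x)) ∧
      ∀ y, (LinearMap.range f).mkQ (b y) = φ ((LinearMap.range f).mkQ y) := by
  obtain ⟨b, hb⟩ := Module.projective_lifting_property (LinearMap.range f).mkQ
    (φ ∘ₗ (LinearMap.range f).mkQ) (Submodule.mkQ_surjective _)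
  have h1 : ∀ x, (b ∘ₗ f) x ∈ LinearMap.range f := by
    intro x
    have h2 := LinearMap.congr_fun hb (f x)
    change (LinearMap.range f).mkQ (b (f x)) = φ ((LinearMap.range f).mkQ (f x)) at h2
    have h3 : (LinearMap.range f).mkQ (f x) = 0 :=
      (Submodule.Quotient.mk_eq_zero _).mpr (LinearMap.mem_range_self f x)
    rw [h3, map_zero] at h2
    exact (Submodule.Quotient.mk_eq_zero _).mp h2
  obtain ⟨a, ha⟩ := Module.projective_lifting_property f.rangeRestrict
    ((b ∘ₗ f).codRestrict _ h1) f.surjective_rangeRestrict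
  refine ⟨a, b, fun x => ?_, fun y => LinearMap.congr_fun hb y⟩
  exact (congrArg Subtype.val (LinearMap.congr_fun ha x)).symm

/-- the main lemma: local endomorphism ring -/
theorem loc_of_prim (m1 m2 : ∀ (M : Type u) [AddCommGroup M] [Module A M] [Module k M]
      [IsScalarTower k A M], ℕ)
    (hW : ∀ (P Q : Type u) [AddCommGroup P] [Module A P] [Module k P] [IsScalarTower k A P]
      [Module.Finite k P] [Module.Projective A P] [AddCommGroup Q] [Module A Q] [Module k Q]
      [IsScalarTower k A Q] [Module.Finite k Q] [Module.Projective A Q],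
      ∃ a b : ℤ, ∀ (M : Type u) [AddCommGroup M] [Module A M] [Module k M]
        [IsScalarTower k A M] [Module.Finite k M], Th k A P Q M = a * m1 M + b * m2 M)
    (hS : ∀ (M : Type u) [AddCommGroup M] [Module A M] [Module k M] [IsScalarTower k A M]
      [Module.Finite k M], m1 M = 0 → m2 M = 0 → Subsingleton M)
    {f : P →ₗ[A] Q} (hf : Rigid f) {a b : ℤ} (hab : IsCoprime a b)
    (hwt : ∀ (M : Type u) [AddCommGroup M] [Module A M] [Module k M]
        [IsScalarTower k A M] [Module.Finite k M], Th k A P Q M = a * m1 M + b * m2 M)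
    (V : Type u) [AddCommGroup V] [Module A V] [Module k V] [IsScalarTower k A V]
    [Module.Finite k V] [Nontrivial V] (hV1 : E0 f V) (hV2 : H0 f V)
    (hC : Nontrivial (Q ⧸ LinearMap.range f)) : Loc A (Q ⧸ LinearMap.range f) := by
  classical
  refine ⟨hC, fun φ => ?_⟩
  by_contra hcon
  push Not at hcon
  obtain ⟨hnb, hnn⟩ := hcon
  let C := Q ⧸ LinearMap.range f
  have hCf : Module.Finite k C := finite_quot (LinearMap.range f)
  obtain ⟨α, β, hαβ, hβφ⟩ := exists_lift_end f φ
  obtain ⟨n1, hn1⟩ := fitting k α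
  obtain ⟨n2, hn2⟩ := fitting k β
  obtain ⟨n3, hn3⟩ := fitting k φ
  let n := max (max n1 n2) n3 + 1
  have hcP := hn1 n (by omega)
  have hcQ := hn2 n (by omega)
  have hcC := hn3 n (by omega)
  have hpow : ∀ m x, (β ^ m) (f x) = f ((α ^ m) x) := by
    intro m
    induction m with
    | zero => intro x; rfl
    | succ m ih =>
      intro x
      rw [pow_succ, pow_succ]
      change (β ^ m) (β (f x)) = f ((α ^ m) (α x))
      rw [hαβ, ih]
  have hpowφ : ∀ m y, (LinearMap.range f).mkQ ((β ^ m) y) =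
      (φ ^ m) ((LinearMap.range f).mkQ y) := by
    intro m
    induction m with
    | zero => intro y; rfl
    | succ m ih =>
      intro y
      rw [pow_succ, pow_succ]
      change (LinearMap.range f).mkQ ((β ^ m) (β y)) = (φ ^ m) (φ ((LinearMap.range f).mkQ y))
      rw [ih, hβφ]
  -- the two summands
  let P0 := LinearMap.ker (α ^ n)
  let P1 := LinearMap.range (α ^ n)
  let Q0 := LinearMap.ker (β ^ n)
  let Q1 := LinearMap.range (β ^ n)
  have hf0 : ∀ x : P0, f x ∈ Q0 := by
    intro x
    rw [LinearMap.mem_ker, hpow]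
    have : (α ^ n) (x : P) = 0 := x.2
    rw [this, map_zero]
  have hf1 : ∀ x : P1, f x ∈ Q1 := by
    rintro ⟨_, ⟨y, rfl⟩⟩
    exact ⟨f y, hpow n y⟩
  let f0 : P0 →ₗ[A] Q0 := (f ∘ₗ P0.subtype).codRestrict Q0 hf0
  let f1 : P1 →ₗ[A] Q1 := (f ∘ₗ P1.subtype).codRestrict Q1 hf1
  have pP0 : Module.Projective A P0 := projective_compl _ _ hcP
  have pP1 : Module.Projective A P1 := projective_compl _ _ hcP.symm
  have pQ0 : Module.Projective A Q0 := projective_compl _ _ hcQ
  have pQ1 : Module.Projective A Q1 := projective_compl _ _ hcQ.symm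
  have fin_sub : ∀ {X : Type u} [AddCommGroup X] [Module A X] [Module k X] [IsScalarTower k A X]
      [Module.Finite k X] (U : Submodule A X), Module.Finite k U := fun U =>
    Module.Finite.of_injective (U.subtype.restrictScalars k) (Subtype.val_injective)
  have fP0 : Module.Finite k P0 := fin_sub _
  have fP1 : Module.Finite k P1 := fin_sub _
  have fQ0 : Module.Finite k Q0 := fin_sub _
  have fQ1 : Module.Finite k Q1 := fin_sub _
  obtain ⟨a0, b0, hw0⟩ := hW P0 Q0
  obtain ⟨a1, b1, hw1⟩ := hW P1 Q1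
  have hadd : ∀ (M : Type u) [AddCommGroup M] [Module A M] [Module k M]
      [IsScalarTower k A M] [Module.Finite k M],
      Th k A P Q M = Th k A P0 Q0 M + Th k A P1 Q1 M := by
    intro M _ _ _ _ _
    rw [Th, Th, Th, hd_compl P0 P1 hcP M, hd_compl Q0 Q1 hcQ M]
    push_cast
    ring
  -- E0 for the summands
  have hE0 : ∀ (M : Type u) [AddCommGroup M] [Module A M], E0 f M → E0 f0 M := by
    intro M _ _ h ψ
    obtain ⟨χ, hχ⟩ := h (ψ ∘ₗ (P0.projectionOnto P1 hcP))
    refine ⟨χ ∘ₗ Q0.subtype, ?_⟩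
    ext x
    have h1 := LinearMap.congr_fun hχ (x : P)
    change ψ (P0.projectionOnto P1 hcP (x : P)) = χ (f x) at h1
    rw [Submodule.projectionOnto_apply_left] at h1
    exact h1
  have hE1 : ∀ (M : Type u) [AddCommGroup M] [Module A M], E0 f M → E0 f1 M := by
    intro M _ _ h ψ
    obtain ⟨χ, hχ⟩ := h (ψ ∘ₗ (P1.projectionOnto P0 hcP.symm))
    refine ⟨χ ∘ₗ Q1.subtype, ?_⟩
    ext x
    have h1 := LinearMap.congr_fun hχ (x : P)
    change ψ (P1.projectionOnto P0 hcP.symm (x : P)) = χ (f x) at h1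
    rw [Submodule.projectionOnto_apply_left] at h1
    exact h1
  have hdec : ∀ x : P, ∃ (x0 : P0) (x1 : P1), x = x0 + x1 := by
    intro x
    obtain ⟨y, hy, z, hz, hyz⟩ := Submodule.mem_sup.mp
      (hcP.sup_eq_top ▸ Submodule.mem_top : x ∈ P0 ⊔ P1)
    exact ⟨⟨y, hy⟩, ⟨z, hz⟩, hyz.symm⟩
  have hdecQ : ∀ x : Q, ∃ (x0 : Q0) (x1 : Q1), x = x0 + x1 := by
    intro x
    obtain ⟨y, hy, z, hz, hyz⟩ := Submodule.mem_sup.mp
      (hcQ.sup_eq_top ▸ Submodule.mem_top : x ∈ Q0 ⊔ Q1)
    exact ⟨⟨y, hy⟩, ⟨z, hz⟩, hyz.symm⟩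
  have hH0 : ∀ (M : Type u) [AddCommGroup M] [Module A M], H0 f M → H0 f0 M := by
    intro M _ _ h ψ hψ
    have h1 := h (ψ ∘ₗ (Q0.projectionOnto Q1 hcQ)) (by
      ext x
      obtain ⟨x0, x1, rfl⟩ := hdec x
      change ψ (Q0.projectionOnto Q1 hcQ (f ((x0 : P) + (x1 : P)))) = 0
      rw [map_add, map_add, map_add]
      have h2 : Q0.projectionOnto Q1 hcQ (f x0) = f0 x0 :=
        Submodule.projectionOnto_apply_left hcQ (f0 x0)
      have h3 : Q0.projectionOnto Q1 hcQ (f x1) = 0 :=
        (Submodule.projectionOnto_apply_eq_zero_iff hcQ).mpr (hf1 x1)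
      have h4 : ψ (f0 x0) = 0 := LinearMap.congr_fun hψ x0
      rw [h2, h3, h4, map_zero, add_zero])
    ext x
    have h2 := LinearMap.congr_fun h1 (x : Q)
    change ψ (Q0.projectionOnto Q1 hcQ (x : Q)) = 0 at h2
    rw [Submodule.projectionOnto_apply_left] at h2
    exact h2
  have hH1 : ∀ (M : Type u) [AddCommGroup M] [Module A M], H0 f M → H0 f1 M := by
    intro M _ _ h ψ hψ
    have h1 := h (ψ ∘ₗ (Q1.projectionOnto Q0 hcQ.symm)) (by
      ext x
      obtain ⟨x0, x1, rfl⟩ := hdec x
      change ψ (Q1.projectionOnto Q0 hcQ.symm (f ((x0 : P) + (x1 : P)))) = 0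
      rw [map_add, map_add, map_add]
      have h2 : Q1.projectionOnto Q0 hcQ.symm (f x1) = f1 x1 :=
        Submodule.projectionOnto_apply_left hcQ.symm (f1 x1)
      have h3 : Q1.projectionOnto Q0 hcQ.symm (f x0) = 0 :=
        (Submodule.projectionOnto_apply_eq_zero_iff hcQ.symm).mpr (hf0 x0)
      have h4 : ψ (f1 x1) = 0 := LinearMap.congr_fun hψ x1
      rw [h2, h3, h4, map_zero, zero_add])
    ext x
    have h2 := LinearMap.congr_fun h1 (x : Q)
    change ψ (Q1.projectionOnto Q0 hcQ.symm (x : Q)) = 0 at h2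
    rw [Submodule.projectionOnto_apply_left] at h2
    exact h2
  -- the weights are proportional
  have hz0 := Th_zero (k := k) (hE0 V hV1) (hH0 V hV2)
  have hz1 := Th_zero (k := k) (hE1 V hV1) (hH1 V hV2)
  rw [hw0] at hz0
  rw [hw1] at hz1
  -- total weight
  have htot : ∀ (M : Type u) [AddCommGroup M] [Module A M] [Module k M]
      [IsScalarTower k A M] [Module.Finite k M],
      a * m1 M + b * m2 M = (a0 * m1 M + b0 * m2 M) + (a1 * m1 M + b1 * m2 M) := by
    intro M _ _ _ _ _
    rw [← hwt, hadd, hw0, hw1]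
  have hmV : ¬ (m1 V = 0 ∧ m2 V = 0) := by
    rintro ⟨h1, h2⟩
    exact not_subsingleton V (hS V h1 h2)
  have hVz : a * (m1 V : ℤ) + b * (m2 V : ℤ) = 0 := by
    rw [htot, hz0, hz1, add_zero]
  -- the modules K = ker φ^n and I = range φ^n
  let K := LinearMap.ker (φ ^ n)
  let I := LinearMap.range (φ ^ n)
  have fK : Module.Finite k K := fin_sub _
  have fI : Module.Finite k I := fin_sub _
  have hCE : E0 f C := hf.E0_coker
  have hφn1 : LinearMap.ker (φ ^ n) ≠ ⊥ := by
    intro h
    apply hnb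
    apply bij_of_inj k
    have h1 : Injective (φ ^ n : Module.End A C) := LinearMap.ker_eq_bot.mp h
    have h2 : (φ ^ n : Module.End A C) = (φ ^ (max (max n1 n2) n3)) * φ := pow_succ _ _
    rw [h2] at h1
    exact Injective.of_comp h1
  have hφn2 : LinearMap.range (φ ^ n) ≠ ⊥ := by
    intro h
    exact hnn ⟨n, LinearMap.range_eq_bot.mp h⟩
  -- K is the image of Q0
  have hK0 : ∀ x : Q0, (LinearMap.range f).mkQ x ∈ K := by
    intro x
    rw [LinearMap.mem_ker, ← hpowφ]
    have : (β ^ n) (x : Q) = 0 := x.2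
    rw [this, map_zero]
  have hI1 : ∀ x : Q1, (LinearMap.range f).mkQ x ∈ I := by
    rintro ⟨_, ⟨y, rfl⟩⟩
    exact ⟨(LinearMap.range f).mkQ y, (hpowφ n y).symm⟩
  let g0 : Q0 →ₗ[A] K := ((LinearMap.range f).mkQ ∘ₗ Q0.subtype).codRestrict K hK0
  let g1 : Q1 →ₗ[A] I := ((LinearMap.range f).mkQ ∘ₗ Q1.subtype).codRestrict I hI1
  have hrange : ∀ x, (LinearMap.range f).mkQ (f x) = 0 := fun x =>
    (Submodule.Quotient.mk_eq_zero _).mpr (LinearMap.mem_range_self f x)
  have hg0f : g0 ∘ₗ f0 = 0 := by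
    ext x
    exact hrange x
  have hg1f : g1 ∘ₗ f1 = 0 := by
    ext x
    exact hrange x
  -- surjectivity of the two maps
  have hg1s : Surjective g1 := by
    rintro ⟨_, ⟨c, rfl⟩⟩
    obtain ⟨y, rfl⟩ := Submodule.mkQ_surjective (LinearMap.range f) c
    exact ⟨⟨(β ^ n) y, ⟨y, rfl⟩⟩, Subtype.ext (hpowφ n y)⟩
  have hg0s : Surjective g0 := by
    rintro ⟨c, hc⟩
    obtain ⟨y, rfl⟩ := Submodule.mkQ_surjective (LinearMap.range f) c
    obtain ⟨y0, y1, rfl⟩ := hdecQ y
    -- y1 is in the range of f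
    have h1 : (β ^ n) (y1 : Q) ∈ LinearMap.range f := by
      have h2 : (φ ^ n) ((LinearMap.range f).mkQ ((y0 : Q) + (y1 : Q))) = 0 := hc
      rw [← hpowφ, map_add] at h2
      have h3 : (β ^ n) (y0 : Q) = 0 := y0.2
      rw [h3, zero_add] at h2
      exact (Submodule.Quotient.mk_eq_zero _).mp h2
    obtain ⟨p, hp⟩ := h1
    obtain ⟨p0, p1, rfl⟩ := hdec p
    rw [map_add] at hp
    have h4 : f (p0 : P) = 0 ∧ f (p1 : P) = (β ^ n) (y1 : Q) := by
      have h5 : f (p0 : P) = (β ^ n) (y1 : Q) - f (p1 : P) := by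
        rw [← hp]
        abel
      have h6 : f (p0 : P) ∈ Q0 ⊓ Q1 := by
        refine ⟨hf0 p0, ?_⟩
        rw [h5]
        exact Q1.sub_mem ⟨_, rfl⟩ (hf1 p1)
      rw [hcQ.inf_eq_bot, Submodule.mem_bot] at h6
      refine ⟨h6, ?_⟩
      rw [h6, zero_add] at hp
      exact hp
    -- p1 = α^n p1'
    have h7 : ∃ p1' : P1, (α ^ n) (p1' : P) = p1 := by
      obtain ⟨z, hz⟩ := p1.2
      obtain ⟨z0, z1, rfl⟩ := hdec z
      refine ⟨z1, ?_⟩
      rw [← hz, map_add]
      have h8 : (α ^ n) (z0 : P) = 0 := z0.2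
      rw [h8, zero_add]
    obtain ⟨p1', hp1'⟩ := h7
    have h9 : (y1 : Q) = f (p1' : P) := by
      have h10 : (y1 : Q) - f (p1' : P) ∈ Q0 ⊓ Q1 := by
        refine ⟨?_, Q1.sub_mem y1.2 (hf1 p1')⟩
        change (β ^ n) ((y1 : Q) - f (p1' : P)) = 0
        rw [map_sub, hpow, hp1', h4.2, sub_self]
      rw [hcQ.inf_eq_bot, Submodule.mem_bot] at h10
      exact sub_eq_zero.mp h10
    refine ⟨y0, Subtype.ext ?_⟩
    change (LinearMap.range f).mkQ (y0 : Q) = (LinearMap.range f).mkQ ((y0 : Q) + (y1 : Q))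
    rw [map_add, h9, hrange, add_zero]
  have hg0 : g0 ≠ 0 := by
    intro h
    apply hφn1
    rw [Submodule.eq_bot_iff]
    intro c hc
    obtain ⟨y, hy⟩ := hg0s ⟨c, hc⟩
    rw [h] at hy
    exact (congrArg Subtype.val hy).symm
  have hg1 : g1 ≠ 0 := by
    intro h
    apply hφn2
    rw [Submodule.eq_bot_iff]
    intro c hc
    obtain ⟨y, hy⟩ := hg1s ⟨c, hc⟩
    rw [h] at hy
    exact (congrArg Subtype.val hy).symm
  -- E0 f K, E0 f I
  have hIE : E0 f I := hCE.quot (φ ^ n).rangeRestrict (φ ^ n).surjective_rangeRestrict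
  have hKE : E0 f K := hCE.quot _ (Submodule.projectionOnto_surjective hcC)
  -- positivity
  have q1 := Th_pos (k := k) (hE0 K hKE) g0 hg0f hg0
  have q2 := Th_nonneg (k := k) (hE1 K hKE)
  have q3 := Th_pos (k := k) (hE1 I hIE) g1 hg1f hg1
  have q4 := Th_nonneg (k := k) (hE0 I hIE)
  rw [hw0] at q1 q4
  rw [hw1] at q2 q3
  -- arithmetic
  obtain ⟨s, t, hst⟩ := hab
  have prop0 : a0 * b = b0 * a := by
    by_cases h1 : m1 V = 0
    · have h2 : (m2 V : ℤ) ≠ 0 := by
        intro h2
        exact hmV ⟨h1, by exact_mod_cast h2⟩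
      rw [h1] at hz0 hVz
      simp only [Nat.cast_zero, mul_zero, zero_add] at hz0 hVz
      have hb : b = 0 := (mul_eq_zero.mp hVz).resolve_right h2
      have hb0 : b0 = 0 := (mul_eq_zero.mp hz0).resolve_right h2
      rw [hb, hb0]
      ring
    · have h2 : (m1 V : ℤ) ≠ 0 := by exact_mod_cast h1
      have h3 : (a0 * b - b0 * a) * (m1 V : ℤ) = 0 := by
        linear_combination b * hz0 - b0 * hVz
      exact sub_eq_zero.mp ((mul_eq_zero.mp h3).resolve_right h2)
  have prop1 : a1 * b = b1 * a := by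
    by_cases h1 : m1 V = 0
    · have h2 : (m2 V : ℤ) ≠ 0 := by
        intro h2
        exact hmV ⟨h1, by exact_mod_cast h2⟩
      rw [h1] at hz1 hVz
      simp only [Nat.cast_zero, mul_zero, zero_add] at hz1 hVz
      have hb : b = 0 := (mul_eq_zero.mp hVz).resolve_right h2
      have hb1 : b1 = 0 := (mul_eq_zero.mp hz1).resolve_right h2
      rw [hb, hb1]
      ring
    · have h2 : (m1 V : ℤ) ≠ 0 := by exact_mod_cast h1
      have h3 : (a1 * b - b1 * a) * (m1 V : ℤ) = 0 := by
        linear_combination b * hz1 - b1 * hVz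
      exact sub_eq_zero.mp ((mul_eq_zero.mp h3).resolve_right h2)
  -- c0, c1 with (a0,b0) = c0 (a,b)
  let c0 := s * a0 + t * b0
  let c1 := s * a1 + t * b1
  have e1 : a0 = c0 * a := by
    have : c0 * a = a0 * (s * a + t * b) := by
      simp only [c0]
      linear_combination (-t) * prop0
    rw [this, hst, mul_one]
  have e2 : b0 = c0 * b := by
    have : c0 * b = b0 * (s * a + t * b) := by
      simp only [c0]
      linear_combination s * prop0
    rw [this, hst, mul_one]
  have e3 : a1 = c1 * a := by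
    have : c1 * a = a1 * (s * a + t * b) := by
      simp only [c1]
      linear_combination (-t) * prop1
    rw [this, hst, mul_one]
  have e4 : b1 = c1 * b := by
    have : c1 * b = b1 * (s * a + t * b) := by
      simp only [c1]
      linear_combination s * prop1
    rw [this, hst, mul_one]
  have tK := htot K
  have tI := htot I
  have zK : 0 < a * (m1 K : ℤ) + b * (m2 K : ℤ) := by
    rw [tK]
    linarith
  have zI : 0 < a * (m1 I : ℤ) + b * (m2 I : ℤ) := by
    rw [tI]
    linarith
  have r1 : 0 < c0 * (a * (m1 K : ℤ) + b * (m2 K : ℤ)) := by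
    have : c0 * (a * (m1 K : ℤ) + b * (m2 K : ℤ)) = a0 * (m1 K : ℤ) + b0 * (m2 K : ℤ) := by
      rw [e1, e2]
      ring
    rw [this]
    exact q1
  have r2 : 0 < c1 * (a * (m1 I : ℤ) + b * (m2 I : ℤ)) := by
    have : c1 * (a * (m1 I : ℤ) + b * (m2 I : ℤ)) = a1 * (m1 I : ℤ) + b1 * (m2 I : ℤ) := by
      rw [e3, e4]
      ring
    rw [this]
    exact q3
  have c0pos : 0 < c0 := by
    by_contra h
    push Not at h
    nlinarith
  have c1pos : 0 < c1 := by
    by_contra h
    push Not at h
    nlinarith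
  have hsum : (c0 + c1) * (a * (m1 K : ℤ) + b * (m2 K : ℤ)) =
      a * (m1 K : ℤ) + b * (m2 K : ℤ) := by
    have h1 : a0 * (m1 K : ℤ) + b0 * (m2 K : ℤ) + (a1 * (m1 K : ℤ) + b1 * (m2 K : ℤ)) =
        (c0 + c1) * (a * (m1 K : ℤ) + b * (m2 K : ℤ)) := by
      rw [e1, e2, e3, e4]
      ring
    rw [← h1]
    exact tK.symm
  have : c0 + c1 = 1 := by
    have h2 : (c0 + c1 - 1) * (a * (m1 K : ℤ) + b * (m2 K : ℤ)) = 0 := by
      linear_combination hsum
    have h3 := (mul_eq_zero.mp h2).resolve_right zK.ne'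
    linarith
  omega

end split

end BT
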