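import Mathlib
import Pool.Agent.Helper16.BT.Split
import Pool.Agent.Helper16.BT.Dec
import Pool.Agent.Helper16.BT.Rel

/-!
The Farey algorithm for two coordinates.
-/

namespace BT

open Module Function

section trirel

variable {k A : Type} [Field k] [Ring A] [Algebra k A]
variable {P Q : Type} [AddCommGroup P] [Module A P] [AddCommGroup Q] [Module A Q]
variable {P' Q' : Type} [AddCommGroup P'] [Module A P'] [AddCommGroup Q'] [Module A Q']

theorem tri_W {f : P →ₗ[A] Q} {f' : P' →ₗ[A] Q'} (hf : Rigid f) (hf' : Rigid f') (h : EE f' f)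
    (g0 : P →ₗ[A] Q') (g : (P × P') →ₗ[A] (Q × Q')) :
    ∃ (u : (Q × Q') →ₗ[A] (Q × Q')) (v : (P × P') →ₗ[A] (P × P')) (g1 : P →ₗ[A] Q'),
      g = u ∘ₗ tri f g0 f' + tri f g0 f' ∘ₗ v +
        LinearMap.inr A Q Q' ∘ₗ g1 ∘ₗ LinearMap.fst A P P' := by
  obtain ⟨α, β, hαβ⟩ := h (LinearMap.fst A Q Q' ∘ₗ g ∘ₗ LinearMap.inr A P P')
  let u1 : (Q × Q') →ₗ[A] (Q × Q') := LinearMap.inl A Q Q' ∘ₗ α ∘ₗ LinearMap.snd A Q Q'
  let v1 : (P × P') →ₗ[A] (P × P') := LinearMap.inl A P P' ∘ₗ β ∘ₗ LinearMap.snd A P P'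
  let g2 := g - u1 ∘ₗ tri f g0 f' - tri f g0 f' ∘ₗ v1
  obtain ⟨u', v', h1⟩ := hf (LinearMap.fst A Q Q' ∘ₗ g2 ∘ₗ LinearMap.inl A P P')
  obtain ⟨u'', v'', h2⟩ := hf' (LinearMap.snd A Q Q' ∘ₗ g2 ∘ₗ LinearMap.inr A P P')
  let u2 : (Q × Q') →ₗ[A] (Q × Q') := LinearMap.inl A Q Q' ∘ₗ u' ∘ₗ LinearMap.fst A Q Q' +
    LinearMap.inr A Q Q' ∘ₗ u'' ∘ₗ LinearMap.snd A Q Q'
  let v2 : (P × P') →ₗ[A] (P × P') := LinearMap.inl A P P' ∘ₗ v' ∘ₗ LinearMap.fst A P P' +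
    LinearMap.inr A P P' ∘ₗ v'' ∘ₗ LinearMap.snd A P P'
  let g3 := g2 - u2 ∘ₗ tri f g0 f' - tri f g0 f' ∘ₗ v2
  refine ⟨u1 + u2, v1 + v2, LinearMap.snd A Q Q' ∘ₗ g3 ∘ₗ LinearMap.inl A P P', ?_⟩
  have key1 : ∀ x : P, (g3 (x, 0)).1 = 0 := by
    intro x
    have h3 := LinearMap.congr_fun h1 x
    change (g2 (x, 0)).1 = u' (f x) + f (v' x) at h3
    change (g2 (x, 0)).1 - (u2 (tri f g0 f' (x, 0))).1 - (tri f g0 f' (v2 (x, 0))).1 = 0
    rw [h3]
    simp [u2, v2]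
  have key2 : ∀ y : P', (g3 (0, y)).2 = 0 := by
    intro y
    have h3 := LinearMap.congr_fun h2 y
    change (g2 (0, y)).2 = u'' (f' y) + f' (v'' y) at h3
    change (g2 (0, y)).2 - (u2 (tri f g0 f' (0, y))).2 - (tri f g0 f' (v2 (0, y))).2 = 0
    rw [h3]
    simp [u2, v2]
  have key3 : ∀ y : P', (g3 (0, y)).1 = 0 := by
    intro y
    have h3 := LinearMap.congr_fun hαβ y
    change (g (0, y)).1 = α (f' y) + f (β y) at h3
    change (g (0, y)).1 - (u1 (tri f g0 f' (0, y))).1 - (tri f g0 f' (v1 (0, y))).1 -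
      (u2 (tri f g0 f' (0, y))).1 - (tri f g0 f' (v2 (0, y))).1 = 0
    rw [h3]
    simp [u1, v1, u2, v2]
  have hg3 : g3 = LinearMap.inr A Q Q' ∘ₗ (LinearMap.snd A Q Q' ∘ₗ g3 ∘ₗ LinearMap.inl A P P') ∘ₗ
      LinearMap.fst A P P' := by
    refine LinearMap.ext (fun z => ?_)
    obtain ⟨x, y⟩ := z
    have h4 : g3 (x, y) = g3 (x, 0) + g3 (0, y) := by
      rw [← map_add]
      simp
    rw [h4]
    refine Prod.ext ?_ ?_
    · change (g3 (x, 0)).1 + (g3 (0, y)).1 = 0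
      rw [key1, key3, add_zero]
    · change (g3 (x, 0)).2 + (g3 (0, y)).2 = (g3 (x, 0)).2
      rw [key2, add_zero]
  rw [← hg3]
  simp only [g3, g2, LinearMap.add_comp, LinearMap.comp_add]
  abel

end trirel

/-- bundled rigid presentations -/
structure Pr (k A : Type) [Field k] [Ring A] [Algebra k A] where
  P : Type
  Q : Type
  [ap : AddCommGroup P]
  [mp : Module A P]
  [kp : Module k P]
  [sp : IsScalarTower k A P]
  [fp : Module.Finite k P]
  [pp : Module.Projective A P]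
  [aq : AddCommGroup Q]
  [mq : Module A Q]
  [kq : Module k Q]
  [sq : IsScalarTower k A Q]
  [fq : Module.Finite k Q]
  [pq : Module.Projective A Q]
  f : P →ₗ[A] Q
  rig : Rigid f

attribute [instance] Pr.ap Pr.mp Pr.kp Pr.sp Pr.fp Pr.pp Pr.aq Pr.mq Pr.kq Pr.sq Pr.fq Pr.pq

section farey

variable {k A : Type} [Field k] [Ring A] [Algebra k A] [Module.Finite k A]

/-- the cokernel -/
abbrev Pr.C (X : Pr k A) : Type := X.Q ⧸ LinearMap.range X.f

/-- the weight is `a e1 + b e2` -/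
def Wt (e1 e2 : A) (X : Pr k A) (a b : ℤ) : Prop :=
  ∀ (M : Type) [AddCommGroup M] [Module A M] [Module k M] [IsScalarTower k A M]
    [Module.Finite k M], Th k A X.P X.Q M = a * (ed k e1 M : ℤ) + b * (ed k e2 M : ℤ)

/-- two coordinates suffice -/
structure Two (k : Type) {A : Type} [Field k] [Ring A] [Algebra k A] (e1 e2 : A) : Prop where
  i1 : IsIdempotentElem e1
  i2 : IsIdempotentElem e2
  zero : ∀ (M : Type) [AddCommGroup M] [Module A M] [Module k M] [IsScalarTower k A M]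
    [Module.Finite k M], ed k e1 M = 0 → ed k e2 M = 0 → Subsingleton M
  wt : ∀ (P Q : Type) [AddCommGroup P] [Module A P] [Module k P] [IsScalarTower k A P]
    [Module.Finite k P] [Module.Projective A P] [AddCommGroup Q] [Module A Q] [Module k Q]
    [IsScalarTower k A Q] [Module.Finite k Q] [Module.Projective A Q],
    ∃ a b : ℤ, ∀ (M : Type) [AddCommGroup M] [Module A M] [Module k M]
      [IsScalarTower k A M] [Module.Finite k M],
      Th k A P Q M = a * (ed k e1 M : ℤ) + b * (ed k e2 M : ℤ)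
  s1 : ∃ S : FM k A, ed k e1 S.X ≠ 0 ∧ ed k e2 S.X = 0

/-- intervals -/
structure Iv (e1 e2 : A) (X Y : Pr k A) : Prop where
  ee : EE Y.f X.f
  hF : ∀ (M : Type) [AddCommGroup M] [Module A M], H0 Y.f M → H0 X.f M
  hT : ∀ (M : Type) [AddCommGroup M] [Module A M], E0 X.f M → E0 Y.f M
  wt : ∃ a b c d : ℤ, Wt e1 e2 X a b ∧ Wt e1 e2 Y c d ∧ a * d - b * c = 1 ∧ 0 ≤ a ∧ 0 < c

/-- the torsion class of `X` is generated by a module with local endomorphism ring -/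
def PrT (X : Pr k A) : Prop :=
  ∃ Y : Pr k A, Loc A Y.C ∧ ∀ (M : Type) [AddCommGroup M] [Module A M] [Module k M]
    [IsScalarTower k A M] [Module.Finite k M], TT X.f M ↔ TT Y.f M

/-- the same for the larger torsion class -/
def PrE (X : Pr k A) : Prop :=
  ∃ Y : Pr k A, Loc A Y.C ∧ ∀ (M : Type) [AddCommGroup M] [Module A M] [Module k M]
    [IsScalarTower k A M] [Module.Finite k M], E0 X.f M ↔ TT Y.f M

theorem Wt.add {e1 e2 : A} {X Y : Pr k A} {a b c d : ℤ} (h1 : Wt e1 e2 X a b)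
    (h2 : Wt e1 e2 Y c d) (g : X.P →ₗ[A] Y.Q) (hr : Rigid (tri X.f g Y.f)) :
    Wt e1 e2 (⟨X.P × Y.P, X.Q × Y.Q, tri X.f g Y.f, hr⟩ : Pr k A) (a + c) (b + d) := by
  intro M _ _ _ _ _
  change Th k A (X.P × Y.P) (X.Q × Y.Q) M = _
  rw [Th_prod, h1 M, h2 M]
  ring

/-- the mediant -/
theorem mediant (hR : RR k A) {e1 e2 : A}
    {X Y : Pr k A} (h : Iv e1 e2 X Y) (hex : ex k X.f Y.C ≠ 0) :
    ∃ Z : Pr k A, Iv e1 e2 X Z ∧ Iv e1 e2 Z Y ∧ ex k X.f Z.C < ex k X.f Y.C ∧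
      ex k Z.f Y.C < ex k X.f Y.C := by
  let L : (X.P →ₗ[A] Y.Q) →ₗ[k] ((X.P × Y.P) →ₗ[A] (X.Q × Y.Q)) :=
    { toFun := fun g => LinearMap.inr A X.Q Y.Q ∘ₗ g ∘ₗ LinearMap.fst A X.P Y.P
      map_add' := fun g g' => by
        refine LinearMap.ext (fun z => ?_)
        refine Prod.ext ?_ ?_
        · change (0 : X.Q) = 0 + 0
          rw [add_zero]
        · rfl
      map_smul' := fun c g => by
        refine LinearMap.ext (fun z => ?_)
        refine Prod.ext ?_ ?_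
        · change (0 : X.Q) = c • 0
          rw [smul_zero]
        · rfl }
  have htri : ∀ g, tri X.f g Y.f = tri X.f 0 Y.f + L g := by
    intro g
    refine LinearMap.ext (fun z => ?_)
    refine Prod.ext ?_ ?_
    · change X.f z.1 = X.f z.1 + 0
      rw [add_zero]
    · change g z.1 + Y.f z.2 = (0 + Y.f z.2) + g z.1
      rw [zero_add, add_comm]
  obtain ⟨w, ⟨g, rfl⟩, hr⟩ := hR (X.P × Y.P) (X.Q × Y.Q)
    (tri X.f 0 Y.f) (LinearMap.range L) (by
      rintro _ ⟨g0, rfl⟩ g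
      rw [← htri]
      obtain ⟨u, v, g1, hg⟩ := tri_W X.rig Y.rig h.ee g0 g
      exact ⟨u, v, L g1, ⟨g1, rfl⟩, hg⟩)
  rw [← htri] at hr
  let Z : Pr k A := ⟨X.P × Y.P, X.Q × Y.Q, tri X.f g Y.f, hr⟩
  have hYf : Module.Finite k Y.C := finite_quot _
  have hnd : ¬ ∃ ψ : X.Q →ₗ[A] Y.C, (LinearMap.range Y.f).mkQ ∘ₗ g = ψ ∘ₗ X.f := by
    rintro ⟨ψ, hψ⟩
    apply hex
    have h1 : EE X.f Y.f := EE_of_split hr ψ hψ
    have h2 : E0 X.f Y.C := h1.E0
    have h3 : LinearMap.range (pre k X.f Y.C) = ⊤ := by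
      rw [LinearMap.range_eq_top]
      intro φ
      obtain ⟨ψ, hψ⟩ := h2 φ
      exact ⟨ψ, hψ.symm⟩
    have h4 : Subsingleton (EQ k X.f Y.C) := Submodule.Quotient.subsingleton_iff.mpr h3
    exact Module.finrank_zero_of_subsingleton
  have hXC : E0 X.f X.C := X.rig.E0_coker
  have hYX : E0 Y.f X.C := h.ee.E0
  have hYY : E0 Y.f Y.C := Y.rig.E0_coker
  obtain ⟨a, b, c, d, hX, hY, hdet, ha, hc⟩ := h.wt
  have hZ : Wt e1 e2 Z (a + c) (b + d) := hX.add hY g hr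
  refine ⟨Z, ⟨EE.of_E0 (tri_E0 hXC hYX), fun M _ _ hM => tri_H0' hM, fun M _ _ hM =>
    tri_E0 hM (h.hT M hM), ⟨a, b, a + c, b + d, hX, hZ, by linarith, ha, by linarith⟩⟩,
    ⟨EE.of_E0 (E0_tri_coker hYX hYY), fun M _ _ hM => tri_H0 (h.hF M hM) hM, fun M _ _ hM =>
    tri_E0' hM, ⟨a + c, b + d, c, d, hZ, hY, by linarith, by linarith, hc⟩⟩, dec1 X.rig hnd,
    dec2 Y.rig hnd⟩

/-- adjacency -/
theorem adj {e1 e2 : A} (h2 : Two k e1 e2) {X Y : Pr k A} (h : Iv e1 e2 X Y)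
    (hex : ex k X.f Y.C = 0) (M : Type) [AddCommGroup M] [Module A M] [Module k M]
    [IsScalarTower k A M] [Module.Finite k M] : E0 X.f M ↔ TT Y.f M := by
  have hYf : Module.Finite k Y.C := finite_quot _
  constructor
  · intro hM N hN
    have hfin : Module.Finite k (M ⧸ N) := finite_quot N
    have hN' : H0 X.f (M ⧸ N) := h.hF _ hN
    have hE : E0 X.f (M ⧸ N) := hM.quot N.mkQ (Submodule.mkQ_surjective N)
    have hE' : E0 Y.f (M ⧸ N) := h.hT _ hE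
    obtain ⟨a, b, c, d, hX, hY, hdet, -, -⟩ := h.wt
    have z1 := Th_zero (k := k) hE hN'
    have z2 := Th_zero (k := k) hE' hN
    rw [hX (M ⧸ N)] at z1
    rw [hY (M ⧸ N)] at z2
    have z3 : (ed k e1 (M ⧸ N) : ℤ) = 0 := by
      linear_combination d * z1 - b * z2 - (ed k e1 (M ⧸ N) : ℤ) * hdet
    have z4 : (ed k e2 (M ⧸ N) : ℤ) = 0 := by
      linear_combination a * z2 - c * z1 - (ed k e2 (M ⧸ N) : ℤ) * hdet
    have z5 := h2.zero (M ⧸ N) (by exact_mod_cast z3) (by exact_mod_cast z4)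
    exact Submodule.Quotient.subsingleton_iff.mp z5
  · intro hM
    obtain ⟨m, H, hH⟩ := hM.gen k Y.rig
    have h1 : E0 X.f Y.C := E0_of_ex hex
    exact (h1.pi (ι := Fin m)).quot H hH

/-- the mediant is generated by a local module or has no semistable modules -/
theorem loc_or {e1 e2 : A} (h2 : Two k e1 e2) {Z : Pr k A} {a b : ℤ} (hZ : Wt e1 e2 Z a b)
    (hab : IsCoprime a b) (ha : 0 < a) :
    Loc A Z.C ∨ ∀ (M : Type) [AddCommGroup M] [Module A M] [Module k M]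
      [IsScalarTower k A M] [Module.Finite k M], E0 Z.f M ↔ TT Z.f M := by
  by_cases hW : ∃ (V : Type) (_ : AddCommGroup V) (_ : Module A V) (_ : Module k V)
      (_ : IsScalarTower k A V), Module.Finite k V ∧ Nontrivial V ∧ E0 Z.f V ∧ H0 Z.f V
  · left
    obtain ⟨V, _, _, _, _, hV1, hV2, hV3, hV4⟩ := hW
    refine loc_of_prim (fun M _ _ _ _ => ed k e1 M) (fun M _ _ _ _ => ed k e2 M) h2.wt h2.zero
      Z.rig hab hZ V hV3 hV4 ?_
    -- the cokernel is nonzero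
    by_contra hcon
    have hss : Subsingleton Z.C := not_nontrivial_iff_subsingleton.mp hcon
    obtain ⟨S, hS1, hS2⟩ := h2.s1
    have h0 : H0 Z.f S.X := by
      intro φ hφ
      obtain ⟨φ', hφ'⟩ := exists_bar φ hφ
      rw [← hφ']
      ext x
      change φ' ((LinearMap.range Z.f).mkQ x) = 0
      rw [Subsingleton.elim ((LinearMap.range Z.f).mkQ x) 0, map_zero]
    have _ := finite_hom (k := k) (A := A) (P := Z.P) (X := S.X)
    have _ := finite_hom (k := k) (A := A) (P := Z.Q) (X := S.X)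
    have h1 : Injective (pre k Z.f S.X) := by
      rw [injective_iff_map_eq_zero]
      exact fun g hg => h0 g hg
    have h3 := LinearMap.finrank_le_finrank_of_injective h1
    have h4 := hZ S.X
    rw [hS2, Th, hd, hd] at h4
    have h5 : 0 < (ed k e1 S.X : ℤ) := by
      have : 0 < ed k e1 S.X := Nat.pos_of_ne_zero hS1
      exact_mod_cast this
    have h6 : 0 < a * (ed k e1 S.X : ℤ) := mul_pos ha h5
    simp only [Nat.cast_zero, mul_zero, add_zero] at h4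
    omega
  · right
    intro M _ _ _ _ _
    constructor
    · intro hM N hN
      by_contra hne
      apply hW
      exact ⟨M ⧸ N, inferInstance, inferInstance, inferInstance, inferInstance, finite_quot N,
        Submodule.Quotient.nontrivial_iff.mpr hne, hM.quot N.mkQ (Submodule.mkQ_surjective N), hN⟩
    · intro hM
      exact TT.E0' k Z.rig hM

theorem Iv.coprime_right {e1 e2 : A} {X Y : Pr k A} (h : Iv e1 e2 X Y) :
    ∃ c d : ℤ, Wt e1 e2 Y c d ∧ IsCoprime c d ∧ 0 < c := by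
  obtain ⟨a, b, c, d, hX, hY, hdet, ha, hc⟩ := h.wt
  exact ⟨c, d, hY, ⟨-b, a, by linarith⟩, hc⟩

/-- propagation of principality -/
theorem principal (hR : RR k A) {e1 e2 : A}
    (h2 : Two k e1 e2) : ∀ (n : ℕ) (X Y : Pr k A), Iv e1 e2 X Y → ex k X.f Y.C = n → PrT Y →
      PrE X := by
  intro n
  induction n using Nat.strong_induction_on with
  | _ n ih =>
    intro X Y h hn hY
    by_cases h0 : ex k X.f Y.C = 0
    · obtain ⟨Y', hY1, hY2⟩ := hY
      refine ⟨Y', hY1, fun M _ _ _ _ _ => ?_⟩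
      rw [adj h2 h h0 M, hY2 M]
    · obtain ⟨Z, hXZ, hZY, d1, d2⟩ := mediant hR h h0
      rw [hn] at d1 d2
      have hZT : PrT Z := by
        obtain ⟨c, d, hc1, hc2, hc3⟩ := hXZ.coprime_right
        rcases loc_or h2 hc1 hc2 hc3 with hl | hW
        · exact ⟨Z, hl, fun M _ _ _ _ _ => Iff.rfl⟩
        · obtain ⟨Z', hZ1, hZ2⟩ := ih _ d2 Z Y hZY rfl hY
          refine ⟨Z', hZ1, fun M _ _ _ _ _ => ?_⟩
          rw [← hW M, hZ2 M]
      exact ih _ d1 X Z hXZ rfl hZT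

theorem prT_mediant (hR : RR k A) {e1 e2 : A}
    (h2 : Two k e1 e2) {X Y Z : Pr k A} (hXZ : Iv e1 e2 X Z) (hZY : Iv e1 e2 Z Y) (hY : PrT Y) :
    PrT Z := by
  obtain ⟨c, d, hc1, hc2, hc3⟩ := hXZ.coprime_right
  rcases loc_or h2 hc1 hc2 hc3 with hl | hW
  · exact ⟨Z, hl, fun M _ _ _ _ _ => Iff.rfl⟩
  · obtain ⟨Z', hZ1, hZ2⟩ := principal hR h2 _ Z Y hZY rfl hY
    refine ⟨Z', hZ1, fun M _ _ _ _ _ => ?_⟩
    rw [← hW M, hZ2 M]

/-- bricks -/
def Brick (M : FM k A) : Prop :=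
  Nontrivial M.X ∧ ∀ φ : M.X →ₗ[A] M.X, φ ≠ 0 → Injective φ

/-- a class contains at most `n` bricks -/
def Bd (T : FM k A → Prop) (n : ℕ) : Prop :=
  ∀ (ι : Type) [Fintype ι] (M : ι → FM k A), (∀ i, Brick (M i)) → (∀ i, T (M i)) →
    (∀ i j, Nonempty ((M i).X ≃ₗ[A] (M j).X) → i = j) → Fintype.card ι ≤ n

theorem Bd.union {T T1 T2 : FM k A → Prop} {n1 n2 : ℕ} (h1 : Bd T1 n1) (h2 : Bd T2 n2)
    (h : ∀ M, Brick M → T M → T1 M ∨ T2 M) : Bd T (n1 + n2) := by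
  classical
  intro ι _ M hM hT hne
  have e1 := h1 {i // T1 (M i)} (fun i => M i.1) (fun i => hM i.1) (fun i => i.2)
    (fun i j hij => Subtype.ext (hne _ _ hij))
  have e2 := h2 {i // ¬ T1 (M i)} (fun i => M i.1) (fun i => hM i.1)
    (fun i => (h _ (hM i.1) (hT i.1)).resolve_left i.2) (fun i j hij => Subtype.ext (hne _ _ hij))
  have e3 := Fintype.card_subtype_compl (fun i => T1 (M i))
  have e4 := Fintype.card_subtype_le (fun i => T1 (M i))
  omega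

theorem Bd.of_iso {T : FM k A → Prop} (h : ∀ M M', Brick M → Brick M' → T M → T M' →
    Nonempty (M.X ≃ₗ[A] M'.X)) : Bd T 1 := by
  intro ι _ M hM hT hne
  rw [Fintype.card_le_one_iff]
  intro i j
  exact hne i j (h _ _ (hM i) (hM j) (hT i) (hT j))

/-- finitely many bricks in an interval -/
theorem bricks_iv (hR : RR k A) {e1 e2 : A}
    (h2 : Two k e1 e2) : ∀ (n : ℕ) (X Y : Pr k A), Iv e1 e2 X Y → ex k X.f Y.C = n → PrT Y →
      ∃ N, Bd (fun M : FM k A => TT Y.f M.X ∧ ¬ E0 X.f M.X) N := by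
  intro n
  induction n using Nat.strong_induction_on with
  | _ n ih =>
    intro X Y h hn hY
    by_cases h0 : ex k X.f Y.C = 0
    · refine ⟨0, ?_⟩
      intro ι _ M hM hT hne
      by_contra hc
      have hpos : 0 < Fintype.card ι := by omega
      obtain ⟨i⟩ := Fintype.card_pos_iff.mp hpos
      exact (hT i).2 ((adj h2 h h0 (M i).X).mpr (hT i).1)
    · obtain ⟨Z, hXZ, hZY, d1, d2⟩ := mediant hR h h0
      rw [hn] at d1 d2
      have hZT := prT_mediant hR h2 hXZ hZY hY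
      obtain ⟨N1, hN1⟩ := ih _ d1 X Z hXZ rfl hZT
      obtain ⟨N2, hN2⟩ := ih _ d2 Z Y hZY rfl hY
      obtain ⟨Z', hZ1, hZ2⟩ := principal hR h2 _ Z Y hZY rfl hY
      have hmid : Bd (fun M : FM k A => E0 Z.f M.X ∧ ¬ TT Z.f M.X) 1 := by
        refine Bd.of_iso ?_
        intro M M' hM hM' hT hT'
        obtain ⟨g⟩ := mid (k := k) (f := Z.f) Z'.rig hZ1 hZ2 M.X hM.2 hT.1 hT.2
        obtain ⟨g'⟩ := mid (k := k) (f := Z.f) Z'.rig hZ1 hZ2 M'.X hM'.2 hT'.1 hT'.2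
        exact ⟨g.trans g'.symm⟩
      refine ⟨N1 + 1 + N2, ?_⟩
      refine (hN1.union hmid (T := fun M : FM k A => (TT Z.f M.X ∧ ¬ E0 X.f M.X) ∨
        (E0 Z.f M.X ∧ ¬ TT Z.f M.X)) (fun M _ hM => hM)).union hN2 ?_
      intro M _ hM
      by_cases hc : E0 Z.f M.X
      · left
        by_cases hc' : TT Z.f M.X
        · exact Or.inl ⟨hc', hM.2⟩
        · exact Or.inr ⟨hc, hc'⟩
      · exact Or.inr ⟨hM.1, hc⟩

end farey

end BT
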