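import Mathlib
import Pool.Agent.Helper16.BT.Farey

/-!
Algebras with at most two simple modules.
-/

namespace BT

open Module Function

section simple

variable {k A : Type} [Field k] [Ring A] [Algebra k A]

theorem ed_eq_zero {M : Type} [AddCommGroup M] [Module A M] [Module k M] [IsScalarTower k A M]
    [Module.Finite k M] {e : A} (h : ed k e M = 0) (x : M) : e • x = 0 := by
  rw [ed] at h
  have h1 : Subsingleton (LinearMap.range (DistribMulAction.toLinearMap k M e)) :=
    Module.finrank_zero_iff.mp h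
  have h2 : (⟨e • x, ⟨x, rfl⟩⟩ : LinearMap.range (DistribMulAction.toLinearMap k M e)) = 0 :=
    Subsingleton.elim _ _
  exact congrArg Subtype.val h2

theorem ed_zero_of {M : Type} [AddCommGroup M] [Module A M] [Module k M] [IsScalarTower k A M]
    {e : A} (hx : ∀ x : M, e • x = 0) : ed k e M = 0 := by
  rw [ed]
  have h : LinearMap.range (DistribMulAction.toLinearMap k M e) = ⊥ := by
    rw [LinearMap.range_eq_bot]
    ext x
    exact hx x
  rw [h, finrank_bot]

variable (k) in
theorem exists_simple_quot (M : Type) [AddCommGroup M] [Module A M] [Module k M]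
    [IsScalarTower k A M] [Module.Finite k M] [Nontrivial M] :
    ∃ N : Submodule A M, IsSimpleModule A (M ⧸ N) := by
  have h1 : IsNoetherian A M := isNoetherian_of_tower k inferInstance
  obtain ⟨N, hN, -⟩ := (eq_top_or_exists_le_coatom (⊥ : Submodule A M)).resolve_left bot_ne_top
  exact ⟨N, isSimpleModule_iff_isCoatom.mpr hN⟩

variable (k) in
theorem exists_simple_sub (M : Type) [AddCommGroup M] [Module A M] [Module k M]
    [IsScalarTower k A M] [Module.Finite k M] [Nontrivial M] :
    ∃ N : Submodule A M, IsSimpleModule A N := by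
  have h1 : IsArtinian A M := isArtinian_of_tower k inferInstance
  obtain ⟨N, hN, -⟩ := (eq_bot_or_exists_atom_le (⊤ : Submodule A M)).resolve_left top_ne_bot
  exact ⟨N, isSimpleModule_iff_isAtom.mpr hN⟩

end simple

section dat

variable {k A : Type} [Field k] [Ring A] [Algebra k A] [Module.Finite k A]
  {ι : Type} [Fintype ι] {s : ℕ}
variable (D : Dat k A ι s)

/-- weights through representatives -/
theorem Dat.weight' (P Q : Type) [AddCommGroup P] [Module A P] [Module k P] [IsScalarTower k A P]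
    [Module.Finite k P] [Module.Projective A P] [AddCommGroup Q] [Module A Q] [Module k Q]
    [IsScalarTower k A Q] [Module.Finite k Q] [Module.Projective A Q] :
    ∃ z : Fin s → ℤ, ∀ (X : Type) [AddCommGroup X] [Module A X] [Module k X]
    [IsScalarTower k A X] [Module.Finite k X],
    Th k A P Q X = ∑ t, z t * (ed k (D.e (D.r t)) X : ℤ) := by
  classical
  have hch : ∀ t : Fin s, ∃ z : ℤ, ∀ (X : Type) [AddCommGroup X] [Module A X] [Module k X]
      [IsScalarTower k A X], IsSimpleModule A X → (∃ x : X, D.e (D.r t) • x ≠ 0) →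
      Th k A P Q X = z := by
    intro t
    by_cases h : ∃ (X : Type) (_ : AddCommGroup X) (_ : Module A X) (_ : Module k X)
      (_ : IsScalarTower k A X), IsSimpleModule A X ∧ ∃ x : X, D.e (D.r t) • x ≠ 0
    · obtain ⟨X, _, _, _, _, hs, x, hx⟩ := h
      refine ⟨Th k A P Q X, ?_⟩
      intro Y _ _ _ _ hs' ⟨y, hy⟩
      obtain ⟨e⟩ := D.iso hy hx
      exact Th_congr e
    · refine ⟨0, ?_⟩
      intro Y i1 i2 i3 i4 hs' hy
      exact absurd ⟨Y, i1, i2, i3, i4, hs', hy⟩ h
  choose z hz using hch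
  refine ⟨z, ?_⟩
  have hsimple : ∀ (X : Type) [AddCommGroup X] [Module A X] [Module k X]
      [IsScalarTower k A X], IsSimpleModule A X → Th k A P Q X =
        ∑ t, z t * (ed k (D.e (D.r t)) X : ℤ) := by
    intro X _ _ _ _ hs
    obtain ⟨t, x, hx⟩ := D.exists_class (X := X)
    rw [Finset.sum_eq_single t]
    · rw [D.ed_one hx, hz t X hs ⟨x, hx⟩]
      simp
    · intro t' _ ht'
      have h0 : ∀ y : X, D.e (D.r t') • y = 0 := by
        intro y
        by_contra hy
        exact ht' (D.class_unique hx hy).symm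
      rw [D.ed_zero h0]
      simp
    · simp
  suffices H : ∀ (n : ℕ) (X : Type) [AddCommGroup X] [Module A X] [Module k X]
      [IsScalarTower k A X] [Module.Finite k X], finrank k X = n → Th k A P Q X =
        ∑ t, z t * (ed k (D.e (D.r t)) X : ℤ) by
    intro X _ _ _ _ _
    exact H _ X rfl
  intro n
  induction n using Nat.strong_induction_on with
  | _ n ih =>
    intro X _ _ _ _ _ hn
    rcases subsingleton_or_nontrivial X with hX | hX
    · rw [Th_of_subsingleton]
      symm
      exact Finset.sum_eq_zero (fun i _ => by rw [ed_of_subsingleton]; simp)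
    · by_cases hs : IsSimpleModule A X
      · exact hsimple X hs
      · obtain ⟨U, hU0, hU1⟩ : ∃ U : Submodule A X, U ≠ ⊥ ∧ U ≠ ⊤ := by
          by_contra hcon
          push Not at hcon
          apply hs
          rw [isSimpleModule_iff]
          exact { exists_pair_ne := ⟨⊥, ⊤, bot_ne_top⟩
                  eq_bot_or_eq_top := fun U => by
                    by_cases h : U = ⊥
                    · exact Or.inl h
                    · exact Or.inr (hcon U h) }
        have hfin : Module.Finite k U :=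
          Module.Finite.of_injective (U.subtype.restrictScalars k) (Subtype.val_injective)
        have hfin' : Module.Finite k (X ⧸ U) :=
          Module.Finite.of_surjective (U.mkQ.restrictScalars k) (Submodule.mkQ_surjective U)
        have hUn : Nontrivial U := Submodule.nontrivial_iff_ne_bot.mpr hU0
        have hQn : Nontrivial (X ⧸ U) := Submodule.Quotient.nontrivial_iff.mpr hU1
        have hUpos : 0 < finrank k U := Module.finrank_pos
        have hQpos : 0 < finrank k (X ⧸ U) := Module.finrank_pos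
        have hex : LinearMap.range U.subtype = LinearMap.ker U.mkQ := by
          rw [Submodule.range_subtype, Submodule.ker_mkQ]
        have e1 := dim_ses (k := k) U.subtype U.mkQ Subtype.val_injective
          (Submodule.mkQ_surjective U) hex
        have e2 := Th_ses (k := k) (P := P) (Q := Q) U.subtype U.mkQ Subtype.val_injective
          (Submodule.mkQ_surjective U) hex
        rw [e2, ih (finrank k U) (by omega) U rfl, ih (finrank k (X ⧸ U)) (by omega) _ rfl,
          ← Finset.sum_add_distrib]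
        refine Finset.sum_congr rfl (fun i _ => ?_)
        rw [ed_ses (k := k) (D.he.idem _) U.subtype U.mkQ Subtype.val_injective
          (Submodule.mkQ_surjective U) hex]
        push_cast
        ring

omit [Module.Finite k A] in
/-- a module without any class is zero -/
theorem Dat.subsingleton (M : Type) [AddCommGroup M] [Module A M] [Module k M]
    [IsScalarTower k A M] [Module.Finite k M] (h : ∀ t, ed k (D.e (D.r t)) M = 0) :
    Subsingleton M := by
  rcases subsingleton_or_nontrivial M with hM | hM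
  · exact hM
  exfalso
  obtain ⟨N, hN⟩ := exists_simple_quot k (A := A) M
  obtain ⟨t, x, hx⟩ := D.exists_class (X := M ⧸ N)
  obtain ⟨y, rfl⟩ := Submodule.mkQ_surjective N x
  apply hx
  rw [← map_smul, ed_eq_zero (h t) y, map_zero]

/-- simple modules of each class -/
theorem Dat.exists_simple (t : Fin s) (hne : D.e (D.r t) ≠ 0) :
    ∃ S : FM k A, IsSimpleModule A S.X ∧ ∃ x : S.X, D.e (D.r t) • x ≠ 0 := by
  have hfP := finite_Pe (D.e (D.r t))
  have _ : Module.Finite k (Pe (D.e (D.r t))) := Module.Finite.trans A _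
  have hnt : Nontrivial (Pe (D.e (D.r t))) := by
    refine ⟨⟨gen (D.e (D.r t)), 0, fun h => hne ?_⟩⟩
    exact congrArg Subtype.val h
  obtain ⟨N, hN⟩ := exists_simple_quot k (A := A) (Pe (D.e (D.r t)))
  have hfin : Module.Finite k (Pe (D.e (D.r t)) ⧸ N) := finite_quot N
  refine ⟨⟨Pe (D.e (D.r t)) ⧸ N⟩, hN, N.mkQ (gen (D.e (D.r t))), ?_⟩
  have h1 : D.e (D.r t) • N.mkQ (gen (D.e (D.r t))) = N.mkQ (gen (D.e (D.r t))) := by
    rw [← map_smul]
    congr 1
    exact Subtype.ext (D.he.idem _).eq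
  rw [h1]
  intro h2
  have h3 : gen (D.e (D.r t)) ∈ N := (Submodule.Quotient.mk_eq_zero N).mp h2
  have h4 : N = ⊤ := by
    rw [Submodule.eq_top_iff']
    intro y
    have h5 : y = (y : A) • gen (D.e (D.r t)) :=
      Subtype.ext (Pe_mul (D.he.idem _) y).symm
    rw [h5]
    exact N.smul_mem _ h3
  have h5 : Nontrivial (Pe (D.e (D.r t)) ⧸ N) := IsSimpleModule.nontrivial A _
  exact (Submodule.Quotient.nontrivial_iff.mp h5) h4

omit [Module.Finite k A] in
theorem brick_eq {M : FM k A} (hM : Brick M) (N N' : Submodule A M.X)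
    (g : (M.X ⧸ N) ≃ₗ[A] N') (hN : N ≠ ⊤) : Nonempty (M.X ≃ₗ[A] N') := by
  let φ : M.X →ₗ[A] M.X := N'.subtype ∘ₗ g.toLinearMap ∘ₗ N.mkQ
  have h1 : φ ≠ 0 := by
    intro h
    apply hN
    rw [Submodule.eq_top_iff']
    intro x
    have h2 := LinearMap.congr_fun h x
    change ((g (N.mkQ x) : N') : M.X) = 0 at h2
    have h3 : g (N.mkQ x) = 0 := Subtype.ext h2
    have h4 : N.mkQ x = 0 := (map_eq_zero_iff g g.injective).mp h3
    exact (Submodule.Quotient.mk_eq_zero N).mp h4
  have h2 : Injective φ := hM.2 φ h1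
  have h3 : Bijective φ := bij_of_inj k h2
  refine ⟨LinearEquiv.ofBijective (g.toLinearMap ∘ₗ N.mkQ) ⟨?_, ?_⟩⟩
  · exact Injective.of_comp (f := N'.subtype) h2
  · exact g.surjective.comp (Submodule.mkQ_surjective N)

/-- bricks with one class of composition factors -/
theorem Dat.brick_one (t0 : Fin s) :
    Bd (fun M : FM k A => ∀ t, t ≠ t0 → ed k (D.e (D.r t)) M.X = 0) 1 := by
  have key : ∀ M : FM k A, Brick M → (∀ t, t ≠ t0 → ed k (D.e (D.r t)) M.X = 0) →
      ∃ N' : Submodule A M.X, IsSimpleModule A N' ∧ (∃ x : N', D.e (D.r t0) • x ≠ 0) ∧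
        Nonempty (M.X ≃ₗ[A] N') := by
    intro M hM h
    have _ := hM.1
    obtain ⟨N, hN⟩ := exists_simple_quot k (A := A) M.X
    obtain ⟨N', hN'⟩ := exists_simple_sub k (A := A) M.X
    obtain ⟨t, x, hx⟩ := D.exists_class (X := M.X ⧸ N)
    obtain ⟨t', x', hx'⟩ := D.exists_class (X := N')
    have ht : t = t0 := by
      by_contra hne
      obtain ⟨y, rfl⟩ := Submodule.mkQ_surjective N x
      apply hx
      rw [← map_smul, ed_eq_zero (h t hne) y, map_zero]
    have ht' : t' = t0 := by
      by_contra hne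
      apply hx'
      exact Subtype.ext (ed_eq_zero (h t' hne) (x' : M.X))
    subst ht
    subst ht'
    obtain ⟨g⟩ := D.iso hx hx'
    have h5 : Nontrivial (M.X ⧸ N) := IsSimpleModule.nontrivial A _
    exact ⟨N', hN', ⟨x', hx'⟩, brick_eq hM N N' g (Submodule.Quotient.nontrivial_iff.mp h5)⟩
  refine Bd.of_iso ?_
  intro M M' hM hM' hT hT'
  obtain ⟨N, hN, ⟨x, hx⟩, ⟨g⟩⟩ := key M hM hT
  obtain ⟨N', hN', ⟨x', hx'⟩, ⟨g'⟩⟩ := key M' hM' hT'
  obtain ⟨h⟩ := D.iso hx hx'
  exact ⟨(g.trans h).trans g'.symm⟩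

end dat

section loc

variable {k A : Type} [Field k] [Ring A] [Algebra k A] [Module.Finite k A]

omit [Module.Finite k A] [Field k] [Algebra k A] in
theorem Loc.congr {C C' : Type} [AddCommGroup C] [Module A C] [AddCommGroup C'] [Module A C']
    (h : Loc A C) (e : C ≃ₗ[A] C') : Loc A C' := by
  have h0 := h.1
  refine ⟨e.injective.nontrivial, fun φ => ?_⟩
  let ψ : Module.End A C := e.symm.toLinearMap ∘ₗ φ ∘ₗ e.toLinearMap
  have hψ : ∀ x, e (ψ x) = φ (e x) := fun x => e.apply_symm_apply _
  have hpow : ∀ n x, e ((ψ ^ n) x) = (φ ^ n) (e x) := by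
    intro n
    induction n with
    | zero => intro x; rfl
    | succ n ih =>
      intro x
      rw [pow_succ, pow_succ]
      change e ((ψ ^ n) (ψ x)) = (φ ^ n) (φ (e x))
      rw [ih, hψ]
  rcases h.2 ψ with hb | ⟨n, hn⟩
  · left
    constructor
    · intro x y hxy
      apply e.symm.injective
      apply hb.1
      apply e.injective
      rw [hψ, hψ, e.apply_symm_apply, e.apply_symm_apply, hxy]
    · intro y
      obtain ⟨x, hx⟩ := hb.2 (e.symm y)
      refine ⟨e x, ?_⟩
      rw [← hψ, hx, e.apply_symm_apply]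
  · right
    refine ⟨n, ?_⟩
    ext y
    have h1 := hpow n (e.symm y)
    rw [hn, e.apply_symm_apply] at h1
    rw [← h1]
    exact map_zero e

theorem loc_Pe {e : A} (he : IsIdempotentElem e) (hne : e ≠ 0)
    (h1 : ∀ a, ∃ l : k, e * a * e - l • e ∈ Ring.jacobson A) : Loc A (Pe e) := by
  have hA : IsArtinianRing A := IsArtinianRing.of_finite k A
  have hnil : IsNilpotent (Ring.jacobson A) := IsSemiprimaryRing.isNilpotent
  refine ⟨⟨⟨gen e, 0, fun h => hne (congrArg Subtype.val h)⟩⟩, fun φ => ?_⟩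
  have hgen : ∀ y : Pe e, y = (y : A) • gen e := fun y => Subtype.ext (Pe_mul he y).symm
  obtain ⟨l, hl⟩ := h1 (φ (gen e) : A)
  have h2 : e * (φ (gen e) : A) * e = (φ (gen e) : A) := by
    rw [mul_assoc, Pe_mul he]
    have h3 : e • φ (gen e) = φ (gen e) := by
      rw [← map_smul]
      congr 1
      exact Subtype.ext he.eq
    exact congrArg Subtype.val h3
  rw [h2] at hl
  let ν : Module.End A (Pe e) := φ - l • (1 : Module.End A (Pe e))
  have hν : (ν (gen e) : A) = (φ (gen e) : A) - l • e := rfl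
  have hνy : ∀ y : Pe e, (ν y : A) = (y : A) * ((φ (gen e) : A) - l • e) := by
    intro y
    conv_lhs => rw [hgen y]
    rw [map_smul]
    change (y : A) * (ν (gen e) : A) = _
    rw [hν]
  have hpow : ∀ n : ℕ, ∀ y : Pe e, ((ν ^ n) y : A) = (y : A) * ((φ (gen e) : A) - l • e) ^ n := by
    intro n
    induction n with
    | zero => intro y; simp
    | succ n ih =>
      intro y
      rw [pow_succ', pow_succ]
      change (ν ((ν ^ n) y) : A) = _
      rw [hνy, ih, mul_assoc]
  obtain ⟨n, hn⟩ := hnil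
  have hj : ((φ (gen e) : A) - l • e) ^ n = 0 := by
    have h1 : ((φ (gen e) : A) - l • e) ^ n ∈ (Ring.jacobson A) ^ n := Ideal.pow_mem_pow hl n
    rw [hn] at h1
    exact h1
  have hνn : IsNilpotent ν := by
    refine ⟨n, ?_⟩
    ext y
    change ((ν ^ n) y : A) = 0
    rw [hpow, hj, mul_zero]
  have hφ : φ = l • (1 : Module.End A (Pe e)) + ν := by
    simp only [ν]
    abel
  by_cases hl0 : l = 0
  · right
    rw [hφ, hl0, zero_smul, zero_add]
    exact hνn
  · left
    have hu : IsUnit (l • (1 : Module.End A (Pe e))) := by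
      refine ⟨⟨l • 1, l⁻¹ • 1, ?_, ?_⟩, rfl⟩
      · rw [smul_mul_smul_comm, mul_one, mul_inv_cancel₀ hl0, one_smul]
      · rw [smul_mul_smul_comm, mul_one, inv_mul_cancel₀ hl0, one_smul]
    have hc : Commute ν (l • (1 : Module.End A (Pe e))) := by
      rw [Commute, SemiconjBy, mul_smul_comm, smul_mul_assoc, mul_one, one_mul]
    have h3 : IsUnit (l • (1 : Module.End A (Pe e)) + ν) :=
      hνn.isUnit_add_left_of_commute hu hc
    rw [← hφ] at h3
    exact (Module.End.isUnit_iff φ).mp h3

end loc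

section main

variable {k A : Type} [Field k] [Ring A] [Algebra k A] [Module.Finite k A]

omit [Field k] [Algebra k A] [Module.Finite k A] in
theorem punit_map {M : Type} [AddCommGroup M] [Module A M] (g : PUnit.{1} →ₗ[A] M) : g = 0 := by
  refine LinearMap.ext (fun x => ?_)
  rw [Subsingleton.elim x 0, map_zero, map_zero]

/-- the presentation `A e → 0` -/
def prX {e : A} (he : IsIdempotentElem e) : Pr k A :=
  have _ := finite_Pe e
  have _ : Module.Finite k (Pe e) := Module.Finite.trans A (Pe e)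
  have _ := projective_Pe he
  { P := Pe e, Q := PUnit, f := 0, rig := fun g => ⟨0, 0, by ext⟩ }

/-- the presentation `0 → A e` -/
def prY {e : A} (he : IsIdempotentElem e) : Pr k A :=
  have _ := finite_Pe e
  have _ : Module.Finite k (Pe e) := Module.Finite.trans A (Pe e)
  have _ := projective_Pe he
  { P := PUnit, Q := Pe e, f := 0, rig := fun g => ⟨0, 0, (punit_map g).trans (by
      rw [LinearMap.zero_comp, LinearMap.comp_zero, add_zero])⟩ }

theorem iv_init {e1 e2 : A} (h1 : IsIdempotentElem e1) (h2 : IsIdempotentElem e2) :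
    Iv e1 e2 (prX (k := k) h2) (prY (k := k) h1) where
  ee := fun g => ⟨0, 0, (punit_map (A := A) (M := (prX (k := k) h2).Q) g).trans (by
      rw [LinearMap.zero_comp, LinearMap.comp_zero, add_zero]
      rfl)⟩
  hF := fun M _ _ _ h _ => punit_map (A := A) (M := M) h
  hT := fun M _ _ _ φ => ⟨0, (punit_map (A := A) (M := M) φ).trans (by
      rw [LinearMap.zero_comp]
      rfl)⟩
  wt := by
    refine ⟨0, -1, 1, 0, ?_, ?_, by norm_num, le_refl _, one_pos⟩
    · intro M _ _ _ _ _
      change (hd k A PUnit M : ℤ) - (hd k A (Pe e2) M : ℤ) = _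
      rw [hd_Pe h2]
      have h3 : hd k A PUnit M = 0 := by
        rw [hd]
        have : Subsingleton (PUnit →ₗ[A] M) := ⟨fun a b => (punit_map a).trans (punit_map b).symm⟩
        exact Module.finrank_zero_of_subsingleton
      rw [h3]
      push_cast
      ring
    · intro M _ _ _ _ _
      change (hd k A (Pe e1) M : ℤ) - (hd k A PUnit M : ℤ) = _
      rw [hd_Pe h1]
      have h3 : hd k A PUnit M = 0 := by
        rw [hd]
        have : Subsingleton (PUnit →ₗ[A] M) := ⟨fun a b => (punit_map a).trans (punit_map b).symm⟩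
        exact Module.finrank_zero_of_subsingleton
      rw [h3]
      push_cast
      ring

theorem prT_init {e : A} (he : IsIdempotentElem e) (hne : e ≠ 0)
    (h1 : ∀ a, ∃ l : k, e * a * e - l • e ∈ Ring.jacobson A) : PrT (prY (k := k) he) := by
  refine ⟨prY he, ?_, fun M _ _ _ _ _ => Iff.rfl⟩
  have h2 : LinearMap.range (prY (k := k) he).f = ⊥ := LinearMap.range_zero
  exact (loc_Pe he hne h1).congr (Submodule.quotEquivOfEqBot _ h2).symm

/-- the zero of the first class -/
theorem E0_prX {e : A} (he : IsIdempotentElem e) (M : Type) [AddCommGroup M] [Module A M]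
    [Module k M] [IsScalarTower k A M] [Module.Finite k M] (h : E0 (prX (k := k) he).f M) :
    ed k e M = 0 := by
  rw [← hd_Pe he, hd]
  have : Subsingleton (Pe e →ₗ[A] M) := by
    refine subsingleton_of_forall_eq 0 (fun φ => ?_)
    obtain ⟨ψ, hψ⟩ := h φ
    rw [hψ]
    exact LinearMap.comp_zero ψ
  exact Module.finrank_zero_of_subsingleton

theorem H0_prY {e : A} (he : IsIdempotentElem e) (M : Type) [AddCommGroup M] [Module A M]
    [Module k M] [IsScalarTower k A M] [Module.Finite k M] (h : H0 (prY (k := k) he).f M) :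
    ed k e M = 0 := by
  rw [← hd_Pe he, hd]
  have : Subsingleton (Pe e →ₗ[A] M) := by
    refine subsingleton_of_forall_eq 0 (fun φ => ?_)
    exact h φ (LinearMap.comp_zero φ)
  exact Module.finrank_zero_of_subsingleton

variable {ι : Type} [Fintype ι]

omit [Module.Finite k A] in
theorem ed_zero_elt (M : Type) [AddCommGroup M] [Module A M] [Module k M] [IsScalarTower k A M] :
    ed k (0 : A) M = 0 := ed_zero_of (fun x => zero_smul A x)

theorem two_of_dat {s : ℕ} (D : Dat k A ι s) (t1 t2 : Fin s) (h12 : t1 ≠ t2)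
    (h : ∀ t, t ≠ t1 → t ≠ t2 → D.e (D.r t) = 0) (hne : D.e (D.r t1) ≠ 0) :
    Two k (D.e (D.r t1)) (D.e (D.r t2)) where
  i1 := D.he.idem _
  i2 := D.he.idem _
  zero := fun M _ _ _ _ _ h0 h1 => D.subsingleton M (fun t => by
    by_cases e1 : t = t1
    · rw [e1]; exact h0
    · by_cases e2 : t = t2
      · rw [e2]; exact h1
      · rw [h t e1 e2]; exact ed_zero_elt M)
  wt := fun P Q _ _ _ _ _ _ _ _ _ _ _ _ => by
    obtain ⟨z, hz⟩ := D.weight' P Q
    refine ⟨z t1, z t2, fun M _ _ _ _ _ => ?_⟩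
    rw [hz M]
    exact Finset.sum_eq_add t1 t2 h12 (fun c _ hc => by
      rw [h c hc.1 hc.2, ed_zero_elt]
      simp) (fun hc => absurd (Finset.mem_univ _) hc) (fun hc => absurd (Finset.mem_univ _) hc)
  s1 := by
    obtain ⟨S, hS, x, hx⟩ := D.exists_simple t1 hne
    refine ⟨S, ?_, ?_⟩
    · rw [D.ed_one hx]
      exact one_ne_zero
    · apply D.ed_zero
      intro y
      by_contra hy
      exact absurd (D.class_unique hx hy) h12

theorem bricks_two (hR : RR k A) {s : ℕ} (D : Dat k A ι s) (t1 t2 : Fin s) (h12 : t1 ≠ t2)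
    (h : ∀ t, t ≠ t1 → t ≠ t2 → D.e (D.r t) = 0) (hne1 : D.e (D.r t1) ≠ 0)
    (hne2 : D.e (D.r t2) ≠ 0) : ∃ N, Bd (fun _ : FM k A => True) N := by
  obtain ⟨N1, hN1⟩ := bricks_iv hR (two_of_dat D t1 t2 h12 h hne1) _ _ _
    (iv_init (k := k) (D.he.idem (D.r t1)) (D.he.idem (D.r t2))) rfl
    (prT_init (D.he.idem (D.r t1)) hne1 (D.h1 (D.r t1)))
  obtain ⟨N2, hN2⟩ := bricks_iv hR (two_of_dat D t2 t1 h12.symm (fun t h1 h2 => h t h2 h1) hne2) _ _ _
    (iv_init (k := k) (D.he.idem (D.r t2)) (D.he.idem (D.r t1))) rfl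
    (prT_init (D.he.idem (D.r t2)) hne2 (D.h1 (D.r t2)))
  have b0 := D.brick_one t1
  have b1 := D.brick_one t2
  have c1 : Bd (fun M : FM k A => (∀ t, t ≠ t1 → ed k (D.e (D.r t)) M.X = 0) ∨
      (∀ t, t ≠ t2 → ed k (D.e (D.r t)) M.X = 0)) (1 + 1) := b0.union b1 (fun M _ h => h)
  have c2 := hN1.union hN2 (T := fun M : FM k A =>
    (TT (prY (k := k) (D.he.idem (D.r t1))).f M.X ∧ ¬ E0 (prX (k := k) (D.he.idem (D.r t2))).f M.X) ∨
    (TT (prY (k := k) (D.he.idem (D.r t2))).f M.X ∧ ¬ E0 (prX (k := k) (D.he.idem (D.r t1))).f M.X))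
    (fun M _ h => h)
  refine ⟨_, c1.union c2 ?_⟩
  intro M hM _
  have _ := hM.1
  by_contra hcon'
  push Not at hcon'
  obtain ⟨⟨h1, h2⟩, h3, h4⟩ := hcon'
  have e1 : ed k (D.e (D.r t2)) M.X ≠ 0 := by
    intro hh
    obtain ⟨t, ht, ht'⟩ := h1
    by_cases h5 : t = t2
    · exact ht' (h5 ▸ hh)
    · rw [h t ht h5] at ht'
      exact ht' (ed_zero_elt _)
  have e0 : ed k (D.e (D.r t1)) M.X ≠ 0 := by
    intro hh
    obtain ⟨t, ht, ht'⟩ := h2
    by_cases h5 : t = t1
    · exact ht' (h5 ▸ hh)
    · rw [h t h5 ht] at ht'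
      exact ht' (ed_zero_elt _)
  have n0 : ¬ TT (prY (k := k) (D.he.idem (D.r t1))).f M.X := by
    intro hT
    exact e1 (E0_prX _ _ (h3 hT))
  have n1 : ¬ TT (prY (k := k) (D.he.idem (D.r t2))).f M.X := by
    intro hT
    exact e0 (E0_prX _ _ (h4 hT))
  rw [TT] at n0 n1
  push Not at n0 n1
  obtain ⟨N0, g0, g0'⟩ := n0
  obtain ⟨N1', g1, g1'⟩ := n1
  have f0 : ed k (D.e (D.r t1)) (M.X ⧸ N0) = 0 := H0_prY _ _ g0
  have f1 : ed k (D.e (D.r t2)) (M.X ⧸ N1') = 0 := H0_prY _ _ g1
  obtain ⟨N', hN'⟩ := exists_simple_sub k (A := A) M.X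
  obtain ⟨t', x', hx'⟩ := D.exists_class (X := N')
  have ht' : t' = t1 ∨ t' = t2 := by
    by_contra hcc
    push Not at hcc
    apply hx'
    rw [h t' hcc.1 hcc.2, zero_smul]
  -- a simple quotient of the same class gives a contradiction
  have key : ∀ (t : Fin s) (L : Submodule A M.X), L ≠ ⊤ → (∀ t'', t'' ≠ t →
      ed k (D.e (D.r t'')) (M.X ⧸ L) = 0) → t' = t → False := by
    intro t L hL hLt htt
    have _ : Nontrivial (M.X ⧸ L) := Submodule.Quotient.nontrivial_iff.mpr hL
    have _ : Module.Finite k (M.X ⧸ L) := finite_quot L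
    obtain ⟨K, hK⟩ := exists_simple_quot k (A := A) (M.X ⧸ L)
    let q : M.X →ₗ[A] ((M.X ⧸ L) ⧸ K) := K.mkQ ∘ₗ L.mkQ
    have hq : Surjective q := (Submodule.mkQ_surjective K).comp (Submodule.mkQ_surjective L)
    obtain ⟨t3, x, hx⟩ := D.exists_class (X := (M.X ⧸ L) ⧸ K)
    have ht3 : t3 = t := by
      by_contra hne'
      obtain ⟨y, rfl⟩ := Submodule.mkQ_surjective K x
      apply hx
      rw [← map_smul, ed_eq_zero (hLt t3 hne') y, map_zero]
    have ht4 : t3 = t' := ht3.trans htt.symm
    rw [ht4] at hx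
    obtain ⟨g⟩ := D.iso hx hx'
    let eq := LinearMap.quotKerEquivOfSurjective q hq
    have hne2 : LinearMap.ker q ≠ ⊤ := by
      intro h
      have h5 : Nontrivial ((M.X ⧸ L) ⧸ K) := IsSimpleModule.nontrivial A _
      have h6 : Nontrivial (M.X ⧸ LinearMap.ker q) := eq.symm.injective.nontrivial
      exact (Submodule.Quotient.nontrivial_iff.mp h6) h
    obtain ⟨g'⟩ := brick_eq hM (LinearMap.ker q) N' (eq.trans g) hne2
    -- M is simple of class t'
    have hz : ∀ t'', t'' ≠ t' → ed k (D.e (D.r t'')) M.X = 0 := by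
      intro t'' ht''
      rw [ed_congr g']
      apply ed_zero_of
      intro y
      by_contra hy
      exact ht'' (D.class_unique hx' hy).symm
    rcases ht' with h7 | h7
    · exact e1 (hz t2 (by rw [h7]; exact h12.symm))
    · exact e0 (hz t1 (by rw [h7]; exact h12))
  rcases ht' with h7 | h7
  · exact key t1 N1' g1' (fun t'' ht'' => by
      by_cases h8 : t'' = t2
      · rw [h8]
        exact f1
      · rw [h t'' ht'' h8]
        exact ed_zero_elt _) h7
  · exact key t2 N0 g0' (fun t'' ht'' => by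
      by_cases h8 : t'' = t1
      · rw [h8]
        exact f0
      · rw [h t'' h8 ht'']
        exact ed_zero_elt _) h7

/-- at most two classes -/
theorem bricks_le_two (hR : RR k A) {s : ℕ} (D : Dat k A ι s)
    (hs : ∀ t1 t2 t3 : Fin s, t1 ≠ t2 → t1 ≠ t3 → t2 ≠ t3 → D.e (D.r t1) ≠ 0 →
      D.e (D.r t2) ≠ 0 → D.e (D.r t3) ≠ 0 → False) :
    ∃ N, Bd (fun _ : FM k A => True) N := by
  by_cases h1 : ∃ t1, D.e (D.r t1) ≠ 0
  · obtain ⟨t1, h1⟩ := h1
    by_cases h2 : ∃ t2, t2 ≠ t1 ∧ D.e (D.r t2) ≠ 0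
    · obtain ⟨t2, h12, h2⟩ := h2
      exact bricks_two hR D t1 t2 h12.symm (fun t e1 e2 => by
        by_contra h3
        exact hs t1 t2 t h12.symm e1.symm e2.symm h1 h2 h3) h1 h2
    · push Not at h2
      refine ⟨1, ?_⟩
      intro ι' _ M hM _ hne'
      exact D.brick_one t1 ι' M hM (fun i t ht => by
        rw [h2 t ht]
        exact ed_zero_elt _) hne'
  · push Not at h1
    refine ⟨0, ?_⟩
    intro ι' _ M hM _ _
    by_contra hc
    have hpos : 0 < Fintype.card ι' := by omega
    obtain ⟨i⟩ := Fintype.card_pos_iff.mp hpos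
    have _ := (hM i).1
    exact not_subsingleton (M i).X (D.subsingleton (M i).X (fun t => by
      rw [h1 t]
      exact ed_zero_elt _))

end main

end BT
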