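import Mathlib
import Pool.Agent.Helper16.BT.RankTwo

/-!
Stable families from factor algebras with at most two simple modules.
-/

namespace BT

open Module Function

section transfer

variable {k A B : Type} [Field k] [Ring A] [Algebra k A] [Ring B] [Algebra k B]

/-- idempotent data of a factor algebra -/
theorem Dat.exists_map {ι : Type} [Fintype ι] {s : ℕ} (D : Dat k A ι s) (π : A →ₐ[k] B)
    (hπ : Surjective π) : ∃ D' : Dat k B ι s, D'.e = π ∘ D.e ∧ D'.r = D.r := by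
  have hJ : ∀ a ∈ Ring.jacobson A, π a ∈ Ring.jacobson B := by
    intro a ha
    have _ : RingHomSurjective (π : A →+* B) := ⟨hπ⟩
    exact Ring.le_comap_jacobson (π : A →+* B) ha
  refine ⟨⟨π ∘ D.e, D.c, D.r, D.he.map (π : A →+* B), D.hcr, ?_, ?_, ?_⟩, rfl, rfl⟩
  · intro i b
    obtain ⟨a, rfl⟩ := hπ b
    obtain ⟨l, hl⟩ := D.h1 i a
    refine ⟨l, ?_⟩
    have := hJ _ hl
    rw [map_sub, map_mul, map_mul, map_smul] at this
    exact this
  · intro i
    obtain ⟨a, b, hab⟩ := D.h2 i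
    refine ⟨π a, π b, ?_⟩
    have := hJ _ hab
    rw [map_sub, map_mul, map_mul] at this
    exact this
  · intro t t' hne b
    obtain ⟨a, rfl⟩ := hπ b
    have := hJ _ (D.h3 t t' hne a)
    rw [map_mul, map_mul] at this
    exact this

/-- transfer of stable families -/
theorem SF.of_quot {n : ℕ} {e : Fin n → A} (π : A →ₐ[k] B) (hπ : Surjective π)
    (h : SF k B (π ∘ e)) : SF k A e := by
  obtain ⟨d, θ, h0, h⟩ := h
  refine ⟨d, θ, h0, fun N => ?_⟩
  obtain ⟨M, i1, i2, i3, i4, h1, h2, h3, h4, h5⟩ := h N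
  let i2' : ∀ j, Module A (M j) := fun j => Module.compHom (M j) (π : A →+* B)
  have hsm : ∀ j (a : A) (m : M j), a • m = π a • m := fun j a m => rfl
  have i4' : ∀ j, IsScalarTower k A (M j) := fun j => ⟨fun c a m => by
    rw [hsm, hsm, map_smul, smul_assoc]⟩
  have hmap : ∀ j i, DistribMulAction.toLinearMap k (M j) (e i) =
      DistribMulAction.toLinearMap k (M j) ((π ∘ e) i) := fun j i => rfl
  refine ⟨M, i1, i2', i3, i4', h1, h2, fun j i => ?_, fun j P hP0 hP1 => ?_, fun j j' hjj => ?_⟩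
  · rw [hmap]
    exact h3 j i
  · let P' : Submodule B (M j) :=
      { carrier := P
        add_mem' := P.add_mem
        zero_mem' := P.zero_mem
        smul_mem' := fun b m hm => by
          obtain ⟨a, rfl⟩ := hπ b
          exact P.smul_mem a hm }
    have hP0' : P' ≠ ⊥ := by
      intro h
      apply hP0
      rw [Submodule.eq_bot_iff]
      intro x hx
      have : x ∈ P' := hx
      rw [h] at this
      exact this
    have hP1' : P' ≠ ⊤ := by
      intro h
      apply hP1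
      rw [Submodule.eq_top_iff']
      intro x
      have : x ∈ P' := h ▸ Submodule.mem_top
      exact this
    have h6 := h4 j P' hP0' hP1'
    exact h6
  · obtain ⟨g⟩ := hjj
    refine h5 j j' ⟨{ g with map_smul' := fun b m => ?_ }⟩
    obtain ⟨a, rfl⟩ := hπ b
    exact g.map_smul a m

end transfer

section final

variable (k : Type) [Field k] [IsAlgClosed k] (A : Type) [Ring A] [Algebra k A]
  [Module.Finite k A]

theorem exists_simple_of (B : Type) [Ring B] [Algebra k B] [Module.Finite k B] {ι : Type}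
    [Fintype ι] {s : ℕ} (D : Dat k B ι s)
    (h : ∀ (S : Fin 3 → Type) [∀ i, AddCommGroup (S i)] [∀ i, Module B (S i)],
      (∀ i, IsSimpleModule B (S i)) → ∃ i j, i ≠ j ∧ Nonempty (S i ≃ₗ[B] S j))
    (t1 t2 t3 : Fin s) (h12 : t1 ≠ t2) (h13 : t1 ≠ t3) (h23 : t2 ≠ t3)
    (e1 : D.e (D.r t1) ≠ 0) (e2 : D.e (D.r t2) ≠ 0) (e3 : D.e (D.r t3) ≠ 0) : False := by
  obtain ⟨S1, hS1, x1, hx1⟩ := D.exists_simple t1 e1
  obtain ⟨S2, hS2, x2, hx2⟩ := D.exists_simple t2 e2
  obtain ⟨S3, hS3, x3, hx3⟩ := D.exists_simple t3 e3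
  have key : ∀ (S S' : FM k B) (t t' : Fin s), IsSimpleModule B S.X → IsSimpleModule B S'.X →
      (∃ x : S.X, D.e (D.r t) • x ≠ 0) → (∃ x : S'.X, D.e (D.r t') • x ≠ 0) →
      Nonempty (S.X ≃ₗ[B] S'.X) → t = t' := by
    rintro S S' t t' hS hS' ⟨x, hx⟩ ⟨y, hy⟩ ⟨g⟩
    have h1 : D.e (D.r t) • g x ≠ 0 := by
      rw [← map_smul]
      intro h
      exact hx ((map_eq_zero_iff g g.injective).mp h)
    exact D.class_unique h1 hy
  let S : Fin 3 → FM k B := ![S1, S2, S3]
  let t : Fin 3 → Fin s := ![t1, t2, t3]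
  have hS : ∀ i, IsSimpleModule B (S i).X := by
    intro i
    fin_cases i
    · exact hS1
    · exact hS2
    · exact hS3
  have hx : ∀ i, ∃ x : (S i).X, D.e (D.r (t i)) • x ≠ 0 := by
    intro i
    fin_cases i
    · exact ⟨x1, hx1⟩
    · exact ⟨x2, hx2⟩
    · exact ⟨x3, hx3⟩
  obtain ⟨i, j, hij, hg⟩ := h (fun i => (S i).X) hS
  have ht := key (S i) (S j) (t i) (t j) (hS i) (hS j) (hx i) (hx j) hg
  fin_cases i <;> fin_cases j
  · exact hij rfl
  · exact h12 ht
  · exact h13 ht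
  · exact h12 ht.symm
  · exact hij rfl
  · exact h23 ht
  · exact h13 ht.symm
  · exact h23 ht.symm
  · exact hij rfl

theorem final (B : Type) [Ring B] [Algebra k B] (π : A →ₐ[k] B) (hπ : Surjective π)
    (h2 : ∀ (S : Fin 3 → Type) [∀ i, AddCommGroup (S i)] [∀ i, Module B (S i)],
      (∀ i, IsSimpleModule B (S i)) → ∃ i j, i ≠ j ∧ Nonempty (S i ≃ₗ[B] S j))
    (hbr : ∀ N : ℕ, ∃ (M : Fin N → Type) (_ : ∀ i, AddCommGroup (M i)) (_ : ∀ i, Module B (M i))
          (_ : ∀ i, Module k (M i)) (_ : ∀ i, IsScalarTower k B (M i)),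
          (∀ i, Module.Finite k (M i)) ∧ (∀ i, Nontrivial (M i)) ∧
          (∀ i, ∀ f : M i →ₗ[B] M i, ∃ c : k, ∀ x : M i, f x = c • x) ∧
          (∀ i j, Nonempty (M i ≃ₗ[B] M j) → i = j)) : HasStableFamily k A := by
  have hfB : Module.Finite k B := Module.Finite.of_surjective π.toLinearMap hπ
  obtain ⟨s, d, ⟨D⟩⟩ := exists_dat k A
  let E := Fintype.equivFin (Σ t : Fin s, Fin (d t))
  by_contra hcon
  obtain ⟨D', hD'e, hD'r⟩ := D.exists_map π hπ
  have he : CompleteOrthogonalIdempotents (D.e ∘ E.symm) :=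
    (CompleteOrthogonalIdempotents.equiv E.symm).mpr D.he
  have he' : CompleteOrthogonalIdempotents (π ∘ (D.e ∘ E.symm)) := by
    have := (CompleteOrthogonalIdempotents.equiv E.symm).mpr D'.he
    rw [hD'e] at this
    exact this
  have hSA : ¬ SF k A (D.e ∘ E.symm) := by
    rintro ⟨d, θ, h0, h1⟩
    exact hcon ⟨_, D.e ∘ E.symm, d, θ, he, h0, h1⟩
  have hSB : ¬ SF k B (π ∘ (D.e ∘ E.symm)) := fun h => hSA (SF.of_quot π hπ h)
  have hwB : HasWt k B (π ∘ (D.e ∘ E.symm)) := by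
    intro P Q _ _ _ _ _ _ _ _ _ _ _ _
    obtain ⟨w, hw⟩ := D'.weight P Q
    refine ⟨w ∘ E.symm, ?_⟩
    intro X _ _ _ _ _
    rw [hw X, hD'e]
    exact (Equiv.sum_comp E.symm (fun i => w i * (ed k ((π ∘ D.e) i) X : ℤ))).symm
  have _ : Infinite k := IsAlgClosed.instInfinite
  have hR := exists_rigid_rel k B _ he' hwB hSB
  obtain ⟨N, hN⟩ := bricks_le_two hR D' (fun t1 t2 t3 h12 h13 h23 e1 e2 e3 =>
    exists_simple_of k B D' h2 t1 t2 t3 h12 h13 h23 e1 e2 e3)
  obtain ⟨M, i1, i2, i3, i4, f1, f2, f3, f4⟩ := hbr (N + 1)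
  have h := hN (Fin (N + 1)) (fun i => ⟨M i⟩) (fun i => ⟨f2 i, fun φ hφ => by
    obtain ⟨c, hc⟩ := f3 i φ
    have hc0 : c ≠ 0 := by
      intro h0
      apply hφ
      ext x
      rw [hc, h0, zero_smul]
      rfl
    intro x y hxy
    rw [hc, hc] at hxy
    have h4 : c⁻¹ • (c • x) = c⁻¹ • (c • y) := congrArg (fun z => c⁻¹ • z) hxy
    rwa [smul_smul, smul_smul, inv_mul_cancel₀ hc0, one_smul, one_smul] at h4⟩)
    (fun _ => trivial) f4
  simp at h

end final

end BT
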