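import Mathlib
import Pool.Agent.Helper16.BT.Forward

/-!
Duality between the finite dimensional modules of an algebra and those of its opposite.
-/

namespace BT

open Module Function

section lin

variable {k M N : Type} [Field k] [AddCommGroup M] [Module k M] [AddCommGroup N] [Module k N]

theorem exists_transpose [Module.Finite k M] (g : (M →ₗ[k] k) →ₗ[k] (N →ₗ[k] k)) :
    ∃ f : N →ₗ[k] M, ∀ (φ : M →ₗ[k] k) (x : N), g φ x = φ (f x) := by
  refine ⟨(evalEquiv k M).symm.toLinearMap ∘ₗ (LinearMap.dualMap g) ∘ₗ Dual.eval k N, ?_⟩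
  intro φ x
  exact (apply_evalEquiv_symm_apply k M φ ((LinearMap.dualMap g) (Dual.eval k N x))).symm

theorem eq_of_dual {x y : M} (h : ∀ φ : M →ₗ[k] k, φ x = φ y) : x = y := by
  rw [← sub_eq_zero, ← forall_dual_apply_eq_zero_iff k]
  intro φ
  rw [map_sub, h φ, sub_self]

/-- bijectivity of the transpose -/
theorem transpose_bij [Module.Finite k M] [Module.Finite k N]
    (g : (M →ₗ[k] k) →ₗ[k] (N →ₗ[k] k)) (f : N →ₗ[k] M)
    (hfg : ∀ (φ : M →ₗ[k] k) (x : N), g φ x = φ (f x)) : Bijective f ↔ Bijective g := by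
  have e : g = f.dualMap := by
    ext φ x
    exact hfg φ x
  rw [e]
  constructor
  · intro h
    exact ⟨LinearMap.dualMap_injective_iff.mpr h.2, LinearMap.dualMap_surjective_iff.mpr h.1⟩
  · intro h
    exact ⟨LinearMap.dualMap_surjective_iff.mp h.2, LinearMap.dualMap_injective_iff.mp h.1⟩

/-- dimension count -/
theorem finrank_map_dual [Module.Finite k M] (T : M →ₗ[k] M) (hT : ∀ x, T (T x) = T x)
    (W : Submodule k (Dual k M)) (V : Submodule k M) (hV : V = W.dualCoannihilator)
    (hVT : ∀ x ∈ V, T x ∈ V) :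
    finrank k (Submodule.map T.dualMap W) + finrank k (Submodule.map T V) =
      finrank k (LinearMap.range T) := by
  have h1 := Subspace.finrank_add_finrank_dualCoannihilator_eq (Submodule.map T.dualMap W)
  have h2 : (Submodule.map T.dualMap W).dualCoannihilator = Submodule.comap T V := by
    ext x
    rw [Submodule.mem_dualCoannihilator, Submodule.mem_comap, hV, Submodule.mem_dualCoannihilator]
    constructor
    · intro h φ hφ
      exact h (T.dualMap φ) (Submodule.mem_map_of_mem hφ)
    · rintro h _ ⟨φ, hφ, rfl⟩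
      exact h φ hφ
  rw [h2] at h1
  have h3 := LinearMap.finrank_range_add_finrank_ker T
  have h4 := LinearMap.finrank_range_add_finrank_ker (T.domRestrict (Submodule.comap T V))
  have h5 : LinearMap.range (T.domRestrict (Submodule.comap T V)) = Submodule.map T V := by
    ext y
    rw [LinearMap.mem_range, Submodule.mem_map]
    constructor
    · rintro ⟨⟨x, hx⟩, rfl⟩
      exact ⟨T x, hx, hT x⟩
    · rintro ⟨x, hx, rfl⟩
      exact ⟨⟨x, hVT x hx⟩, rfl⟩
  have h6 : finrank k (LinearMap.ker (T.domRestrict (Submodule.comap T V))) =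
      finrank k (LinearMap.ker T) := by
    have h7 : Submodule.map (Submodule.comap T V).subtype
        (LinearMap.ker (T.domRestrict (Submodule.comap T V))) = LinearMap.ker T := by
      ext x
      rw [Submodule.mem_map]
      constructor
      · rintro ⟨y, hy, rfl⟩
        exact hy
      · intro hx
        have hx' : T x = 0 := hx
        refine ⟨⟨x, ?_⟩, ?_, rfl⟩
        · rw [Submodule.mem_comap, hx']
          exact V.zero_mem
        · exact hx'
    rw [← h7]
    exact (LinearEquiv.finrank_eq (Submodule.equivMapOfInjective _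
      (Submodule.subtype_injective _) _)).symm.symm
  rw [h5, h6] at h4
  omega

end lin

/-- the dual of a module, a module over the opposite algebra -/
def DM (k M : Type) [Field k] [AddCommGroup M] [Module k M] : Type := M →ₗ[k] k

/-- the dual of a module over the opposite algebra, a module over the algebra -/
def DN (k M : Type) [Field k] [AddCommGroup M] [Module k M] : Type := M →ₗ[k] k

section inst

variable {k A M : Type} [Field k] [Ring A] [Algebra k A] [AddCommGroup M] [Module k M]

instance instDM1 : AddCommGroup (DM k M) := inferInstanceAs (AddCommGroup (M →ₗ[k] k))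
instance instDM2 : Module k (DM k M) := inferInstanceAs (Module k (M →ₗ[k] k))
instance instDM3 [Module.Finite k M] : Module.Finite k (DM k M) :=
  inferInstanceAs (Module.Finite k (Dual k M))
instance instDN1 : AddCommGroup (DN k M) := inferInstanceAs (AddCommGroup (M →ₗ[k] k))
instance instDN2 : Module k (DN k M) := inferInstanceAs (Module k (M →ₗ[k] k))
instance instDN3 [Module.Finite k M] : Module.Finite k (DN k M) :=
  inferInstanceAs (Module.Finite k (Dual k M))

/-- the underlying functional -/
def DM.f (φ : DM k M) : M →ₗ[k] k := φ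
/-- the underlying functional -/
def DN.f (φ : DN k M) : M →ₗ[k] k := φ

instance instDM4 [Module A M] [IsScalarTower k A M] : Module Aᵐᵒᵖ (DM k M) where
  smul a φ := LinearMap.comp (DM.f φ) (DistribMulAction.toLinearMap k M a.unop)
  one_smul φ := LinearMap.ext fun x => congrArg (DM.f φ) (one_smul A x)
  mul_smul a b φ := LinearMap.ext fun x => congrArg (DM.f φ) (mul_smul b.unop a.unop x)
  smul_zero _ := rfl
  smul_add _ _ _ := rfl
  add_smul a b φ := LinearMap.ext fun x => by
    change DM.f φ ((a + b).unop • x) = DM.f φ (a.unop • x) + DM.f φ (b.unop • x)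
    rw [MulOpposite.unop_add, add_smul, map_add]
  zero_smul φ := LinearMap.ext fun x => by
    change DM.f φ ((0 : Aᵐᵒᵖ).unop • x) = 0
    rw [MulOpposite.unop_zero, zero_smul, map_zero]

instance instDN4 [Module Aᵐᵒᵖ M] [IsScalarTower k Aᵐᵒᵖ M] : Module A (DN k M) where
  smul a φ := LinearMap.comp (DN.f φ) (DistribMulAction.toLinearMap k M (MulOpposite.op a))
  one_smul φ := LinearMap.ext fun x => congrArg (DN.f φ) (one_smul Aᵐᵒᵖ x)
  mul_smul a b φ := LinearMap.ext fun x =>
    congrArg (DN.f φ) (mul_smul (MulOpposite.op b) (MulOpposite.op a) x)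
  smul_zero _ := rfl
  smul_add _ _ _ := rfl
  add_smul a b φ := LinearMap.ext fun x => by
    change DN.f φ (MulOpposite.op (a + b) • x) =
      DN.f φ (MulOpposite.op a • x) + DN.f φ (MulOpposite.op b • x)
    rw [MulOpposite.op_add, add_smul, map_add]
  zero_smul φ := LinearMap.ext fun x => by
    change DN.f φ (MulOpposite.op (0 : A) • x) = 0
    rw [MulOpposite.op_zero, zero_smul, map_zero]

theorem DM.smul_f [Module A M] [IsScalarTower k A M] (a : Aᵐᵒᵖ) (φ : DM k M) (x : M) :
    DM.f (a • φ) x = DM.f φ (a.unop • x) := rfl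

theorem DN.smul_f [Module Aᵐᵒᵖ M] [IsScalarTower k Aᵐᵒᵖ M] (a : A) (φ : DN k M) (x : M) :
    DN.f (a • φ) x = DN.f φ (MulOpposite.op a • x) := rfl

instance instDM5 [Module A M] [IsScalarTower k A M] : IsScalarTower k Aᵐᵒᵖ (DM k M) where
  smul_assoc c a φ := LinearMap.ext fun x => by
    change DM.f φ ((c • a).unop • x) = c • DM.f φ (a.unop • x)
    rw [MulOpposite.unop_smul, smul_assoc, map_smul]

instance instDN5 [Module Aᵐᵒᵖ M] [IsScalarTower k Aᵐᵒᵖ M] : IsScalarTower k A (DN k M) where
  smul_assoc c a φ := LinearMap.ext fun x => by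
    change DN.f φ (MulOpposite.op (c • a) • x) = c • DN.f φ (MulOpposite.op a • x)
    rw [MulOpposite.op_smul, smul_assoc, map_smul]

end inst

section main

variable {k A M N : Type} [Field k] [Ring A] [Algebra k A]
  [AddCommGroup M] [Module A M] [Module k M] [IsScalarTower k A M]
  [AddCommGroup N] [Module A N] [Module k N] [IsScalarTower k A N]

theorem finrank_DM : finrank k (DM k M) = finrank k M :=
  Subspace.dual_finrank_eq

/-- every map of duals is a transpose -/
theorem DM_exists [Module.Finite k M] (g : DM k M →ₗ[Aᵐᵒᵖ] DM k N) :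
    ∃ f : N →ₗ[A] M, ∀ (φ : DM k M) (x : N), DM.f (g φ) x = DM.f φ (f x) := by
  obtain ⟨f, hf⟩ := exists_transpose (k := k) (M := M) (N := N)
    ({ toFun := fun φ => DM.f (g φ)
       map_add' := fun φ ψ => g.map_add φ ψ
       map_smul' := fun c φ => (g.restrictScalars k).map_smul c φ } :
        (M →ₗ[k] k) →ₗ[k] (N →ₗ[k] k))
  have hf' : ∀ (φ : DM k M) (x : N), DM.f (g φ) x = DM.f φ (f x) := hf
  have key : ∀ (φ : DM k M) (a : A) (x : N), DM.f φ (f (a • x)) = DM.f φ (a • f x) := by
    intro φ a x
    rw [← hf' φ (a • x)]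
    have h2 : DM.f (g φ) (a • x) = DM.f (g ((MulOpposite.op a) • φ)) x := by
      rw [g.map_smul]
      rfl
    rw [h2, hf' ((MulOpposite.op a) • φ) x]
    rfl
  exact ⟨{ toFun := f, map_add' := f.map_add, map_smul' := fun a x =>
    eq_of_dual (k := k) (fun φ => key φ a x) }, hf'⟩

/-- the transpose of a map -/
def DM.tr (f : N →ₗ[A] M) : DM k M →ₗ[Aᵐᵒᵖ] DM k N where
  toFun φ := LinearMap.comp (DM.f φ) (f.restrictScalars k)
  map_add' _ _ := rfl
  map_smul' a φ := LinearMap.ext fun x => congrArg (DM.f φ) (f.map_smul a.unop x).symm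

theorem DM.tr_f (f : N →ₗ[A] M) (φ : DM k M) (x : N) : DM.f (DM.tr (k := k) f φ) x =
    DM.f φ (f x) := rfl

theorem DM.f_ext {φ ψ : DM k M} (h : ∀ x, DM.f φ x = DM.f ψ x) : φ = ψ := LinearMap.ext h

omit [Algebra k A] [IsScalarTower k A M] [Module k N] [IsScalarTower k A N] in
theorem DM_eq {f f' : N →ₗ[A] M} (h : ∀ (φ : DM k M) (x : N), DM.f φ (f x) = DM.f φ (f' x)) :
    f = f' := LinearMap.ext fun x => eq_of_dual (k := k) (fun φ => h φ x)

theorem hd_dual [Module.Finite k M] [Module.Finite k N] :
    hd k Aᵐᵒᵖ (DM k M) (DM k N) = hd k A N M := by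
  let F : (N →ₗ[A] M) →ₗ[k] (DM k M →ₗ[Aᵐᵒᵖ] DM k N) :=
    { toFun := fun f => DM.tr f
      map_add' := fun f f' => LinearMap.ext fun φ => DM.f_ext fun x => map_add (DM.f φ) (f x) (f' x)
      map_smul' := fun c f => LinearMap.ext fun φ => DM.f_ext fun x => map_smul (DM.f φ) c (f x) }
  have hF : Bijective F := by
    constructor
    · intro f f' h
      refine DM_eq (k := k) (fun φ x => ?_)
      have h1 : DM.tr (k := k) f = DM.tr f' := h
      rw [← DM.tr_f, ← DM.tr_f, h1]
    · intro g
      obtain ⟨f, hf⟩ := DM_exists (k := k) g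
      exact ⟨f, LinearMap.ext fun φ => DM.f_ext fun x => (hf φ x).symm⟩
  exact (LinearEquiv.finrank_eq (LinearEquiv.ofBijective F hF)).symm

theorem DM_bij [Module.Finite k M] [Module.Finite k N] (g : DM k M →ₗ[Aᵐᵒᵖ] DM k N)
    (f : N →ₗ[A] M) (hf : ∀ (φ : DM k M) (x : N), DM.f (g φ) x = DM.f φ (f x)) :
    Bijective f ↔ Bijective g := by
  exact transpose_bij (k := k) (M := M) (N := N)
    ({ toFun := fun φ => DM.f (g φ)
       map_add' := fun φ ψ => g.map_add φ ψ
       map_smul' := fun c φ => (g.restrictScalars k).map_smul c φ } :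
        (M →ₗ[k] k) →ₗ[k] (N →ₗ[k] k)) (f.restrictScalars k) hf

theorem iso_of_dual [Module.Finite k M] [Module.Finite k N]
    (h : Nonempty (DM k M ≃ₗ[Aᵐᵒᵖ] DM k N)) : Nonempty (M ≃ₗ[A] N) := by
  obtain ⟨g⟩ := h
  obtain ⟨f, hf⟩ := DM_exists (k := k) (A := A) (M := M) (N := N) g.toLinearMap
  have h1 := (DM_bij (k := k) g.toLinearMap f hf).mpr g.bijective
  exact ⟨(LinearEquiv.ofBijective f h1).symm⟩

theorem brick_dual [Module.Finite k M]
    (h : ∀ φ : M →ₗ[A] M, φ ≠ 0 → Bijective φ) :
    ∀ φ : DM k M →ₗ[Aᵐᵒᵖ] DM k M, φ ≠ 0 → Bijective φ := by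
  intro g hg
  obtain ⟨f, hf⟩ := DM_exists (k := k) g
  refine (DM_bij (k := k) g f hf).mp (h f ?_)
  intro h0
  apply hg
  refine LinearMap.ext fun φ => DM.f_ext fun x => ?_
  rw [hf, h0]
  exact map_zero (DM.f φ)

end main

section main2

variable {k A M N : Type} [Field k] [Ring A] [Algebra k A]
  [AddCommGroup M] [Module Aᵐᵒᵖ M] [Module k M] [IsScalarTower k Aᵐᵒᵖ M]
  [AddCommGroup N] [Module Aᵐᵒᵖ N] [Module k N] [IsScalarTower k Aᵐᵒᵖ N]

theorem finrank_DN : finrank k (DN k M) = finrank k M :=
  Subspace.dual_finrank_eq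

theorem DN_iso_of_dual [Module.Finite k M] [Module.Finite k N]
    (h : Nonempty (DN k M ≃ₗ[A] DN k N)) : Nonempty (M ≃ₗ[Aᵐᵒᵖ] N) := by
  obtain ⟨g⟩ := h
  obtain ⟨f, hf⟩ := exists_transpose (k := k) (M := M) (N := N)
    ({ toFun := fun φ => DN.f (g φ)
       map_add' := fun φ ψ => g.map_add φ ψ
       map_smul' := fun c φ => (g.toLinearMap.restrictScalars k).map_smul c φ } :
        (M →ₗ[k] k) →ₗ[k] (N →ₗ[k] k))
  have hf' : ∀ (φ : DN k M) (x : N), DN.f (g φ) x = DN.f φ (f x) := hf
  have key : ∀ (φ : DN k M) (a : Aᵐᵒᵖ) (x : N), DN.f φ (f (a • x)) = DN.f φ (a • f x) := by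
    intro φ a x
    rw [← hf' φ (a • x)]
    have h2 : DN.f (g φ) (a • x) = DN.f (g ((MulOpposite.unop a) • φ)) x := by
      rw [g.map_smul]
      rfl
    rw [h2, hf' ((MulOpposite.unop a) • φ) x]
    rfl
  have hb : Bijective f := (transpose_bij (k := k) (M := M) (N := N) _ f hf).mpr g.bijective
  let F : N →ₗ[Aᵐᵒᵖ] M :=
    { toFun := f
      map_add' := f.map_add
      map_smul' := fun a x => eq_of_dual (k := k) (fun φ => key φ a x) }
  exact ⟨(LinearEquiv.ofBijective F hb).symm⟩

end main2

/-- The opposite algebra has a stable family iff the algebra has. -/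
theorem stable_op (k : Type) [Field k] (A : Type) [Ring A] [Algebra k A] [Module.Finite k A]
    (h : HasStableFamily k Aᵐᵒᵖ) : HasStableFamily k A := by
  obtain ⟨n, e, d, θ, he, hsum, hfam⟩ := h
  refine ⟨n, fun i => (e i).unop, d, fun i => - θ i, ?_, ?_, ?_⟩
  · refine ⟨⟨fun i => ?_, fun i j hij => ?_⟩, ?_⟩
    · have h1 := congrArg MulOpposite.unop (he.idem i)
      exact h1
    · have h1 := congrArg MulOpposite.unop (he.ortho hij.symm)
      exact h1
    · have h1 := congrArg MulOpposite.unop he.complete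
      rw [Finset.unop_sum] at h1
      exact h1
  · simp only [neg_mul, Finset.sum_neg_distrib, hsum, neg_zero]
  intro N
  obtain ⟨M, i1, i2, i3, i4, hfin, hnt, hdim, hst, hiso⟩ := hfam N
  refine ⟨fun j => DN k (M j), fun j => inferInstance, fun j => inferInstance,
    fun j => inferInstance, fun j => inferInstance, fun j => ?_, fun j => ?_, ?_, ?_, ?_⟩
  · have := hfin j
    infer_instance
  · have := hfin j
    have := hnt j
    have h1 : 0 < finrank k (M j) := Module.finrank_pos
    rw [← finrank_DN (k := k) (M := M j)] at h1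
    exact Module.nontrivial_of_finrank_pos h1
  · intro j i
    have := hfin j
    rw [← hdim j i]
    exact LinearMap.finrank_range_dualMap_eq_finrank_range
      (DistribMulAction.toLinearMap k (M j) (e i))
  · intro j P hP0 hP1
    have := hfin j
    let W : Submodule k (Dual k (M j)) := P.restrictScalars k
    let V : Submodule Aᵐᵒᵖ (M j) :=
      { carrier := {x | ∀ φ : DN k (M j), φ ∈ P → DN.f φ x = 0}
        add_mem' := fun {x y} hx hy φ hφ => by rw [map_add, hx φ hφ, hy φ hφ, add_zero]
        zero_mem' := fun φ _ => map_zero _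
        smul_mem' := fun a x hx φ hφ => hx (a.unop • φ) (P.smul_mem _ hφ) }
    have hVW : V.restrictScalars k = W.dualCoannihilator := by
      ext x
      rw [Submodule.mem_dualCoannihilator]
      exact Iff.rfl
    have hV0 : V ≠ ⊥ := by
      intro h0
      apply hP1
      have h1 : W.dualCoannihilator = ⊥ := by
        rw [← hVW, h0]
        rfl
      have h2 := Subspace.finrank_add_finrank_dualCoannihilator_eq W
      rw [h1, finrank_bot, add_zero, ← Subspace.dual_finrank_eq] at h2
      have h3 : W = ⊤ := Submodule.eq_top_of_finrank_eq h2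
      rw [eq_top_iff]
      intro φ _
      have h4 : ∀ ψ : Dual k (M j), ψ ∈ W := by
        intro ψ
        rw [h3]
        trivial
      exact h4 φ
    have hV1 : V ≠ ⊤ := by
      intro h0
      apply hP0
      rw [eq_bot_iff]
      intro φ hφ
      have h1 : ∀ x : M j, DN.f φ x = 0 := by
        intro x
        have h2 : x ∈ V := by
          rw [h0]
          trivial
        exact h2 φ hφ
      have h3 : φ = 0 := LinearMap.ext h1
      rw [h3]
      exact Submodule.zero_mem _
    have h1 := hst j V hV0 hV1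
    have h2 : ∀ i, finrank k (Submodule.map (DistribMulAction.toLinearMap k (DN k (M j))
        ((e i).unop)) (P.restrictScalars k)) +
        finrank k (Submodule.map (DistribMulAction.toLinearMap k (M j) (e i))
            (V.restrictScalars k)) = d i := by
      intro i
      rw [← hdim j i]
      refine finrank_map_dual (DistribMulAction.toLinearMap k (M j) (e i)) ?_ W _ hVW ?_
      · intro x
        change e i • e i • x = e i • x
        rw [← mul_smul, (he.idem i).eq]
      · intro x hx
        exact V.smul_mem (e i) hx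
    have h3 : ∑ i, - θ i * (finrank k (Submodule.map (DistribMulAction.toLinearMap k (DN k (M j))
        ((e i).unop)) (P.restrictScalars k)) : ℤ) =
        ∑ i, θ i * (finrank k (Submodule.map (DistribMulAction.toLinearMap k (M j) (e i))
            (V.restrictScalars k)) : ℤ) - ∑ i, θ i * (d i : ℤ) := by
      rw [← Finset.sum_sub_distrib]
      refine Finset.sum_congr rfl (fun i _ => ?_)
      rw [← h2 i]
      push_cast
      ring
    rw [h3, hsum, sub_zero]
    exact h1
  · rintro j j' h
    have := hfin j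
    have := hfin j'
    exact hiso j j' (DN_iso_of_dual (k := k) h)

end BT
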