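import Mathlib

/-!
An integral quadratic form which is positive on the nonzero integral points of a rational polyhedral
cone is bounded below by a multiple of the square of the norm on the cone.
-/

namespace BT

open Module Function Filter Topology

section geo

variable {T : Type} [Fintype T]

/-- the quadratic form -/
noncomputable def qR (c : T → T → ℝ) (x : T → ℝ) : ℝ := ∑ t, ∑ u, x t * x u * c t u

theorem qR_continuous (c : T → T → ℝ) : Continuous (qR c) := by
  unfold qR
  fun_prop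

theorem qR_smul (c : T → T → ℝ) (a : ℝ) (x : T → ℝ) : qR c (a • x) = a ^ 2 * qR c x := by
  unfold qR
  rw [Finset.mul_sum]
  refine Finset.sum_congr rfl (fun t _ => ?_)
  rw [Finset.mul_sum]
  refine Finset.sum_congr rfl (fun u _ => ?_)
  rw [Pi.smul_apply, Pi.smul_apply, smul_eq_mul, smul_eq_mul]
  ring

/-- a quadratic form vanishing at an interior minimum point with rationally independent
coordinates vanishes identically -/
theorem quad_zero {m : ℕ} (β : Fin m → ℝ) (hβ : ∀ a : Fin m → ℚ, ∑ j, β j * (a j : ℝ) = 0 → a = 0)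
    (B : Fin m → Fin m → ℚ) (hB : ∀ᶠ r in 𝓝 β, 0 ≤ qR (fun i j => (B i j : ℝ)) r)
    (h0 : qR (fun i j => (B i j : ℝ)) β = 0) (r : Fin m → ℝ) :
    qR (fun i j => (B i j : ℝ)) r = 0 := by
  classical
  -- the linear part
  let ℓ : Fin m → ℝ := fun i => ∑ j, β j * ((B i j : ℝ) + (B j i : ℝ))
  have hexp : ∀ (i : Fin m) (s : ℝ), qR (fun i j => (B i j : ℝ)) (β + s • Pi.single i 1) =
      qR (fun i j => (B i j : ℝ)) β + s * ℓ i + s ^ 2 * (B i i : ℝ) := by
    intro i s
    have e1 : ∀ a b, (β + s • (Pi.single i 1 : Fin m → ℝ)) a * (β + s • (Pi.single i 1 : Fin m → ℝ)) b *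
        (B a b : ℝ) = β a * β b * (B a b : ℝ) + s * (β a * (Pi.single i 1 : Fin m → ℝ) b * (B a b : ℝ))
          + s * ((Pi.single i 1 : Fin m → ℝ) a * β b * (B a b : ℝ))
          + s ^ 2 * ((Pi.single i 1 : Fin m → ℝ) a * (Pi.single i 1 : Fin m → ℝ) b * (B a b : ℝ)) := by
      intro a b
      simp only [Pi.add_apply, Pi.smul_apply, smul_eq_mul]
      ring
    unfold qR
    simp only [e1, Finset.sum_add_distrib, ← Finset.mul_sum]
    have e2 : ∑ a, ∑ b, β a * (Pi.single i 1 : Fin m → ℝ) b * (B a b : ℝ) = ∑ a, β a * (B a i : ℝ) := by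
      refine Finset.sum_congr rfl (fun a _ => ?_)
      rw [Finset.sum_eq_single i]
      · rw [Pi.single_eq_same]
        ring
      · intro b _ hb
        rw [Pi.single_eq_of_ne hb]
        ring
      · simp
    have e3 : ∑ a, ∑ b, (Pi.single i 1 : Fin m → ℝ) a * β b * (B a b : ℝ) = ∑ b, β b * (B i b : ℝ) := by
      rw [Finset.sum_eq_single i]
      · refine Finset.sum_congr rfl (fun b _ => ?_)
        rw [Pi.single_eq_same]
        ring
      · intro a _ ha
        refine Finset.sum_eq_zero (fun b _ => ?_)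
        rw [Pi.single_eq_of_ne ha]
        ring
      · simp
    have e4 : ∑ a, ∑ b, (Pi.single i 1 : Fin m → ℝ) a * (Pi.single i 1 : Fin m → ℝ) b * (B a b : ℝ)
        = (B i i : ℝ) := by
      rw [Finset.sum_eq_single i]
      · rw [Finset.sum_eq_single i]
        · rw [Pi.single_eq_same]
          ring
        · intro b _ hb
          rw [Pi.single_eq_of_ne hb]
          ring
        · simp
      · intro a _ ha
        refine Finset.sum_eq_zero (fun b _ => ?_)
        rw [Pi.single_eq_of_ne ha]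
        ring
      · simp
    rw [e2, e3, e4]
    have e5 : ℓ i = ∑ b, β b * (B i b : ℝ) + ∑ a, β a * (B a i : ℝ) := by
      change ∑ j, β j * ((B i j : ℝ) + (B j i : ℝ)) = _
      rw [← Finset.sum_add_distrib]
      refine Finset.sum_congr rfl (fun a _ => by ring)
    rw [e5]
    ring
  have hℓ : ∀ i, ℓ i = 0 := by
    intro i
    -- near zero the expression is nonnegative
    have h1 : ∀ᶠ s : ℝ in 𝓝 0, 0 ≤ s * ℓ i + s ^ 2 * (B i i : ℝ) := by
      have hc : Tendsto (fun s : ℝ => β + s • (Pi.single i 1 : Fin m → ℝ)) (𝓝 0) (𝓝 β) := by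
        have : Continuous (fun s : ℝ => β + s • (Pi.single i 1 : Fin m → ℝ)) := by fun_prop
        have h2 := this.tendsto 0
        simpa using h2
      filter_upwards [hc.eventually hB] with s hs
      rw [hexp, h0, zero_add] at hs
      exact hs
    obtain ⟨ε, hε, h2⟩ := Metric.eventually_nhds_iff.mp h1
    by_contra hne
    have hpos : 0 < |ℓ i| := abs_pos.mpr hne
    -- choose s of opposite sign
    obtain ⟨s, hs0, hs1, hs2⟩ : ∃ s : ℝ, 0 < s ∧ s < ε ∧ s * |(B i i : ℝ)| < |ℓ i| := by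
      refine ⟨min (ε / 2) (|ℓ i| / (2 * (|(B i i : ℝ)| + 1))), ?_, ?_, ?_⟩
      · positivity
      · exact lt_of_le_of_lt (min_le_left _ _) (by linarith)
      · have h3 : min (ε / 2) (|ℓ i| / (2 * (|(B i i : ℝ)| + 1))) * |(B i i : ℝ)| ≤
            |ℓ i| / (2 * (|(B i i : ℝ)| + 1)) * |(B i i : ℝ)| :=
          mul_le_mul_of_nonneg_right (min_le_right _ _) (abs_nonneg _)
        have h4 : |ℓ i| / (2 * (|(B i i : ℝ)| + 1)) * |(B i i : ℝ)| < |ℓ i| := by
          rw [div_mul_eq_mul_div, div_lt_iff₀ (by positivity)]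
          nlinarith [abs_nonneg (B i i : ℝ)]
        exact lt_of_le_of_lt h3 h4
    have h5 := @h2 s (by rw [Real.dist_eq, sub_zero, abs_of_pos hs0]; exact hs1)
    have h6 := @h2 (-s) (by rw [Real.dist_eq, sub_zero, abs_neg, abs_of_pos hs0]; exact hs1)
    rcases lt_or_gt_of_ne hne with h | h
    · rw [abs_of_neg h] at hs2
      have h7 : (B i i : ℝ) ≤ |(B i i : ℝ)| := le_abs_self _
      nlinarith
    · rw [abs_of_pos h] at hs2
      have h7 : (B i i : ℝ) ≤ |(B i i : ℝ)| := le_abs_self _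
      nlinarith
  have hB0 : ∀ i j, (B i j : ℝ) + (B j i : ℝ) = 0 := by
    intro i j
    have h1 := hβ (fun j => B i j + B j i) (by
      have h2 := hℓ i
      change ∑ j, β j * ((B i j : ℝ) + (B j i : ℝ)) = 0 at h2
      rw [← h2]
      refine Finset.sum_congr rfl (fun j _ => ?_)
      push_cast
      ring)
    have h3 := congrFun h1 j
    change B i j + B j i = 0 at h3
    exact_mod_cast h3
  have h2 : qR (fun i j => (B i j : ℝ)) r + qR (fun i j => (B i j : ℝ)) r = 0 := by
    have e1 : qR (fun i j => (B i j : ℝ)) r = ∑ t, ∑ u, r t * r u * (B u t : ℝ) := by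
      unfold qR
      rw [Finset.sum_comm]
      refine Finset.sum_congr rfl (fun t _ => Finset.sum_congr rfl (fun u _ => by ring))
    nth_rewrite 2 [e1]
    unfold qR
    rw [← Finset.sum_add_distrib]
    refine Finset.sum_eq_zero (fun t _ => ?_)
    rw [← Finset.sum_add_distrib]
    refine Finset.sum_eq_zero (fun u _ => ?_)
    have := hB0 t u
    have h3 : r t * r u * (B t u : ℝ) + r t * r u * (B u t : ℝ) =
        r t * r u * ((B t u : ℝ) + (B u t : ℝ)) := by ring
    rw [h3, this, mul_zero]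
  linarith

/-- the form is positive on all real points of the cone -/
theorem qR_pos (D : Finset (T → ℤ)) (c : T → T → ℤ)
    (hpos : ∀ z : T → ℤ, z ≠ 0 → (∀ d ∈ D, 0 ≤ ∑ t, z t * d t) →
      0 < ∑ t, ∑ u, z t * z u * c t u) (ξ : T → ℝ) (hξ : ξ ≠ 0)
    (hD : ∀ d ∈ D, 0 ≤ ∑ t, ξ t * (d t : ℝ)) : 0 < qR (fun t u => (c t u : ℝ)) ξ := by
  classical
  by_contra hcon
  push Not at hcon
  -- rational coordinates
  let L : Submodule ℚ ℝ := Submodule.span ℚ (Set.range ξ)
  have hL : Module.Finite ℚ L := Module.Finite.span_of_finite ℚ (Set.finite_range ξ)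
  let b := Module.finBasis ℚ L
  let m := finrank ℚ L
  let β : Fin m → ℝ := fun j => (b j : ℝ)
  have hmem : ∀ t, ξ t ∈ L := fun t => Submodule.subset_span ⟨t, rfl⟩
  let u : Fin m → T → ℚ := fun j t => b.repr ⟨ξ t, hmem t⟩ j
  have hβ : ∀ a : Fin m → ℚ, ∑ j, β j * (a j : ℝ) = 0 → a = 0 := by
    intro a ha
    have h1 : ∑ j, a j • b j = 0 := by
      apply Subtype.ext
      rw [Submodule.coe_sum, Submodule.coe_zero, ← ha]
      refine Finset.sum_congr rfl (fun j _ => ?_)
      rw [Submodule.coe_smul, Rat.smul_def, mul_comm]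
    have h2 := Fintype.linearIndependent_iff.mp b.linearIndependent a h1
    exact funext h2
  have hξu : ∀ t, ξ t = ∑ j, β j * (u j t : ℝ) := by
    intro t
    have h1 := b.sum_repr ⟨ξ t, hmem t⟩
    have h2 := congrArg Subtype.val h1
    rw [Submodule.coe_sum] at h2
    change _ = ξ t at h2
    rw [← h2]
    refine Finset.sum_congr rfl (fun j _ => ?_)
    rw [Submodule.coe_smul, Rat.smul_def, mul_comm]
  let X : (Fin m → ℝ) → (T → ℝ) := fun r t => ∑ j, r j * (u j t : ℝ)
  have hXβ : X β = ξ := funext (fun t => (hξu t).symm)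
  have hXc : Continuous X := by
    refine continuous_pi (fun t => ?_)
    change Continuous (fun r : Fin m → ℝ => ∑ j, r j * (u j t : ℝ))
    fun_prop
  -- points near β are in the cone
  have hnear : ∀ᶠ r in 𝓝 β, X r ≠ 0 ∧ ∀ d ∈ D, 0 ≤ ∑ t, X r t * (d t : ℝ) := by
    have h1 : ∀ᶠ r in 𝓝 β, X r ≠ 0 := by
      have h2 : X β ≠ 0 := by rw [hXβ]; exact hξ
      exact hXc.continuousAt.eventually_ne h2
    have h2 : ∀ᶠ r in 𝓝 β, ∀ d ∈ D, 0 ≤ ∑ t, X r t * (d t : ℝ) := by
      rw [Filter.eventually_all_finset]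
      intro d hd
      rcases (hD d hd).lt_or_eq with h | h
      · have hc : Continuous (fun r : Fin m → ℝ => ∑ t, X r t * (d t : ℝ)) := by
          refine continuous_finsetSum _ (fun t _ => ?_)
          exact ((continuous_apply t).comp hXc).mul continuous_const
        have h3 : 0 < (fun r : Fin m → ℝ => ∑ t, X r t * (d t : ℝ)) β := by
          change 0 < ∑ t, X β t * (d t : ℝ)
          rw [hXβ]
          exact h
        filter_upwards [hc.continuousAt.eventually (lt_mem_nhds h3)] with r hr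
        exact le_of_lt hr
      · have h3 : ∀ j, ∑ t, u j t * (d t : ℚ) = 0 := by
          have h4 := hβ (fun j => ∑ t, u j t * (d t : ℚ)) (by
            rw [h]
            push_cast
            simp_rw [Finset.mul_sum]
            rw [Finset.sum_comm]
            refine Finset.sum_congr rfl (fun t _ => ?_)
            rw [hξu t, Finset.sum_mul]
            refine Finset.sum_congr rfl (fun j _ => ?_)
            ring)
          exact fun j => congrFun h4 j
        refine Filter.Eventually.of_forall (fun r => ?_)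
        have h5 : ∑ t, X r t * (d t : ℝ) = ∑ j, r j * ((∑ t, u j t * (d t : ℚ) : ℚ) : ℝ) := by
          push_cast
          simp_rw [Finset.mul_sum]
          rw [Finset.sum_comm]
          refine Finset.sum_congr rfl (fun t _ => ?_)
          change (∑ j, r j * (u j t : ℝ)) * (d t : ℝ) = _
          rw [Finset.sum_mul]
          refine Finset.sum_congr rfl (fun j _ => ?_)
          ring
        rw [h5]
        simp [h3]
    exact h1.and h2
  -- the pulled back form
  let B : Fin m → Fin m → ℚ := fun i j => ∑ t, ∑ v, u i t * u j v * (c t v : ℚ)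
  have hqB : ∀ r : Fin m → ℝ, qR (fun i j => (B i j : ℝ)) r =
      qR (fun t v => (c t v : ℝ)) (X r) := by
    intro r
    have e1 : qR (fun t v => (c t v : ℝ)) (X r) =
        ∑ t, ∑ v, ∑ i, ∑ j, r i * r j * ((u i t : ℝ) * (u j v : ℝ) * (c t v : ℝ)) := by
      unfold qR
      refine Finset.sum_congr rfl (fun t _ => Finset.sum_congr rfl (fun v _ => ?_))
      change (∑ i, r i * (u i t : ℝ)) * (∑ j, r j * (u j v : ℝ)) * (c t v : ℝ) = _
      rw [Finset.sum_mul_sum, Finset.sum_mul]
      refine Finset.sum_congr rfl (fun i _ => ?_)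
      rw [Finset.sum_mul]
      refine Finset.sum_congr rfl (fun j _ => ?_)
      ring
    have e2 : qR (fun i j => (B i j : ℝ)) r =
        ∑ i, ∑ j, ∑ t, ∑ v, r i * r j * ((u i t : ℝ) * (u j v : ℝ) * (c t v : ℝ)) := by
      unfold qR
      refine Finset.sum_congr rfl (fun i _ => Finset.sum_congr rfl (fun j _ => ?_))
      change r i * r j * ((∑ t, ∑ v, u i t * u j v * (c t v : ℚ) : ℚ) : ℝ) = _
      push_cast
      rw [Finset.mul_sum]
      refine Finset.sum_congr rfl (fun t _ => ?_)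
      rw [Finset.mul_sum]
    rw [e1, e2]
    calc ∑ i, ∑ j, ∑ t, ∑ v, r i * r j * ((u i t : ℝ) * (u j v : ℝ) * (c t v : ℝ))
        = ∑ i, ∑ t, ∑ j, ∑ v, r i * r j * ((u i t : ℝ) * (u j v : ℝ) * (c t v : ℝ)) := by
          refine Finset.sum_congr rfl (fun i _ => Finset.sum_comm)
      _ = ∑ t, ∑ i, ∑ j, ∑ v, r i * r j * ((u i t : ℝ) * (u j v : ℝ) * (c t v : ℝ)) :=
          Finset.sum_comm
      _ = ∑ t, ∑ i, ∑ v, ∑ j, r i * r j * ((u i t : ℝ) * (u j v : ℝ) * (c t v : ℝ)) := by
          refine Finset.sum_congr rfl (fun t _ => Finset.sum_congr rfl (fun i _ =>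
            Finset.sum_comm))
      _ = ∑ t, ∑ v, ∑ i, ∑ j, r i * r j * ((u i t : ℝ) * (u j v : ℝ) * (c t v : ℝ)) := by
          refine Finset.sum_congr rfl (fun t _ => Finset.sum_comm)
  -- positivity at rational points
  have hrat : ∀ a : Fin m → ℚ, X (fun j => (a j : ℝ)) ≠ 0 →
      (∀ d ∈ D, 0 ≤ ∑ t, X (fun j => (a j : ℝ)) t * (d t : ℝ)) →
      0 < qR (fun t v => (c t v : ℝ)) (X (fun j => (a j : ℝ))) := by
    intro a ha0 haD
    let y : T → ℚ := fun t => ∑ j, a j * u j t
    have hy : ∀ t, X (fun j => (a j : ℝ)) t = (y t : ℝ) := by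
      intro t
      change ∑ j, (a j : ℝ) * (u j t : ℝ) = ((∑ j, a j * u j t : ℚ) : ℝ)
      push_cast
      rfl
    obtain ⟨N, hN0, hN⟩ : ∃ N : ℕ, 0 < N ∧ ∀ t, ∃ z : ℤ, (N : ℚ) * y t = z := by
      refine ⟨∏ t, (y t).den, Finset.prod_pos (fun t _ => (y t).den_pos), fun t => ?_⟩
      refine ⟨(∏ t' ∈ Finset.univ.erase t, ((y t').den : ℤ)) * (y t).num, ?_⟩
      rw [← Finset.mul_prod_erase Finset.univ (fun t => (y t).den) (Finset.mem_univ t)]
      push_cast
      have h1 : ((y t).den : ℚ) * y t = (y t).num := by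
        rw [mul_comm]
        exact Rat.mul_den_eq_num (y t)
      rw [mul_assoc, mul_comm (∏ t' ∈ Finset.univ.erase t, ((y t').den : ℚ)) (y t), ← mul_assoc, h1,
        mul_comm]
    choose z hz using hN
    have hzX : (fun t => (z t : ℝ)) = (N : ℝ) • X (fun j => (a j : ℝ)) := by
      funext t
      rw [Pi.smul_apply, smul_eq_mul, hy t]
      have := hz t
      exact_mod_cast this.symm
    have hN0' : (0 : ℝ) < N := by exact_mod_cast hN0
    have h1 := hpos z (by
      intro h
      apply ha0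
      have h2 : (N : ℝ) • X (fun j => (a j : ℝ)) = 0 := by
        rw [← hzX, h]
        funext t
        simp
      rcases smul_eq_zero.mp h2 with h3 | h3
      · exact absurd h3 hN0'.ne'
      · exact h3) (by
      intro d hd
      have h2 : (0 : ℝ) ≤ ∑ t, (z t : ℝ) * (d t : ℝ) := by
        have h3 : ∑ t, (z t : ℝ) * (d t : ℝ) = N * ∑ t, X (fun j => (a j : ℝ)) t * (d t : ℝ) := by
          rw [Finset.mul_sum]
          refine Finset.sum_congr rfl (fun t _ => ?_)
          rw [congrFun hzX t, Pi.smul_apply, smul_eq_mul, mul_assoc]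
        rw [h3]
        exact mul_nonneg hN0'.le (haD d hd)
      exact_mod_cast h2)
    have h2 : 0 < qR (fun t v => (c t v : ℝ)) (fun t => (z t : ℝ)) := by
      change (0 : ℝ) < ∑ t, ∑ v, (z t : ℝ) * (z v : ℝ) * (c t v : ℝ)
      exact_mod_cast h1
    rw [hzX, qR_smul] at h2
    exact (pos_iff_pos_of_mul_pos h2).mp (by positivity)
  obtain ⟨V, hVsub, hVopen, hVβ⟩ := eventually_nhds_iff.mp hnear |>.imp (fun V h => h)
  have hdense : DenseRange (fun a : Fin m → ℚ => (fun j => (a j : ℝ))) :=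
    DenseRange.piMap (fun _ => Rat.denseRange_cast)
  have hcont : Continuous (fun r : Fin m → ℝ => qR (fun i j => (B i j : ℝ)) r) :=
    qR_continuous _
  have hge : ∀ r ∈ V, 0 ≤ qR (fun i j => (B i j : ℝ)) r := by
    intro r hr
    by_contra hneg
    push Not at hneg
    have hopen : IsOpen (V ∩ {r | qR (fun i j => (B i j : ℝ)) r < 0}) :=
      hVopen.inter (isOpen_lt hcont continuous_const)
    obtain ⟨a, ha⟩ := hdense.exists_mem_open hopen ⟨r, hr, hneg⟩
    have h1 := hVsub _ ha.1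
    have h2 := hrat a h1.1 h1.2
    have h3 : qR (fun i j => (B i j : ℝ)) (fun j => (a j : ℝ)) < 0 := ha.2
    rw [hqB] at h3
    linarith
  have hev : ∀ᶠ r in 𝓝 β, 0 ≤ qR (fun i j => (B i j : ℝ)) r := by
    filter_upwards [hVopen.mem_nhds hVβ] with r hr
    exact hge r hr
  have hβ0 : qR (fun i j => (B i j : ℝ)) β = 0 := by
    have h1 := hge β hVβ
    have h2 : qR (fun i j => (B i j : ℝ)) β ≤ 0 := by
      rw [hqB, hXβ]
      exact hcon
    exact le_antisymm h2 h1
  obtain ⟨a, ha⟩ := hdense.exists_mem_open hVopen ⟨β, hVβ⟩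
  have h1 := hVsub _ ha
  have h2 := hrat a h1.1 h1.2
  have h3 := quad_zero β hβ B hev hβ0 (fun j => (a j : ℝ))
  rw [hqB] at h3
  linarith

/-- the uniform bound -/
theorem geom (D : Finset (T → ℤ)) (c : T → T → ℤ)
    (hpos : ∀ z : T → ℤ, z ≠ 0 → (∀ d ∈ D, 0 ≤ ∑ t, z t * d t) →
      0 < ∑ t, ∑ u, z t * z u * c t u) :
    ∃ ε : ℝ, 0 < ε ∧ ∀ z : T → ℤ, (∀ d ∈ D, 0 ≤ ∑ t, z t * d t) →
      ε * ‖(fun t => (z t : ℝ))‖ ^ 2 ≤ ((∑ t, ∑ u, z t * z u * c t u : ℤ) : ℝ) := by
  classical
  let K : Set (T → ℝ) := Metric.sphere 0 1 ∩ {x | ∀ d ∈ D, 0 ≤ ∑ t, x t * (d t : ℝ)}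
  have hKc : IsCompact K := by
    refine (isCompact_sphere _ _).inter_right ?_
    have h1 : {x : T → ℝ | ∀ d ∈ D, 0 ≤ ∑ t, x t * (d t : ℝ)} =
        ⋂ d ∈ D, {x : T → ℝ | 0 ≤ ∑ t, x t * (d t : ℝ)} := by
      ext x
      simp
    rw [h1]
    refine isClosed_biInter (fun d _ => ?_)
    exact isClosed_le continuous_const (by fun_prop)
  have hq : ∀ z : T → ℤ, qR (fun t u => (c t u : ℝ)) (fun t => (z t : ℝ)) =
      ((∑ t, ∑ u, z t * z u * c t u : ℤ) : ℝ) := by
    intro z
    unfold qR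
    push_cast
    rfl
  have hnorm : ∀ z : T → ℤ, z ≠ 0 → (∀ d ∈ D, 0 ≤ ∑ t, z t * d t) →
      0 < ‖(fun t => (z t : ℝ))‖ ∧ (‖(fun t => (z t : ℝ))‖⁻¹ • (fun t => (z t : ℝ))) ∈ K := by
    intro z hz hzD
    have h1 : (fun t => (z t : ℝ)) ≠ 0 := by
      intro h
      apply hz
      funext t
      have h10 := congrFun h t
      change (z t : ℝ) = 0 at h10
      exact_mod_cast h10
    have h2 : 0 < ‖(fun t => (z t : ℝ))‖ := norm_pos_iff.mpr h1
    refine ⟨h2, ?_, ?_⟩
    · rw [mem_sphere_zero_iff_norm, norm_smul, norm_inv, norm_norm]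
      exact inv_mul_cancel₀ h2.ne'
    · intro d hd
      have h3 : ∑ t, (‖(fun t => (z t : ℝ))‖⁻¹ • (fun t => (z t : ℝ))) t * (d t : ℝ) =
          ‖(fun t => (z t : ℝ))‖⁻¹ * ∑ t, (z t : ℝ) * (d t : ℝ) := by
        rw [Finset.mul_sum]
        refine Finset.sum_congr rfl (fun t _ => ?_)
        rw [Pi.smul_apply, smul_eq_mul, mul_assoc]
      rw [h3]
      have h4 : (0 : ℝ) ≤ ∑ t, (z t : ℝ) * (d t : ℝ) := by
        have := hzD d hd
        exact_mod_cast this
      positivity
  rcases K.eq_empty_or_nonempty with hK | hK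
  · refine ⟨1, one_pos, ?_⟩
    intro z hzD
    by_cases hz : z = 0
    · subst hz
      simp
      rfl
    · have h1 := (hnorm z hz hzD).2
      rw [hK] at h1
      exact absurd h1 (Set.notMem_empty _)
  · obtain ⟨ξ, hξK, hξ⟩ := hKc.exists_isMinOn hK (qR_continuous (fun t u => (c t u : ℝ))).continuousOn
    have hξ0 : ξ ≠ 0 := by
      intro h
      have h1 : ‖ξ‖ = 1 := mem_sphere_zero_iff_norm.mp hξK.1
      rw [h, norm_zero] at h1
      exact zero_ne_one h1
    have hpos' := qR_pos D c hpos ξ hξ0 hξK.2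
    refine ⟨qR (fun t u => (c t u : ℝ)) ξ, hpos', ?_⟩
    intro z hzD
    by_cases hz : z = 0
    · subst hz
      simp
      have h10 : ‖(fun _ : T => (0 : ℝ))‖ = 0 := norm_zero
      rw [h10]
      norm_num
    · obtain ⟨h1, h2⟩ := hnorm z hz hzD
      have h3 := isMinOn_iff.mp hξ _ h2
      rw [qR_smul] at h3
      rw [← hq]
      have h4 : qR (fun t u => (c t u : ℝ)) ξ * ‖(fun t => (z t : ℝ))‖ ^ 2 ≤
          (‖(fun t => (z t : ℝ))‖⁻¹ ^ 2 * qR (fun t u => (c t u : ℝ)) (fun t => (z t : ℝ))) *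
            ‖(fun t => (z t : ℝ))‖ ^ 2 := mul_le_mul_of_nonneg_right h3 (sq_nonneg _)
      have h5 : (‖(fun t => (z t : ℝ))‖⁻¹ ^ 2 * qR (fun t u => (c t u : ℝ)) (fun t => (z t : ℝ))) *
            ‖(fun t => (z t : ℝ))‖ ^ 2 = qR (fun t u => (c t u : ℝ)) (fun t => (z t : ℝ)) := by
        field_simp
      rw [h5] at h4
      exact h4

end geo

end BT
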