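import Mathlib
import Pool.Agent.Helper16.BT.RankTwo

/-!
The injective modules `D(eA)` and injectivity of presentations.
-/

namespace BT

open Module Function

section inj

variable (k A : Type) [Field k] [Ring A] [Algebra k A]

/-- the dual of the regular module -/
def DAm : Type := A →ₗ[k] k

instance : AddCommGroup (DAm k A) := inferInstanceAs (AddCommGroup (A →ₗ[k] k))
instance : Module k (DAm k A) := inferInstanceAs (Module k (A →ₗ[k] k))

variable {k A}

/-- evaluation -/
def DAm.ev (φ : DAm k A) : A →ₗ[k] k := φ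

/-- constructor -/
def DAm.of (φ : A →ₗ[k] k) : DAm k A := φ

theorem DAm.of_ev (φ : A →ₗ[k] k) : (DAm.of φ).ev = φ := rfl

theorem DAm.ext {φ ψ : DAm k A} (h : ∀ b, φ.ev b = ψ.ev b) : φ = ψ := LinearMap.ext h

instance : SMul A (DAm k A) := ⟨fun a φ => DAm.of (φ.ev ∘ₗ LinearMap.mulRight k a)⟩

theorem DAm.smul_ev (a : A) (φ : DAm k A) (b : A) : (a • φ).ev b = φ.ev (b * a) := rfl
theorem DAm.add_ev (φ ψ : DAm k A) (b : A) : (φ + ψ).ev b = φ.ev b + ψ.ev b := rfl
theorem DAm.ksmul_ev (c : k) (φ : DAm k A) (b : A) : (c • φ).ev b = c * φ.ev b := rfl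
theorem DAm.zero_ev (b : A) : (0 : DAm k A).ev b = 0 := rfl

instance : Module A (DAm k A) where
  one_smul φ := DAm.ext (fun b => by rw [DAm.smul_ev, mul_one])
  mul_smul a a' φ := DAm.ext (fun b => by
    rw [DAm.smul_ev, DAm.smul_ev, DAm.smul_ev, mul_assoc])
  smul_zero a := DAm.ext (fun b => rfl)
  smul_add a φ φ' := DAm.ext (fun b => rfl)
  add_smul a a' φ := DAm.ext (fun b => by
    rw [DAm.smul_ev, DAm.add_ev, DAm.smul_ev, DAm.smul_ev, mul_add, map_add])
  zero_smul φ := DAm.ext (fun b => by
    rw [DAm.smul_ev, mul_zero, map_zero, DAm.zero_ev])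

instance : IsScalarTower k A (DAm k A) := ⟨fun c a φ => DAm.ext (fun b => by
  rw [DAm.smul_ev, DAm.ksmul_ev, DAm.smul_ev, mul_smul_comm, map_smul, smul_eq_mul])⟩

instance [Module.Finite k A] : Module.Finite k (DAm k A) :=
  inferInstanceAs (Module.Finite k (A →ₗ[k] k))

/-- the injective module `D(eA)` -/
def IE (k : Type) {A : Type} [Field k] [Ring A] [Algebra k A] (e : A) : Submodule A (DAm k A) where
  carrier := {φ | ∀ b, φ.ev (e * b) = φ.ev b}
  add_mem' := fun {φ ψ} h h' b => by
    rw [DAm.add_ev, DAm.add_ev, h b, h' b]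
  zero_mem' := fun b => rfl
  smul_mem' := fun a φ h b => by
    rw [DAm.smul_ev, DAm.smul_ev, mul_assoc, h]

instance [Module.Finite k A] (e : A) : Module.Finite k (IE k e) :=
  Module.Finite.of_injective ((IE k e).subtype.restrictScalars k) Subtype.val_injective

variable {X : Type} [AddCommGroup X] [Module A X] [Module k X] [IsScalarTower k A X]

/-- a functional gives a homomorphism -/
def ofFun {e : A} (he : IsIdempotentElem e) (μ : X →ₗ[k] k) : X →ₗ[A] IE k e where
  toFun x := ⟨(μ ∘ₗ DistribMulAction.toLinearMap k X e) ∘ₗ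
    (LinearMap.toSpanSingleton A X x).restrictScalars k, fun b => by
      change μ (e • ((e * b) • x)) = μ (e • (b • x))
      rw [smul_smul, smul_smul, ← mul_assoc, he.eq]⟩
  map_add' x y := Subtype.ext (DAm.ext (fun b => by
    change μ (e • (b • (x + y))) = μ (e • (b • x)) + μ (e • (b • y))
    rw [smul_add, smul_add, map_add]))
  map_smul' a x := Subtype.ext (DAm.ext (fun b => by
    rw [RingHom.id_apply, Submodule.coe_smul, DAm.smul_ev]
    change μ (e • (b • (a • x))) = μ (e • ((b * a) • x))
    rw [smul_smul b a x]))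

theorem ofFun_ev {e : A} (he : IsIdempotentElem e) (μ : X →ₗ[k] k) (x : X) (b : A) :
    (ofFun he μ x).1.ev b = μ (e • (b • x)) := rfl

/-- `Hom(X, D(eA)) = D(eX)` -/
noncomputable def homIE {e : A} (he : IsIdempotentElem e) :
    (X →ₗ[A] IE k e) ≃ₗ[k]
      Module.Dual k (LinearMap.range (DistribMulAction.toLinearMap k X e)) where
  toFun h :=
    { toFun := fun y => (h (y : X)).1.ev 1
      map_add' := fun y z => by
        rw [Submodule.coe_add, map_add]
        rfl
      map_smul' := fun c y => by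
        rw [Submodule.coe_smul, ← algebraMap_smul A c (y : X), map_smul]
        change ((algebraMap k A c) • (h (y : X)).1).ev 1 = c * (h (y : X)).1.ev 1
        rw [algebraMap_smul, DAm.ksmul_ev] }
  map_add' h h' := LinearMap.ext (fun y => rfl)
  map_smul' c h := LinearMap.ext (fun y => rfl)
  invFun l := ofFun he (l ∘ₗ (DistribMulAction.toLinearMap k X e).rangeRestrict)
  left_inv h := by
    ext x
    refine DAm.ext (fun b => ?_)
    change (h (e • (e • (b • x)))).1.ev 1 = (h x).1.ev b
    rw [smul_smul, he.eq, smul_smul, map_smul]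
    change ((e * b) • (h x).1).ev 1 = _
    rw [DAm.smul_ev, one_mul, (h x).2 b]
  right_inv l := by
    ext y
    change l _ = l y
    congr 1
    apply Subtype.ext
    change e • (e • ((1 : A) • (y : X))) = y
    rw [one_smul, smul_smul, he.eq]
    exact (mem_range_e he (y : X)).mp y.2

theorem hd_IE [Module.Finite k X] {e : A} (he : IsIdempotentElem e) :
    hd k A X (IE k e) = ed k e X := by
  rw [hd, (homIE (k := k) (X := X) he).finrank_eq, Subspace.dual_finrank_eq, ed]

variable {P Q : Type} [AddCommGroup P] [Module A P] [Module k P] [IsScalarTower k A P]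
  [AddCommGroup Q] [Module A Q] [Module k Q] [IsScalarTower k A Q]

theorem E0_IE {e : A} (he : IsIdempotentElem e) {f : P →ₗ[A] Q} (hf : Injective f) :
    E0 f (IE k e) := by
  intro φ
  obtain ⟨ρ, hρ⟩ := (f.restrictScalars k).exists_leftInverse_of_injective
    (LinearMap.ker_eq_bot.mpr hf)
  let μ0 : P →ₗ[k] k :=
    { toFun := fun p => (φ p).1.ev 1
      map_add' := fun y z => by
        rw [map_add]
        rfl
      map_smul' := fun c y => by
        rw [← algebraMap_smul A c y, map_smul]
        change ((algebraMap k A c) • (φ y).1).ev 1 = c * (φ y).1.ev 1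
        rw [algebraMap_smul, DAm.ksmul_ev] }
  refine ⟨ofFun he (μ0 ∘ₗ ρ), ?_⟩
  ext p
  refine DAm.ext (fun b => ?_)
  change (φ p).1.ev b = (φ (ρ (e • (b • f p)))).1.ev 1
  rw [← map_smul, ← map_smul]
  have h1 : ρ (f (e • (b • p))) = e • (b • p) := LinearMap.congr_fun hρ (e • (b • p))
  rw [h1, smul_smul, map_smul]
  change _ = ((e * b) • (φ p).1).ev 1
  rw [DAm.smul_ev, one_mul, (φ p).2 b]

theorem inj_of_E0 {f : P →ₗ[A] Q} (h : E0 f (IE k (1 : A))) : Injective f := by
  rw [injective_iff_map_eq_zero]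
  intro p hp
  rw [← Module.forall_dual_apply_eq_zero_iff k p]
  intro μ
  obtain ⟨ψ, hψ⟩ := h (ofFun (IsIdempotentElem.one (M := A)) μ)
  have h1 := LinearMap.congr_fun hψ p
  rw [LinearMap.comp_apply, hp, map_zero] at h1
  have h2 := ofFun_ev (IsIdempotentElem.one (M := A)) μ p 1
  rw [h1] at h2
  rw [one_smul, one_smul] at h2
  exact h2.symm

end inj

end BT
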