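import Mathlib
import Pool.Agent.Helper16.BT.Inj

/-!
Dimensions of cokernels of rigid maps as maxima of weights.
-/

namespace BT

open Module Function

section gr

variable {k A : Type} [Field k] [Ring A] [Algebra k A]
variable {P Q : Type} [AddCommGroup P] [Module A P] [Module k P] [IsScalarTower k A P]
  [Module.Finite k P]
variable [AddCommGroup Q] [Module A Q] [Module k Q] [IsScalarTower k A Q] [Module.Finite k Q]
variable {X : Type} [AddCommGroup X] [Module A X] [Module k X] [IsScalarTower k A X]
  [Module.Finite k X]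

/-- maps from the cokernel are the maps killed by `f` -/
def cokHom (k : Type) [Field k] [Algebra k A] (f : P →ₗ[A] Q) (X : Type) [AddCommGroup X]
    [Module A X] [Module k X] [IsScalarTower k A X] :
    ((Q ⧸ LinearMap.range f) →ₗ[A] X) ≃ₗ[k] LinearMap.ker (pre k f X) where
  toFun h := ⟨h ∘ₗ (LinearMap.range f).mkQ, by
    rw [LinearMap.mem_ker, pre_apply, LinearMap.comp_assoc, mkQ_comp, LinearMap.comp_zero]⟩
  map_add' _ _ := rfl
  map_smul' _ _ := rfl
  invFun h := (LinearMap.range f).liftQ h.1 (by
    rintro _ ⟨x, rfl⟩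
    exact LinearMap.congr_fun h.2 x)
  left_inv h := by
    ext x
    rfl
  right_inv h := by
    refine Subtype.ext ?_
    ext x
    rfl

theorem hd_coker (f : P →ₗ[A] Q) :
    hd k A (Q ⧸ LinearMap.range f) X = finrank k (LinearMap.ker (pre k f X)) :=
  (cokHom k f X).finrank_eq

/-- the Euler form inequality -/
theorem Th_le (f : P →ₗ[A] Q) :
    Th k A P Q X ≤ (hd k A (Q ⧸ LinearMap.range f) X : ℤ) := by
  have _ := finite_hom (k := k) (A := A) (P := P) (X := X)
  have _ := finite_hom (k := k) (A := A) (P := Q) (X := X)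
  have h1 := LinearMap.finrank_range_add_finrank_ker (pre k f X)
  have h2 := Submodule.finrank_le (LinearMap.range (pre k f X))
  rw [Th, hd_coker, hd, hd]
  omega

/-- the Euler form equality -/
theorem Th_eq {f : P →ₗ[A] Q} (h : E0 f X) :
    Th k A P Q X = (hd k A (Q ⧸ LinearMap.range f) X : ℤ) := by
  have _ := finite_hom (k := k) (A := A) (P := P) (X := X)
  have _ := finite_hom (k := k) (A := A) (P := Q) (X := X)
  have h1 := LinearMap.finrank_range_add_finrank_ker (pre k f X)
  have h2 : LinearMap.range (pre k f X) = ⊤ := by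
    rw [LinearMap.range_eq_top]
    intro φ
    obtain ⟨ψ, hψ⟩ := h φ
    exact ⟨ψ, hψ.symm⟩
  rw [h2, finrank_top] at h1
  rw [Th, hd_coker, hd, hd]
  omega

/-- equality in the Euler form inequality -/
theorem E0_of_Th {f : P →ₗ[A] Q}
    (h : (hd k A (Q ⧸ LinearMap.range f) X : ℤ) ≤ Th k A P Q X) : E0 f X := by
  have _ := finite_hom (k := k) (A := A) (P := P) (X := X)
  have _ := finite_hom (k := k) (A := A) (P := Q) (X := X)
  have h1 := LinearMap.finrank_range_add_finrank_ker (pre k f X)
  have h2 := Submodule.finrank_le (LinearMap.range (pre k f X))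
  rw [Th, hd_coker, hd, hd] at h
  have h3 : LinearMap.range (pre k f X) = ⊤ := by
    apply Submodule.eq_top_of_finrank_eq
    omega
  intro φ
  obtain ⟨ψ, hψ⟩ := LinearMap.range_eq_top.mp h3 φ
  exact ⟨ψ, hψ.symm⟩

theorem hd_sub_le (U : Submodule A X) : hd k A Q U ≤ hd k A Q X := by
  have _ := finite_hom (k := k) (A := A) (P := Q) (X := X)
  have h5 : Injective (post k Q U.subtype) := by
    intro g g' h
    ext x
    exact congrArg Subtype.val (Subtype.ext (LinearMap.congr_fun h x))
  exact LinearMap.finrank_le_finrank_of_injective h5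

theorem finC (f : P →ₗ[A] Q) : Module.Finite k (Q ⧸ LinearMap.range f) :=
  finite_quot (LinearMap.range f)

theorem finU (U : Submodule A X) : Module.Finite k U :=
  Module.Finite.of_injective (U.subtype.restrictScalars k) (Subtype.val_injective)

/-- the lower bound -/
theorem Th_sub_le (f : P →ₗ[A] Q) (U : Submodule A X) :
    Th k A P Q U ≤ (hd k A (Q ⧸ LinearMap.range f) X : ℤ) := by
  have _ := finC (k := k) f
  have _ := finU (k := k) U
  refine le_trans (Th_le (k := k) f) ?_
  exact_mod_cast hd_sub_le (k := k) (Q := Q ⧸ LinearMap.range f) U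

/-- the cokernel without obstruction gives a rigid map -/
theorem rigid_of_E0 [Module.Projective A P] [Module.Projective A Q] {f : P →ₗ[A] Q}
    (h : E0 f (Q ⧸ LinearMap.range f)) : Rigid f := by
  intro g
  obtain ⟨ψ, hψ⟩ := h ((LinearMap.range f).mkQ ∘ₗ g)
  obtain ⟨u, hu⟩ := Module.projective_lifting_property (LinearMap.range f).mkQ ψ
    (Submodule.mkQ_surjective _)
  have h1 : ∀ x, (g - u ∘ₗ f) x ∈ LinearMap.range f := by
    intro x
    rw [← Submodule.Quotient.mk_eq_zero (LinearMap.range f)]
    have h2 := LinearMap.congr_fun hψ x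
    have h3 := LinearMap.congr_fun hu (f x)
    change (LinearMap.range f).mkQ (g x) = ψ (f x) at h2
    change (LinearMap.range f).mkQ (u (f x)) = ψ (f x) at h3
    change (LinearMap.range f).mkQ (g x - u (f x)) = 0
    rw [map_sub, h2, h3, sub_self]
  obtain ⟨v, hv⟩ := Module.projective_lifting_property f.rangeRestrict
    ((g - u ∘ₗ f).codRestrict _ h1) f.surjective_rangeRestrict
  refine ⟨u, v, ?_⟩
  ext x
  have h2 := congrArg Subtype.val (LinearMap.congr_fun hv x)
  change f (v x) = g x - u (f x) at h2
  change g x = u (f x) + f (v x)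
  rw [h2, add_sub_cancel]

/-- the upper bound is attained for rigid maps -/
theorem exists_attain [Module.Projective A P] [Module.Projective A Q] {f : P →ₗ[A] Q}
    (hf : Rigid f) : ∃ U : Submodule A X,
      Th k A P Q U = (hd k A (Q ⧸ LinearMap.range f) X : ℤ) := by
  obtain ⟨m, H, h1, h2⟩ := exists_trace k hf X
  let U := LinearMap.range H
  have hU0 : E0 f U := (hf.E0_coker.pi (ι := Fin m)).quot H.rangeRestrict H.surjective_rangeRestrict
  have _ := finC (k := k) f
  have _ : Module.Finite k U := finU (k := k) U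
  refine ⟨U, ?_⟩
  rw [Th_eq (k := k) hU0]
  have h3 : hd k A (Q ⧸ LinearMap.range f) X ≤ hd k A (Q ⧸ LinearMap.range f) U := by
    have _ := finite_hom (k := k) (A := A) (P := Q ⧸ LinearMap.range f) (X := U)
    let F : ((Q ⧸ LinearMap.range f) →ₗ[A] X) →ₗ[k] ((Q ⧸ LinearMap.range f) →ₗ[A] U) :=
      { toFun := fun h => h.codRestrict U (h2 h)
        map_add' := fun _ _ => rfl
        map_smul' := fun _ _ => rfl }
    have hF : Injective F := by
      intro g g' h
      ext x
      exact congrArg Subtype.val (LinearMap.congr_fun h ((LinearMap.range f).mkQ x))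
    exact LinearMap.finrank_le_finrank_of_injective hF
  have h4 := hd_sub_le (k := k) (Q := Q ⧸ LinearMap.range f) U
  exact_mod_cast le_antisymm h4 h3

end gr

end BT
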