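import Mathlib
import Pool.Agent.Helper16.BT.GrowA
import Pool.Agent.Helper16.BT.Geo

/-!
Weights, submodules of the injective modules and the quadratic form.
-/

namespace BT

open Module Function

section dat

variable {k A : Type} [Field k] [Ring A] [Algebra k A] [Module.Finite k A]
  {ι : Type} [Fintype ι] {s : ℕ}
variable (D : Dat k A ι s)

/-- evaluation of a weight -/
def evw {s : ℕ} (z : Fin s → ℤ) (u : Fin s → ℕ) : ℤ := ∑ t, z t * (u t : ℤ)

/-- dimension vectors of the submodules of `D(e_i A)` -/
def Dat.SS (i : ι) : Set (Fin s → ℕ) :=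
  {u | ∃ U : Submodule A (IE k (D.e i)), ∀ t, u t = ed k (D.e (D.r t)) U}

theorem ed_le (e : A) (X : Type) [AddCommGroup X] [Module A X] [Module k X]
    [IsScalarTower k A X] [Module.Finite k X] : ed k e X ≤ finrank k X :=
  Submodule.finrank_le _

theorem finrank_sub_le {X : Type} [AddCommGroup X] [Module A X] [Module k X]
    [IsScalarTower k A X] [Module.Finite k X] (U : Submodule A X) : finrank k U ≤ finrank k X :=
  LinearMap.finrank_le_finrank_of_injective (f := U.subtype.restrictScalars k)
    Subtype.val_injective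

theorem Dat.SS_finite (i : ι) : (D.SS i).Finite := by
  refine (Set.Finite.pi' (fun _ : Fin s => Set.finite_Iic (finrank k (IE k (D.e i))))).subset ?_
  rintro u ⟨U, hU⟩ t
  have _ := finU (k := k) U
  rw [hU t]
  exact (ed_le (k := k) _ U).trans (finrank_sub_le (k := k) U)

/-- `z` is the weight of the presentation space -/
def Dat.Wz (D : Dat k A ι s) (P Q : Type) [AddCommGroup P] [Module A P] [AddCommGroup Q]
    [Module A Q] (z : Fin s → ℤ) : Prop :=
  ∀ (X : Type) [AddCommGroup X] [Module A X] [Module k X] [IsScalarTower k A X]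
    [Module.Finite k X], Th k A P Q X = ∑ t, z t * (ed k (D.e (D.r t)) X : ℤ)

variable {P Q : Type} [AddCommGroup P] [Module A P] [Module k P] [IsScalarTower k A P]
  [Module.Finite k P]
variable [AddCommGroup Q] [Module A Q] [Module k Q] [IsScalarTower k A Q] [Module.Finite k Q]

theorem hd_le_mul (X : Type) [AddCommGroup X] [Module A X] [Module k X]
    [IsScalarTower k A X] [Module.Finite k X] : hd k A P X ≤ finrank k P * finrank k X := by
  let r : (P →ₗ[A] X) →ₗ[k] (P →ₗ[k] X) :=
    { toFun := fun f => f.restrictScalars k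
      map_add' := fun _ _ => rfl
      map_smul' := fun _ _ => rfl }
  have h1 : Injective r := fun f g h => by
    ext x
    exact LinearMap.congr_fun h x
  have h2 := LinearMap.finrank_le_finrank_of_injective h1
  have h3 : finrank k (P →ₗ[k] X) = finrank k P * finrank k X := Module.finrank_linearMap k k P X
  rw [h3] at h2
  exact h2

theorem finrank_simple_le (X : Type) [AddCommGroup X] [Module A X] [Module k X]
    [IsScalarTower k A X] [IsSimpleModule A X] : finrank k X ≤ finrank k A := by
  have hn : Nontrivial X := IsSimpleModule.nontrivial A X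
  obtain ⟨x, hx⟩ := exists_ne (0 : X)
  have h1 : Surjective ((LinearMap.toSpanSingleton A X x).restrictScalars k) := by
    intro y
    obtain ⟨a, ha⟩ := simple_gen (A := A) hx y
    exact ⟨a, ha⟩
  exact LinearMap.finrank_le_finrank_of_surjective h1

/-- bounded weights -/
theorem Dat.weight_bd [Module.Projective A P] [Module.Projective A Q] :
    ∃ z : Fin s → ℤ, D.Wz P Q z ∧
      ∀ t, |z t| ≤ (finrank k A : ℤ) * (finrank k P + finrank k Q) := by
  classical
  obtain ⟨z, hz⟩ := D.weight' P Q
  refine ⟨fun t => if D.e (D.r t) = 0 then 0 else z t, ?_, ?_⟩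
  · intro X _ _ _ _ _
    rw [hz X]
    refine Finset.sum_congr rfl (fun t _ => ?_)
    change _ = (if D.e (D.r t) = 0 then 0 else z t) * _
    by_cases h : D.e (D.r t) = 0
    · rw [if_pos h, h]
      rw [ed_zero_elt X]
      simp
    · rw [if_neg h]
  · intro t
    change |if D.e (D.r t) = 0 then 0 else z t| ≤ _
    by_cases h : D.e (D.r t) = 0
    · rw [if_pos h, abs_zero]
      positivity
    · rw [if_neg h]
      obtain ⟨S, hS, x, hx⟩ := D.exists_simple t h
      have h1 := hz S.X
      rw [Finset.sum_eq_single t] at h1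
      · rw [D.ed_one hx] at h1
        have h2 := hd_le_mul (k := k) (A := A) (P := P) S.X
        have h3 := hd_le_mul (k := k) (A := A) (P := Q) S.X
        have h4 := finrank_simple_le (k := k) (A := A) S.X
        have h5 : hd k A P S.X ≤ finrank k P * finrank k A :=
          h2.trans (Nat.mul_le_mul_left _ h4)
        have h6 : hd k A Q S.X ≤ finrank k Q * finrank k A :=
          h3.trans (Nat.mul_le_mul_left _ h4)
        rw [Th] at h1
        have h7 : z t = (hd k A Q S.X : ℤ) - (hd k A P S.X : ℤ) := by
          rw [h1]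
          push_cast
          ring
        rw [h7, abs_le]
        have h5' : (hd k A P S.X : ℤ) ≤ finrank k P * finrank k A := by exact_mod_cast h5
        have h6' : (hd k A Q S.X : ℤ) ≤ finrank k Q * finrank k A := by exact_mod_cast h6
        constructor <;> nlinarith
      · intro t' _ ht'
        have h0 : ∀ y : S.X, D.e (D.r t') • y = 0 := by
          intro y
          by_contra hy
          exact ht' (D.class_unique hx hy).symm
        rw [D.ed_zero h0]
        simp
      · simp

/-- the lower bound for the dimensions of the cokernel -/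
theorem Dat.ed_lower (f : P →ₗ[A] Q) {z : Fin s → ℤ} (hz : D.Wz P Q z) (i : ι)
    {u : Fin s → ℕ} (hu : u ∈ D.SS i) :
    evw z u ≤ (ed k (D.e i) (Q ⧸ LinearMap.range f) : ℤ) := by
  obtain ⟨U, hU⟩ := hu
  have _ := finC (k := k) f
  have _ := finU (k := k) U
  rw [← hd_IE (k := k) (D.he.idem i)]
  have h1 := Th_sub_le (k := k) f U
  rw [hz U] at h1
  refine le_trans (le_of_eq ?_) h1
  exact Finset.sum_congr rfl (fun t _ => by rw [hU t])

/-- admissible presentations -/
def Adm (f : P →ₗ[A] Q) : Prop := Injective f ∨ E0 f (Q ⧸ LinearMap.range f)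

/-- the bound is attained -/
theorem Dat.ed_attain [Module.Projective A P] [Module.Projective A Q] {f : P →ₗ[A] Q}
    (hf : Adm f) {z : Fin s → ℤ} (hz : D.Wz P Q z) (i : ι) :
    ∃ u ∈ D.SS i, evw z u = (ed k (D.e i) (Q ⧸ LinearMap.range f) : ℤ) := by
  have _ := finC (k := k) f
  rcases hf with hf | hf
  · refine ⟨fun t => ed k (D.e (D.r t)) (⊤ : Submodule A (IE k (D.e i))), ⟨⊤, fun t => rfl⟩, ?_⟩
    have _ := finU (k := k) (⊤ : Submodule A (IE k (D.e i)))
    have h1 := hz (⊤ : Submodule A (IE k (D.e i)))
    rw [Th_congr (k := k) (P := P) (Q := Q) (Submodule.topEquiv : _ ≃ₗ[A] IE k (D.e i)), Th,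
      hd_IE (k := k) (D.he.idem i), hd_IE (k := k) (D.he.idem i)] at h1
    have h2 := ed_ses (k := k) (D.he.idem i) f (LinearMap.range f).mkQ hf
      (Submodule.mkQ_surjective _) (Submodule.ker_mkQ _).symm
    rw [evw, ← h1]
    omega
  · obtain ⟨U, hU⟩ := exists_attain (k := k) (X := IE k (D.e i)) (rigid_of_E0 hf)
    refine ⟨fun t => ed k (D.e (D.r t)) U, ⟨U, fun t => rfl⟩, ?_⟩
    have _ := finU (k := k) U
    rw [hz U, hd_IE (k := k) (D.he.idem i)] at hU
    exact hU

end dat

end BT
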