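import Mathlib
import Pool.Agent.Helper16.BT.GrowB
import Pool.Agent.Helper16.BT.Backward

/-!
Quadratic growth of the endomorphism rings when every presentation space has a rigid point.
-/

namespace BT

open Module Function

section pp

variable {k A : Type} [Field k] [Ring A] [Algebra k A] [Module.Finite k A]
  {ι : Type} [Fintype ι] {s : ℕ}

/-- every presentation space has a rigid point -/
def NR (A : Type) [Ring A] : Prop :=
  ∀ (P Q : Type) [AddCommGroup P] [Module A P] [Module.Finite A P] [Module.Projective A P]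
    [AddCommGroup Q] [Module A Q] [Module.Finite A Q] [Module.Projective A Q],
    ∃ f : P →ₗ[A] Q, Rigid f

theorem nr_of (k : Type) [Field k] [IsAlgClosed k] (A : Type) [Ring A] [Algebra k A]
    [Module.Finite k A] (h : ¬ HasStableFamily k A) : NR A := by
  intro P Q _ _ _ _ _ _ _ _
  by_contra hcon
  push Not at hcon
  exact h (forward k A P Q hcon)

theorem hd_PP {n : ℕ} {e : Fin n → A} (he : ∀ i, IsIdempotentElem (e i)) (c : Fin n → ℕ)
    (X : Type) [AddCommGroup X] [Module A X] [Module k X]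
    [IsScalarTower k A X] [Module.Finite k X] :
    hd k A (PP e c) X = ∑ i, c i * ed k (e i) X := by
  have hfe : ∀ i, Module.Finite A (Pe (e i)) := fun i => finite_Pe (e i)
  have hfk : ∀ i, Module.Finite k (Pe (e i)) := fun i => Module.Finite.trans A (Pe (e i))
  rw [hd_pi (k := k) (A := A) (fun p : (Σ i : Fin n, Fin (c i)) => Pe (e p.1)) X,
    Fintype.sum_sigma]
  refine Finset.sum_congr rfl (fun i _ => ?_)
  simp only [hd_Pe (k := k) (he i), Finset.sum_const, Finset.card_univ, Fintype.card_fin,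
    smul_eq_mul]

variable (D : Dat k A ι s)

/-- rigid presentations of every weight -/
theorem Dat.exists_rigid (hR : NR A) (z : Fin s → ℤ) : ∃ X : Pr k A, D.Wz X.P X.Q z := by
  have hi : ∀ t, IsIdempotentElem ((D.e ∘ D.r) t) := fun t => D.he.idem _
  have hpe : ∀ t, Module.Projective A (Pe ((D.e ∘ D.r) t)) := fun t => projective_Pe (hi t)
  have hfe : ∀ t, Module.Finite A (Pe ((D.e ∘ D.r) t)) := fun t => finite_Pe _
  have hfk : ∀ t, Module.Finite k (Pe ((D.e ∘ D.r) t)) := fun t => Module.Finite.trans A _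
  let a : Fin s → ℕ := fun t => (-z t).toNat
  let b : Fin s → ℕ := fun t => (z t).toNat
  have hpp : ∀ c : Fin s → ℕ, Module.Projective A (PP (D.e ∘ D.r) c) := fun c =>
    projective_pi (fun p : (Σ t : Fin s, Fin (c t)) => Pe ((D.e ∘ D.r) p.1))
  have _ := hpp a
  have _ := hpp b
  obtain ⟨f, hf⟩ := hR (PP (D.e ∘ D.r) a) (PP (D.e ∘ D.r) b)
  refine ⟨⟨PP (D.e ∘ D.r) a, PP (D.e ∘ D.r) b, f, hf⟩, ?_⟩
  intro X _ _ _ _ _
  change Th k A (PP (D.e ∘ D.r) a) (PP (D.e ∘ D.r) b) X = _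
  rw [Th, hd_PP hi, hd_PP hi, Nat.cast_sum, Nat.cast_sum, ← Finset.sum_sub_distrib]
  refine Finset.sum_congr rfl (fun t _ => ?_)
  have h1 : ((b t : ℕ) : ℤ) - ((a t : ℕ) : ℤ) = z t := by
    change (((z t).toNat : ℕ) : ℤ) - (((-z t).toNat : ℕ) : ℤ) = z t
    rcases le_total 0 (z t) with h | h
    · rw [Int.toNat_of_nonneg h, Int.toNat_of_nonpos (by omega)]
      simp
    · rw [Int.toNat_of_nonpos h, Int.toNat_of_nonneg (by omega)]
      simp
  push_cast
  rw [← sub_mul, h1]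
  rfl

theorem sum_evw (z : Fin s → ℤ) (v : Fin s → Fin s → ℕ) :
    ∑ t, ∑ u, z t * z u * (v t u : ℤ) = ∑ t, z t * evw z (v t) := by
  refine Finset.sum_congr rfl (fun t _ => ?_)
  rw [evw, Finset.mul_sum]
  refine Finset.sum_congr rfl (fun u _ => ?_)
  ring

theorem Dat.ed_eq {P Q : Type} [AddCommGroup P] [Module A P] [Module k P] [IsScalarTower k A P]
    [Module.Finite k P] [Module.Projective A P] [AddCommGroup Q] [Module A Q] [Module k Q]
    [IsScalarTower k A Q] [Module.Finite k Q] [Module.Projective A Q] {f : P →ₗ[A] Q} (hf : Adm f)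
    {z : Fin s → ℤ} (hz : D.Wz P Q z) {i : ι} {v : Fin s → ℕ} (hv : v ∈ D.SS i)
    (h1 : ∀ u ∈ D.SS i, evw z u ≤ evw z v) :
    (ed k (D.e i) (Q ⧸ LinearMap.range f) : ℤ) = evw z v := by
  obtain ⟨u, hu, h2⟩ := D.ed_attain hf hz i
  refine le_antisymm ?_ (D.ed_lower f hz i hv)
  rw [← h2]
  exact h1 u hu

theorem Dat.dim_eq {P Q : Type} [AddCommGroup P] [Module A P] [Module k P] [IsScalarTower k A P]
    [Module.Finite k P] [Module.Projective A P] [AddCommGroup Q] [Module A Q] [Module k Q]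
    [IsScalarTower k A Q] [Module.Finite k Q] [Module.Projective A Q] {f : P →ₗ[A] Q} (hf : Adm f)
    {z : Fin s → ℤ} (hz : D.Wz P Q z) {σ : ι → Fin s → ℕ} (hσ : ∀ i, σ i ∈ D.SS i)
    (h1 : ∀ i, ∀ u ∈ D.SS i, evw z u ≤ evw z (σ i)) :
    (finrank k (Q ⧸ LinearMap.range f) : ℤ) = ∑ i, evw z (σ i) ∧
    Th k A P Q (Q ⧸ LinearMap.range f) = ∑ t, z t * evw z (σ (D.r t)) := by
  have _ := finC (k := k) f
  constructor
  · rw [dim_eq_sum (k := k) D.he, Nat.cast_sum]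
    exact Finset.sum_congr rfl (fun i _ => D.ed_eq hf hz (hσ i) (h1 i))
  · rw [hz]
    exact Finset.sum_congr rfl (fun t _ => by rw [D.ed_eq hf hz (hσ _) (h1 _)])

/-- positivity of the quadratic form -/
theorem Dat.pos (hR : NR A) {z : Fin s → ℤ} (hz0 : z ≠ 0) {σ : ι → Fin s → ℕ}
    (hσ : ∀ i, σ i ∈ D.SS i) (h1 : ∀ i, ∀ u ∈ D.SS i, evw z u ≤ evw z (σ i)) {C : ℤ}
    (h2 : ∀ t, |z t| ≤ C * ∑ i, evw z (σ i)) :
    0 < ∑ t, z t * evw z (σ (D.r t)) := by
  obtain ⟨X, hX⟩ := D.exists_rigid hR z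
  have _ := finC (k := k) X.f
  obtain ⟨h3, h4⟩ := D.dim_eq (Or.inr X.rig.E0_coker) hX hσ h1
  have hpos : 0 < finrank k (X.Q ⧸ LinearMap.range X.f) := by
    by_contra hcon
    have h5 : finrank k (X.Q ⧸ LinearMap.range X.f) = 0 := by omega
    apply hz0
    funext t
    have h6 := h2 t
    rw [← h3, h5] at h6
    have h7 : |z t| = 0 := le_antisymm (by simpa using h6) (abs_nonneg _)
    simpa using h7
  rw [← h4, Th_eq (k := k) X.rig.E0_coker]
  have _ := finite_hom (k := k) (A := A) (P := X.Q ⧸ LinearMap.range X.f)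
    (X := X.Q ⧸ LinearMap.range X.f)
  have hn : Nontrivial (X.Q ⧸ LinearMap.range X.f) := Module.finrank_pos_iff.mp hpos
  have h8 : Nontrivial ((X.Q ⧸ LinearMap.range X.f) →ₗ[A] (X.Q ⧸ LinearMap.range X.f)) := by
    obtain ⟨x, hx⟩ := exists_ne (0 : X.Q ⧸ LinearMap.range X.f)
    exact ⟨⟨LinearMap.id, 0, fun h => hx (LinearMap.congr_fun h x)⟩⟩
  have h9 : 0 < hd k A (X.Q ⧸ LinearMap.range X.f) (X.Q ⧸ LinearMap.range X.f) :=
    Module.finrank_pos
  exact_mod_cast h9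

theorem evw_sub (z : Fin s → ℤ) (v u : Fin s → ℕ) :
    ∑ t, z t * ((v t : ℤ) - (u t : ℤ)) = evw z v - evw z u := by
  rw [evw, evw, ← Finset.sum_sub_distrib]
  exact Finset.sum_congr rfl (fun t _ => by ring)

theorem sum_pt (z : Fin s → ℤ) (σ : ι → Fin s → ℕ) (C ε : ℤ) (t0 : Fin s) :
    ∑ t, z t * (C * (∑ i, (σ i t : ℤ)) + ε * (if t = t0 then 1 else 0)) =
      C * (∑ i, evw z (σ i)) + ε * z t0 := by
  have e1 : ∑ i, evw z (σ i) = ∑ t, z t * ∑ i, (σ i t : ℤ) := by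
    unfold evw
    rw [Finset.sum_comm]
    exact Finset.sum_congr rfl (fun t _ => (Finset.mul_sum _ _ _).symm)
  have e2 : ∑ t, z t * (if t = t0 then (1 : ℤ) else 0) = z t0 := by
    simp
  rw [e1, Finset.mul_sum, ← e2, Finset.mul_sum, ← Finset.sum_add_distrib]
  exact Finset.sum_congr rfl (fun t _ => by ring)

/-- the inequalities defining the cone of one choice of submodules -/
def Cond {ι : Type} [Fintype ι] {s : ℕ} (F : ι → Finset (Fin s → ℕ)) (σ : ι → Fin s → ℕ) (C : ℤ)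
    (z : Fin s → ℤ) : Prop :=
  (∀ i, ∀ u ∈ F i, evw z u ≤ evw z (σ i)) ∧ ∀ t, |z t| ≤ C * ∑ i, evw z (σ i)

/-- growth for one choice of submodules -/
theorem geo_aux {ι : Type} [Fintype ι] {s : ℕ} (r : Fin s → ι) (F : ι → Finset (Fin s → ℕ))
    (σ : ι → Fin s → ℕ) (C : ℤ)
    (hpos : ∀ z : Fin s → ℤ, z ≠ 0 → Cond F σ C z → 0 < ∑ t, z t * evw z (σ (r t))) :
    ∃ ε : ℝ, 0 < ε ∧ ∀ z : Fin s → ℤ, Cond F σ C z →
      ε * ((∑ i, evw z (σ i) : ℤ) : ℝ) ^ 2 ≤ ((∑ t, z t * evw z (σ (r t)) : ℤ) : ℝ) := by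
  classical
  let E : Finset (Fin s → ℤ) :=
    (Finset.univ.biUnion (fun i => (F i).image
      (fun u t => (σ i t : ℤ) - (u t : ℤ)))) ∪
    (Finset.univ.image (fun t0 t => C * (∑ i, (σ i t : ℤ)) + 1 * (if t = t0 then 1 else 0))) ∪
    (Finset.univ.image (fun t0 t => C * (∑ i, (σ i t : ℤ)) + (-1) * (if t = t0 then 1 else 0)))
  have hcond : ∀ z : Fin s → ℤ, (∀ d ∈ E, 0 ≤ ∑ t, z t * d t) ↔ Cond F σ C z := by
    intro z
    constructor
    · intro h
      refine ⟨fun i u hu => ?_, fun t => ?_⟩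
      · have h1 := h (fun t => (σ i t : ℤ) - (u t : ℤ)) (by
          refine Finset.mem_union_left _ (Finset.mem_union_left _ ?_)
          rw [Finset.mem_biUnion]
          exact ⟨i, Finset.mem_univ _, Finset.mem_image.mpr ⟨u, hu, rfl⟩⟩)
        rw [evw_sub] at h1
        linarith
      · have h1 := h (fun t' => C * (∑ i, (σ i t' : ℤ)) + 1 * (if t' = t then 1 else 0)) (by
          refine Finset.mem_union_left _ (Finset.mem_union_right _ ?_)
          exact Finset.mem_image.mpr ⟨t, Finset.mem_univ _, rfl⟩)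
        have h2 := h (fun t' => C * (∑ i, (σ i t' : ℤ)) + (-1) * (if t' = t then 1 else 0)) (by
          refine Finset.mem_union_right _ ?_
          exact Finset.mem_image.mpr ⟨t, Finset.mem_univ _, rfl⟩)
        rw [sum_pt] at h1 h2
        rw [abs_le]
        constructor <;> linarith
    · rintro ⟨h1, h2⟩ d hd
      rw [Finset.mem_union, Finset.mem_union] at hd
      rcases hd with (hd | hd) | hd
      · rw [Finset.mem_biUnion] at hd
        obtain ⟨i, -, hd⟩ := hd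
        obtain ⟨u, hu, rfl⟩ := Finset.mem_image.mp hd
        have h3 := h1 i u hu
        rw [evw_sub]
        linarith
      · obtain ⟨t, -, rfl⟩ := Finset.mem_image.mp hd
        rw [sum_pt]
        have h3 := (abs_le.mp (h2 t)).1
        linarith
      · obtain ⟨t, -, rfl⟩ := Finset.mem_image.mp hd
        rw [sum_pt]
        have h3 := (abs_le.mp (h2 t)).2
        linarith
  obtain ⟨ε, hε, hg⟩ := geom E (fun t u => ((σ (r t) u : ℕ) : ℤ)) (by
    intro z hz0 hz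
    rw [sum_evw z (fun t => σ (r t))]
    exact hpos z hz0 ((hcond z).mp hz))
  let K : ℝ := ∑ i, ∑ t, (σ i t : ℝ)
  have hK0 : 0 ≤ K := Finset.sum_nonneg (fun i _ => Finset.sum_nonneg (fun t _ => by positivity))
  refine ⟨ε / (K ^ 2 + 1), by positivity, ?_⟩
  intro z h1
  have h3 := hg z ((hcond z).mpr h1)
  rw [sum_evw z (fun t => σ (r t))] at h3
  refine le_trans ?_ h3
  have h4 : |((∑ i, evw z (σ i) : ℤ) : ℝ)| ≤ K * ‖(fun t => (z t : ℝ))‖ := by
    push_cast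
    refine (Finset.abs_sum_le_sum_abs _ _).trans ?_
    rw [Finset.sum_mul]
    refine Finset.sum_le_sum (fun i _ => ?_)
    unfold evw
    push_cast
    refine (Finset.abs_sum_le_sum_abs _ _).trans ?_
    rw [Finset.sum_mul]
    refine Finset.sum_le_sum (fun t _ => ?_)
    rw [abs_mul, mul_comm]
    have h5 : |(z t : ℝ)| ≤ ‖(fun t => (z t : ℝ))‖ := norm_le_pi_norm (fun t => (z t : ℝ)) t
    have h6 : |((σ i t : ℕ) : ℝ)| = (σ i t : ℝ) := abs_of_nonneg (by positivity)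
    rw [h6]
    exact mul_le_mul_of_nonneg_left h5 (by positivity)
  have h5 : ((∑ i, evw z (σ i) : ℤ) : ℝ) ^ 2 ≤ K ^ 2 * ‖(fun t => (z t : ℝ))‖ ^ 2 := by
    rw [← sq_abs, ← mul_pow]
    exact pow_le_pow_left₀ (abs_nonneg _) h4 2
  rw [div_mul_eq_mul_div, div_le_iff₀ (by positivity)]
  have h6 : K ^ 2 * ‖(fun t => (z t : ℝ))‖ ^ 2 ≤ (K ^ 2 + 1) * ‖(fun t => (z t : ℝ))‖ ^ 2 :=
    mul_le_mul_of_nonneg_right (by linarith) (sq_nonneg _)
  nlinarith [mul_le_mul_of_nonneg_left (h5.trans h6) hε.le]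

/-- one constant for all data of bounded size -/
theorem geo_unif {ι : Type} [Fintype ι] {s : ℕ} (r : Fin s → ι) (a : ℕ) (C : ℤ) :
    ∃ ε : ℝ, 0 < ε ∧ ∀ (F : ι → Finset (Fin s → ℕ)), (∀ i, ∀ u ∈ F i, ∀ t, u t ≤ a) →
      ∀ σ : ι → Fin s → ℕ, (∀ i, σ i ∈ F i) →
      (∀ z : Fin s → ℤ, z ≠ 0 → Cond F σ C z → 0 < ∑ t, z t * evw z (σ (r t))) →
      ∀ z : Fin s → ℤ, Cond F σ C z →
      ε * ((∑ i, evw z (σ i) : ℤ) : ℝ) ^ 2 ≤ ((∑ t, z t * evw z (σ (r t)) : ℤ) : ℝ) := by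
  classical
  have hex : ∀ x : (ι → Finset (Fin s → ℕ)) × (ι → Fin s → ℕ), ∃ ε : ℝ, 0 < ε ∧
      ((∀ z : Fin s → ℤ, z ≠ 0 → Cond x.1 x.2 C z → 0 < ∑ t, z t * evw z (x.2 (r t))) →
      ∀ z : Fin s → ℤ, Cond x.1 x.2 C z →
      ε * ((∑ i, evw z (x.2 i) : ℤ) : ℝ) ^ 2 ≤ ((∑ t, z t * evw z (x.2 (r t)) : ℤ) : ℝ)) := by
    intro x
    by_cases hx : ∀ z : Fin s → ℤ, z ≠ 0 → Cond x.1 x.2 C z →
        0 < ∑ t, z t * evw z (x.2 (r t))
    · obtain ⟨ε, h1, h2⟩ := geo_aux r x.1 x.2 C hx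
      exact ⟨ε, h1, fun _ => h2⟩
    · exact ⟨1, one_pos, fun h => absurd h hx⟩
  choose ε hε hg using hex
  let Box : Finset (Fin s → ℕ) := Fintype.piFinset (fun _ => Finset.range (a + 1))
  let S : Finset ((ι → Finset (Fin s → ℕ)) × (ι → Fin s → ℕ)) :=
    (Fintype.piFinset (fun _ => Box.powerset)) ×ˢ (Fintype.piFinset (fun _ => Box))
  let T : ℝ := 1 + ∑ x ∈ S, (ε x)⁻¹
  have hT : 0 < T := by
    have h1 : 0 ≤ ∑ x ∈ S, (ε x)⁻¹ :=
      Finset.sum_nonneg (fun x _ => (inv_pos.mpr (hε x)).le)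
    change 0 < 1 + ∑ x ∈ S, (ε x)⁻¹
    linarith
  refine ⟨T⁻¹, inv_pos.mpr hT, ?_⟩
  intro F hF σ hσ hpos z hz
  have hbox : ∀ i, ∀ u ∈ F i, u ∈ Box := by
    intro i u hu
    rw [Fintype.mem_piFinset]
    intro t
    rw [Finset.mem_range]
    have := hF i u hu t
    omega
  have hmem : (F, σ) ∈ S := by
    rw [Finset.mem_product]
    refine ⟨Fintype.mem_piFinset.mpr (fun i => ?_), Fintype.mem_piFinset.mpr (fun i => ?_)⟩
    · exact Finset.mem_powerset.mpr (hbox i)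
    · exact hbox i _ (hσ i)
  have h5 := hg (F, σ) hpos z hz
  refine le_trans ?_ h5
  have h6 : T⁻¹ ≤ ε (F, σ) := by
    rw [inv_le_comm₀ hT (hε (F, σ))]
    have h7 : (ε (F, σ))⁻¹ ≤ ∑ x ∈ S, (ε x)⁻¹ :=
      Finset.single_le_sum (f := fun x => (ε x)⁻¹) (fun x _ => (inv_pos.mpr (hε x)).le) hmem
    change _ ≤ 1 + ∑ x ∈ S, (ε x)⁻¹
    linarith
  exact mul_le_mul_of_nonneg_right h6 (sq_nonneg _)

theorem finrank_IE (e : A) : finrank k (IE k e) ≤ finrank k A := by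
  have h1 := finrank_sub_le (k := k) (X := DAm k A) (IE k e)
  have h2 : finrank k (DAm k A) = finrank k A := Subspace.dual_finrank_eq
  omega

end pp

/-- quadratic growth, uniformly for the algebras with bounded data -/
theorem growthU {k : Type} [Field k] {ι : Type} [Fintype ι] {s : ℕ} (r : Fin s → ι) (a C0 : ℕ) :
    ∃ ε : ℝ, 0 < ε ∧ ∀ (A : Type) [Ring A] [Algebra k A] [Module.Finite k A] (D : Dat k A ι s),
      D.r = r → finrank k A ≤ a → NR A → ∀ (P Q : Type) [AddCommGroup P] [Module A P] [Module k P]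
      [IsScalarTower k A P] [Module.Finite k P] [Module.Projective A P] [AddCommGroup Q]
      [Module A Q] [Module k Q] [IsScalarTower k A Q] [Module.Finite k Q] [Module.Projective A Q]
      (f : P →ₗ[A] Q), Adm f →
      finrank k P + finrank k Q ≤ C0 * finrank k (Q ⧸ LinearMap.range f) →
      ε * (finrank k (Q ⧸ LinearMap.range f) : ℝ) ^ 2 ≤
        (Th k A P Q (Q ⧸ LinearMap.range f) : ℝ) := by
  classical
  obtain ⟨ε, hε, hg⟩ := geo_unif (ι := ι) r a ((a : ℤ) * C0)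
  refine ⟨ε, hε, ?_⟩
  intro A _ _ _ D hDr ha hR P Q _ _ _ _ _ _ _ _ _ _ _ _ f hf hdim
  have _ := finC (k := k) f
  obtain ⟨z, hz, hzb⟩ := D.weight_bd (P := P) (Q := Q)
  have hatt := fun i => D.ed_attain hf hz i
  choose σ hσ hσe using hatt
  have h1 : ∀ i, ∀ u ∈ D.SS i, evw z u ≤ evw z (σ i) := by
    intro i u hu
    rw [hσe i]
    exact D.ed_lower f hz i hu
  obtain ⟨h3, h4⟩ := D.dim_eq hf hz hσ h1
  have h2 : ∀ t, |z t| ≤ ((a : ℤ) * C0) * ∑ i, evw z (σ i) := by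
    intro t
    rw [← h3]
    refine (hzb t).trans ?_
    rw [mul_assoc]
    have e1 : (finrank k P : ℤ) + finrank k Q ≤ C0 * finrank k (Q ⧸ LinearMap.range f) := by
      exact_mod_cast hdim
    have e2 : (finrank k A : ℤ) ≤ a := by exact_mod_cast ha
    exact mul_le_mul e2 e1 (by positivity) (by positivity)
  have h5 := hg (fun i => (D.SS_finite i).toFinset) (by
    intro i u hu t
    obtain ⟨U, hU⟩ := (D.SS_finite i).mem_toFinset.mp hu
    have _ := finU (k := k) U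
    rw [hU t]
    exact (((ed_le (k := k) _ U).trans (finrank_sub_le (k := k) U)).trans
      (finrank_IE (k := k) _)).trans ha) σ
    (fun i => (D.SS_finite i).mem_toFinset.mpr (hσ i)) (by
      intro z' hz' hc
      have e1 : ∀ i, ∀ u ∈ D.SS i, evw z' u ≤ evw z' (σ i) := fun i u hu =>
        hc.1 i u ((D.SS_finite i).mem_toFinset.mpr hu)
      have e2 := D.pos hR hz' hσ e1 hc.2
      rw [hDr] at e2
      exact e2) z ⟨fun i u hu => h1 i u ((D.SS_finite i).mem_toFinset.mp hu), h2⟩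
  rw [hDr] at h4
  rw [← h3, ← h4] at h5
  exact_mod_cast h5

end BT
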