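import Mathlib
import Pool.Agent.Helper16.BT.GrowC

/-!
The rank defect, and uniqueness of bricks with a presentation of maximal rank.
-/

namespace BT

open Module Function

/-- the presentation has maximal rank -/
def MaxR (k : Type) {A P Q : Type} [Field k] [Ring A] [Algebra k A] [AddCommGroup P] [Module A P]
    [AddCommGroup Q] [Module A Q] [Module k Q] [IsScalarTower k A Q] (f : P →ₗ[A] Q) : Prop :=
  ∀ f' : P →ₗ[A] Q,
    finrank k (Q ⧸ LinearMap.range f) ≤ finrank k (Q ⧸ LinearMap.range f')

section one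

variable {k A : Type} [Field k] [Ring A] [Algebra k A]

theorem ed_one_eq (X : Type) [AddCommGroup X] [Module A X] [Module k X] [IsScalarTower k A X] :
    ed k (1 : A) X = finrank k X := by
  have h : LinearMap.range (DistribMulAction.toLinearMap k X (1 : A)) = ⊤ := by
    rw [LinearMap.range_eq_top]
    intro x
    exact ⟨x, one_smul A x⟩
  rw [ed, h, finrank_top]

variable [Module.Finite k A]
variable {P Q : Type} [AddCommGroup P] [Module A P] [Module k P] [IsScalarTower k A P]
  [Module.Finite k P] [Module.Projective A P]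
variable [AddCommGroup Q] [Module A Q] [Module k Q] [IsScalarTower k A Q] [Module.Finite k Q]
  [Module.Projective A Q]

/-- a rigid map has maximal rank, coordinatewise -/
theorem rigid_ed_le {f : P →ₗ[A] Q} (hf : Rigid f) (f' : P →ₗ[A] Q) {e : A}
    (he : IsIdempotentElem e) :
    ed k e (Q ⧸ LinearMap.range f) ≤ ed k e (Q ⧸ LinearMap.range f') := by
  have _ := finC (k := k) f
  have _ := finC (k := k) f'
  obtain ⟨U, hU⟩ := exists_attain (k := k) (X := IE k e) hf
  have h1 := Th_sub_le (k := k) f' U
  rw [hU, hd_IE (k := k) he, hd_IE (k := k) he] at h1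
  exact_mod_cast h1

theorem rigid_maxR {f : P →ₗ[A] Q} (hf : Rigid f) : MaxR k f := by
  intro f'
  have h := rigid_ed_le (k := k) hf f' (IsIdempotentElem.one (M := A))
  rwa [ed_one_eq, ed_one_eq] at h

theorem injective_maxR {f : P →ₗ[A] Q} (hf : Injective f) : MaxR k f := by
  intro f'
  have h1 := dim_ses (k := k) f (LinearMap.range f).mkQ hf
    (Submodule.mkQ_surjective _) (Submodule.ker_mkQ _).symm
  have h2 := dim_ses (k := k) (LinearMap.range f').subtype (LinearMap.range f').mkQ
    Subtype.val_injective (Submodule.mkQ_surjective _)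
    (by rw [Submodule.range_subtype, Submodule.ker_mkQ])
  have h3 : finrank k (LinearMap.range f') ≤ finrank k P :=
    LinearMap.finrank_le_finrank_of_surjective (f := f'.rangeRestrict.restrictScalars k)
      f'.surjective_rangeRestrict
  omega

end one

section def'

variable {k A : Type} [Field k] [Ring A] [Algebra k A] [Module.Finite k A]
  {ι : Type} [Fintype ι] {s : ℕ} (D : Dat k A ι s)
variable {P Q : Type} [AddCommGroup P] [Module A P] [Module k P] [IsScalarTower k A P]
  [Module.Finite k P] [Module.Projective A P]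
variable [AddCommGroup Q] [Module A Q] [Module k Q] [IsScalarTower k A Q] [Module.Finite k Q]
  [Module.Projective A Q]

include D in
/-- a presentation of maximal rank has the dimensions of a rigid one -/
theorem Dat.maxR_ed {f f0 : P →ₗ[A] Q} (hf : MaxR k f) (h0 : Rigid f0) (i : ι) :
    ed k (D.e i) (Q ⧸ LinearMap.range f) = ed k (D.e i) (Q ⧸ LinearMap.range f0) := by
  have _ := finC (k := k) f
  have _ := finC (k := k) f0
  have h1 : ∀ j, ed k (D.e j) (Q ⧸ LinearMap.range f0) ≤ ed k (D.e j) (Q ⧸ LinearMap.range f) :=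
    fun j => rigid_ed_le (k := k) h0 f (D.he.idem j)
  have h2 := hf f0
  rw [dim_eq_sum (k := k) D.he, dim_eq_sum (k := k) D.he] at h2
  by_contra hne
  have h3 : ∑ j, ed k (D.e j) (Q ⧸ LinearMap.range f0) <
      ∑ j, ed k (D.e j) (Q ⧸ LinearMap.range f) :=
    Finset.sum_lt_sum (fun j _ => h1 j) ⟨i, Finset.mem_univ _, lt_of_le_of_ne (h1 i)
      (Ne.symm hne)⟩
  omega

theorem nr_rigid (hR : NR A) (P Q : Type) [AddCommGroup P] [Module A P] [Module k P]
    [IsScalarTower k A P] [Module.Finite k P] [Module.Projective A P] [AddCommGroup Q]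
    [Module A Q] [Module k Q] [IsScalarTower k A Q] [Module.Finite k Q] [Module.Projective A Q] :
    ∃ f : P →ₗ[A] Q, Rigid f := by
  have _ : Module.Finite A P := Module.Finite.of_restrictScalars_finite k A P
  have _ : Module.Finite A Q := Module.Finite.of_restrictScalars_finite k A Q
  exact hR P Q

theorem hd_pos_of {P X : Type} [AddCommGroup P] [Module A P] [Module k P] [IsScalarTower k A P]
    [Module.Finite k P] [AddCommGroup X] [Module A X] [Module k X] [IsScalarTower k A X]
    [Module.Finite k X] (h : P →ₗ[A] X) (hh : h ≠ 0) : 0 < hd k A P X := by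
  have _ := finite_hom (k := k) (A := A) (P := P) (X := X)
  have _ : Nontrivial (P →ₗ[A] X) := ⟨⟨h, 0, hh⟩⟩
  exact Module.finrank_pos

theorem hd_self_pos (X : Type) [AddCommGroup X] [Module A X] [Module k X] [IsScalarTower k A X]
    [Module.Finite k X] [Nontrivial X] : 0 < hd k A X X := by
  have _ := finite_hom (k := k) (A := A) (P := X) (X := X)
  have h8 : Nontrivial (X →ₗ[A] X) := by
    obtain ⟨x, hx⟩ := exists_ne (0 : X)
    exact ⟨⟨LinearMap.id, 0, fun h => hx (LinearMap.congr_fun h x)⟩⟩
  exact Module.finrank_pos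

include D in
/-- the weight of a presentation of maximal rank is positive on the cokernel -/
theorem Dat.maxR_Th (hR : NR A) {f : P →ₗ[A] Q} (hf : MaxR k f)
    [hn : Nontrivial (Q ⧸ LinearMap.range f)] : 0 < Th k A P Q (Q ⧸ LinearMap.range f) := by
  have _ := finC (k := k) f
  obtain ⟨f0, h0⟩ := nr_rigid (k := k) hR P Q
  have _ := finC (k := k) f0
  obtain ⟨z, hz, -⟩ := D.weight_bd (P := P) (Q := Q)
  have h1 : Th k A P Q (Q ⧸ LinearMap.range f) = Th k A P Q (Q ⧸ LinearMap.range f0) := by
    rw [hz, hz]
    exact Finset.sum_congr rfl (fun t _ => by rw [D.maxR_ed hf h0])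
  have h2 : finrank k (Q ⧸ LinearMap.range f) = finrank k (Q ⧸ LinearMap.range f0) := by
    rw [dim_eq_sum (k := k) D.he, dim_eq_sum (k := k) D.he]
    exact Finset.sum_congr rfl (fun i _ => D.maxR_ed hf h0 i)
  have h3 : 0 < finrank k (Q ⧸ LinearMap.range f) := Module.finrank_pos
  rw [h2] at h3
  have _ : Nontrivial (Q ⧸ LinearMap.range f0) := Module.finrank_pos_iff.mp h3
  rw [h1, Th_eq (k := k) h0.E0_coker]
  exact_mod_cast hd_self_pos (k := k) (A := A) (Q ⧸ LinearMap.range f0)

variable {P' Q' : Type} [AddCommGroup P'] [Module A P'] [Module k P'] [IsScalarTower k A P']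
  [Module.Finite k P'] [Module.Projective A P']
variable [AddCommGroup Q'] [Module A Q'] [Module k Q'] [IsScalarTower k A Q']
  [Module.Finite k Q'] [Module.Projective A Q']

/-- uniqueness -/
theorem uniq {f : P →ₗ[A] Q} {g : P' →ₗ[A] Q'} (hf : E0 f (Q ⧸ LinearMap.range f))
    (hg : E0 g (Q' ⧸ LinearMap.range g))
    (hw : ∀ (X : Type) [AddCommGroup X] [Module A X] [Module k X] [IsScalarTower k A X]
      [Module.Finite k X], Th k A P Q X = Th k A P' Q' X)
    (h1 : Th k A P' Q' (Q' ⧸ LinearMap.range g) = 1)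
    (hdim : finrank k (Q ⧸ LinearMap.range f) = finrank k (Q' ⧸ LinearMap.range g)) :
    Nonempty ((Q ⧸ LinearMap.range f) ≃ₗ[A] (Q' ⧸ LinearMap.range g)) := by
  have _ := finC (k := k) f
  have _ := finC (k := k) g
  let M := Q ⧸ LinearMap.range f
  let N := Q' ⧸ LinearMap.range g
  have _ := finite_hom (k := k) (A := A) (P := M) (X := N)
  have h2 := Th_le (k := k) (X := N) f
  rw [hw N, h1] at h2
  have h3 : 0 < finrank k (M →ₗ[A] N) := by
    have h4 : (1 : ℤ) ≤ (finrank k (M →ₗ[A] N) : ℤ) := h2
    omega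
  have h5 : Nontrivial (M →ₗ[A] N) := Module.finrank_pos_iff.mp h3
  obtain ⟨h, hh⟩ := exists_ne (0 : M →ₗ[A] N)
  let I := LinearMap.range h
  have _ : Module.Finite k I := finU (k := k) I
  have _ : Module.Finite k (N ⧸ I) := finite_quot I
  have hsurj : Surjective h := by
    rw [← LinearMap.range_eq_top]
    by_contra hne
    have e1 := Th_ses (k := k) (P := P') (Q := Q') I.subtype I.mkQ Subtype.val_injective
      (Submodule.mkQ_surjective I) (by rw [Submodule.range_subtype, Submodule.ker_mkQ])
    have e2 : 0 < Th k A P' Q' I := by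
      rw [← hw I]
      have e3 : E0 f I := hf.quot h.rangeRestrict h.surjective_rangeRestrict
      rw [Th_eq (k := k) e3]
      have e6 : 0 < hd k A M I := hd_pos_of (k := k) h.rangeRestrict (fun e5 => hh (by
        ext x
        exact congrArg Subtype.val (LinearMap.congr_fun e5 ((LinearMap.range f).mkQ x))))
      exact_mod_cast e6
    have e7 : 0 < Th k A P' Q' (N ⧸ I) := by
      have e3 : E0 g (N ⧸ I) := hg.quot I.mkQ (Submodule.mkQ_surjective I)
      rw [Th_eq (k := k) e3]
      have e6 : 0 < hd k A N (N ⧸ I) := hd_pos_of (k := k) I.mkQ (fun e5 => hne (by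
        have e8 : LinearMap.ker I.mkQ = ⊤ := by
          rw [e5]
          exact LinearMap.ker_zero
        rwa [Submodule.ker_mkQ] at e8))
      exact_mod_cast e6
    have e8 : Th k A P' Q' N = 1 := h1
    omega
  have hinj : Injective (h.restrictScalars k) :=
    (LinearMap.injective_iff_surjective_of_finrank_eq_finrank hdim).mpr hsurj
  exact ⟨LinearEquiv.ofBijective h ⟨hinj, hsurj⟩⟩

end def'

end BT
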