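import Mathlib
import Pool.Agent.Helper16.BT.GrowD

/-!
Quadratic growth up to the rank defect, for bounded presentations; finiteness of bricks.
-/

namespace BT

open Module Function

section fin

/-- arithmetic -/
theorem arith {ε1 K d d0 h T : ℝ} (hε1 : 0 < ε1) (hK : 0 ≤ K) (hd0 : 0 ≤ d0) (hd : d0 ≤ d)
    (hh : 0 ≤ h) (h1 : d < 2 * d0 → ε1 * d0 ^ 2 ≤ T) (h2 : T - K * d * (d - d0) ≤ h) :
    min (1 / 2) (ε1 / (4 * (K + 1))) * d ^ 2 ≤ h + d * (d - d0) := by
  have hdd : 0 ≤ d := hd0.trans hd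
  rcases lt_or_ge d (2 * d0) with hc | hc
  · have h3 := h1 hc
    have h4 : ε1 * d ^ 2 ≤ 4 * (ε1 * d0 ^ 2) := by
      have h5 : d ^ 2 ≤ (2 * d0) ^ 2 := pow_le_pow_left₀ hdd hc.le 2
      nlinarith
    have h6 : ε1 * d ^ 2 / 4 ≤ h + K * (d * (d - d0)) := by linarith
    have h7 : 0 ≤ d * (d - d0) := mul_nonneg hdd (by linarith)
    have h8 : h + K * (d * (d - d0)) ≤ (K + 1) * (h + d * (d - d0)) := by nlinarith
    have h9 : min (1 / 2) (ε1 / (4 * (K + 1))) * d ^ 2 ≤ ε1 / (4 * (K + 1)) * d ^ 2 :=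
      mul_le_mul_of_nonneg_right (min_le_right _ _) (sq_nonneg _)
    refine h9.trans ?_
    have h10 : ε1 / (4 * (K + 1)) * d ^ 2 = (ε1 * d ^ 2 / 4) / (K + 1) := by
      field_simp
    rw [h10, div_le_iff₀ (by linarith)]
    linarith
  · have h9 : min (1 / 2) (ε1 / (4 * (K + 1))) * d ^ 2 ≤ 1 / 2 * d ^ 2 :=
      mul_le_mul_of_nonneg_right (min_le_left _ _) (sq_nonneg _)
    refine h9.trans ?_
    nlinarith

/-- quadratic growth up to the rank defect -/
theorem growth_genU {k : Type} [Field k] {ι : Type} [Fintype ι] {s : ℕ} (r : Fin s → ι)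
    (a C0 : ℕ) :
    ∃ ε : ℝ, 0 < ε ∧ ∀ (A : Type) [Ring A] [Algebra k A] [Module.Finite k A] (D : Dat k A ι s),
      D.r = r → finrank k A ≤ a → NR A → ∀ (P Q : Type) [AddCommGroup P] [Module A P] [Module k P]
      [IsScalarTower k A P] [Module.Finite k P] [Module.Projective A P] [AddCommGroup Q]
      [Module A Q] [Module k Q] [IsScalarTower k A Q] [Module.Finite k Q] [Module.Projective A Q]
      (f : P →ₗ[A] Q),
      finrank k P + finrank k Q ≤ C0 * finrank k (Q ⧸ LinearMap.range f) →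
      ∃ f0 : P →ₗ[A] Q, ε * (finrank k (Q ⧸ LinearMap.range f) : ℝ) ^ 2 ≤
        (hd k A (Q ⧸ LinearMap.range f) (Q ⧸ LinearMap.range f) : ℝ) +
        (finrank k (Q ⧸ LinearMap.range f) : ℝ) * ((finrank k (Q ⧸ LinearMap.range f) : ℝ) -
          (finrank k (Q ⧸ LinearMap.range f0) : ℝ)) := by
  classical
  obtain ⟨ε1, hε1, hg⟩ := growthU (k := k) r a (2 * C0)
  let K : ℝ := (s : ℝ) * ((a : ℝ) * (C0 : ℝ))
  have hK : 0 ≤ K := by positivity
  refine ⟨min (1 / 2) (ε1 / (4 * (K + 1))), by positivity, ?_⟩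
  intro A _ _ _ D hDr ha hR P Q _ _ _ _ _ _ _ _ _ _ _ _ f hdim
  obtain ⟨f0, h0⟩ := nr_rigid (k := k) hR P Q
  have _ := finC (k := k) f
  have _ := finC (k := k) f0
  refine ⟨f0, ?_⟩
  have hle : finrank k (Q ⧸ LinearMap.range f0) ≤ finrank k (Q ⧸ LinearMap.range f) :=
    rigid_maxR (k := k) h0 f
  obtain ⟨z, hz, hzb⟩ := D.weight_bd (P := P) (Q := Q)
  refine arith (T := (Th k A P Q (Q ⧸ LinearMap.range f0) : ℝ)) hε1 hK (by positivity)
    (by exact_mod_cast hle) (by positivity) ?_ ?_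
  · intro hc
    have hc' : finrank k (Q ⧸ LinearMap.range f) < 2 * finrank k (Q ⧸ LinearMap.range f0) := by
      exact_mod_cast hc
    exact hg A D hDr ha hR P Q f0 (Or.inr h0.E0_coker) (by nlinarith)
  · have h1 := Th_le (k := k) (X := Q ⧸ LinearMap.range f) f
    have h2 : ∀ i, ed k (D.e i) (Q ⧸ LinearMap.range f0) ≤ ed k (D.e i) (Q ⧸ LinearMap.range f) :=
      fun i => rigid_ed_le (k := k) h0 f (D.he.idem i)
    have h3 : ∀ i, (ed k (D.e i) (Q ⧸ LinearMap.range f) : ℤ) - ed k (D.e i) (Q ⧸ LinearMap.range f0)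
        ≤ (finrank k (Q ⧸ LinearMap.range f) : ℤ) - finrank k (Q ⧸ LinearMap.range f0) := by
      intro i
      rw [dim_eq_sum (k := k) (X := Q ⧸ LinearMap.range f) D.he,
        dim_eq_sum (k := k) (X := Q ⧸ LinearMap.range f0) D.he, Nat.cast_sum, Nat.cast_sum,
        ← Finset.sum_sub_distrib]
      exact Finset.single_le_sum (f := fun i => (ed k (D.e i) (Q ⧸ LinearMap.range f) : ℤ) -
        ed k (D.e i) (Q ⧸ LinearMap.range f0)) (fun j _ => by
          have := h2 j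
          change (0 : ℤ) ≤ (ed k (D.e j) (Q ⧸ LinearMap.range f) : ℤ) -
            ed k (D.e j) (Q ⧸ LinearMap.range f0)
          omega) (Finset.mem_univ i)
    have h4 : Th k A P Q (Q ⧸ LinearMap.range f0) - Th k A P Q (Q ⧸ LinearMap.range f) ≤
        ∑ _t : Fin s, ((finrank k A : ℤ) * (finrank k P + finrank k Q)) *
          ((finrank k (Q ⧸ LinearMap.range f) : ℤ) - finrank k (Q ⧸ LinearMap.range f0)) := by
      rw [hz, hz, ← Finset.sum_sub_distrib]
      refine Finset.sum_le_sum (fun t _ => ?_)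
      have h5 := h3 (D.r t)
      have h6 := h2 (D.r t)
      have h7 := hzb t
      have h8 := neg_abs_le (z t)
      have h9 : 0 ≤ (ed k (D.e (D.r t)) (Q ⧸ LinearMap.range f) : ℤ) -
          ed k (D.e (D.r t)) (Q ⧸ LinearMap.range f0) := by omega
      have h10 : z t * (ed k (D.e (D.r t)) (Q ⧸ LinearMap.range f0) : ℤ) -
          z t * (ed k (D.e (D.r t)) (Q ⧸ LinearMap.range f) : ℤ) ≤
          |z t| * ((ed k (D.e (D.r t)) (Q ⧸ LinearMap.range f) : ℤ) -
          ed k (D.e (D.r t)) (Q ⧸ LinearMap.range f0)) := by nlinarith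
      refine h10.trans ?_
      exact mul_le_mul h7 h5 h9 (by positivity)
    rw [Finset.sum_const, Finset.card_univ, Fintype.card_fin, nsmul_eq_mul] at h4
    have h4' : (Th k A P Q (Q ⧸ LinearMap.range f0) : ℝ) - (Th k A P Q (Q ⧸ LinearMap.range f) : ℝ) ≤
        (s : ℝ) * (((finrank k A : ℝ) * ((finrank k P : ℝ) + (finrank k Q : ℝ))) *
          ((finrank k (Q ⧸ LinearMap.range f) : ℝ) - (finrank k (Q ⧸ LinearMap.range f0) : ℝ))) := by
      exact_mod_cast h4
    have h1' : (Th k A P Q (Q ⧸ LinearMap.range f) : ℝ) ≤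
        (hd k A (Q ⧸ LinearMap.range f) (Q ⧸ LinearMap.range f) : ℝ) := by exact_mod_cast h1
    have hdim' : (finrank k P : ℝ) + (finrank k Q : ℝ) ≤
        (C0 : ℝ) * (finrank k (Q ⧸ LinearMap.range f) : ℝ) := by exact_mod_cast hdim
    have hle' : (finrank k (Q ⧸ LinearMap.range f0) : ℝ) ≤
        (finrank k (Q ⧸ LinearMap.range f) : ℝ) := by exact_mod_cast hle
    have h5 : (s : ℝ) * (((finrank k A : ℝ) * ((finrank k P : ℝ) + (finrank k Q : ℝ))) *
          ((finrank k (Q ⧸ LinearMap.range f) : ℝ) - (finrank k (Q ⧸ LinearMap.range f0) : ℝ))) ≤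
        K * (finrank k (Q ⧸ LinearMap.range f) : ℝ) *
          ((finrank k (Q ⧸ LinearMap.range f) : ℝ) - (finrank k (Q ⧸ LinearMap.range f0) : ℝ)) := by
      change _ ≤ (s : ℝ) * ((a : ℝ) * (C0 : ℝ)) * _ * _
      have h6 : (s : ℝ) * ((a : ℝ) * (C0 : ℝ)) * (finrank k (Q ⧸ LinearMap.range f) : ℝ) *
          ((finrank k (Q ⧸ LinearMap.range f) : ℝ) - (finrank k (Q ⧸ LinearMap.range f0) : ℝ)) =
          (s : ℝ) * (((a : ℝ) * ((C0 : ℝ) * (finrank k (Q ⧸ LinearMap.range f) : ℝ))) *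
          ((finrank k (Q ⧸ LinearMap.range f) : ℝ) - (finrank k (Q ⧸ LinearMap.range f0) : ℝ))) := by
        ring
      rw [h6]
      refine mul_le_mul_of_nonneg_left ?_ (by positivity)
      refine mul_le_mul_of_nonneg_right ?_ (by linarith)
      have ha' : (finrank k A : ℝ) ≤ (a : ℝ) := by exact_mod_cast ha
      exact mul_le_mul ha' hdim' (by positivity) (by positivity)
    linarith

end fin

end BT
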