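import Mathlib
import Pool.Agent.Helper16.BT.Split

/-!
Every presentation has a summand of bounded size with the same cokernel.
-/

namespace BT

open Module Function

section reduce

variable {k A : Type} [Field k] [Ring A] [Algebra k A] [Module.Finite k A]

variable (k) in
/-- a free module covering a finite dimensional one -/
theorem exists_cover (X : Type) [AddCommGroup X] [Module A X] [Module k X] [IsScalarTower k A X]
    [Module.Finite k X] : ∃ p : (Fin (finrank k X) → A) →ₗ[A] X, Surjective p := by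
  let b := Module.finBasis k X
  refine ⟨Fintype.linearCombination A b, ?_⟩
  intro x
  refine ⟨fun i => algebraMap k A (b.repr x i), ?_⟩
  rw [Fintype.linearCombination_apply]
  simp only [algebraMap_smul]
  exact b.sum_repr x

theorem finrank_pow_free (m : ℕ) : finrank k (Fin m → A) = m * finrank k A := by
  rw [Module.finrank_pi_fintype]
  simp

variable (k) in
/-- a presentation of bounded size -/
theorem exists_pres0 (M : Type) [AddCommGroup M] [Module A M] [Module k M] [IsScalarTower k A M]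
    [Module.Finite k M] :
    ∃ (P0 Q0 : Type) (_ : AddCommGroup P0) (_ : Module A P0) (_ : Module k P0)
      (_ : IsScalarTower k A P0) (_ : Module.Finite k P0) (_ : Module.Projective A P0)
      (_ : AddCommGroup Q0) (_ : Module A Q0) (_ : Module k Q0)
      (_ : IsScalarTower k A Q0) (_ : Module.Finite k Q0) (_ : Module.Projective A Q0)
      (f0 : P0 →ₗ[A] Q0) (g0 : Q0 →ₗ[A] M), Surjective g0 ∧
      LinearMap.range f0 = LinearMap.ker g0 ∧ finrank k Q0 = finrank k M * finrank k A ∧
      finrank k P0 ≤ finrank k M * finrank k A * finrank k A := by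
  obtain ⟨g0, hg0⟩ := exists_cover k (A := A) M
  have hKf : Module.Finite k (LinearMap.ker g0) :=
    Module.Finite.of_injective ((LinearMap.ker g0).subtype.restrictScalars k)
      Subtype.val_injective
  obtain ⟨p0, hp0⟩ := exists_cover k (A := A) (LinearMap.ker g0)
  refine ⟨Fin (finrank k (LinearMap.ker g0)) → A, Fin (finrank k M) → A, inferInstance,
    inferInstance, inferInstance, inferInstance, inferInstance, inferInstance, inferInstance,
    inferInstance, inferInstance, inferInstance, inferInstance, inferInstance,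
    (LinearMap.ker g0).subtype ∘ₗ p0, g0, hg0, ?_, finrank_pow_free _, ?_⟩
  · rw [LinearMap.range_comp, LinearMap.range_eq_top.mpr hp0, Submodule.map_top,
      Submodule.range_subtype]
  · have h6 : finrank k (LinearMap.ker g0) ≤ finrank k (Fin (finrank k M) → A) :=
      LinearMap.finrank_le_finrank_of_injective
        (f := (LinearMap.ker g0).subtype.restrictScalars k) Subtype.val_injective
    rw [finrank_pow_free] at h6
    rw [finrank_pow_free]
    exact Nat.mul_le_mul_right _ h6

omit [Module.Finite k A] in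
theorem coker_dim_le {P Q : Type} [AddCommGroup P] [Module A P] [AddCommGroup Q] [Module A Q]
    [Module k Q] [IsScalarTower k A Q] [Module.Finite k Q] (f' : P →ₗ[A] Q)
    (Q1 L : Submodule A Q) (hsup : L ⊔ Q1 = ⊤) (N : Submodule A Q1)
    (h1 : ∀ x ∈ N, (x : Q) ∈ LinearMap.range f') (h2 : ∀ q ∈ L, q ∈ LinearMap.range f') :
    finrank k (Q ⧸ LinearMap.range f') ≤ finrank k (Q1 ⧸ N) := by
  have hle : N ≤ LinearMap.ker ((LinearMap.range f').mkQ ∘ₗ Q1.subtype) := by
    intro x hx
    rw [LinearMap.mem_ker]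
    exact (Submodule.Quotient.mk_eq_zero _).mpr (h1 x hx)
  let F : (Q1 ⧸ N) →ₗ[A] (Q ⧸ LinearMap.range f') := N.liftQ _ hle
  have hF : Surjective F := by
    intro y
    obtain ⟨q, rfl⟩ := Submodule.mkQ_surjective _ y
    obtain ⟨q0, hq0, q1, hq1, hq2⟩ := Submodule.mem_sup.mp
      (show q ∈ L ⊔ Q1 from hsup ▸ Submodule.mem_top)
    refine ⟨N.mkQ ⟨q1, hq1⟩, ?_⟩
    have h3 : F (N.mkQ ⟨q1, hq1⟩) = (LinearMap.range f').mkQ q1 := by
      rw [Submodule.mkQ_apply, Submodule.liftQ_apply]
      rfl
    rw [h3, ← hq2, map_add]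
    have h4 : (LinearMap.range f').mkQ q0 = 0 := (Submodule.Quotient.mk_eq_zero _).mpr (h2 q0 hq0)
    rw [h4, zero_add]
  have hQ1f : Module.Finite k Q1 :=
    Module.Finite.of_injective (Q1.subtype.restrictScalars k) Subtype.val_injective
  have hQf : Module.Finite k (Q1 ⧸ N) :=
    Module.Finite.of_surjective (N.mkQ.restrictScalars k) (Submodule.mkQ_surjective _)
  exact LinearMap.finrank_le_finrank_of_surjective (f := F.restrictScalars k) hF

theorem reduce_core {P Q M : Type} [AddCommGroup P] [Module A P] [Module k P]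
    [IsScalarTower k A P] [Module.Finite k P] [AddCommGroup Q] [Module A Q] [Module k Q]
    [IsScalarTower k A Q] [Module.Finite k Q]
    [AddCommGroup M] [Module A M] [Module k M] [IsScalarTower k A M] [Module.Finite k M]
    (f : P →ₗ[A] Q) (g : Q →ₗ[A] M) (hg : Surjective g)
    (hfg : LinearMap.range f = LinearMap.ker g) (α : P →ₗ[A] P) (β : Q →ₗ[A] Q)
    (K P1 : Submodule A P) (L Q1 : Submodule A Q) (hK : K = LinearMap.ker α)
    (hP1 : P1 = LinearMap.range α) (hL' : L = LinearMap.ker β) (hQ1 : Q1 = LinearMap.range β)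
    (hα : IsCompl K P1) (hβ : IsCompl L Q1)
    (hfα : ∀ x, f (α x) = β (f x)) (hgβ : ∀ y, g (β y) = g y) :
    ∃ (f1 : P1 →ₗ[A] Q1) (g1 : Q1 →ₗ[A] M), Surjective g1 ∧
      LinearMap.range f1 = LinearMap.ker g1 ∧
      ((∀ φ : P →ₗ[A] M, ∃ ψ : Q →ₗ[A] M, φ = ψ ∘ₗ f) →
        ∀ φ : P1 →ₗ[A] M, ∃ ψ : Q1 →ₗ[A] M, φ = ψ ∘ₗ f1) ∧
      (∀ f1' : P1 →ₗ[A] Q1, ∃ f' : P →ₗ[A] Q,
        finrank k (Q ⧸ LinearMap.range f') ≤ finrank k (Q1 ⧸ LinearMap.range f1')) := by
  classical
  have memK : ∀ x, x ∈ K ↔ α x = 0 := fun x => by rw [hK, LinearMap.mem_ker]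
  have memL : ∀ x, x ∈ L ↔ β x = 0 := fun x => by rw [hL', LinearMap.mem_ker]
  have memP : ∀ x, x ∈ P1 ↔ ∃ y, α y = x := fun x => by rw [hP1, LinearMap.mem_range]
  have memQ : ∀ x, x ∈ Q1 ↔ ∃ y, β y = x := fun x => by rw [hQ1, LinearMap.mem_range]
  have hf1 : ∀ x ∈ P1, f x ∈ Q1 := by
    intro x hx
    obtain ⟨y, rfl⟩ := (memP x).mp hx
    exact (memQ _).mpr ⟨f y, (hfα y).symm⟩
  let f1 : P1 →ₗ[A] Q1 := f.restrict hf1
  let g1 : Q1 →ₗ[A] M := g ∘ₗ Q1.subtype
  have hL : ∀ q ∈ L, ∃ p ∈ K, f p = q := by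
    intro q hq
    have h2 : g q = 0 := by
      rw [← hgβ q, (memL q).mp hq, map_zero]
    have h3 : q ∈ LinearMap.range f := by
      rw [hfg]
      exact h2
    obtain ⟨p, hp⟩ := h3
    obtain ⟨p0, hp0, p1, hp1, hp2⟩ := Submodule.mem_sup.mp
      (show p ∈ K ⊔ P1 from hα.sup_eq_top ▸ Submodule.mem_top)
    refine ⟨p0, hp0, ?_⟩
    have h4 : f p1 ∈ Q1 := hf1 _ hp1
    have h5 : f p0 ∈ L := by
      rw [memL, ← hfα, (memK p0).mp hp0, map_zero]
    have h6 : f p1 = q - f p0 := by
      rw [← hp, ← hp2, map_add]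
      abel
    have h7 : f p1 ∈ L := by
      rw [h6]
      exact L.sub_mem hq h5
    have h8 : f p1 = 0 := Submodule.disjoint_def.mp hβ.disjoint _ h7 h4
    rw [h8] at h6
    exact (sub_eq_zero.mp h6.symm).symm
  have hg1 : Surjective g1 := by
    intro y
    obtain ⟨q, hq⟩ := hg y
    exact ⟨⟨β q, (memQ _).mpr ⟨q, rfl⟩⟩, (hgβ q).trans hq⟩
  have hrange : LinearMap.range f1 = LinearMap.ker g1 := by
    ext ⟨q, hq⟩
    rw [LinearMap.mem_range, LinearMap.mem_ker]
    constructor
    · rintro ⟨⟨p, hp⟩, hpq⟩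
      have h2 : f p = q := congrArg Subtype.val hpq
      change g q = 0
      rw [← h2]
      have h3 : f p ∈ LinearMap.ker g := hfg ▸ LinearMap.mem_range_self f p
      exact h3
    · intro h2
      have h3 : q ∈ LinearMap.range f := by
        rw [hfg]
        exact h2
      obtain ⟨p, hp⟩ := h3
      obtain ⟨p0, hp0, p1, hp1, hp2⟩ := Submodule.mem_sup.mp
        (show p ∈ K ⊔ P1 from hα.sup_eq_top ▸ Submodule.mem_top)
      refine ⟨⟨p1, hp1⟩, Subtype.ext ?_⟩
      change f p1 = q
      have h4 : f p1 ∈ Q1 := hf1 _ hp1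
      have h5 : f p0 ∈ L := by
        rw [memL, ← hfα, (memK p0).mp hp0, map_zero]
      have h6 : f p0 = q - f p1 := by
        rw [← hp, ← hp2, map_add]
        abel
      have h7 : f p0 ∈ Q1 := by
        rw [h6]
        exact Q1.sub_mem hq h4
      have h8 : f p0 = 0 := Submodule.disjoint_def.mp hβ.disjoint _ h5 h7
      rw [h8] at h6
      exact (sub_eq_zero.mp h6.symm).symm
  refine ⟨f1, g1, hg1, hrange, ?_, ?_⟩
  · intro h φ
    obtain ⟨ψ, hψ⟩ := h (φ ∘ₗ P1.projectionOnto K hα.symm)
    refine ⟨ψ ∘ₗ Q1.subtype, ?_⟩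
    ext x
    have h2 := LinearMap.congr_fun hψ (x : P)
    change φ (P1.projectionOnto K hα.symm x) = ψ (f x) at h2
    change φ x = ψ (f x)
    rw [← h2]
    congr 1
    simp
  · intro f1'
    let u : P →ₗ[A] Q := Q1.subtype ∘ₗ f1' ∘ₗ P1.projectionOnto K hα.symm
    let v : P →ₗ[A] Q := f ∘ₗ K.subtype ∘ₗ K.projectionOnto P1 hα
    have e1 : ∀ x : P1, (u + v) x = f1' x := by
      intro x
      change ((f1' (P1.projectionOnto K hα.symm x) : Q1) : Q) +
        f (K.projectionOnto P1 hα x : P) = f1' x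
      simp
    have e2 : ∀ x : K, (u + v) x = f x := by
      intro x
      change ((f1' (P1.projectionOnto K hα.symm x) : Q1) : Q) +
        f (K.projectionOnto P1 hα x : P) = f x
      simp
    refine ⟨u + v, coker_dim_le (k := k) (u + v) Q1 L hβ.sup_eq_top _ ?_ ?_⟩
    · rintro _ ⟨x, rfl⟩
      rw [← e1 x]
      exact LinearMap.mem_range_self _ _
    · intro q hq
      obtain ⟨p, hp, rfl⟩ := hL q hq
      rw [← e2 ⟨p, hp⟩]
      exact LinearMap.mem_range_self _ _

theorem reduce {P Q M : Type} [AddCommGroup P] [Module A P] [Module k P] [IsScalarTower k A P]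
    [Module.Finite k P] [Module.Projective A P] [AddCommGroup Q] [Module A Q] [Module k Q]
    [IsScalarTower k A Q] [Module.Finite k Q] [Module.Projective A Q]
    [AddCommGroup M] [Module A M] [Module k M] [IsScalarTower k A M] [Module.Finite k M]
    (f : P →ₗ[A] Q) (g : Q →ₗ[A] M) (hg : Surjective g)
    (hfg : LinearMap.range f = LinearMap.ker g) :
    ∃ (P1 : Submodule A P) (Q1 : Submodule A Q) (f1 : P1 →ₗ[A] Q1) (g1 : Q1 →ₗ[A] M),
      Module.Projective A P1 ∧ Module.Projective A Q1 ∧ Surjective g1 ∧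
      LinearMap.range f1 = LinearMap.ker g1 ∧
      ((∀ φ : P →ₗ[A] M, ∃ ψ : Q →ₗ[A] M, φ = ψ ∘ₗ f) →
        ∀ φ : P1 →ₗ[A] M, ∃ ψ : Q1 →ₗ[A] M, φ = ψ ∘ₗ f1) ∧
      (∀ f1' : P1 →ₗ[A] Q1, ∃ f' : P →ₗ[A] Q,
        finrank k (Q ⧸ LinearMap.range f') ≤ finrank k (Q1 ⧸ LinearMap.range f1')) ∧
      finrank k Q1 ≤ finrank k M * finrank k A ∧
      finrank k P1 ≤ finrank k M * finrank k A * finrank k A := by
  classical
  obtain ⟨P0, Q0, _, _, _, _, _, _, _, _, _, _, _, _, f0, g0, hg0, hf0, hQ0d, hP0d⟩ :=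
    exists_pres0 k (A := A) M
  -- the lifts
  obtain ⟨b, hb⟩ := Module.projective_lifting_property g0 g hg0
  obtain ⟨b', hb'⟩ := Module.projective_lifting_property g g0 hg
  have h1 : ∀ x, (b ∘ₗ f) x ∈ LinearMap.range f0 := by
    intro x
    rw [hf0, LinearMap.mem_ker]
    have h2 := LinearMap.congr_fun hb (f x)
    change g0 (b (f x)) = g (f x) at h2
    have h3 : f x ∈ LinearMap.ker g := hfg ▸ LinearMap.mem_range_self f x
    change g0 (b (f x)) = 0
    rw [h2]
    exact h3
  obtain ⟨a, ha⟩ := Module.projective_lifting_property f0.rangeRestrict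
    ((b ∘ₗ f).codRestrict _ h1) f0.surjective_rangeRestrict
  have h1' : ∀ x, (b' ∘ₗ f0) x ∈ LinearMap.range f := by
    intro x
    rw [hfg, LinearMap.mem_ker]
    have h2 := LinearMap.congr_fun hb' (f0 x)
    change g (b' (f0 x)) = g0 (f0 x) at h2
    have h3 : f0 x ∈ LinearMap.ker g0 := by
      rw [← hf0]
      exact LinearMap.mem_range_self f0 x
    change g (b' (f0 x)) = 0
    rw [h2]
    exact h3
  obtain ⟨a', ha'⟩ := Module.projective_lifting_property f.rangeRestrict
    ((b' ∘ₗ f0).codRestrict _ h1') f.surjective_rangeRestrict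
  have ha2 : ∀ x, f0 (a x) = b (f x) := fun x =>
    congrArg Subtype.val (LinearMap.congr_fun ha x)
  have ha2' : ∀ x, f (a' x) = b' (f0 x) := fun x =>
    congrArg Subtype.val (LinearMap.congr_fun ha' x)
  let α : Module.End A P := a' ∘ₗ a
  let β : Module.End A Q := b' ∘ₗ b
  have hfα : ∀ x, f (α x) = β (f x) := by
    intro x
    change f (a' (a x)) = b' (b (f x))
    rw [ha2', ha2]
  have hgβ : ∀ y, g (β y) = g y := by
    intro y
    change g (b' (b y)) = g y
    have h2 := LinearMap.congr_fun hb' (b y)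
    have h3 := LinearMap.congr_fun hb y
    exact h2.trans h3
  have hfαn : ∀ (n : ℕ) (x : P), f ((α ^ n) x) = (β ^ n) (f x) := by
    intro n
    induction n with
    | zero => intro x; rfl
    | succ n ih =>
      intro x
      rw [pow_succ, pow_succ, Module.End.mul_apply, Module.End.mul_apply, ih, hfα]
  have hgβn : ∀ (n : ℕ) (y : Q), g ((β ^ n) y) = g y := by
    intro n
    induction n with
    | zero => intro y; rfl
    | succ n ih =>
      intro y
      rw [pow_succ, Module.End.mul_apply, ih, hgβ]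
  obtain ⟨n1, hn1⟩ := fitting k α
  obtain ⟨n2, hn2⟩ := fitting k β
  let n := n1 + n2 + 1
  have hα := hn1 n (by omega)
  have hβ := hn2 n (by omega)
  obtain ⟨f1, g1, c1, c2, c3, c4⟩ := reduce_core (k := k) f g hg hfg (α ^ n) (β ^ n) _ _ _ _
    rfl rfl rfl rfl hα hβ (hfαn n) (hgβn n)
  refine ⟨_, _, f1, g1, projective_compl _ _ hα.symm, projective_compl _ _ hβ.symm, c1, c2, c3, c4,
    ?_, ?_⟩
  · have h2 : LinearMap.range (β ^ n) ≤ LinearMap.range b' := by
      rintro _ ⟨y, rfl⟩
      have h3 : (β ^ n) y = b' (b ((β ^ (n1 + n2)) y)) := by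
        change (β ^ (n1 + n2 + 1)) y = _
        rw [pow_succ', Module.End.mul_apply]
        rfl
      rw [h3]
      exact LinearMap.mem_range_self _ _
    have h3 : finrank k (LinearMap.range (β ^ n)) ≤ finrank k (LinearMap.range b') := by
      have _ : Module.Finite k (LinearMap.range b') :=
        Module.Finite.of_injective ((LinearMap.range b').subtype.restrictScalars k)
          Subtype.val_injective
      exact LinearMap.finrank_le_finrank_of_injective
        (f := (Submodule.inclusion h2).restrictScalars k) (Submodule.inclusion_injective h2)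
    have h4 : finrank k (LinearMap.range b') ≤ finrank k Q0 :=
      LinearMap.finrank_le_finrank_of_surjective (f := b'.rangeRestrict.restrictScalars k)
        b'.surjective_rangeRestrict
    rw [hQ0d] at h4
    exact h3.trans h4
  · have h2 : LinearMap.range (α ^ n) ≤ LinearMap.range a' := by
      rintro _ ⟨y, rfl⟩
      have h3 : (α ^ n) y = a' (a ((α ^ (n1 + n2)) y)) := by
        change (α ^ (n1 + n2 + 1)) y = _
        rw [pow_succ', Module.End.mul_apply]
        rfl
      rw [h3]
      exact LinearMap.mem_range_self _ _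
    have h3 : finrank k (LinearMap.range (α ^ n)) ≤ finrank k (LinearMap.range a') := by
      have _ : Module.Finite k (LinearMap.range a') :=
        Module.Finite.of_injective ((LinearMap.range a').subtype.restrictScalars k)
          Subtype.val_injective
      exact LinearMap.finrank_le_finrank_of_injective
        (f := (Submodule.inclusion h2).restrictScalars k) (Submodule.inclusion_injective h2)
    have h4 : finrank k (LinearMap.range a') ≤ finrank k P0 :=
      LinearMap.finrank_le_finrank_of_surjective (f := a'.rangeRestrict.restrictScalars k)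
        a'.surjective_rangeRestrict
    exact (h3.trans h4).trans hP0d

end reduce

end BT
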