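import Mathlib
import Pool.Agent.Helper16.BT.GrowE
import Pool.Agent.Helper16.BT.Reduce
import Pool.Agent.Helper16.BT.Quot

/-!
Factor algebras, and finiteness of the bricks with a presentation of maximal rank.
-/

namespace BT

open Module Function

section quot

/-- factor algebras of an algebra without stable family have rigid points everywhere -/
theorem nr_quot (k : Type) [Field k] [IsAlgClosed k] (A : Type) [Ring A] [Algebra k A]
    [Module.Finite k A] {ι : Type} [Fintype ι] {s : ℕ} (D : Dat k A ι s)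
    (hcon : ¬ HasStableFamily k A) (B : Type) [Ring B] [Algebra k B] (π : A →ₐ[k] B)
    (hπ : Surjective π) : NR B := by
  have hfB : Module.Finite k B := Module.Finite.of_surjective π.toLinearMap hπ
  let E := Fintype.equivFin ι
  obtain ⟨D', hD'e, hD'r⟩ := D.exists_map π hπ
  have he : CompleteOrthogonalIdempotents (D.e ∘ E.symm) :=
    (CompleteOrthogonalIdempotents.equiv E.symm).mpr D.he
  have he' : CompleteOrthogonalIdempotents (π ∘ (D.e ∘ E.symm)) := by
    have := (CompleteOrthogonalIdempotents.equiv E.symm).mpr D'.he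
    rw [hD'e] at this
    exact this
  have hSA : ¬ SF k A (D.e ∘ E.symm) := by
    rintro ⟨d, θ, h0, h1⟩
    exact hcon ⟨_, D.e ∘ E.symm, d, θ, he, h0, h1⟩
  have hSB : ¬ SF k B (π ∘ (D.e ∘ E.symm)) := fun h => hSA (SF.of_quot π hπ h)
  have hwB : HasWt k B (π ∘ (D.e ∘ E.symm)) := by
    intro P Q _ _ _ _ _ _ _ _ _ _ _ _
    obtain ⟨w, hw⟩ := D'.weight P Q
    refine ⟨w ∘ E.symm, ?_⟩
    intro X _ _ _ _ _
    rw [hw X, hD'e]
    exact (Equiv.sum_comp E.symm (fun i => w i * (ed k ((π ∘ D.e) i) X : ℤ))).symm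
  have _ : Infinite k := IsAlgClosed.instInfinite
  have hR := exists_rigid_rel k B _ he' hwB hSB
  intro P Q _ _ _ _ _ _ _ _
  let _ : Module k P := Module.compHom P (algebraMap k B)
  have _ : IsScalarTower k B P := ⟨fun c a z => by
    change (c • a) • z = (algebraMap k B c) • (a • z)
    rw [Algebra.smul_def, mul_smul]⟩
  let _ : Module k Q := Module.compHom Q (algebraMap k B)
  have _ : IsScalarTower k B Q := ⟨fun c a z => by
    change (c • a) • z = (algebraMap k B c) • (a • z)
    rw [Algebra.smul_def, mul_smul]⟩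
  have _ : Module.Finite k P := Module.Finite.trans B P
  have _ : Module.Finite k Q := Module.Finite.trans B Q
  obtain ⟨w, -, hw⟩ := hR P Q 0 ⊤ (fun w _ g => ⟨0, 0, g, Submodule.mem_top, by simp⟩)
  exact ⟨0 + w, hw⟩

end quot

section brick

variable {k B : Type} [Field k] [Ring B] [Algebra k B]

/-- presentations of maximal rank, or τ-rigid ones -/
def Pres (k B M : Type) [Field k] [Ring B] [Algebra k B] [AddCommGroup M] [Module B M] : Prop :=
  ∃ (P Q : Type) (_ : AddCommGroup P) (_ : Module B P) (_ : AddCommGroup Q) (_ : Module B Q)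
    (_ : Module k Q) (_ : IsScalarTower k B Q) (f : P →ₗ[B] Q) (g : Q →ₗ[B] M),
    Module.Finite B P ∧ Module.Projective B P ∧ Module.Finite B Q ∧ Module.Projective B Q ∧
    Surjective g ∧ LinearMap.range f = LinearMap.ker g ∧
    ((∀ f' : P →ₗ[B] Q,
      finrank k (Q ⧸ LinearMap.range f) ≤ finrank k (Q ⧸ LinearMap.range f')) ∨
      ∀ φ : P →ₗ[B] M, ∃ ψ : Q →ₗ[B] M, φ = ψ ∘ₗ f)

/-- the cokernel is the module -/
noncomputable def cokIso {P Q M : Type} [AddCommGroup P] [Module B P] [AddCommGroup Q] [Module B Q]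
    [AddCommGroup M] [Module B M] {f : P →ₗ[B] Q} {g : Q →ₗ[B] M} (hg : Surjective g)
    (hfg : LinearMap.range f = LinearMap.ker g) : (Q ⧸ LinearMap.range f) ≃ₗ[B] M :=
  (Submodule.quotEquivOfEq _ _ hfg).trans (LinearMap.quotKerEquivOfSurjective g hg)

theorem hd_brick {C M : Type} [AddCommGroup C] [Module B C] [Module k C] [IsScalarTower k B C]
    [AddCommGroup M] [Module B M] [Module k M] [IsScalarTower k B M] [Nontrivial M]
    (e : C ≃ₗ[B] M) (h : ∀ φ : M →ₗ[B] M, ∃ c : k, ∀ x : M, φ x = c • x) : hd k B C C = 1 := by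
  have hC : Nontrivial C := e.toEquiv.nontrivial
  rw [hd, finrank_eq_one_iff']
  refine ⟨LinearMap.id, ?_, ?_⟩
  · intro h0
    obtain ⟨x, hx⟩ := exists_ne (0 : C)
    exact hx (LinearMap.congr_fun h0 x)
  · intro φ
    obtain ⟨c, hc⟩ := h (e.toLinearMap ∘ₗ φ ∘ₗ e.symm.toLinearMap)
    refine ⟨c, ?_⟩
    ext x
    have h1 := hc (e x)
    change e (φ (e.symm (e x))) = c • e x at h1
    rw [e.symm_apply_apply, ← algebraMap_smul B c (e x), ← map_smul] at h1
    have h2 := e.injective h1
    change c • x = φ x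
    rw [h2, algebraMap_smul]

variable [Module.Finite k B] {ι : Type} [Fintype ι] {s : ℕ} (D : Dat k B ι s)

/-- reduction of a presentation -/
theorem Pres.reduce {M : Type} [AddCommGroup M] [Module B M] [Module k M] [IsScalarTower k B M]
    [Module.Finite k M] (h : Pres k B M) :
    ∃ (P Q : Type) (_ : AddCommGroup P) (_ : Module B P) (_ : Module k P) (_ : IsScalarTower k B P)
      (_ : Module.Finite k P) (_ : Module.Projective B P) (_ : AddCommGroup Q) (_ : Module B Q)
      (_ : Module k Q) (_ : IsScalarTower k B Q) (_ : Module.Finite k Q)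
      (_ : Module.Projective B Q) (f : P →ₗ[B] Q), MaxR k f ∧
      Nonempty ((Q ⧸ LinearMap.range f) ≃ₗ[B] M) ∧
      finrank k P + finrank k Q ≤ (finrank k B + finrank k B * finrank k B) * finrank k M := by
  obtain ⟨P, Q, _, _, _, _, _, _, f, g, hfP, hpP, hfQ, hpQ, hg, hfg, hc⟩ := h
  let _ : Module k P := Module.compHom P (algebraMap k B)
  have _ : IsScalarTower k B P := ⟨fun c a z => by
    change (c • a) • z = (algebraMap k B c) • (a • z)
    rw [Algebra.smul_def, mul_smul]⟩
  have _ : Module.Finite k P := Module.Finite.trans B P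
  have _ : Module.Finite k Q := Module.Finite.trans B Q
  obtain ⟨P1, Q1, f1, g1, hP1, hQ1, hg1, hfg1, h1, h2, h3, h4⟩ := BT.reduce (k := k) f g hg hfg
  have _ := finU (k := k) P1
  have _ := finU (k := k) Q1
  let e := cokIso hg hfg
  let e1 := cokIso hg1 hfg1
  refine ⟨P1, Q1, inferInstance, inferInstance, inferInstance, inferInstance, inferInstance, hP1,
    inferInstance, inferInstance, inferInstance, inferInstance, inferInstance, hQ1, f1, ?_,
    ⟨e1⟩, ?_⟩
  · rcases hc with hc | hc
    · intro f1'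
      obtain ⟨f', hf'⟩ := h2 f1'
      have e2 : finrank k (Q1 ⧸ LinearMap.range f1) = finrank k (Q ⧸ LinearMap.range f) := by
        rw [dim_congr (k := k) e1, dim_congr (k := k) e]
      rw [e2]
      exact (hc f').trans hf'
    · have h5 := h1 hc
      refine rigid_maxR (k := k) (rigid_of_E0 ?_)
      intro φ
      obtain ⟨ψ, hψ⟩ := h5 (e1.toLinearMap ∘ₗ φ)
      refine ⟨e1.symm.toLinearMap ∘ₗ ψ, ?_⟩
      ext x
      have h6 := LinearMap.congr_fun hψ x
      change e1 (φ x) = ψ (f1 x) at h6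
      change φ x = e1.symm (ψ (f1 x))
      rw [← h6, e1.symm_apply_apply]
  · nlinarith

include D in
/-- finiteness of bricks -/
theorem bricks_fin (hR : NR B) : ∃ n : ℕ, ∀ (N : ℕ) (V : Fin N → Type) [∀ j, AddCommGroup (V j)]
    [∀ j, Module B (V j)] [∀ j, Module k (V j)] [∀ j, IsScalarTower k B (V j)]
    [∀ j, Module.Finite k (V j)] [∀ j, Nontrivial (V j)],
    (∀ j, ∀ φ : V j →ₗ[B] V j, ∃ c : k, ∀ x : V j, φ x = c • x) →
    (∀ j, Pres k B (V j)) → (∀ i j, Nonempty (V i ≃ₗ[B] V j) → i = j) → N ≤ n := by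
  classical
  let C0 : ℕ := finrank k B + finrank k B * finrank k B
  obtain ⟨ε, hε, hg⟩ := growthU (k := k) D.r (finrank k B) C0
  let m : ℕ := ⌈ε⁻¹⌉₊
  let Z : ℕ := finrank k B * (C0 * m)
  refine ⟨Fintype.card ((Fin s → Fin (2 * Z + 1)) × Fin (m + 1)), ?_⟩
  intro N V _ _ _ _ _ _ hV1 hV2 hne
  have h1 := fun j => (hV2 j).reduce (k := k)
  choose P Q p1 p2 p3 p4 p5 p6 q1 q2 q3 q4 q5 q6 f hf hiso hsize using h1
  have e : ∀ j, (Q j ⧸ LinearMap.range (f j)) ≃ₗ[B] V j := fun j => (hiso j).some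
  have hfc : ∀ j, Module.Finite k (Q j ⧸ LinearMap.range (f j)) := fun j => finC (k := k) (f j)
  have hnc : ∀ j, Nontrivial (Q j ⧸ LinearMap.range (f j)) := fun j => (e j).toEquiv.nontrivial
  have hhd : ∀ j, hd k B (Q j ⧸ LinearMap.range (f j)) (Q j ⧸ LinearMap.range (f j)) = 1 :=
    fun j => hd_brick (e j) (hV1 j)
  have hE0 : ∀ j, E0 (f j) (Q j ⧸ LinearMap.range (f j)) := by
    intro j
    apply E0_of_Th (k := k)
    rw [hhd j]
    have := D.maxR_Th hR (hf j)
    omega
  have hTh : ∀ j, Th k B (P j) (Q j) (Q j ⧸ LinearMap.range (f j)) = 1 := by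
    intro j
    rw [Th_eq (k := k) (hE0 j), hhd j]
    rfl
  have hdimV : ∀ j, finrank k (Q j ⧸ LinearMap.range (f j)) = finrank k (V j) :=
    fun j => dim_congr (e j)
  have hm : ∀ j, finrank k (Q j ⧸ LinearMap.range (f j)) ≤ m := by
    intro j
    have h2 := hg B D rfl le_rfl hR (P j) (Q j) (f j) (Or.inr (hE0 j)) (by
      rw [hdimV j]
      exact hsize j)
    rw [hTh j] at h2
    have h3 : 0 < finrank k (Q j ⧸ LinearMap.range (f j)) := Module.finrank_pos
    have h4 : (1 : ℝ) ≤ (finrank k (Q j ⧸ LinearMap.range (f j)) : ℝ) := by exact_mod_cast h3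
    have h5 : (finrank k (Q j ⧸ LinearMap.range (f j)) : ℝ) ≤ ε⁻¹ := by
      rw [← one_div, le_div_iff₀ hε]
      push_cast at h2
      nlinarith
    exact_mod_cast h5.trans (Nat.le_ceil _)
  have hz := fun j => D.weight_bd (P := P j) (Q := Q j)
  choose z hz hzb using hz
  have hzZ : ∀ j t, |z j t| ≤ (Z : ℤ) := by
    intro j t
    refine (hzb j t).trans ?_
    have h2 : finrank k (P j) + finrank k (Q j) ≤ C0 * m :=
      (hsize j).trans (Nat.mul_le_mul_left _ ((hdimV j).symm.le.trans (hm j)))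
    have h3 : finrank k B * (finrank k (P j) + finrank k (Q j)) ≤ Z :=
      Nat.mul_le_mul_left _ h2
    exact_mod_cast h3
  let key : Fin N → (Fin s → Fin (2 * Z + 1)) × Fin (m + 1) := fun j =>
    (fun t => ⟨(z j t + Z).toNat, by
      have := abs_le.mp (hzZ j t)
      omega⟩, ⟨finrank k (Q j ⧸ LinearMap.range (f j)), by
      have := hm j
      omega⟩)
  have hkey : Injective key := by
    intro i j hij
    apply hne
    have h2 : z i = z j := by
      funext t
      have h3 := congrArg (fun x => ((x.1 t : Fin (2 * Z + 1)) : ℕ)) hij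
      change (z i t + Z).toNat = (z j t + Z).toNat at h3
      have h4 := abs_le.mp (hzZ i t)
      have h5 := abs_le.mp (hzZ j t)
      omega
    have h3 : finrank k (Q i ⧸ LinearMap.range (f i)) = finrank k (Q j ⧸ LinearMap.range (f j)) := by
      have h3 := congrArg (fun x => ((x.2 : Fin (m + 1)) : ℕ)) hij
      exact h3
    obtain ⟨g⟩ := uniq (k := k) (hE0 i) (hE0 j) (fun X _ _ _ _ _ => by
      rw [hz i X, hz j X, h2]) (hTh j) h3
    exact ⟨((e i).symm.trans g).trans (e j)⟩
  have h2 := Fintype.card_le_of_injective key hkey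
  rwa [Fintype.card_fin] at h2

end brick

end BT
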