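import Mathlib
import Pool.Agent.Helper16.BT.GrowF

/-!
The final statements.
-/

namespace BT

open Module Function

section final

/-- injective, of maximal rank, or τ-rigid -/
def GoodP (k : Type) {B P Q : Type} [Field k] [Ring B] [Algebra k B] [AddCommGroup P] [Module B P]
    [AddCommGroup Q] [Module B Q] [Module k Q] [IsScalarTower k B Q] (f : P →ₗ[B] Q) : Prop :=
  Injective f ∨ (∀ f' : P →ₗ[B] Q,
    finrank k (Q ⧸ LinearMap.range f) ≤ finrank k (Q ⧸ LinearMap.range f')) ∨
  ∀ φ : P →ₗ[B] (Q ⧸ LinearMap.range f), ∃ ψ : Q →ₗ[B] (Q ⧸ LinearMap.range f), φ = ψ ∘ₗ f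

variable {k : Type} [Field k]

theorem good_maxR {B : Type} [Ring B] [Algebra k B] [Module.Finite k B] {P Q : Type}
    [AddCommGroup P] [Module B P] [Module k P] [IsScalarTower k B P]
    [Module.Finite k P] [Module.Projective B P] [AddCommGroup Q] [Module B Q] [Module k Q]
    [IsScalarTower k B Q] [Module.Finite k Q] [Module.Projective B Q] {f : P →ₗ[B] Q}
    (h : GoodP k f) : MaxR k f := by
  rcases h with h | h | h
  · exact injective_maxR (k := k) h
  · exact h
  · exact rigid_maxR (k := k) (rigid_of_E0 h)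

theorem hd_congr_both {B : Type} [Ring B] [Algebra k B] {X Y : Type} [AddCommGroup X]
    [Module B X] [Module k X] [IsScalarTower k B X] [AddCommGroup Y] [Module B Y] [Module k Y]
    [IsScalarTower k B Y] (e : X ≃ₗ[B] Y) : hd k B X X = hd k B Y Y := by
  let r : (X →ₗ[B] X) ≃ₗ[k] (Y →ₗ[B] Y) :=
    { toFun := fun h => e.toLinearMap ∘ₗ h ∘ₗ e.symm.toLinearMap
      map_add' := fun h h' => by
        ext y
        change e ((h + h') (e.symm y)) = e (h (e.symm y)) + e (h' (e.symm y))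
        rw [LinearMap.add_apply, map_add]
      map_smul' := fun c h => by
        ext y
        change e (c • h (e.symm y)) = c • e (h (e.symm y))
        rw [← algebraMap_smul B c (h (e.symm y)), map_smul, algebraMap_smul]
      invFun := fun h => e.symm.toLinearMap ∘ₗ h ∘ₗ e.toLinearMap
      left_inv := fun h => by
        ext x
        change e.symm (e (h (e.symm (e x)))) = h x
        rw [e.symm_apply_apply, e.symm_apply_apply]
      right_inv := fun h => by
        ext x
        change e (e.symm (h (e (e.symm x)))) = h x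
        rw [e.apply_symm_apply, e.apply_symm_apply] }
  exact r.finrank_eq

/-- growth up to the defect, for all presentations over all factor algebras -/
theorem final_gen [IsAlgClosed k] (A : Type) [Ring A] [Algebra k A]
    [Module.Finite k A] (hcon : ¬ HasStableFamily k A) :
    ∃ ε : ℝ, 0 < ε ∧ ∀ (B : Type) [Ring B] [Algebra k B] (π : A →ₐ[k] B), Surjective π →
      ∀ (P Q : Type) [AddCommGroup P] [Module B P] [Module k P] [IsScalarTower k B P]
      [Module.Finite k P] [Module.Projective B P]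
      [AddCommGroup Q] [Module B Q] [Module k Q] [IsScalarTower k B Q] [Module.Finite k Q]
      [Module.Projective B Q] (f : P →ₗ[B] Q),
      ∃ f' : P →ₗ[B] Q, ε * (finrank k (Q ⧸ LinearMap.range f) : ℝ) ^ 2 ≤
        (hd k B (Q ⧸ LinearMap.range f) (Q ⧸ LinearMap.range f) : ℝ) +
        (finrank k (Q ⧸ LinearMap.range f) : ℝ) * ((finrank k (Q ⧸ LinearMap.range f) : ℝ) -
          (finrank k (Q ⧸ LinearMap.range f') : ℝ)) := by
  obtain ⟨s, d, ⟨D⟩⟩ := exists_dat k A
  obtain ⟨ε, hε, hg⟩ := growth_genU (k := k) D.r (finrank k A)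
    (finrank k A + finrank k A * finrank k A)
  refine ⟨ε, hε, ?_⟩
  intro B _ _ π hπ P Q _ _ _ _ _ _ _ _ _ _ _ _ f
  have hfB : Module.Finite k B := Module.Finite.of_surjective π.toLinearMap hπ
  have hBA : finrank k B ≤ finrank k A :=
    LinearMap.finrank_le_finrank_of_surjective (f := π.toLinearMap) hπ
  obtain ⟨D', -, hD'r⟩ := D.exists_map π hπ
  have hR := nr_quot k A D hcon B π hπ
  have _ := finC (k := k) f
  obtain ⟨P1, Q1, f1, g1, hP1, hQ1, hg1, hfg1, -, h2, h3, h4⟩ :=
    BT.reduce (k := k) f (LinearMap.range f).mkQ (Submodule.mkQ_surjective _)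
      (Submodule.ker_mkQ _).symm
  have _ := finU (k := k) P1
  have _ := finU (k := k) Q1
  let e1 := cokIso hg1 hfg1
  have hd1 : finrank k (Q1 ⧸ LinearMap.range f1) = finrank k (Q ⧸ LinearMap.range f) :=
    dim_congr e1
  obtain ⟨f1', hf1'⟩ := hg B D' hD'r hBA hR P1 Q1 f1 (by
    rw [hd1]
    have e2 : finrank k B * finrank k B ≤ finrank k A * finrank k A := Nat.mul_le_mul hBA hBA
    have e3 : (finrank k B + finrank k B * finrank k B) * finrank k (Q ⧸ LinearMap.range f) ≤
        (finrank k A + finrank k A * finrank k A) * finrank k (Q ⧸ LinearMap.range f) :=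
      Nat.mul_le_mul_right _ (Nat.add_le_add hBA e2)
    nlinarith)
  obtain ⟨f', hf'⟩ := h2 f1'
  refine ⟨f', ?_⟩
  rw [hd1, hd_congr_both (k := k) e1] at hf1'
  refine hf1'.trans ?_
  have h5 : (finrank k (Q ⧸ LinearMap.range f') : ℝ) ≤ (finrank k (Q1 ⧸ LinearMap.range f1') : ℝ) := by
    exact_mod_cast hf'
  have h6 : (0 : ℝ) ≤ (finrank k (Q ⧸ LinearMap.range f) : ℝ) := by positivity
  nlinarith

/-- the Euler form version for presentations of maximal rank -/
theorem final_good [IsAlgClosed k] (A : Type) [Ring A] [Algebra k A]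
    [Module.Finite k A] (hcon : ¬ HasStableFamily k A) :
    ∃ ε : ℝ, 0 < ε ∧ ∀ (B : Type) [Ring B] [Algebra k B] (π : A →ₐ[k] B), Surjective π →
      ∀ (P Q : Type) [AddCommGroup P] [Module B P] [Module k P] [IsScalarTower k B P]
      [Module.Finite k P] [Module.Projective B P]
      [AddCommGroup Q] [Module B Q] [Module k Q] [IsScalarTower k B Q] [Module.Finite k Q]
      [Module.Projective B Q] (f : P →ₗ[B] Q),
      (∃ f' : P →ₗ[B] Q, ε * (finrank k (Q ⧸ LinearMap.range f) : ℝ) ^ 2 ≤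
        (hd k B (Q ⧸ LinearMap.range f) (Q ⧸ LinearMap.range f) : ℝ) +
        (finrank k (Q ⧸ LinearMap.range f) : ℝ) * ((finrank k (Q ⧸ LinearMap.range f) : ℝ) -
          (finrank k (Q ⧸ LinearMap.range f') : ℝ))) ∧
      (GoodP k f → ε * (finrank k (Q ⧸ LinearMap.range f) : ℝ) ^ 2 ≤
        (hd k B Q (Q ⧸ LinearMap.range f) : ℝ) - (hd k B P (Q ⧸ LinearMap.range f) : ℝ)) := by
  obtain ⟨ε, hε, hg⟩ := final_gen (k := k) A hcon
  refine ⟨ε, hε, ?_⟩
  intro B _ _ π hπ P Q _ _ _ _ _ _ _ _ _ _ _ _ f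
  refine ⟨hg B π hπ P Q f, ?_⟩
  intro hf
  have hfB : Module.Finite k B := Module.Finite.of_surjective π.toLinearMap hπ
  obtain ⟨s, d, ⟨D⟩⟩ := exists_dat k A
  obtain ⟨D', -, -⟩ := D.exists_map π hπ
  have hR := nr_quot k A D hcon B π hπ
  have hm := good_maxR hf
  obtain ⟨f0, h0⟩ := nr_rigid (k := k) hR P Q
  have _ := finC (k := k) f
  have _ := finC (k := k) f0
  obtain ⟨f', hf'⟩ := hg B π hπ P Q f0
  have h1 : finrank k (Q ⧸ LinearMap.range f) = finrank k (Q ⧸ LinearMap.range f0) := by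
    rw [dim_eq_sum (k := k) D'.he, dim_eq_sum (k := k) D'.he]
    exact Finset.sum_congr rfl (fun i _ => D'.maxR_ed hm h0 i)
  have h2 : Th k B P Q (Q ⧸ LinearMap.range f) = Th k B P Q (Q ⧸ LinearMap.range f0) := by
    obtain ⟨z, hz, -⟩ := D'.weight_bd (P := P) (Q := Q)
    rw [hz, hz]
    exact Finset.sum_congr rfl (fun t _ => by rw [D'.maxR_ed hm h0])
  have h3 := Th_eq (k := k) h0.E0_coker
  have h4 : (hd k B Q (Q ⧸ LinearMap.range f) : ℝ) - (hd k B P (Q ⧸ LinearMap.range f) : ℝ) =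
      (hd k B (Q ⧸ LinearMap.range f0) (Q ⧸ LinearMap.range f0) : ℝ) := by
    have h5 : (hd k B Q (Q ⧸ LinearMap.range f) : ℤ) - (hd k B P (Q ⧸ LinearMap.range f) : ℤ) =
      (hd k B (Q ⧸ LinearMap.range f0) (Q ⧸ LinearMap.range f0) : ℤ) := by
      rw [← h3, ← h2, Th]
    exact_mod_cast h5
  rw [h4, h1]
  refine hf'.trans ?_
  have h6 : (finrank k (Q ⧸ LinearMap.range f0) : ℝ) ≤ (finrank k (Q ⧸ LinearMap.range f') : ℝ) := by
    exact_mod_cast rigid_maxR (k := k) h0 f'
  have h7 : (0 : ℝ) ≤ (finrank k (Q ⧸ LinearMap.range f0) : ℝ) := by positivity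
  nlinarith

end final

end BT
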