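import Mathlib
import Pool.Agent.Helper16.BT.GrowG

/-!
Assembly of the growth theorem.
-/

namespace BT

open Module Function

/-- a module which is the cokernel of a good presentation -/
def HasGood (k B M : Type) [Field k] [Ring B] [Algebra k B] [AddCommGroup M] [Module B M] : Prop :=
  ∃ (P Q : Type) (_ : AddCommGroup P) (_ : Module B P) (_ : AddCommGroup Q) (_ : Module B Q)
    (_ : Module k Q) (_ : IsScalarTower k B Q) (f : P →ₗ[B] Q),
    Module.Finite B P ∧ Module.Projective B P ∧ Module.Finite B Q ∧ Module.Projective B Q ∧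
    GoodP k f ∧ Nonempty ((Q ⧸ LinearMap.range f) ≃ₗ[B] M)

theorem HasGood.pres {k B M : Type} [Field k] [Ring B] [Algebra k B] [Module.Finite k B]
    [AddCommGroup M] [Module B M] (h : HasGood k B M) : Pres k B M := by
  obtain ⟨P, Q, _, _, _, _, _, _, f, h1, h2, h3, h4, h5, ⟨e⟩⟩ := h
  let _ : Module k P := Module.compHom P (algebraMap k B)
  have _ : IsScalarTower k B P := ⟨fun c a z => by
    change (c • a) • z = (algebraMap k B c) • (a • z)
    rw [Algebra.smul_def, mul_smul]⟩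
  have _ : Module.Finite k P := Module.Finite.trans B P
  have _ : Module.Finite k Q := Module.Finite.trans B Q
  refine ⟨P, Q, inferInstance, inferInstance, inferInstance, inferInstance, inferInstance,
    inferInstance, f, e.toLinearMap ∘ₗ (LinearMap.range f).mkQ, h1, h2, h3, h4,
    e.surjective.comp (Submodule.mkQ_surjective _), ?_, Or.inl (good_maxR h5)⟩
  rw [LinearMap.ker_comp, LinearEquiv.ker, ← LinearMap.ker, Submodule.ker_mkQ]

theorem grow_main (k : Type) [Field k] [IsAlgClosed k] (A : Type) [Ring A] [Algebra k A]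
    [Module.Finite k A] (hcon : ¬ HasStableFamily k A) :
    (∃ ε : ℝ, 0 < ε ∧ ∀ (B : Type) [Ring B] [Algebra k B] (π : A →ₐ[k] B), Surjective π →
      ∀ (P Q : Type) [AddCommGroup P] [Module B P] [AddCommGroup Q] [Module B Q] [Module k Q]
      [IsScalarTower k B Q] [Module.Finite B P] [Module.Projective B P] [Module.Finite B Q]
      [Module.Projective B Q] (f : P →ₗ[B] Q),
      (∃ f' : P →ₗ[B] Q, ε * (finrank k (Q ⧸ LinearMap.range f) : ℝ) ^ 2 ≤
        (finrank k ((Q ⧸ LinearMap.range f) →ₗ[B] (Q ⧸ LinearMap.range f)) : ℝ) +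
        (finrank k (Q ⧸ LinearMap.range f) : ℝ) * ((finrank k (Q ⧸ LinearMap.range f) : ℝ) -
          (finrank k (Q ⧸ LinearMap.range f') : ℝ))) ∧
      ((finrank k (Q →ₗ[B] (Q ⧸ LinearMap.range f)) : ℝ) -
          (finrank k (P →ₗ[B] (Q ⧸ LinearMap.range f)) : ℝ) ≤
        (finrank k ((Q ⧸ LinearMap.range f) →ₗ[B] (Q ⧸ LinearMap.range f)) : ℝ)) ∧
      (GoodP k f → ε * (finrank k (Q ⧸ LinearMap.range f) : ℝ) ^ 2 ≤
        (finrank k (Q →ₗ[B] (Q ⧸ LinearMap.range f)) : ℝ) -
          (finrank k (P →ₗ[B] (Q ⧸ LinearMap.range f)) : ℝ))) ∧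
    (∀ (B : Type) [Ring B] [Algebra k B] (π : A →ₐ[k] B), Surjective π →
      ¬ ∀ N : ℕ, ∃ (M : Fin N → Type) (_ : ∀ i, AddCommGroup (M i)) (_ : ∀ i, Module B (M i))
          (_ : ∀ i, Module k (M i)) (_ : ∀ i, IsScalarTower k B (M i)),
          (∀ i, Module.Finite k (M i)) ∧ (∀ i, Nontrivial (M i)) ∧
          (∀ i, ∀ f : M i →ₗ[B] M i, ∃ c : k, ∀ x : M i, f x = c • x) ∧
          (∀ i, HasGood k B (M i)) ∧
          (∀ i j, Nonempty (M i ≃ₗ[B] M j) → i = j)) := by
  constructor
  · obtain ⟨ε, hε, hg⟩ := final_good (k := k) A hcon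
    refine ⟨ε, hε, ?_⟩
    intro B _ _ π hπ P Q _ _ _ _ _ _ _ _ _ _ f
    have hfB : Module.Finite k B := Module.Finite.of_surjective π.toLinearMap hπ
    let _ : Module k P := Module.compHom P (algebraMap k B)
    have _ : IsScalarTower k B P := ⟨fun c a z => by
      change (c • a) • z = (algebraMap k B c) • (a • z)
      rw [Algebra.smul_def, mul_smul]⟩
    have _ : Module.Finite k P := Module.Finite.trans B P
    have _ : Module.Finite k Q := Module.Finite.trans B Q
    obtain ⟨h1, h2⟩ := hg B π hπ P Q f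
    refine ⟨h1, ?_, h2⟩
    have _ := finC (k := k) f
    have h3 := Th_le (k := k) (X := Q ⧸ LinearMap.range f) f
    rw [Th] at h3
    exact_mod_cast h3
  · intro B _ _ π hπ hbr
    have hfB : Module.Finite k B := Module.Finite.of_surjective π.toLinearMap hπ
    obtain ⟨s, d, ⟨D⟩⟩ := exists_dat k A
    obtain ⟨D', -, -⟩ := D.exists_map π hπ
    obtain ⟨n, hn⟩ := bricks_fin D' (nr_quot k A D hcon B π hπ)
    obtain ⟨M, i1, i2, i3, i4, h1, h2, h3, h4, h5⟩ := hbr (n + 1)
    have h6 := hn (n + 1) M h3 (fun j => (h4 j).pres) h5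
    omega

end BT
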